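import Pool.Agent.P.MP_347bd1_pr.Stmts2

/-! An arc of a square circuit with two different ends. -/

namespace Pool.Agent.P.MP_347bd1_pr

open Classical Finset
open scoped ENNReal NNReal

theorem arc_shift {m : ℕ} {f : ℕ → ZMod 2} (h : ∀ i, f (i + m) = f i) (k : ℕ) :
    ∑ i ∈ range m, f (k + i) = ∑ i ∈ range m, f i := by
  induction k with
  | zero => simp
  | succ k ih =>
    have a := sum_range_succ (fun i => f (k + i)) m
    have b := sum_range_succ' (fun i => f (k + i)) m
    simp only [h, add_zero] at a b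
    rw [← ih, add_right_cancel (a.symm.trans b)]
    exact sum_congr rfl fun i _ => by congr 1; omega

theorem arc_cyc {m : ℕ} {t A B : ℕ → Prop} (ht : ∀ i, t (i + m) ↔ t i) (hA : ∀ i, A (i + m) ↔ A i)
    (hd : ∀ i, A i → ¬ B i) (hc : ∀ i, ¬ (t i ↔ t (i + 1)) ↔ A i ∨ B i)
    (hs : ∑ i ∈ range m, (if A i then 1 else 0 : ZMod 2) = 1) :
    ∃ j l, l ≤ m ∧ (∀ s ≤ l, t (j + 1 + s)) ∧
      (A j ∧ B (j + 1 + l) ∨ B j ∧ A (j + 1 + l)) := by
  by_contra hn
  obtain ⟨i0, h0⟩ : ∃ i, ¬ t i := by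
    by_contra k
    push Not at k
    rw [sum_eq_zero fun i _ => if_neg fun a => (hc i).2 (.inl a) (iff_of_true (k _) (k _))] at hs
    exact zero_ne_one hs
  have inv : ∀ k ≤ m, (¬ t (i0 + k) →
      ∑ i ∈ range k, (if A (i0 + i) then 1 else 0 : ZMod 2) = 0) ∧ (t (i0 + k) →
      ∃ j l, j + 1 + l = i0 + k ∧ l ≤ k ∧ (∀ s ≤ l, t (j + 1 + s)) ∧
        (A j ∧ ∑ i ∈ range k, (if A (i0 + i) then 1 else 0 : ZMod 2) = 1 ∨
          B j ∧ ∑ i ∈ range k, (if A (i0 + i) then 1 else 0 : ZMod 2) = 0)) := by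
    intro k
    induction k with
    | zero => exact fun _ => ⟨fun _ => rfl, fun a => absurd a h0⟩
    | succ k ih =>
      intro hk
      obtain ⟨i1, i2⟩ := ih (by omega)
      have c := hc (i0 + k)
      rw [sum_range_succ, ← add_assoc]
      by_cases a : t (i0 + k)
      · obtain ⟨j, l, e, hl, h1, h2⟩ := i2 a
        refine ⟨fun b => ?_, fun b => ?_⟩
        · have no : ¬ (A j ∧ B (i0 + k) ∨ B j ∧ A (i0 + k)) := fun z =>
            hn ⟨j, l, by omega, h1, e ▸ z⟩
          rcases c.1 fun z => b (z.1 a) with z | z <;> rcases h2 with ⟨y, h2⟩ | ⟨y, h2⟩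
          · rw [h2, if_pos z]; rfl
          · exact absurd (.inr ⟨y, z⟩) no
          · exact absurd (.inl ⟨y, z⟩) no
          · rw [h2, if_neg fun x => hd _ x z, add_zero]
        · rw [if_neg fun z => c.2 (.inl z) (iff_of_true a b), add_zero]
          refine ⟨j, l + 1, by omega, by omega, fun s hs => ?_, h2⟩
          rcases hs.eq_or_lt with rfl | hs
          · rwa [← add_assoc, e]
          · exact h1 s (by omega)
      · rw [i1 a, zero_add]
        refine ⟨fun b => if_neg fun z => c.2 (.inl z) (iff_of_false a b), fun b =>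
          ⟨i0 + k, 0, rfl, by omega, fun s hs => by rwa [Nat.le_zero.1 hs], ?_⟩⟩
        rcases c.1 fun z => a (z.2 b) with z | z
        · exact .inl ⟨z, if_pos z⟩
        · exact .inr ⟨z, if_neg fun x => hd _ x z⟩
  have := (inv m le_rfl).1 (mt (ht i0).1 h0)
  rw [arc_shift (f := fun i => if A i then 1 else 0) (fun i => if_congr (hA i) rfl rfl), hs] at this
  exact one_ne_zero this

/-- The points of the circuit. -/
def arcC (o : Pt) (a r : ℕ) : Pt :=
  if r < a then (o.1 + r, o.2) else if r < 2 * a then (o.1 + a, o.2 + r - a)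
  else if r < 3 * a then (o.1 + 3 * a - r, o.2 + a) else (o.1, o.2 + 4 * a - r)

/-- The directions of the circuit. -/
def arcD (a r : ℕ) : Dir :=
  if r < a then .E else if r < 2 * a then .N else if r < 3 * a then .W else .S

theorem arc_step (o : Pt) {a : ℕ} (ha : 0 < a) (i : ℕ) :
    arcC o a ((i + 1) % (4 * a)) = arcC o a (i % (4 * a)) + (arcD a (i % (4 * a))).vec := by
  have h := Nat.mod_lt i (by omega : 0 < 4 * a)
  rw [← Nat.mod_add_mod]
  generalize i % (4 * a) = r at h
  rcases (Nat.succ_le_of_lt h).eq_or_lt with k | k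
  · rw [show r + 1 = 4 * a from k, Nat.mod_self]
    unfold arcC arcD
    split_ifs <;> simp [Dir.vec, Prod.ext_iff] <;> omega
  · rw [Nat.mod_eq_of_lt k]
    unfold arcC arcD
    split_ifs <;> simp [Dir.vec, Prod.ext_iff] <;> omega

theorem arc_nrm (v : Pt) (R : ℕ) {r : ℕ} (h : r < 4 * (2 * R + 1)) :
    (R : ℤ) ≤ nrm (arcC (v.1 - R, v.2 - R) (2 * R + 1) r - v) ∧
      nrm (arcC (v.1 - R, v.2 - R) (2 * R + 1) r - v) ≤ R + 1 := by
  rw [← not_lt, nrm_lt_iff, nrm_le_iff]
  unfold arcC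
  split_ifs <;> simp only [Prod.fst_sub, Prod.snd_sub] <;> omega

theorem arc_tel (f : ℕ → ZMod 2) (a : ℕ) : ∑ j ∈ range a, (f (j + 1) + f j) = f a + f 0 := by
  simp only [← CharTwo.sub_eq_add]
  exact sum_range_sub f a

theorem arc_sum (χ : Edge → ZMod 2) (o : Pt) (a : ℕ) :
    ∑ r ∈ range (4 * a), χ (inc (arcC o a r) (arcD a r)) =
      ∑ i ∈ range a, ∑ j ∈ range a, ∑ d, χ (cr (o.1 + i, o.2 + j) d) := by
  have e1 : ∑ i ∈ range a, ∑ j ∈ range a, ∑ d, χ (cr (o.1 + i, o.2 + j) d) =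
      ∑ i ∈ range a, (χ ((o.1 + i, o.2 + a), true) + χ ((o.1 + i, o.2), true)) +
        ∑ j ∈ range a, (χ ((o.1 + a, o.2 + j), false) + χ ((o.1, o.2 + j), false)) := by
    have a1 := fun i : ℕ => arc_tel (fun j => χ ((o.1 + i, o.2 + j), true)) a
    have a2 := fun j : ℕ => arc_tel (fun i => χ ((o.1 + i, o.2 + j), false)) a
    simp only [Nat.cast_zero, add_zero] at a1 a2
    simp only [← a1, ← a2]
    rw [sum_comm (s := range a) (t := range a) (f := fun j i : ℕ =>
      χ ((o.1 + (i + 1 : ℕ), o.2 + j), false) + χ ((o.1 + i, o.2 + j), false)), ← sum_add_distrib]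
    refine sum_congr rfl fun i _ => ?_
    rw [← sum_add_distrib]
    refine sum_congr rfl fun j _ => ?_
    simp only [sum_dir, cr, Nat.cast_add, Nat.cast_one, add_assoc]
    ring
  rw [e1, show 4 * a = a + a + a + a by ring, sum_range_add, sum_range_add, sum_range_add,
    sum_add_distrib, sum_add_distrib, ← sum_range_reflect fun i => χ ((o.1 + i, o.2 + a), true),
    ← sum_range_reflect fun j => χ ((o.1, o.2 + j), false)]
  have k : ∀ p q r s p' q' r' s' : ZMod 2, p = p' → q = q' → r = r' → s = s' →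
      p + q + r + s = r' + p' + (q' + s') := by
    rintro p q r s _ _ _ _ rfl rfl rfl rfl; ring
  refine k _ _ _ _ _ _ _ _ ?_ ?_ ?_ ?_ <;> refine sum_congr rfl fun i hi => congrArg χ ?_ <;>
    have := mem_range.1 hi <;> unfold arcC arcD <;> split_ifs <;>
    simp [inc, Prod.ext_iff] <;> omega

theorem t_arc : T_ARC := by
  intro τ η1 η2 v R hd h1 h2
  have ha : 0 < 2 * R + 1 := by omega
  set c : ℕ → Pt := fun i => arcC (v.1 - R, v.2 - R) (2 * R + 1) (i % (4 * (2 * R + 1))) with hc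
  set d : ℕ → Dir := fun i => arcD (2 * R + 1) (i % (4 * (2 * R + 1))) with hd'
  have st : ∀ i, c (i + 1) = c i + (d i).vec := arc_step _ ha
  have nr : ∀ i, (R : ℤ) ≤ nrm (c i - v) ∧ nrm (c i - v) ≤ R + 1 := fun i =>
    arc_nrm v R (Nat.mod_lt _ (by omega))
  obtain ⟨j, l, hl, k1, k2⟩ := arc_cyc (m := 4 * (2 * R + 1)) (t := fun i => τ (c i))
    (A := fun i => inc (c i) (d i) ∈ η1) (B := fun i => inc (c i) (d i) ∈ η2)
    (fun i => by simp only [hc, Nat.add_mod_right]) (fun i => by simp only [hc, hd', Nat.add_mod_right])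
    (fun i a => disjoint_left.1 hd a) (fun i => by
      have a := (nr i).2
      have b := (nr (i + 1)).2
      rw [st] at b ⊢
      rcases ends_inc (c i) (d i) with ⟨x, y⟩ | ⟨x, y⟩
      · rw [← h1 _ (x.symm ▸ a) (y.symm ▸ b), x, y]
      · rw [← h1 _ (x.symm ▸ b) (y.symm ▸ a), x, y, iff_comm (a := τ (c i))]) (by
      rw [sum_congr rfl fun i hi => by simp only [hc, hd', Nat.mod_eq_of_lt (mem_range.1 hi)]; rfl,
        arc_sum fun e => if e ∈ η1 then 1 else 0]
      have e : ∀ i ∈ range (2 * R + 1), ∀ j ∈ range (2 * R + 1),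
          ∑ d, (if cr (v.1 - R + i, v.2 - R + j) d ∈ η1 then 1 else 0 : ZMod 2) =
            if j = R then if i = R then 1 else 0 else 0 := by
        intro i hi j hj
        have := mem_range.1 hi
        have := mem_range.1 hj
        have a := h2 (v.1 - R + i, v.2 - R + j) (by rw [nrm_le_iff]; simp; omega)
        have b : ∑ d, (if cr (v.1 - R + i, v.2 - R + j) d ∈ η1 then 1 else 0 : ZMod 2) =
          (deg η1 (v.1 - R + i, v.2 - R + j) : ZMod 2) := by simp [deg_eq]
        rw [b, ← ite_and]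
        split_ifs with k
        · exact ZMod.natCast_eq_one_iff_odd.2 (a.2 (by simp [k]))
        · refine ZMod.natCast_eq_zero_iff_even.2 (Nat.not_odd_iff_even.1 fun z => k ?_)
          have := a.1 z
          simp only [Prod.ext_iff] at this
          omega
      rw [sum_congr rfl fun i hi => sum_congr rfl (e i hi)]
      simp [show R < 2 * R + 1 by omega])
  have nn : ∀ i, NN (c i) (c (i + 1)) := fun i => ⟨d i, st i⟩
  have op : inc (c (j + 1)) (d j).opp = inc (c j) (d j) := by rw [st, inc_opp]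
  rcases k2 with ⟨x, y⟩ | ⟨x, y⟩
  · exact ⟨l, fun s => c (j + 1 + s), by omega, fun s _ => nn _, fun s hs => ⟨k1 s hs, nr _⟩,
      ⟨_, op ▸ x⟩, _, y⟩
  · refine ⟨l, fun s => c (j + 1 + (l - s)), by omega, fun s hs => ?_,
      fun s _ => ⟨k1 _ (by omega), nr _⟩, ⟨_, y⟩, (d j).opp, ?_⟩
    · dsimp only
      rw [show j + 1 + (l - s) = j + 1 + (l - (s + 1)) + 1 by omega]
      exact (nn _).symm
    · dsimp only
      rw [Nat.sub_self, add_zero, op]
      exact x

end Pool.Agent.P.MP_347bd1_pr
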