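import Pool.Agent.P.MP_347bd1_pr.Stmts2

/-!
Barriers attached to the runs.
-/

namespace Pool.Agent.P.MP_347bd1_pr

open Classical Finset
open scoped ENNReal NNReal

/-- The ends of `e` are `a` and `b`. -/
def bar_En (e : Edge) (a b : Pt) : Prop := (ea e = a ∧ eb e = b) ∨ (ea e = b ∧ eb e = a)

theorem bar_symm {e : Edge} {a b : Pt} (h : bar_En e a b) : bar_En e b a := Or.symm h

theorem bar_or {e : Edge} {a b : Pt} (h : bar_En e a b) (P : Pt → Prop) :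
    P (ea e) ∨ P (eb e) ↔ P a ∨ P b := by
  rcases h with ⟨rfl, rfl⟩ | ⟨rfl, rfl⟩
  exacts [Iff.rfl, or_comm]

theorem bar_and {e : Edge} {a b : Pt} (h : bar_En e a b) {P : Pt → Prop}
    (k : P (ea e) ∧ P (eb e)) : P a ∧ P b := by
  rcases h with ⟨rfl, rfl⟩ | ⟨rfl, rfl⟩
  exacts [k, k.symm]

theorem bar_inc {e : Edge} {a b : Pt} (h : bar_En e a b) : ∃ d, inc a d = e := by
  rcases h with ⟨rfl, -⟩ | ⟨-, rfl⟩
  · obtain ⟨d, h, -⟩ := exists_inc e; exact ⟨d, h⟩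
  · obtain ⟨d, h, -⟩ := exists_inc_b e; exact ⟨d, h⟩

/-- The corners and the sides of a plaquette, seen from one side. -/
theorem bar_sq (q : Pt) (d : Dir) : ∃ (a b c f : Pt) (d1 d2 : Dir), bar_En (cr q d) a b ∧
    bar_En (cr q d1) a c ∧ bar_En (cr q d2) b f ∧ bar_En (cr q d.opp) c f ∧
    (∀ z, Corner q z → z = a ∨ z = b ∨ z = c ∨ z = f) ∧
    (∀ d', d' = d ∨ d' = d1 ∨ d' = d2 ∨ d' = d.opp) ∧ ∀ η, Odd (deg η q) → cr q d ∉ η →
      (cr q d1 ∈ η → (cr q d2 ∈ η ↔ cr q d.opp ∈ η)) ∧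
        (cr q d2 ∈ η → (cr q d1 ∈ η ↔ cr q d.opp ∈ η)) := by
  obtain ⟨x, y⟩ := q
  cases d
  on_goal 1 => refine ⟨(x, y + 1), (x + 1, y + 1), (x, y), (x + 1, y), .W, .E, ?_⟩
  on_goal 2 => refine ⟨(x + 1, y), (x + 1, y + 1), (x, y), (x, y + 1), .S, .N, ?_⟩
  on_goal 3 => refine ⟨(x, y), (x + 1, y), (x, y + 1), (x + 1, y + 1), .W, .E, ?_⟩
  on_goal 4 => refine ⟨(x, y), (x, y + 1), (x + 1, y), (x + 1, y + 1), .S, .N, ?_⟩
  all_goals
    refine ⟨by simp [bar_En, cr, ea, eb], by simp [bar_En, cr, ea, eb],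
      by simp [bar_En, cr, ea, eb], by simp [bar_En, cr, ea, eb, Dir.opp], ?_, ?_, ?_⟩
    · rintro ⟨u, w⟩ h
      simp only [Corner, Prod.mk.injEq] at h ⊢
      tauto
    · intro d'
      cases d' <;> simp [Dir.opp]
    · intro η
      rw [deg_eq4]
      simp only [Dir.opp]
      by_cases h1 : cr (x, y) .N ∈ η <;> by_cases h2 : cr (x, y) .E ∈ η <;>
        by_cases h3 : cr (x, y) .S ∈ η <;> by_cases h4 : cr (x, y) .W ∈ η <;>
        simp only [h1, h2, h3, h4] <;> decide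

theorem bar_side {η : Finset Edge} {q : Pt} (h : Odd (deg η q)) : ∃ d, cr q d ∈ η := by
  obtain ⟨d, hd⟩ := card_pos.1 h.pos
  exact ⟨d, (mem_filter.1 hd).2⟩

/-- The edges of `D` together with the edges that are cut off from the top by `D`. -/
noncomputable def bar_E (n : ℕ) (S : Finset Pt) (X D : Finset Edge) : Finset Edge :=
  D ∪ (eS n S).filter fun e => ¬ TopConn n (D ∪ X) (ea e)

variable {n : ℕ} {S T P : Finset Pt} {Lf Rg X X1 X2 D : Finset Edge} {v : Pt} {W : List Dir}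

theorem bar_key {w : Pt} (h : TopConn n (D ∪ X) w) : TopConn n (bar_E n S X D) w := by
  obtain ⟨u, h1, h2, h3⟩ := h
  induction h3 with
  | refl => exact topConn_top _ h1 h2
  | @tail a b k1 k2 ih =>
    obtain ⟨d, k, rfl⟩ := k2
    obtain ⟨k3, k4⟩ := mem_sdiff.1 k
    have ta : TopConn n (D ∪ X) a := ⟨u, h1, h2, k1⟩
    refine ih.step k3 fun m => ?_
    rcases mem_union.1 m with m | m
    · exact k4 (mem_union_left _ m)
    · refine (mem_filter.1 m).2 ?_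
      rcases ends_inc a d with e | e <;> rw [e.1]
      exacts [ta, ta.step k3 k4]

theorem bar_sub (hD : D ⊆ eS n S) : bar_E n S X D ⊆ eS n S :=
  union_subset hD (filter_subset _ _)

theorem bar_sc (h : Good n S X) (hD : D ⊆ eS n S) : SC n (bar_E n S X D) := by
  refine ⟨(bar_sub hD).trans (eS_subset n S),
    fun e he => h.eS_top e (mem_union_left _ (bar_sub hD he)), fun e he he' => ?_⟩
  by_cases k : e ∈ eS n S
  · exact bar_key (by_contra fun m => he' (mem_union_right _ (mem_filter.2 ⟨k, m⟩)))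
  · refine (h.conn _ (by_contra fun m => k (mem_eS.2 ⟨he, .inl m⟩))).mono ?_
    exact (bar_sub hD).trans subset_union_left

theorem bar_Dl (hs : Str2 n S T Lf Rg) (hP : P ⊆ box n \ S) : Dl n Lf P ⊆ eS n S := by
  intro e he
  rcases mem_union.1 he with k | k
  · exact (hs.lf e k).1
  · exact mem_eS.2 ⟨(mem_inter.1 k).2, (mem_einc.1 (mem_inter.1 k).1).imp
      (fun m => (mem_sdiff.1 (hP m)).2) fun m => (mem_sdiff.1 (hP m)).2⟩

theorem bar_notX (h : Good n S X) {e : Edge} (he : e ∈ eS n S) : e ∉ X := fun k =>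
  (mem_eS.1 he).2.elim (· (h.xs e k).2.1) (· (h.xs e k).2.2.1)

theorem bar_src (hs : Str2 n S T Lf Rg) (h1 : Good n S X1) (h2 : Good n S X2)
    (hX : ∀ e ∈ X2, ∀ p ∈ intr n, ∀ d, cr p d = e → p + d.vec ∉ intr n) (hv : v ∈ intr n)
    (hz : ∃ z ∈ S \ T, Corner v z) (hodd : Odd (deg Lf v))
    (hW : Run (net n (eS n S ∪ X2)) v W) (hP : P ⊆ box n \ S) (hR : ∀ u ∈ P, ∀ d, inc u d ∉ Rg)
    (hD : Disjoint (Od v W) (Dl n Lf P)) :
    Src n (Od v W \ bar_E n S X1 (Dl n Lf P)) {v} := by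
  have hDs := bar_Dl hs hP
  have hsrc := hW.src_Od
  have hsub := hW.Od_subset
  set D := Dl n Lf P with hDd
  set O := Od v W with hO
  set E := bar_E n S X1 D with hE
  have tS : ∀ w ∈ S, TopConn n (D ∪ X1) w := fun w hw =>
    (h1.conn w hw).mono (union_subset_union hDs le_rfl)
  have inD : ∀ e ∈ ebox n, ea e ∈ P ∨ eb e ∈ P → e ∈ D := fun e k k' =>
    mem_union_right _ (mem_inter.2 ⟨mem_einc.2 k', k⟩)
  have tP : ∀ w ∈ P, ¬ TopConn n (D ∪ X1) w := by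
    rintro w hw ⟨u, k1, k2, k3⟩
    rcases k3.cases_tail with rfl | ⟨a, -, d, k, rfl⟩
    · exact (mem_sdiff.1 (hP hw)).2 (h1.top _ k1 k2)
    · obtain ⟨k4, k5⟩ := mem_sdiff.1 k
      exact k5 (mem_union_left _ (inD _ k4 (mem_einc.1 (inc_mem_einc.2 (.inr hw)))))
  have tE : ∀ e ∈ O, e ∈ eS n S → (TopConn n (D ∪ X1) (ea e) ↔ TopConn n (D ∪ X1) (eb e)) :=
    fun e k k' => TopConn.edge (eS_subset n S k') fun m =>
      (mem_union.1 m).elim (disjoint_left.1 hD k) (bar_notX h1 k')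
  have hJ : ∀ e ∈ O ∩ E, (¬ TopConn n (D ∪ X1) (ea e) ∧ ea e ∉ P) ∧
      ¬ TopConn n (D ∪ X1) (eb e) ∧ eb e ∉ P := by
    intro e he
    obtain ⟨k1, k2⟩ := mem_inter.1 he
    have k3 := disjoint_left.1 hD k1
    obtain ⟨k4, k5⟩ := mem_filter.1 ((mem_union.1 k2).resolve_left k3)
    exact ⟨⟨k5, fun m => k3 (inD e (eS_subset n S k4) (.inl m))⟩,
      fun m => k5 ((tE e k1 k4).2 m), fun m => k3 (inD e (eS_subset n S k4) (.inr m))⟩
  have hK : ∀ e ∈ O \ E, TopConn n (D ∪ X1) (ea e) ∧ TopConn n (D ∪ X1) (eb e) := by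
    intro e he
    obtain ⟨k1, k2⟩ := mem_sdiff.1 he
    rcases mem_union.1 (hsub k1) with k | k
    · have k3 : TopConn n (D ∪ X1) (ea e) :=
        by_contra fun m => k2 (mem_union_right _ (mem_filter.2 ⟨k, m⟩))
      exact ⟨k3, (tE e k1 k).1 k3⟩
    · exact ⟨tS _ (h2.xs e k).2.1, tS _ (h2.xs e k).2.2.1⟩
  have cross : ∀ e a c, bar_En e a c → e ∈ ebox n → ¬ TopConn n (D ∪ X1) a ∧ a ∉ P →
      TopConn n (D ∪ X1) c → e ∈ Lf ∧ c ∈ S := by
    intro e a c he k ha hc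
    have aS : a ∉ S := fun m => ha.1 (tS a m)
    have k1 : e ∈ D ∪ X1 := by
      by_contra m
      have := TopConn.edge k m
      rcases he with ⟨rfl, rfl⟩ | ⟨rfl, rfl⟩
      exacts [ha.1 (this.2 hc), ha.1 (this.1 hc)]
    have k2 : e ∈ Lf := by
      rcases mem_union.1 k1 with m | m
      · refine (mem_union.1 m).resolve_right fun m' => ?_
        exact ((bar_or he (· ∈ P)).1 (mem_einc.1 (mem_inter.1 m').1)).elim ha.2 fun m => tP c m hc
      · exact absurd (bar_and he (P := (· ∈ S)) ⟨(h1.xs e m).2.1, (h1.xs e m).2.2.1⟩).1 aS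
    exact ⟨k2, ((bar_or he (· ∈ S \ T)).1 (hs.lf e k2).2).elim
      (fun m => absurd (mem_sdiff.1 m).1 aS) fun m => (mem_sdiff.1 m).1⟩
  have alpha : ∀ e1 e2 e3 a b c f, bar_En e1 a c → bar_En e2 b f → bar_En e3 c f → e1 ∈ ebox n →
      e2 ∈ ebox n → e3 ∈ ebox n → ¬ TopConn n (D ∪ X1) a ∧ a ∉ P →
      ¬ TopConn n (D ∪ X1) b ∧ b ∉ P → c ∈ S \ T → (e1 ∈ Lf → (e2 ∈ Lf ↔ e3 ∈ Lf)) → False := by
    intro e1 e2 e3 a b c f g1 g2 g3 k1 k2 k3 ha hb hc hi
    have cS := (mem_sdiff.1 hc).1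
    have hi' := hi (cross e1 a c g1 k1 ha (tS c cS)).1
    by_cases m : e3 ∈ Lf
    · have fS : f ∉ S := ((bar_or g3 (· ∉ S)).1 (mem_eS.1 (hs.lf e3 m).1).2).resolve_left (· cS)
      rcases (bar_or g2 (· ∈ S \ T)).1 (hs.lf e2 (hi'.2 m)).2 with m' | m'
      exacts [hb.1 (tS b (mem_sdiff.1 m').1), fS (mem_sdiff.1 m').1]
    · by_cases fP : f ∈ P
      · obtain ⟨d, rfl⟩ := bar_inc (bar_symm g3)
        exact (hs.cover _ (hDs (inD _ k3 ((bar_or g3 (· ∈ P)).2 (.inr fP))))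
          ((bar_or g3 (· ∈ S \ T)).2 (.inl hc))).elim m (hR f fP d)
      · by_cases ft : TopConn n (D ∪ X1) f
        · exact m (hi'.1 (cross e2 b f g2 k2 hb ft).1)
        · exact m (cross e3 f c (bar_symm g3) k3 ⟨ft, fP⟩ (tS c cS)).1
  have hα : ∀ d, cr v d ∉ O ∩ E := by
    intro d hd
    obtain ⟨a, b, c, f, d1, d2, g0, g1, g2, g3, g4, -, g6⟩ := bar_sq v d
    obtain ⟨ha, hb⟩ := bar_and g0 (P := fun w => ¬ TopConn n (D ∪ X1) w ∧ w ∉ P) (hJ _ hd)
    obtain ⟨g7, g8⟩ := g6 Lf hodd fun m =>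
      disjoint_left.1 hD (mem_inter.1 hd).1 (mem_union_left _ m)
    obtain ⟨z, hz, hz'⟩ := hz
    rcases g4 z hz' with rfl | rfl | rfl | rfl
    · exact ha.1 (tS _ (mem_sdiff.1 hz).1)
    · exact hb.1 (tS _ (mem_sdiff.1 hz).1)
    · exact alpha _ _ _ a b z f g1 g2 g3 (cr_mem_ebox hv _) (cr_mem_ebox hv _) (cr_mem_ebox hv _)
        ha hb hz g7
    · exact alpha _ _ _ b a z c g2 g1 (bar_symm g3) (cr_mem_ebox hv _) (cr_mem_ebox hv _)
        (cr_mem_ebox hv _) hb ha hz g8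
  have eK : O \ E = symmDiff O (O ∩ E) := by
    ext e
    simp only [mem_sdiff, mem_symmDiff, mem_inter]
    tauto
  obtain ⟨W0, q0, d0, rfl, w1, w2⟩ := hW
  have hO' : ∀ e ∈ O, e ≠ cr q0 d0 →
      ∃ p d, cr p d = e ∧ p ∈ intr n ∧ p + d.vec ∈ intr n := by
    intro e he hne
    rw [hO, Od_append, w1.endp_eq] at he
    rcases mem_symmDiff.1 he with m | m
    · obtain ⟨z, d, k1, k2, -⟩ := w1.mem_Od m.1
      exact ⟨z, d, k1, k2.1, k2.2.1⟩
    · exact absurd (by simpa [Od, mem_symmDiff] using m.1) hne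
  have hβ : ∀ q ∈ intr n, Odd (deg (O ∩ E) q) → q = q0 ∧ cr q0 d0 ∉ O ∩ E := by
    intro q hq k
    obtain ⟨d, hd⟩ := bar_side k
    have hne : q ≠ v := fun m => hα d (m ▸ hd)
    have k1 : Odd (deg (O \ E) q) := by
      rw [eK, odd_deg_symmDiff, hsrc q hq]
      exact fun m => hne (m.2 k)
    obtain ⟨d', hd'⟩ := bar_side k1
    obtain ⟨a, b, c, f, d1, d2, g0, g1, g2, g3, -, g5, -⟩ := bar_sq q d
    obtain ⟨ha, hb⟩ := bar_and g0 (P := fun w => ¬ TopConn n (D ∪ X1) w ∧ w ∉ P) (hJ _ hd)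
    have k2 := hK _ hd'
    rcases g5 d' with rfl | rfl | rfl | rfl
    · exact absurd (bar_and g0 k2).1 ha.1
    · exact absurd (bar_and g1 k2).1 ha.1
    · exact absurd (bar_and g2 k2).1 hb.1
    obtain ⟨hc, hf⟩ := bar_and g3 k2
    have cS := (cross _ a c g1 (cr_mem_ebox hq _) ha hc).2
    have fS := (cross _ b f g2 (cr_mem_ebox hq _) hb hf).2
    have k3 : cr q d.opp ∈ X2 := (mem_union.1 (hsub (mem_sdiff.1 hd').1)).resolve_left fun m =>
      ((bar_or g3 (· ∉ S)).1 (mem_eS.1 m).2).elim (· cS) (· fS)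
    have k4 : cr q d.opp = cr q0 d0 := by
      by_contra m
      obtain ⟨p, d3, m1, m2, m3⟩ := hO' _ (mem_sdiff.1 hd').1 m
      exact hX _ k3 p m2 d3 m1 m3
    refine ⟨?_, fun m => (mem_sdiff.1 hd').2 (k4 ▸ (mem_inter.1 m).2)⟩
    rcases cr_eq_iff.1 k4 with m | m
    · exact m.1
    · exact absurd (m.1 ▸ hq) w2.2.1
  have hJ0 : Src n (O ∩ E) ∅ := by
    intro q hq
    refine ⟨fun k => ?_, False.elim⟩
    obtain ⟨rfl, k1⟩ := hβ q hq k
    exact not_src_single hq (fun e he => hO' e (mem_inter.1 he).1 fun m => k1 (m ▸ he))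
      fun p hp => ⟨fun m => (hβ p hp m).1, fun m => (Set.mem_singleton_iff.1 m).symm ▸ k⟩
  rw [eK]
  exact (hsrc.symmDiff hJ0).congr fun p _ => by simp [Set.mem_symmDiff]

/-- The union of all valid sets whose explored edges avoid `O`. -/
noncomputable def bar_P (n : ℕ) (S : Finset Pt) (Lf Rg O : Finset Edge) : Finset Pt :=
  (box n \ S).filter fun u => ∃ P, Valid n S Lf Rg P ∧ Disjoint O (Dl n Lf P) ∧ u ∈ P

theorem t_bar : T_BAR := by
  intro n S T Lf Rg X1 X2 v hs h1 h2 hd hX hv hz hodd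
  have hP : ∀ O, bar_P n S Lf Rg O ⊆ box n \ S := fun O => filter_subset _ _
  refine ⟨fun W => bar_E n S X1 (Dl n Lf (bar_P n S Lf Rg (Od v W))),
    fun W => Od v W \ bar_E n S X1 (Dl n Lf (bar_P n S Lf Rg (Od v W))), fun W hW hG => ?_,
    fun W _ _ => bar_sc h1 (bar_Dl hs (hP _)), fun W P _ hV hD e he => mem_union_left _ ?_⟩
  · have k := bar_Dl hs (hP (Od v W))
    refine ⟨bar_sub k, (bar_sc h1 k).union (bar_sub k) h1, sdiff_subset,
      bar_src hs h1 h2 hX hv hz hodd hW (hP _) (fun u hu => ?_) (disjoint_left.2 fun e he m => ?_),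
      disjoint_left.2 fun e he m => ?_⟩
    · obtain ⟨-, P, hV, -, m⟩ := mem_filter.1 hu
      exact hV.nrg u m
    · rcases mem_union.1 m with m | m
      · exact disjoint_left.1 hG he m
      · obtain ⟨m1, m2⟩ := mem_inter.1 m
        rcases mem_einc.1 m1 with m3 | m3 <;> obtain ⟨-, P, -, m4, m5⟩ := mem_filter.1 m3 <;>
          refine disjoint_left.1 m4 he (mem_union_right _ (mem_inter.2 ⟨mem_einc.2 ?_, m2⟩))
        exacts [.inl m5, .inr m5]
    · obtain ⟨m1, m2⟩ := mem_sdiff.1 he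
      rcases mem_union.1 m with m | m
      · exact m2 m
      · exact (mem_union.1 (hW.Od_subset m1)).elim (fun m' => bar_notX h1 m' m)
          (disjoint_left.1 hd m)
  · rcases mem_symmDiff.1 he with m | m
    · obtain ⟨m1, m2⟩ := mem_inter.1 m.1
      have a : ∀ u ∈ P, u ∈ bar_P n S Lf Rg (Od v W) := fun u hu =>
        mem_filter.2 ⟨hV.sub hu, P, hV, hD, hu⟩
      exact mem_union_right _ (mem_inter.2
        ⟨mem_einc.2 ((mem_einc.1 (mem_filter.1 m1).1).imp (a _) (a _)), m2⟩)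
    · exact mem_union_left _ m.1

end Pool.Agent.P.MP_347bd1_pr
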