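import Pool.Agent.P.MP_347bd1_pr.Stmts2

/-!
The Beurling estimate for networks and the Harnack inequality.
-/

namespace Pool.Agent.P.MP_347bd1_pr

open Classical Finset
open scoped ENNReal NNReal

theorem beur_bdry {p z : Pt} {r : ℤ} {d : Dir} (hz : z ∈ ball p (r - 1))
    (hd : z + d.vec ∉ ball p (r - 1)) : nrm (z + d.vec - p) = r := by
  rw [mem_ball] at hz hd
  have := (nrm_step z p d).1
  omega

theorem beur_super (N : Net) {f : Pt → ℝ} (h0 : ∀ z, 0 ≤ f z ∧ f z ≤ 1) {z : Pt}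
    (h : (∀ d, N.mv z d) → f z ≤ avg f z) :
    N.Pr (fun y => 1 - f y / 5) z ≤ 1 - f z / 5 := by
  by_cases hm : ∀ d, N.mv z d
  · have := h hm
    rw [Net.Pr_eq_avg hm, avg_eq]
    rw [avg_eq] at this
    linarith
  · obtain ⟨d, hd⟩ := not_forall.1 hm
    have h1 : ∀ e : Dir, (if N.mv z e then (1 - f (z + e.vec) / 5) / 4 else (1 - f z / 5) / 16) ≤
        1 / 4 := fun e => by
      split_ifs
      · linarith [(h0 (z + e.vec)).1]
      · linarith [(h0 z).1]
    have h2 : (if N.mv z d then (1 - f (z + d.vec) / 5) / 4 else (1 - f z / 5) / 16) =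
        (1 - f z / 5) / 16 := if_neg hd
    rw [Net.Pr, sum_dir]
    cases d <;> linarith [h1 .N, h1 .E, h1 .S, h1 .W, (h0 z).2]

theorem beur_step {c : ℝ} (H : ∀ (p : Pt) (s : ℕ) (k : ℤ → Pt), 1 ≤ s →
      (∀ l : ℤ, s ≤ l → l ≤ 2 * s → nrm (k l - p) = l) →
      ∃ f : Pt → ℝ, (∀ z, 0 ≤ f z ∧ f z ≤ 1) ∧ (∀ z, 10 * (s : ℤ) ≤ nrm (z - p) → f z = 0) ∧
        (∀ z, (∀ l : ℤ, s ≤ l → l ≤ 2 * s → z ≠ k l) → f z ≤ avg f z) ∧
        ∀ z, nrm (z - p) ≤ s → c ≤ f z)
    {N : Net} {u : Pt → ℝ} {p : Pt} {s : ℕ} {B : ℝ} (hF : Far N) (hs : 2 ≤ s) (hB : 0 ≤ B)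
    (hK : NearK N (s - 2) p) (h1 : ∀ z, nrm (z - p) < 10 * s → u z ≤ N.Pr u z)
    (h2 : ∀ z, nrm (z - p) ≤ 10 * s → u z ≤ B) :
    ∀ z, nrm (z - p) ≤ s → u z ≤ (1 - c / 5) * B := by
  obtain ⟨q, d, hq, hqp⟩ := hK
  have hk : ∀ l : ℤ, ∃ q', (s : ℤ) ≤ l → nrm (q' - p) = l ∧ ∃ d', ¬ N.mv q' d' := fun l => by
    by_cases hl : (s : ℤ) ≤ l
    · obtain ⟨q', d', k1, k2⟩ := hF q d p l hq (by omega)
      exact ⟨q', fun _ => ⟨k1, d', k2⟩⟩
    · exact ⟨p, fun h => absurd h hl⟩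
  choose k hk using hk
  obtain ⟨f, f0, f1, f2, f3⟩ := H p s k (by omega) fun l hl _ => (hk l hl).1
  have hc := N.compare (u := u) (w := fun y => B * (1 - f y / 5)) (ball p (10 * s - 1))
    (fun z hz => by
      have a1 := h1 z (by have := mem_ball.1 hz; omega)
      have a2 := beur_super N f0 (z := z) fun hm => f2 z fun l hl _ e => by
        obtain ⟨d', hd'⟩ := (hk l hl).2
        exact hd' (e ▸ hm d')
      have a3 := mul_le_mul_of_nonneg_left a2 hB
      rw [Net.Pr_mul]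
      linarith)
    (fun z hz d _ hd => by
      have a1 := beur_bdry hz hd
      rw [f1 _ a1.ge]
      simpa using h2 _ a1.le)
  intro z hz
  have a1 := hc z (mem_ball.2 (by omega))
  have a2 := mul_le_mul_of_nonneg_left (f3 z hz) hB
  linarith

theorem t_beur (h : T_HIT) : T_BEUR := by
  obtain ⟨c, hc0, hc1, H⟩ := h
  refine ⟨c / 5, by linarith, by linarith, fun N u p s k B hF hs hB hK h1 h2 => ?_⟩
  induction k generalizing s with
  | zero => simpa using h2
  | succ k ih =>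
    have e : (10 : ℤ) ^ k * ((10 * s : ℕ) : ℤ) = 10 ^ (k + 1) * s := by push_cast; ring
    have h3 : (10 : ℤ) * s ≤ 10 ^ (k + 1) * s :=
      mul_le_mul_of_nonneg_right (le_self_pow₀ (by norm_num) k.succ_ne_zero) (by positivity)
    have h4 := ih (10 * s) (by omega) (by
      obtain ⟨q, d, hq, hqp⟩ := hK
      exact ⟨q, d, hq, by push_cast; omega⟩) (e ▸ h1) (e ▸ h2)
    intro z hz
    rw [pow_succ', mul_assoc]
    exact beur_step H hF hs (mul_nonneg (pow_nonneg (by linarith) k) hB) hK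
      (fun y hy => h1 y (hy.trans_le h3)) (fun y hy => h4 y (by exact_mod_cast hy)) z hz

theorem beur_avg_mul (a : ℝ) (f : Pt → ℝ) (z : Pt) : avg (fun y => a * f y) z = a * avg f z := by
  rw [avg_eq, avg_eq]; ring

theorem t_harn (h : T_HIT) : T_HARN := by
  obtain ⟨c, hc0, hc1, H⟩ := h
  refine ⟨c, hc0, hc1, fun u p s hs h0 h1 x y hx hy => ?_⟩
  have hk : ∀ l : ℤ, ∃ q, (s : ℤ) ≤ l → l ≤ 2 * s → nrm (q - p) = l ∧ u y ≤ u q := fun l => by
    by_cases hl : (s : ℤ) ≤ l ∧ l ≤ 2 * s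
    · obtain ⟨q, hq, hm⟩ := exists_max_image ((ball p l).filter fun z => nrm (z - p) = l) u
        ⟨p + (l, 0), by
          have : nrm (p + (l, 0) - p) = l := by
            rw [add_sub_cancel_left, nrm_eq_iff]; simp; omega
          exact mem_filter.2 ⟨mem_ball.2 this.le, this⟩⟩
      have hm' : ∀ z, nrm (z - p) = l → u z ≤ u q := fun z hz =>
        hm z (mem_filter.2 ⟨mem_ball.2 hz.le, hz⟩)
      refine ⟨q, fun _ _ => ⟨(mem_filter.1 hq).2, ?_⟩⟩
      by_cases hyl : nrm (y - p) = l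
      · exact hm' y hyl
      · refine avg_compare (u := u) (w := fun _ => u q) (ball p (l - 1)) (fun z hz => ?_)
          (fun z hz d hd => hm' _ (beur_bdry hz hd)) y (mem_ball.2 (by omega))
        have a1 := h1 z (by have := mem_ball.1 hz; omega)
        rw [← a1, avg_eq]
        linarith
    · exact ⟨p, fun a b => absurd ⟨a, b⟩ hl⟩
  choose k hk using hk
  obtain ⟨f, f0, f1, f2, f3⟩ := H p s k hs fun l a b => (hk l a b).1
  have hy0 : 0 ≤ u y := h0 y (by omega)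
  have hc := avg_compare (u := fun z => u y * f z) (w := u)
    ((ball p (10 * s - 1)).filter fun z => ∀ l : ℤ, s ≤ l → l ≤ 2 * s → z ≠ k l)
    (fun z hz => by
      obtain ⟨z1, z2⟩ := mem_filter.1 hz
      have a1 := h1 z (by have := mem_ball.1 z1; omega)
      have a2 := mul_le_mul_of_nonneg_left (f2 z z2) hy0
      rw [beur_avg_mul]
      linarith)
    (fun z hz d hd => by
      by_cases hb : z + d.vec ∈ ball p (10 * s - 1)
      · have : ¬ ∀ l : ℤ, s ≤ l → l ≤ 2 * s → z + d.vec ≠ k l := fun a => hd (mem_filter.2 ⟨hb, a⟩)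
        push Not at this
        obtain ⟨l, a, b, e⟩ := this
        rw [e]
        exact (mul_le_of_le_one_right hy0 (f0 _).2).trans (hk l a b).2
      · have a1 := beur_bdry (mem_filter.1 hz).1 hb
        rw [f1 _ a1.ge, mul_zero]
        exact h0 _ a1.le)
  by_cases hxk : ∀ l : ℤ, s ≤ l → l ≤ 2 * s → x ≠ k l
  · have a1 := hc x (mem_filter.2 ⟨mem_ball.2 (by omega), hxk⟩)
    have a2 := mul_le_mul_of_nonneg_left (f3 x hx) hy0
    linarith
  · push Not at hxk
    obtain ⟨l, a, b, e⟩ := hxk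
    rw [e]
    exact (mul_le_of_le_one_left hy0 hc1).trans (hk l a b).2

end Pool.Agent.P.MP_347bd1_pr
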