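import Pool.Agent.P.MP_347bd1_pr.CORN

/-!
The bulk estimate.
-/

namespace Pool.Agent.P.MP_347bd1_pr

open Classical Finset
open scoped ENNReal NNReal

theorem bulk_markov (N : Net) (t L l : ℕ) (v : Pt) : l * hm N v (Many N t L l v) ≤
    ∑ j ∈ range (4 * l), hm N v (Thin N (t * 5 ^ j) (L * (t * 5 ^ j)) v) := by
  simp only [hm, ms]
  rw [← Summable.tsum_finsetSum fun _ _ => ENNReal.summable, ← ENNReal.tsum_mul_left]
  refine ENNReal.tsum_le_tsum fun W => ?_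
  split_ifs with h
  · simp only [h.1, true_and, ← sum_filter, sum_const, nsmul_eq_mul]
    exact mul_le_mul_left (by exact_mod_cast h.2) _
  · simp

theorem t_bulk (h1 : T_TS1) (h2 : T_NI) (h3 : T_CELL) (h4 : T_GREEN) (h5 : T_THIN) : T_BULK := by
  intro ε q hε hq
  obtain ⟨C, hC⟩ := h3
  obtain ⟨c1, hc1, h2⟩ := h2
  obtain ⟨B, hB⟩ : ∃ B : ℝ≥0, B = C * (40 * q + 1) ^ 2 * 2 := ⟨_, rfl⟩
  have B0 : (0 : ℝ) ≤ B := B.2
  obtain ⟨δ, hδ⟩ : ∃ δ : ℝ, δ = ε / (3 * (27 * B + 1)) := ⟨_, rfl⟩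
  have δ0 : 0 < δ := by rw [hδ]; positivity
  obtain ⟨η, hη⟩ : ∃ η : ℝ≥0, (η : ℝ) = δ * δ ^ 3 := ⟨⟨_, by positivity⟩, rfl⟩
  obtain ⟨L0, h5⟩ := h5 η (by rw [← NNReal.coe_pos, hη]; positivity)
  obtain ⟨θ, hθ, h2⟩ := h2 (max 4 L0) (le_max_left _ _)
  have hL0 := le_max_right 4 L0
  generalize max 4 L0 = L at h2 hL0
  obtain ⟨l', hl'⟩ := exists_pow_lt_of_lt_one (x := δ * δ ^ 3) (y := (θ : ℝ)) (by positivity) hθ
  obtain ⟨l, hl⟩ : ∃ l, l = l' + 1 := ⟨_, rfl⟩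
  have θ1 : (θ : ℝ) ^ (2 * l) ≤ δ * δ ^ 3 :=
    (pow_le_pow_of_le_one θ.2 hθ.le (by omega)).trans hl'.le
  obtain ⟨R, hR⟩ : ∃ R : ℕ, R = 8 * (L * (c1 * 1 * 5 ^ (4 * l))) := ⟨_, rfl⟩
  refine ⟨(R + 2) * (20 * q), fun n hn S hS => ?_⟩
  obtain ⟨s, hs⟩ : ∃ s, s = n / (20 * q) := ⟨_, rfl⟩
  have s1 : R + 2 ≤ s := hs ▸ (Nat.le_div_iff_mul_le (by omega)).2 hn
  have s2 : (20 * s * q : ℤ) ≤ n := by
    have := Nat.div_mul_le_self n (20 * q)
    rw [← hs] at this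
    zify at this; linarith
  have s3 : (n : ℤ) ≤ (40 * q : ℕ) * s := by
    have := Nat.lt_mul_div_succ n (show 0 < 20 * q by omega)
    rw [← hs] at this
    zify at this s1 hq ⊢; nlinarith
  have s4 : (20 * s : ℤ) ≤ n := by zify at hq; nlinarith
  rw [← sum_filter_of_ne (p := fun v => ∃ z ∈ S, Corner v z) fun v _ h => by
    by_contra m
    exact h (Pr_eq_zero fun M _ a => m a.1)]
  have g : ∀ v ∈ ((vbase n).filter fun v => (n : ℤ) ≤ q * v.1).filter fun v => ∃ z ∈ S, Corner v z,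
      v ∈ intr n ∧ (20 * s ≤ v.1 ∧ 2 * v.1 ≤ n + 1 ∧ n ≤ 2 * v.2 + 1) ∧
        Near1 (net n (eS n S)) v := by
    intro v hv
    obtain ⟨a0, z', b1, b2⟩ := mem_filter.1 hv
    obtain ⟨a1, a2⟩ := mem_filter.1 a0
    obtain ⟨a3, z, a4, a5⟩ := mem_filter.1 a1
    have a6 := (mem_filter.1 a4).2
    refine ⟨a3, ⟨?_, by unfold Corner at a5; omega⟩,
      near1_net b2 ((hS.conn z' b1).mono subset_union_left)⟩
    zify at hq
    exact le_of_mul_le_mul_right (by linarith) (show (0 : ℤ) < q by omega)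
  generalize ((vbase n).filter fun v => (n : ℤ) ≤ q * v.1).filter
    (fun v => ∃ z ∈ S, Corner v z) = V at g ⊢
  set N := net n (eS n S) with hN'
  have cell : ∀ (γ : ℝ≥0∞) (Φ : Pt → Pt → Prop),
      (∀ y, ∑ v ∈ V, ms (fun W => Al N Set.univ v W y ∧ ∃ z, Vis N v W z ∧ Φ v z) ≤ γ) →
      ∑ v ∈ V, hm N v (fun W => ∃ z, Vis N v W z ∧ nrm (z - v) ≤ s ∧ Φ v z) ≤ B * γ := by
    intro γ Φ h
    refine (hC N 0 s (40 * q) V 2 γ Φ (by omega) (fun v hv => ?_) (fun v hv z d a m => ?_)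
      (fun _ _ z _ => hN_le N z) h).trans_eq (by rw [hB]; push_cast; ring)
    · have := mem_intr.1 (g v hv).1
      rw [sub_zero, nrm_le_iff]; omega
    · have a1 := (corn_st hS.sc_eS m).imp_left And.left
      have a2 := (g v hv).2.1
      rw [nrm_le_iff, Prod.fst_sub, Prod.snd_sub] at a
      omega
  have c1' : ∑ v ∈ V, (hN N v).toReal ≤ B * 27 := by
    rw [← ENNReal.toReal_sum fun v _ => hN_ne_top N v]
    refine (ENNReal.toReal_mono (by finiteness) ((sum_le_sum fun v _ => ms_mono fun W h =>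
      ⟨h, v, vis_start _ _ _, by simp, trivial⟩).trans (cell 27 (fun _ _ => True) fun y =>
        (sum_le_sum fun v _ => ms_mono fun _ h => h.1).trans
          (h4 N V y fun v hv => (g v hv).2.2)))).trans_eq (by simp)
  have fin : ∀ v A, hm N v A ≠ ∞ := fun v A => ne_top_of_le_ne_top (hN_ne_top N v) (hm_le_hN N v A)
  have c2 : ∑ v ∈ V, (hm N v (Many N (c1 * 1) L l v)).toReal ≤ 4 * (B * η) := by
    have : (l : ℝ≥0∞) * ∑ v ∈ V, hm N v (Many N (c1 * 1) L l v) ≤ l * (4 * (B * η)) := by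
      rw [mul_sum]
      refine (sum_le_sum fun v _ => bulk_markov N _ L l v).trans ?_
      rw [sum_comm]
      refine (sum_le_card_nsmul _ _ (B * η : ℝ≥0∞) fun j hj => ?_).trans_eq
        (by rw [card_range, nsmul_eq_mul]; push_cast; ring)
      have p : (1 : ℤ) ≤ (c1 * 1 : ℕ) * 5 ^ j :=
        one_le_mul_of_one_le_of_one_le (by exact_mod_cast (by omega)) (one_le_pow₀ (by norm_num))
      refine le_trans (sum_le_sum fun v _ => ms_mono fun W h => ?_) (cell η (fun v z =>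
        L * (((c1 * 1 : ℕ) : ℤ) * 5 ^ j) ≤ nrm (z - v) ∧ NearK N ((c1 * 1 : ℕ) * 5 ^ j) z)
        fun y => h5 N V y _ _ (far_net hS.sc_eS) (fun v hv => (g v hv).2.2) p
          (mul_le_mul_of_nonneg_right (by exact_mod_cast hL0) (by omega)))
      obtain ⟨r, z, a1, a2, a3, a4⟩ := h
      refine ⟨r, z, a1, a3.trans ?_, a2, a4⟩
      have e : (5 : ℤ) ^ j ≤ 5 ^ (4 * l) := pow_le_pow_right₀ (by norm_num) (mem_range.1 hj).le
      have e' : (L : ℤ) * ((c1 * 1 : ℕ) * 5 ^ j) ≤ L * ((c1 * 1 : ℕ) * 5 ^ (4 * l)) := by gcongr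
      have e'' : (0 : ℤ) ≤ L * ((c1 * 1 : ℕ) * 5 ^ j) := by positivity
      zify at hR s1
      push_cast at e' e'' ⊢
      linarith
    rw [ENNReal.mul_le_mul_iff_right (by simp [hl]) (by simp)] at this
    rw [← ENNReal.toReal_sum fun v _ => fin v _]
    exact (ENNReal.toReal_mono (by finiteness) this).trans_eq (by simp)
  have c3 : ∀ v ∈ V, PS n S (ArmF S v) ≤ δ * (hN N v).toReal + (θ ^ (2 * l) * (hN N v).toReal +
      2 * (hm N v (Many N (c1 * 1) L l v)).toReal) / δ ^ 3 := by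
    intro v hv
    obtain ⟨a1, a2, -⟩ := g v hv
    obtain ⟨E2, K, Gd, b1, b2⟩ := h1 n S v hS a1
    refine b2 δ _ δ0 (by positivity) ?_
    have := h2 n S ∅ ∅ v 1 l R E2 K Gd hS hS a1 le_rfl (by rw [hR]; push_cast; rfl)
      ⟨fun w hw k1 k2 => hS.top w hw (by
        rw [nrm_le_iff, Prod.fst_sub, Prod.snd_sub] at k1
        unfold OnRing at k2
        omega), by simp, fun w hw w' hw' _ _ => by
          rw [union_empty]
          exact conn_of_topConn hS.eS_top (hS.conn w hw) (hS.conn w' hw')⟩ b1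
    rw [union_empty, ← hN'] at this
    have f1 := hN_ne_top N v
    have f2 := fin v (Many N (c1 * 1) L l v)
    refine (ENNReal.toReal_mono (by finiteness) this).trans_eq ?_
    rw [ENNReal.toReal_add (by finiteness) (by finiteness),
      ENNReal.toReal_add (by finiteness) (by finiteness)]
    simp only [ENNReal.toReal_mul, ENNReal.toReal_pow, ENNReal.coe_toReal]
    ring
  refine (sum_le_sum c3).trans ?_
  rw [sum_add_distrib, ← mul_sum, ← sum_div, sum_add_distrib, ← mul_sum, ← mul_sum]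
  have d0 : 0 ≤ ∑ v ∈ V, (hN N v).toReal := sum_nonneg fun _ _ => ENNReal.toReal_nonneg
  have d1 : (θ ^ (2 * l) * ∑ v ∈ V, (hN N v).toReal +
      2 * ∑ v ∈ V, (hm N v (Many N (c1 * 1) L l v)).toReal) / δ ^ 3 ≤ δ * (B * 27) + 8 * B * δ := by
    rw [div_le_iff₀ (by positivity)]
    have := mul_le_mul θ1 c1' d0 (by positivity)
    rw [hη] at c2
    linarith
  have d2 : δ * (3 * (27 * B + 1)) = ε := by rw [hδ]; field_simp
  nlinarith [mul_le_mul_of_nonneg_left c1' δ0.le, mul_nonneg δ0.le B0]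

end Pool.Agent.P.MP_347bd1_pr
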