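import Pool.Agent.P.MP_347bd1_pr.Stmts

/-!
Elementary lattice geometry and partition functions.
-/

namespace Pool.Agent.P.MP_347bd1_pr

open Classical Finset

theorem sum_dir {α : Type*} [AddCommMonoid α] (f : Dir → α) :
    ∑ d, f d = f .N + f .E + f .S + f .W := by
  have : (univ : Finset Dir) = {.N, .E, .S, .W} := by decide
  rw [this]; simp [add_assoc]

@[simp] theorem Dir.opp_opp (d : Dir) : d.opp.opp = d := by cases d <;> rfl

@[simp] theorem Dir.vec_opp (d : Dir) : d.opp.vec = -d.vec := by cases d <;> simp [Dir.vec, Dir.opp]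

theorem Dir.opp_ne (d : Dir) : d.opp ≠ d := by cases d <;> simp [Dir.opp]

theorem Dir.vec_ne_zero (d : Dir) : d.vec ≠ 0 := by cases d <;> simp [Dir.vec]

theorem Dir.vec_inj {d d' : Dir} (h : d.vec = d'.vec) : d = d' := by
  cases d <;> cases d' <;> simp_all [Dir.vec]

theorem cr_opp (p : Pt) (d : Dir) : cr (p + d.vec) d.opp = cr p d := by
  cases d <;> simp [Dir.vec, Dir.opp, cr, Prod.ext_iff]

theorem inc_opp (p : Pt) (d : Dir) : inc (p + d.vec) d.opp = inc p d := by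
  cases d <;> simp [Dir.vec, Dir.opp, inc, Prod.ext_iff, sub_eq_add_neg]

theorem cr_eq_iff {p q : Pt} {d d' : Dir} :
    cr q d' = cr p d ↔ (q = p ∧ d' = d) ∨ (q = p + d.vec ∧ d' = d.opp) := by
  obtain ⟨a, b⟩ := p; obtain ⟨a', b'⟩ := q
  cases d <;> cases d' <;> simp [Dir.vec, Dir.opp, cr, Prod.ext_iff] <;> omega

theorem inc_eq_iff {p q : Pt} {d d' : Dir} :
    inc q d' = inc p d ↔ (q = p ∧ d' = d) ∨ (q = p + d.vec ∧ d' = d.opp) := by
  obtain ⟨a, b⟩ := p; obtain ⟨a', b'⟩ := q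
  cases d <;> cases d' <;> simp [Dir.vec, Dir.opp, inc, Prod.ext_iff] <;> omega

theorem ends_inc (w : Pt) (d : Dir) :
    (ea (inc w d) = w ∧ eb (inc w d) = w + d.vec) ∨
      (ea (inc w d) = w + d.vec ∧ eb (inc w d) = w) := by
  obtain ⟨a, b⟩ := w
  cases d <;> simp [Dir.vec, inc, ea, eb, Prod.ext_iff, sub_eq_add_neg]

theorem exists_inc (e : Edge) : ∃ d, inc (ea e) d = e ∧ eb e = ea e + d.vec := by
  obtain ⟨w, _ | _⟩ := e
  exacts [⟨.N, rfl, rfl⟩, ⟨.E, rfl, rfl⟩]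

theorem exists_inc_b (e : Edge) : ∃ d, inc (eb e) d = e ∧ ea e = eb e + d.vec := by
  obtain ⟨d, h1, h2⟩ := exists_inc e
  exact ⟨d.opp, by rw [h2, inc_opp, h1], by rw [h2]; simp⟩

/-- Every edge is a side of the plaquette with the same label. -/
theorem exists_cr (e : Edge) : ∃ d, cr (ea e) d = e := by
  obtain ⟨w, _ | _⟩ := e
  exacts [⟨.W, rfl⟩, ⟨.S, rfl⟩]

theorem ea_ne_eb (e : Edge) : ea e ≠ eb e := by
  obtain ⟨⟨a, b⟩, _ | _⟩ := e <;> simp [ea, eb]

theorem mem_box {n : ℕ} {w : Pt} : w ∈ box n ↔ 1 ≤ w.1 ∧ w.1 ≤ n ∧ 1 ≤ w.2 ∧ w.2 ≤ n := by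
  simp [box, mem_product, and_assoc]

theorem mem_intr {n : ℕ} {w : Pt} :
    w ∈ intr n ↔ 1 ≤ w.1 ∧ w.1 + 1 ≤ n ∧ 1 ≤ w.2 ∧ w.2 + 1 ≤ n := by
  simp only [intr, mem_product, mem_Icc]; omega

theorem mem_einc {U : Finset Pt} {e : Edge} : e ∈ einc U ↔ ea e ∈ U ∨ eb e ∈ U := by
  simp only [einc, mem_biUnion, mem_image, mem_univ, true_and]
  constructor
  · rintro ⟨w, hw, d, rfl⟩
    rcases ends_inc w d with h | h
    exacts [Or.inl (h.1.symm ▸ hw), Or.inr (h.2.symm ▸ hw)]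
  · rintro (h | h)
    · obtain ⟨d, h1, -⟩ := exists_inc e; exact ⟨_, h, d, h1⟩
    · obtain ⟨d, h1, -⟩ := exists_inc_b e; exact ⟨_, h, d, h1⟩

theorem mem_ebox {n : ℕ} {e : Edge} : e ∈ ebox n ↔ ea e ∈ box n ∧ eb e ∈ box n := by
  simp only [ebox, mem_filter, mem_einc]; tauto

theorem mem_cut {M : Finset Pt} {e : Edge} : e ∈ cut M ↔ ¬ (ea e ∈ M ↔ eb e ∈ M) := by
  simp only [cut, mem_filter, mem_einc]; tauto

theorem mem_eS {n : ℕ} {S : Finset Pt} {e : Edge} :
    e ∈ eS n S ↔ e ∈ ebox n ∧ (ea e ∉ S ∨ eb e ∉ S) := mem_filter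

theorem eS_subset (n : ℕ) (S : Finset Pt) : eS n S ⊆ ebox n := filter_subset _ _

theorem inc_mem_einc {U : Finset Pt} {w : Pt} {d : Dir} :
    inc w d ∈ einc U ↔ w ∈ U ∨ w + d.vec ∈ U := by
  rcases ends_inc w d with h | h <;> rw [mem_einc, h.1, h.2]; exact or_comm

theorem inc_mem_ebox {n : ℕ} {w : Pt} {d : Dir} :
    inc w d ∈ ebox n ↔ w ∈ box n ∧ w + d.vec ∈ box n := by
  rcases ends_inc w d with h | h <;> rw [mem_ebox, h.1, h.2]; exact and_comm

theorem inc_mem_cut {M : Finset Pt} {w : Pt} {d : Dir} :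
    inc w d ∈ cut M ↔ ¬ (w ∈ M ↔ w + d.vec ∈ M) := by
  rcases ends_inc w d with h | h <;> rw [mem_cut, h.1, h.2]; tauto

theorem inc_mem_eS {n : ℕ} {S : Finset Pt} {w : Pt} {d : Dir} :
    inc w d ∈ eS n S ↔ (w ∈ box n ∧ w + d.vec ∈ box n) ∧ (w ∉ S ∨ w + d.vec ∉ S) := by
  rcases ends_inc w d with h | h <;> rw [mem_eS, inc_mem_ebox, h.1, h.2]; tauto

@[simp] theorem cut_empty : cut ∅ = ∅ := by simp [cut, einc]

theorem cut_symmDiff (M M' : Finset Pt) : cut (symmDiff M M') = symmDiff (cut M) (cut M') := by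
  ext e; simp only [mem_cut, mem_symmDiff]; tauto

theorem corner_cr (p : Pt) (d : Dir) : Corner p (ea (cr p d)) ∧ Corner p (eb (cr p d)) := by
  cases d <;> simp [Corner, cr, ea, eb]

theorem Corner.mem_box {n : ℕ} {p w : Pt} (h : Corner p w) (hp : p ∈ intr n) : w ∈ box n := by
  rw [mem_intr] at hp; rw [Pool.Agent.P.MP_347bd1_pr.mem_box]; unfold Corner at h; omega

theorem cr_mem_ebox {n : ℕ} {p : Pt} (hp : p ∈ intr n) (d : Dir) : cr p d ∈ ebox n :=
  mem_ebox.2 ⟨(corner_cr p d).1.mem_box hp, (corner_cr p d).2.mem_box hp⟩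

theorem deg_eq (η : Finset Edge) (p : Pt) : deg η p = ∑ d, if cr p d ∈ η then 1 else 0 := by
  rw [deg, card_filter]

theorem deg_eq4 (η : Finset Edge) (p : Pt) : deg η p =
    (if cr p .N ∈ η then 1 else 0) + (if cr p .E ∈ η then 1 else 0) +
      (if cr p .S ∈ η then 1 else 0) + if cr p .W ∈ η then 1 else 0 := by
  rw [deg_eq, sum_dir]

@[simp] theorem deg_empty (p : Pt) : deg ∅ p = 0 := by simp [deg]

theorem deg_congr {η η' : Finset Edge} {p : Pt} (h : ∀ d, cr p d ∈ η ↔ cr p d ∈ η') :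
    deg η p = deg η' p := by
  simp only [deg, h]

theorem odd_deg_symmDiff (η η' : Finset Edge) (p : Pt) :
    Odd (deg (symmDiff η η') p) ↔ ¬ (Odd (deg η p) ↔ Odd (deg η' p)) := by
  simp only [deg_eq4, mem_symmDiff]
  by_cases h1 : cr p .N ∈ η <;> by_cases h2 : cr p .E ∈ η <;> by_cases h3 : cr p .S ∈ η <;>
    by_cases h4 : cr p .W ∈ η <;> by_cases k1 : cr p .N ∈ η' <;> by_cases k2 : cr p .E ∈ η' <;>
    by_cases k3 : cr p .S ∈ η' <;> by_cases k4 : cr p .W ∈ η' <;>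
    simp only [h1, h2, h3, h4, k1, k2, k3, k4] <;> decide

theorem not_odd_deg_cut (M : Finset Pt) (p : Pt) : ¬ Odd (deg (cut M) p) := by
  obtain ⟨a, b⟩ := p
  simp only [deg_eq4, mem_cut, cr, ea, eb, if_true, Prod.mk_add_mk, add_zero, Bool.false_eq_true,
    if_false]
  by_cases h1 : (a, b) ∈ M <;> by_cases h2 : (a + 1, b) ∈ M <;> by_cases h3 : (a, b + 1) ∈ M <;>
    by_cases h4 : (a + 1, b + 1) ∈ M <;> simp only [h1, h2, h3, h4] <;> decide

theorem odd_deg_singleton (p q : Pt) (d : Dir) :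
    Odd (deg {cr p d} q) ↔ q = p ∨ q = p + d.vec := by
  obtain ⟨a, b⟩ := p; obtain ⟨a', b'⟩ := q
  cases d <;> simp [deg_eq4, cr, Dir.vec, Prod.ext_iff] <;> split_ifs <;> simp <;> omega

theorem deg_inter_ebox {n : ℕ} {p : Pt} (hp : p ∈ intr n) (η : Finset Edge) :
    deg (η ∩ ebox n) p = deg η p :=
  deg_congr fun d => by simp [cr_mem_ebox hp d]

theorem Src.symmDiff {n : ℕ} {η η' : Finset Edge} {A A' : Set Pt} (h : Src n η A)
    (h' : Src n η' A') : Src n (symmDiff η η') (symmDiff A A') := fun p hp => by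
  rw [odd_deg_symmDiff, h p hp, h' p hp, Set.mem_symmDiff]; tauto

theorem Src.congr {n : ℕ} {η : Finset Edge} {A A' : Set Pt} (h : Src n η A)
    (hA : ∀ p ∈ intr n, (p ∈ A ↔ p ∈ A')) : Src n η A' := fun p hp => (h p hp).trans (hA p hp)

theorem src_empty (n : ℕ) : Src n ∅ ∅ := fun p _ => by simp

theorem src_cut (n : ℕ) (M : Finset Pt) : Src n (cut M ∩ ebox n) ∅ := fun p hp => by
  simp [deg_inter_ebox hp, not_odd_deg_cut]

/-- The contours of a configuration with frozen minus set `T`. -/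
theorem src_cut_eS {n : ℕ} {S T M : Finset Pt} {A0 : Set Pt} (hM : M ⊆ box n \ S)
    (h : Src n (cut T ∩ (ebox n \ eS n S)) A0) : Src n (cut (M ∪ T) ∩ eS n S) A0 := by
  have : cut (M ∪ T) ∩ eS n S =
      symmDiff (cut (M ∪ T) ∩ ebox n) (cut T ∩ (ebox n \ eS n S)) := by
    ext e
    have h1 : ea e ∈ M → ea e ∉ S := fun h => (mem_sdiff.1 (hM h)).2
    have h2 : eb e ∈ M → eb e ∉ S := fun h => (mem_sdiff.1 (hM h)).2
    simp only [mem_symmDiff, mem_inter, mem_sdiff, mem_cut, mem_eS, mem_union]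
    by_cases k : e ∈ ebox n <;> by_cases k1 : ea e ∈ S <;> by_cases k2 : eb e ∈ S <;>
      simp only [k, k1, k2, not_true, imp_false] at h1 h2 ⊢ <;> simp [*]
  rw [this]
  exact ((src_cut n _).symmDiff h).congr fun p _ => by simp [Set.mem_symmDiff]

/-- A subset of the box without boundary edges in the box is trivial. -/
theorem mem_iff_of_cut {n : ℕ} {D : Finset Pt} (h : ∀ e ∈ ebox n, e ∉ cut D) {a b : Pt}
    (ha : a ∈ box n) (hb : b ∈ box n) : a ∈ D ↔ b ∈ D := by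
  have st : ∀ w d, w ∈ box n → w + Dir.vec d ∈ box n → (w ∈ D ↔ w + d.vec ∈ D) :=
    fun w d h1 h2 => by
      have := h _ (inc_mem_ebox.2 ⟨h1, h2⟩)
      rwa [inc_mem_cut, not_not] at this
  have k1 : ∀ (i : ℕ) (y : ℤ), ((1 + i : ℤ), y) ∈ box n → (((1 + i : ℤ), y) ∈ D ↔ (1, y) ∈ D) := by
    intro i y
    induction i with
    | zero => simp
    | succ i ih =>
      intro hi
      have h0 : ((1 + i : ℤ), y) ∈ box n := by rw [mem_box] at hi ⊢; push_cast at hi; simp at *; omega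
      have e : ((1 + (i + 1 : ℕ) : ℤ), y) = ((1 + i : ℤ), y) + Dir.E.vec := by
        simp [Dir.vec, add_assoc]
      rw [← ih h0, e]
      exact (st _ _ h0 (e ▸ hi)).symm
  have k2 : ∀ (j : ℕ), ((1 : ℤ), (1 + j : ℤ)) ∈ box n →
      (((1 : ℤ), (1 + j : ℤ)) ∈ D ↔ (1, 1) ∈ D) := by
    intro j
    induction j with
    | zero => simp
    | succ j ih =>
      intro hj
      have h0 : ((1 : ℤ), (1 + j : ℤ)) ∈ box n := by
        rw [mem_box] at hj ⊢; push_cast at hj; simp at *; omega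
      have e : ((1 : ℤ), (1 + (j + 1 : ℕ) : ℤ)) = ((1 : ℤ), (1 + j : ℤ)) + Dir.N.vec := by
        simp [Dir.vec, add_assoc]
      rw [← ih h0, e]
      exact (st _ _ h0 (e ▸ hj)).symm
  have k : ∀ w ∈ box n, (w ∈ D ↔ (1, 1) ∈ D) := by
    rintro ⟨x, y⟩ hw
    have hw' := mem_box.1 hw
    obtain ⟨i, rfl⟩ : ∃ i : ℕ, x = 1 + i := ⟨(x - 1).toNat, by simp at hw'; omega⟩
    obtain ⟨j, rfl⟩ : ∃ j : ℕ, y = 1 + j := ⟨(y - 1).toNat, by simp at hw'; omega⟩
    rw [k1 i _ hw]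
    exact k2 j (by rw [mem_box]; simp at *; omega)
  rw [k a ha, k b hb]

/-- The active contours determine the configuration. -/
theorem cut_eS_inj {n : ℕ} {S T M M' : Finset Pt} (hS : Good n S ∅) (hT : T ⊆ S)
    (hM : M ⊆ box n \ S) (hM' : M' ⊆ box n \ S)
    (h : cut (M ∪ T) ∩ eS n S = cut (M' ∪ T) ∩ eS n S) : M = M' := by
  have key : ∀ e ∈ ebox n, e ∉ cut (symmDiff M M') := by
    intro e he
    have h0 := Finset.ext_iff.1 h e
    have h1 : ea e ∈ M → ea e ∉ S := fun h => (mem_sdiff.1 (hM h)).2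
    have h2 : eb e ∈ M → eb e ∉ S := fun h => (mem_sdiff.1 (hM h)).2
    have h3 : ea e ∈ M' → ea e ∉ S := fun h => (mem_sdiff.1 (hM' h)).2
    have h4 : eb e ∈ M' → eb e ∉ S := fun h => (mem_sdiff.1 (hM' h)).2
    have h5 : ea e ∈ T → ea e ∈ S := fun h => hT h
    have h6 : eb e ∈ T → eb e ∈ S := fun h => hT h
    simp only [mem_symmDiff, mem_inter, mem_cut, mem_eS, mem_union, he, true_and] at h0 ⊢
    by_cases k1 : ea e ∈ S <;> by_cases k2 : eb e ∈ S <;>
      simp only [k1, k2, not_true, imp_false, not_false_eq_true, or_true, true_or, and_true,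
        or_self, and_false] at h0 h1 h2 h3 h4 h5 h6 <;>
      by_cases a1 : ea e ∈ M <;> by_cases a2 : ea e ∈ M' <;> by_cases a3 : eb e ∈ M <;>
      by_cases a4 : eb e ∈ M' <;> by_cases a5 : ea e ∈ T <;> by_cases a6 : eb e ∈ T <;>
      simp_all
  rw [← symmDiff_eq_bot, bot_eq_empty, eq_empty_iff_forall_notMem]
  intro w hw
  have hw' : w ∈ box n \ S := by
    rcases mem_symmDiff.1 hw with h | h
    exacts [hM h.1, hM' h.1]
  have hb := mem_box.1 (mem_sdiff.1 hw').1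
  have ht : (w.1, (n : ℤ)) ∈ box n := by rw [mem_box]; simp; omega
  have := (mem_iff_of_cut key (mem_sdiff.1 hw').1 ht).1 hw
  have hs := hS.top _ ht rfl
  rcases mem_symmDiff.1 this with h | h
  exacts [(mem_sdiff.1 (hM h.1)).2 hs, (mem_sdiff.1 (hM' h.1)).2 hs]

theorem xc_pos : 0 < xc := by
  have : (1 : ℝ) < Real.sqrt 2 := by rw [Real.lt_sqrt (by norm_num)]; norm_num
  unfold xc; linarith

theorem xc_lt_half : xc < 1 / 2 := by
  have : Real.sqrt 2 < 3 / 2 := by rw [Real.sqrt_lt' (by norm_num)]; norm_num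
  unfold xc; linarith

theorem xc_lt_one : xc < 1 := xc_lt_half.trans (by norm_num)

theorem third_lt_xc : 1 / 3 < xc := by
  have : (4 / 3 : ℝ) < Real.sqrt 2 := by rw [Real.lt_sqrt (by norm_num)]; norm_num
  unfold xc; linarith

theorem xc_sq : xc ^ 2 = 1 - 2 * xc := by
  have := Real.sq_sqrt (show (0 : ℝ) ≤ 2 by norm_num)
  unfold xc; nlinarith

theorem Zs_nonneg (n : ℕ) (A : Set Pt) (E : Finset Edge) : 0 ≤ Zs n A E :=
  sum_nonneg fun _ _ => by split_ifs; exacts [(pow_pos xc_pos _).le, le_rfl]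

theorem one_le_Zs (n : ℕ) (E : Finset Edge) : 1 ≤ Zs n ∅ E := by
  refine le_trans ?_ (single_le_sum (f := fun η => if Src n η ∅ then xc ^ η.card else 0)
    (fun _ _ => by split_ifs; exacts [(pow_pos xc_pos _).le, le_rfl]) (empty_mem_powerset E))
  simp [src_empty]

theorem Zs_pos (n : ℕ) (E : Finset Edge) : 0 < Zs n ∅ E := one_pos.trans_le (one_le_Zs n E)

theorem Zs_congr {n : ℕ} {A A' : Set Pt} (h : ∀ p ∈ intr n, (p ∈ A ↔ p ∈ A')) (E : Finset Edge) :
    Zs n A E = Zs n A' E :=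
  sum_congr rfl fun η _ => by
    have : Src n η A ↔ Src n η A' :=
      ⟨fun k => k.congr h, fun k => k.congr fun p hp => (h p hp).symm⟩
    simp only [this]

theorem G1_nonneg (n : ℕ) (v : Pt) (E : Finset Edge) : 0 ≤ G1 n v E :=
  div_nonneg (Zs_nonneg _ _ _) (Zs_nonneg _ _ _)

section Prob

variable {F : Finset Edge} {U T : Finset Pt} {A B : Finset Pt → Prop}

theorem Zf_nonneg : 0 ≤ Zf F U T A :=
  sum_nonneg fun _ _ => by split_ifs; exacts [(pow_pos xc_pos _).le, le_rfl]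

theorem Zf_pos : 0 < Zf F U T fun _ => True :=
  sum_pos (fun _ _ => by simp [pow_pos xc_pos]) ⟨∅, empty_mem_powerset U⟩

theorem Zf_mono (h : ∀ M ⊆ U, A M → B M) : Zf F U T A ≤ Zf F U T B :=
  sum_le_sum fun M hM => by
    by_cases k : A M
    · simp [k, h M (mem_powerset.1 hM) k]
    · simp only [k, if_false]; split_ifs; exacts [(pow_pos xc_pos _).le, le_rfl]

theorem Zf_congr (h : ∀ M ⊆ U, (A M ↔ B M)) : Zf F U T A = Zf F U T B :=
  le_antisymm (Zf_mono fun M k => (h M k).1) (Zf_mono fun M k => (h M k).2)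

theorem Zf_add_not (A B : Finset Pt → Prop) :
    Zf F U T A = Zf F U T (fun M => A M ∧ B M) + Zf F U T fun M => A M ∧ ¬ B M := by
  simp only [Zf, ← sum_add_distrib]
  exact sum_congr rfl fun M _ => by by_cases h : A M <;> by_cases k : B M <;> simp [h, k]

theorem Zf_exists_le {ι : Type*} (s : Finset ι) (A : ι → Finset Pt → Prop) :
    Zf F U T (fun M => ∃ i ∈ s, A i M) ≤ ∑ i ∈ s, Zf F U T (A i) := by
  simp only [Zf]
  rw [sum_comm]
  refine sum_le_sum fun M _ => ?_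
  split_ifs with h
  · obtain ⟨i, hi, h⟩ := h
    refine le_trans ?_ (single_le_sum (f := fun i => if A i M then
      xc ^ (cut (M ∪ T) ∩ F).card else 0)
      (fun _ _ => by split_ifs; exacts [(pow_pos xc_pos _).le, le_rfl]) hi)
    simp [h]
  · exact sum_nonneg fun _ _ => by split_ifs; exacts [(pow_pos xc_pos _).le, le_rfl]

theorem Pr_nonneg : 0 ≤ Pr F U T A := div_nonneg Zf_nonneg Zf_nonneg

theorem Pr_mono (h : ∀ M ⊆ U, A M → B M) : Pr F U T A ≤ Pr F U T B :=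
  div_le_div_of_nonneg_right (Zf_mono h) Zf_nonneg

theorem Pr_congr (h : ∀ M ⊆ U, (A M ↔ B M)) : Pr F U T A = Pr F U T B := by
  rw [Pr, Zf_congr h, Pr]

theorem Pr_true : (Pr F U T fun _ => True) = 1 := div_self Zf_pos.ne'

theorem Pr_le_one : Pr F U T A ≤ 1 := (Pr_mono fun _ _ _ => trivial).trans Pr_true.le

theorem Pr_eq_zero (h : ∀ M ⊆ U, ¬ A M) : Pr F U T A = 0 := by
  rw [Pr_congr (B := fun _ => False) fun M k => by simp [h M k]]; simp [Pr, Zf]

theorem Pr_add_not (A B : Finset Pt → Prop) :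
    Pr F U T A = Pr F U T (fun M => A M ∧ B M) + Pr F U T fun M => A M ∧ ¬ B M := by
  rw [Pr, Zf_add_not A B, add_div]; rfl

theorem Pr_not : (Pr F U T fun M => ¬ A M) = 1 - Pr F U T A := by
  have := Pr_add_not (F := F) (U := U) (T := T) (fun _ => True) A
  simp only [true_and, Pr_true] at this
  linarith

theorem Pr_or_le : (Pr F U T fun M => A M ∨ B M) ≤ Pr F U T A + Pr F U T B := by
  rw [Pr_add_not _ A]
  exact add_le_add (Pr_mono fun _ _ h => h.2) (Pr_mono fun _ _ h => h.1.resolve_left h.2)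

theorem Pr_exists_le {ι : Type*} (s : Finset ι) (A : ι → Finset Pt → Prop) :
    Pr F U T (fun M => ∃ i ∈ s, A i M) ≤ ∑ i ∈ s, Pr F U T (A i) := by
  simp only [Pr, ← sum_div]
  exact div_le_div_of_nonneg_right (Zf_exists_le s A) Zf_nonneg

theorem card_cut_flip {M M' : Finset Pt} {z : Pt} (h : ∀ w, w ≠ z → (w ∈ M ↔ w ∈ M')) :
    (cut M ∩ F).card ≤ (cut M' ∩ F).card + 4 := by
  have : cut M ∩ F ⊆ (cut M' ∩ F) ∪ univ.image (inc z) := by
    intro e he
    by_cases k : e ∈ einc {z}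
    · exact mem_union_right _ (by simpa [einc] using k)
    · rw [mem_einc, mem_singleton, mem_singleton, not_or] at k
      refine mem_union_left _ ?_
      rwa [mem_inter, mem_cut, ← h _ k.1, ← h _ k.2, ← mem_cut, ← mem_inter]
  refine (card_le_card this).trans ((card_union_le _ _).trans ?_)
  exact Nat.add_le_add_left (card_image_le.trans (by decide)) _

theorem pow_cut_flip {M M' : Finset Pt} {z : Pt} (h : ∀ w, w ≠ z → (w ∈ M ↔ w ∈ M')) :
    xc ^ (cut M' ∩ F).card ≤ 81 * xc ^ (cut M ∩ F).card := by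
  have h1 := pow_le_pow_of_le_one xc_pos.le xc_lt_one.le (card_cut_flip (F := F) h)
  have h2 : (1 / 3 : ℝ) ^ 4 ≤ xc ^ 4 := pow_le_pow_left₀ (by norm_num) third_lt_xc.le 4
  rw [pow_add] at h1
  nlinarith [pow_pos xc_pos (cut M' ∩ F).card]

theorem Zf_le_of_inj {z : Pt} (φ : Finset Pt → Finset Pt) (h1 : ∀ M ⊆ U, A M → φ M ⊆ U ∧ B (φ M))
    (h2 : ∀ M M', A M → A M' → φ M = φ M' → M = M') (h3 : ∀ M w, w ≠ z → (w ∈ φ M ↔ w ∈ M)) :
    Zf F U T A ≤ 81 * Zf F U T B := by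
  simp only [Zf, ← sum_filter]
  calc _ ≤ ∑ M ∈ U.powerset.filter A, 81 * xc ^ (cut (φ M ∪ T) ∩ F).card :=
        sum_le_sum fun M _ => pow_cut_flip (z := z) fun w hw => by simp [h3 M w hw]
    _ = 81 * ∑ M ∈ (U.powerset.filter A).image φ, xc ^ (cut (M ∪ T) ∩ F).card := by
        rw [← mul_sum, sum_image fun M hM M' hM' => h2 M M' (mem_filter.1 hM).2 (mem_filter.1 hM').2]
    _ ≤ _ := by
        refine mul_le_mul_of_nonneg_left (sum_le_sum_of_subset_of_nonneg ?_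
          fun _ _ _ => (pow_pos xc_pos _).le) (by norm_num)
        intro M hM
        obtain ⟨M, hM', rfl⟩ := mem_image.1 hM
        have := h1 M (mem_powerset.1 (mem_filter.1 hM').1) (mem_filter.1 hM').2
        exact mem_filter.2 ⟨mem_powerset.2 this.1, this.2⟩

/-- Finite energy: turning a minus site into a plus site. -/
theorem Zf_erase_le {z : Pt} : Zf F U T (fun M => z ∈ M ∧ A M) ≤
    81 * Zf F U T fun M => z ∉ M ∧ A (insert z M) := by
  refine Zf_le_of_inj (z := z) (fun M => M.erase z) ?_ ?_ ?_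
  · intro M hM h
    refine ⟨(erase_subset _ _).trans hM, notMem_erase _ _, by rw [insert_erase h.1]; exact h.2⟩
  · intro M M' h h' k
    rw [← insert_erase h.1, ← insert_erase h'.1]; exact congrArg _ k
  · intro M w hw; simp [hw]

/-- Finite energy: turning a plus site into a minus site. -/
theorem Zf_insert_le {z : Pt} (hz : z ∈ U) : Zf F U T (fun M => z ∉ M ∧ A M) ≤
    81 * Zf F U T fun M => z ∈ M ∧ A (M.erase z) := by
  refine Zf_le_of_inj (z := z) (fun M => insert z M) ?_ ?_ ?_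
  · intro M hM h
    refine ⟨insert_subset hz hM, mem_insert_self _ _, by rw [erase_insert h.1]; exact h.2⟩
  · intro M M' h h' k
    rw [← erase_insert h.1, ← erase_insert h'.1]; exact congrArg (·.erase z) k
  · intro M w hw; simp [hw]

theorem Pr_erase_le {z : Pt} : Pr F U T (fun M => z ∈ M ∧ A M) ≤
    81 * Pr F U T fun M => z ∉ M ∧ A (insert z M) := by
  rw [Pr, Pr, ← mul_div_assoc]
  exact div_le_div_of_nonneg_right Zf_erase_le Zf_nonneg

theorem Pr_insert_le {z : Pt} (hz : z ∈ U) : Pr F U T (fun M => z ∉ M ∧ A M) ≤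
    81 * Pr F U T fun M => z ∈ M ∧ A (M.erase z) := by
  rw [Pr, Pr, ← mul_div_assoc]
  exact div_le_div_of_nonneg_right (Zf_insert_le hz) Zf_nonneg

end Prob

theorem nrm_nonneg (z : Pt) : 0 ≤ nrm z := le_max_of_le_left (abs_nonneg _)

theorem nrm_le_iff {z : Pt} {r : ℤ} : nrm z ≤ r ↔ -r ≤ z.1 ∧ z.1 ≤ r ∧ -r ≤ z.2 ∧ z.2 ≤ r := by
  simp [nrm, abs_le, and_assoc]

theorem nrm_lt_iff {z : Pt} {r : ℤ} : nrm z < r ↔ -r < z.1 ∧ z.1 < r ∧ -r < z.2 ∧ z.2 < r := by
  simp [nrm, abs_lt, and_assoc]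

@[simp] theorem nrm_zero : nrm 0 = 0 := by simp [nrm]

theorem nrm_sub_comm (a b : Pt) : nrm (a - b) = nrm (b - a) := by
  simp [nrm, abs_sub_comm]

theorem nrm_add_le (a b : Pt) : nrm (a + b) ≤ nrm a + nrm b := by
  have h1 := nrm_le_iff.1 (le_refl (nrm a))
  have h2 := nrm_le_iff.1 (le_refl (nrm b))
  rw [nrm_le_iff]; simp only [Prod.fst_add, Prod.snd_add]; omega

theorem nrm_tri (a b c : Pt) : nrm (a - c) ≤ nrm (a - b) + nrm (b - c) := by
  simpa using nrm_add_le (a - b) (b - c)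

@[simp] theorem nrm_vec (d : Dir) : nrm d.vec = 1 := by cases d <;> simp [nrm, Dir.vec]

theorem nrm_step (a c : Pt) (d : Dir) :
    nrm (a + d.vec - c) ≤ nrm (a - c) + 1 ∧ nrm (a - c) ≤ nrm (a + d.vec - c) + 1 := by
  have h1 := nrm_tri (a + d.vec) a c
  have h2 := nrm_tri a (a + d.vec) c
  rw [nrm_sub_comm a (a + d.vec)] at h2
  simp only [add_sub_cancel_left, nrm_vec] at h1 h2
  omega

theorem Corner.nrm_le {p w : Pt} (h : Corner p w) : nrm (w - p) ≤ 1 := by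
  rw [nrm_le_iff]; unfold Corner at h; simp only [Prod.fst_sub, Prod.snd_sub]; omega

theorem NN.symm {a b : Pt} (h : NN a b) : NN b a := by
  obtain ⟨d, rfl⟩ := h; exact ⟨d.opp, by simp⟩

theorem NN.star {a b : Pt} (h : NN a b) : Star a b := by
  obtain ⟨d, rfl⟩ := h
  rw [Star, nrm_sub_comm]; simp

theorem Star.symm {a b : Pt} (h : Star a b) : Star b a := by rwa [Star, nrm_sub_comm]

theorem Lk.symm {ξ : Pt → Bool} {c : Bool} {a b : Pt} (h : Lk ξ c a b) : Lk ξ c b a := by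
  rcases h with h | ⟨h1, h2, h3⟩
  · exact Or.inl h.symm
  · exact Or.inr ⟨by rwa [abs_sub_comm], by rwa [abs_sub_comm], by rwa [min_comm, min_comm b.2]⟩

theorem Lk.star {ξ : Pt → Bool} {c : Bool} {a b : Pt} (h : Lk ξ c a b) : Star a b := by
  rcases h with h | ⟨h1, h2, -⟩
  · exact h.star
  · simp [Star, nrm, h1, h2]

theorem lk_const_iff {c : Bool} {a b : Pt} : Lk (fun _ => c) c a b ↔ Star a b := by
  refine ⟨Lk.star, fun h => ?_⟩
  obtain ⟨x, y⟩ := a; obtain ⟨x', y'⟩ := b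
  have h1 := nrm_le_iff.1 h.le
  have h2 : ¬ nrm ((x, y) - (x', y')) < 1 := by rw [h]; simp
  rw [nrm_lt_iff] at h2
  simp only [Prod.mk_sub_mk] at h1 h2
  by_cases k1 : x = x'
  · by_cases k2 : y' = y + 1
    · exact Or.inl ⟨.N, by simp [Dir.vec, k1, k2]⟩
    · exact Or.inl ⟨.S, by simp [Dir.vec, k1]; omega⟩
  by_cases k2 : y = y'
  · by_cases k3 : x' = x + 1
    · exact Or.inl ⟨.E, by simp [Dir.vec, k2, k3]⟩
    · exact Or.inl ⟨.W, by simp [Dir.vec, k2]; omega⟩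
  exact Or.inr ⟨by simp only [abs_eq (zero_le_one' ℤ)]; omega,
    by simp only [abs_eq (zero_le_one' ℤ)]; omega, rfl⟩

theorem lk_const_not_iff {c : Bool} {a b : Pt} : Lk (fun _ => !c) c a b ↔ NN a b := by
  simp [Lk]

theorem Conn.symm {F : Finset Edge} {a b : Pt} (h : Conn F a b) : Conn F b a := by
  induction h with
  | refl => exact Relation.ReflTransGen.refl
  | tail _ k ih =>
    obtain ⟨d, k1, rfl⟩ := k
    exact Relation.ReflTransGen.head ⟨d.opp, by rwa [inc_opp], by simp⟩ ih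

theorem rtg_mono {α : Type*} {r p : α → α → Prop} {a b : α} (h : ∀ u w, r u w → p u w)
    (k : Relation.ReflTransGen r a b) : Relation.ReflTransGen p a b := by
  induction k with
  | refl => exact .refl
  | tail _ k ih => exact ih.tail (h _ _ k)

theorem Conn.mono {F F' : Finset Edge} {a b : Pt} (h : Conn F a b) (hF : F ⊆ F') : Conn F' a b :=
  rtg_mono (fun _ _ ⟨d, k1, k2⟩ => ⟨d, hF k1, k2⟩) h

theorem Conn.trans {F : Finset Edge} {a b c : Pt} (h : Conn F a b) (h' : Conn F b c) :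
    Conn F a c := Relation.ReflTransGen.trans h h'

theorem conn_edge {F : Finset Edge} {e : Edge} (h : e ∈ F) : Conn F (ea e) (eb e) := by
  obtain ⟨d, h1, h2⟩ := exists_inc e
  exact Relation.ReflTransGen.single ⟨d, by rwa [h1], h2⟩

theorem TopConn.mono {n : ℕ} {E E' : Finset Edge} {w : Pt} (h : TopConn n E w) (hE : E' ⊆ E) :
    TopConn n E' w := by
  obtain ⟨u, h1, h2, h3⟩ := h
  exact ⟨u, h1, h2, h3.mono (sdiff_subset_sdiff le_rfl hE)⟩

theorem TopConn.conn {n : ℕ} {E : Finset Edge} {w w' : Pt} (h : TopConn n E w)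
    (k : Conn (ebox n \ E) w w') : TopConn n E w' := by
  obtain ⟨u, h1, h2, h3⟩ := h
  exact ⟨u, h1, h2, h3.trans k⟩

theorem TopConn.step {n : ℕ} {E : Finset Edge} {w : Pt} {d : Dir} (h : TopConn n E w)
    (k : inc w d ∈ ebox n) (k' : inc w d ∉ E) : TopConn n E (w + d.vec) :=
  h.conn (Relation.ReflTransGen.single ⟨d, mem_sdiff.2 ⟨k, k'⟩, rfl⟩)

theorem TopConn.edge {n : ℕ} {E : Finset Edge} {e : Edge} (k : e ∈ ebox n) (k' : e ∉ E) :
    TopConn n E (ea e) ↔ TopConn n E (eb e) :=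
  ⟨fun h => h.conn (conn_edge (mem_sdiff.2 ⟨k, k'⟩)),
    fun h => h.conn (conn_edge (mem_sdiff.2 ⟨k, k'⟩)).symm⟩

theorem TopConn.mem_box {n : ℕ} {E : Finset Edge} {w : Pt} (h : TopConn n E w) : w ∈ box n := by
  obtain ⟨u, h1, -, h3⟩ := h
  induction h3 with
  | refl => exact h1
  | tail _ k _ => obtain ⟨d, k1, rfl⟩ := k; exact (inc_mem_ebox.1 (mem_sdiff.1 k1).1).2

theorem topConn_top {n : ℕ} (E : Finset Edge) {w : Pt} (h : w ∈ box n) (h' : w.2 = n) :
    TopConn n E w := ⟨w, h, h', Relation.ReflTransGen.refl⟩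

theorem SC.conn_b {n : ℕ} {E : Finset Edge} (h : SC n E) {e : Edge} (k : e ∈ ebox n)
    (k' : e ∉ E) : TopConn n E (eb e) := (TopConn.edge k k').1 (h.conn e k k')

/-- The top row is connected through inactive edges. -/
theorem conn_top {n : ℕ} {E : Finset Edge} (hE : ∀ e ∈ E, ¬ ((ea e).2 = n ∧ (eb e).2 = n))
    {a b : Pt} (ha : a ∈ box n) (hb : b ∈ box n) (ha' : a.2 = n) (hb' : b.2 = n) :
    Conn (ebox n \ E) a b := by
  have k : ∀ i : ℕ, ((1 + i : ℤ), (n : ℤ)) ∈ box n → Conn (ebox n \ E) (1, n) (1 + i, n) := by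
    intro i
    induction i with
    | zero => intro _; rw [Nat.cast_zero, add_zero]; exact Relation.ReflTransGen.refl
    | succ i ih =>
      intro hi
      have h0 : ((1 + i : ℤ), (n : ℤ)) ∈ box n := by
        rw [mem_box] at hi ⊢; push_cast at hi; simp at *; omega
      have e : ((1 + (i + 1 : ℕ) : ℤ), (n : ℤ)) = ((1 + i : ℤ), (n : ℤ)) + Dir.E.vec := by
        simp [Dir.vec, add_assoc]
      refine Relation.ReflTransGen.tail (ih h0) ⟨.E, mem_sdiff.2 ⟨inc_mem_ebox.2 ⟨h0, e ▸ hi⟩,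
        fun h => hE _ h (by simp [inc, ea, eb])⟩, e⟩
  have k' : ∀ w ∈ box n, w.2 = n → Conn (ebox n \ E) (1, n) w := by
    rintro ⟨x, y⟩ hw rfl
    obtain ⟨i, rfl⟩ : ∃ i : ℕ, x = 1 + i :=
      ⟨(x - 1).toNat, by have := mem_box.1 hw; simp at this; omega⟩
    exact k i hw
  exact (k' a ha ha').symm.trans (k' b hb hb')

theorem conn_of_topConn {n : ℕ} {E : Finset Edge}
    (hE : ∀ e ∈ E, ¬ ((ea e).2 = n ∧ (eb e).2 = n)) {a b : Pt} (ha : TopConn n E a)
    (hb : TopConn n E b) : Conn (ebox n \ E) a b := by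
  obtain ⟨u, h1, h2, h3⟩ := ha
  obtain ⟨u', k1, k2, k3⟩ := hb
  exact (h3.symm.trans (conn_top hE h1 k1 h2 k2)).trans k3

theorem Good.eS_top {n : ℕ} {S : Finset Pt} {X : Finset Edge} (h : Good n S X) :
    ∀ e ∈ eS n S ∪ X, ¬ ((ea e).2 = n ∧ (eb e).2 = n) := by
  intro e he k
  rcases mem_union.1 he with he | he
  · obtain ⟨h1, h2⟩ := mem_eS.1 he
    rcases h2 with h2 | h2
    exacts [h2 (h.top _ (mem_ebox.1 h1).1 k.1), h2 (h.top _ (mem_ebox.1 h1).2 k.2)]
  · exact (h.xs e he).2.2.2 k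

theorem Good.empty {n : ℕ} {S : Finset Pt} {X : Finset Edge} (h : Good n S X) : Good n S ∅ :=
  ⟨h.sub, h.top, fun w hw => (h.conn w hw).mono (union_subset_union le_rfl (empty_subset _)),
    by simp⟩

/-- Activating the edges of `X` keeps simple connectivity. -/
theorem SC.union {n : ℕ} {S : Finset Pt} {E X : Finset Edge} (h : SC n E) (hE : E ⊆ eS n S)
    (hS : Good n S X) : SC n (E ∪ X) := by
  have key : ∀ w, TopConn n E w → TopConn n (E ∪ X) w := by
    rintro w ⟨u, h1, h2, h3⟩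
    induction h3 with
    | refl => exact topConn_top _ h1 h2
    | @tail a b _ k ih =>
      obtain ⟨d, k1, rfl⟩ := k
      by_cases hx : inc a d ∈ X
      · have := hS.xs _ hx
        refine (hS.conn _ ?_).mono (union_subset_union hE le_rfl)
        rcases ends_inc a d with e | e
        exacts [e.2 ▸ this.2.2.1, e.1 ▸ this.2.1]
      · exact ih.step (mem_sdiff.1 k1).1 (by simp [hx, (mem_sdiff.1 k1).2])
  refine ⟨union_subset h.sub fun e he => (hS.xs e he).1, fun e he =>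
    hS.eS_top e (union_subset_union hE le_rfl he), fun e he he' => ?_⟩
  exact key _ (h.conn e he fun k => he' (mem_union_left _ k))

theorem Good.sc_eS {n : ℕ} {S : Finset Pt} {X : Finset Edge} (h : Good n S X) : SC n (eS n S) :=
  ⟨eS_subset n S, fun e he => h.eS_top e (mem_union_left _ he), fun e he he' => by
    refine (h.conn _ ?_).mono subset_union_left
    by_contra k
    exact he' (mem_eS.2 ⟨he, Or.inl k⟩)⟩

theorem Good.sc {n : ℕ} {S : Finset Pt} {X : Finset Edge} (h : Good n S X) :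
    SC n (eS n S ∪ X) := h.sc_eS.union le_rfl h

/-- A good set is connected. -/
theorem Good.nn_conn {n : ℕ} {S : Finset Pt} {X : Finset Edge} (h : Good n S X) {a b : Pt}
    (ha : a ∈ S) (hb : b ∈ S) : Relation.ReflTransGen (fun u w => NN u w ∧ w ∈ S) a b := by
  have := conn_of_topConn h.eS_top (h.conn a ha) (h.conn b hb)
  refine rtg_mono ?_ this
  rintro u w ⟨d, k, rfl⟩
  refine ⟨⟨d, rfl⟩, ?_⟩
  obtain ⟨k1, k2⟩ := mem_sdiff.1 k
  by_contra k3
  exact k2 (mem_union_left _ (inc_mem_eS.2 ⟨inc_mem_ebox.1 k1, Or.inr k3⟩))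

theorem net_le {n : ℕ} {E E' : Finset Edge} (h : E' ⊆ E) : (net n E').Le (net n E) :=
  ⟨fun _ _ k => ⟨k.1, k.2.1, h k.2.2⟩, fun _ _ k => ⟨k.1, k.2.1, h k.2.2⟩⟩

theorem Dir.exists_iff {P : Dir → Prop} : (∃ d, P d) ↔ P .N ∨ P .E ∨ P .S ∨ P .W :=
  ⟨fun ⟨d, h⟩ => by cases d <;> simp [h], fun h => by rcases h with h | h | h | h <;> exact ⟨_, h⟩⟩

theorem Dir.forall_iff {P : Dir → Prop} : (∀ d, P d) ↔ P .N ∧ P .E ∧ P .S ∧ P .W :=
  ⟨fun h => ⟨h _, h _, h _, h _⟩, fun h d => by cases d <;> simp [h]⟩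

theorem nrm_eq_iff {z : Pt} {r : ℤ} : nrm z = r ↔ (-r ≤ z.1 ∧ z.1 ≤ r ∧ -r ≤ z.2 ∧ z.2 ≤ r) ∧
    (z.1 = r ∨ z.1 = -r ∨ z.2 = r ∨ z.2 = -r) := by
  rw [le_antisymm_iff, nrm_le_iff, ← not_lt (a := nrm z), nrm_lt_iff]; omega

theorem far_net {n : ℕ} {E : Finset Edge} (h : SC n E) : Far (net n E) := by
  intro q d c l hq hl
  have out : ∀ q0, q0 ∉ intr n → nrm (q0 - c) ≤ l →
      ∃ q' d', nrm (q' - c) = l ∧ ¬ (net n E).mv q' d' := by
    intro q0 h0 h1
    rw [nrm_le_iff] at h1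
    simp only [Prod.fst_sub, Prod.snd_sub] at h1
    have : ∃ q', q' ∉ intr n ∧ nrm (q' - c) = l := by
      simp only [mem_intr, nrm_eq_iff, Prod.fst_sub, Prod.snd_sub] at h0 ⊢
      by_cases k1 : q0.1 < 1
      · exact ⟨(c.1 - l, q0.2), by simp only; omega⟩
      by_cases k2 : (n : ℤ) ≤ q0.1
      · exact ⟨(c.1 + l, q0.2), by simp only; omega⟩
      by_cases k3 : q0.2 < 1
      · exact ⟨(q0.1, c.2 - l), by simp only; omega⟩
      · exact ⟨(q0.1, c.2 + l), by simp only; omega⟩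
    obtain ⟨q', k1, k2⟩ := this
    exact ⟨q', .N, k2, fun k => k1 k.1⟩
  by_cases h1 : q ∈ intr n
  swap; · exact out q h1 (by omega)
  by_cases h2 : q + d.vec ∈ intr n
  swap; · exact out _ h2 (by have := (nrm_step q c d).1; omega)
  obtain ⟨u, hu, hu', hp⟩ := h.conn _ (cr_mem_ebox h1 d) fun k => hq ⟨h1, h2, k⟩
  by_contra hG
  have key : ∀ w, Conn (ebox n \ E) u w →
      ∃ a : Pt, (w = a ∨ w = a + (1, 0) ∨ w = a + (0, 1)) ∧ l < nrm (a - c) := by
    intro w hw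
    induction hw with
    | refl =>
      refine ⟨u, Or.inl rfl, not_le.1 fun k => hG (out u ?_ k)⟩
      rw [mem_intr]; omega
    | @tail x y _ k ih =>
      obtain ⟨a, ha, hl⟩ := ih
      obtain ⟨d', k1, rfl⟩ := k
      obtain ⟨d'', k2⟩ := exists_cr (inc x d')
      have k3 : nrm (ea (inc x d') - c) ≠ l := fun k => hG ⟨_, d'', k, fun m =>
        (mem_sdiff.1 k1).2 (k2 ▸ m.2.2)⟩
      have k4 : nrm (a - ea (inc x d')) ≤ 1 := by
        rw [nrm_le_iff]
        rcases ha with rfl | rfl | rfl <;> cases d' <;> simp [ea, inc]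
      have k5 := nrm_tri a (ea (inc x d')) c
      refine ⟨ea (inc x d'), ?_, by omega⟩
      cases d' <;> simp [ea, inc, Dir.vec, Prod.ext_iff] <;> omega
  obtain ⟨a, ha, hl'⟩ := key _ hp
  have k1 := (corner_cr q d).1
  have k2 : nrm (a - q) ≤ 1 := by
    rw [nrm_le_iff]; unfold Corner at k1
    simp only [Prod.ext_iff, Prod.fst_add, Prod.snd_add, Prod.fst_sub, Prod.snd_sub] at ha ⊢
    omega
  have := nrm_tri a q c
  omega

theorem Corner.exists_cr {v w : Pt} (h : Corner v w) (d : Dir) :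
    (∃ d', cr v d' = inc w d) ∨ ∃ d0 d' : Dir, cr (v + d0.vec) d' = inc w d := by
  obtain ⟨a, b⟩ := v; obtain ⟨x, y⟩ := w
  obtain ⟨h1 | h1, h2 | h2⟩ := h <;> simp only at h1 h2 <;> subst h1 h2 <;> cases d <;>
    simp [Dir.exists_iff, cr, inc, Dir.vec, sub_eq_add_neg]

/-- A forbidden step next to a site that hangs from the top. -/
theorem near1_net {n : ℕ} {E : Finset Edge} {v w : Pt} (h : Corner v w) (hw : TopConn n E w) :
    Near1 (net n E) v := by
  obtain ⟨u, -, hu, hp⟩ := hw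
  rcases hp.cases_tail with rfl | ⟨a, -, d, k, rfl⟩
  · refine ⟨v, .N, fun m => ?_, Or.inl rfl⟩
    have := mem_intr.1 m.2.1
    unfold Corner at h
    simp only [Dir.vec, Prod.snd_add] at this
    omega
  · have k' := (mem_sdiff.1 k).2
    rw [← inc_opp] at k'
    rcases h.exists_cr d.opp with ⟨d', e⟩ | ⟨d0, d', e⟩
    · exact ⟨v, d', fun m => k' (e ▸ m.2.2), Or.inl rfl⟩
    · exact ⟨_, d', fun m => k' (e ▸ m.2.2), Or.inr ⟨d0, rfl⟩⟩

theorem mem_ring {n : ℕ} {w : Pt} : w ∈ ring n ↔ w ∈ box n ∧ OnRing n w := mem_filter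

theorem eS_ring (n : ℕ) : eS n (ring n) = einc (box n \ ring n) := by
  ext ⟨⟨a, b⟩, _ | _⟩ <;>
    simp [mem_eS, mem_ebox, mem_einc, mem_ring, mem_box, OnRing, ea, eb] <;> omega

theorem TopConn.line {n : ℕ} {E : Finset Edge} {w : Pt} (d : Dir) (h : TopConn n E w) (k : ℕ)
    (hk : ∀ i : ℕ, i < k → inc (w + (i : ℤ) • d.vec) d ∈ ebox n ∧ inc (w + (i : ℤ) • d.vec) d ∉ E) :
    TopConn n E (w + (k : ℤ) • d.vec) := by
  induction k with
  | zero => simpa using h
  | succ k ih =>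
    have := (ih fun i hi => hk i (by omega)).step (hk k (by omega)).1 (hk k (by omega)).2
    rwa [Nat.cast_succ, add_smul, one_smul, ← add_assoc]

/-- The ring stays connected when one bottom edge is activated. -/
theorem good_ring {n : ℕ} {p : Pt} (hp : p ∈ intr n) (hp' : p.2 = 1) :
    Good n (ring n) {(p, true)} := by
  obtain ⟨a, b⟩ := p
  simp only at hp'
  subst hp'
  rw [mem_intr] at hp
  simp only at hp
  have col : ∀ x y : ℤ, (x = 1 ∨ x = n) → 1 ≤ y → y ≤ n →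
      TopConn n (eS n (ring n) ∪ {((a, 1), true)}) (x, y) := by
    intro x y hx h1 h2
    obtain ⟨k, rfl⟩ : ∃ k : ℕ, y = n - k := ⟨(n - y).toNat, by omega⟩
    have := (topConn_top (eS n (ring n) ∪ {((a, 1), true)}) (w := (x, n))
      (by rw [mem_box]; simp only; omega) rfl).line .S k fun i hi => by
        simp [mem_eS, mem_ebox, mem_ring, mem_box, OnRing, ea, eb, inc, Dir.vec]; omega
    simpa [Dir.vec, sub_eq_add_neg] using this
  refine ⟨filter_subset _ _, fun w hw h => mem_ring.2 ⟨hw, by simp [OnRing, h]⟩, ?_, ?_⟩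
  · rintro ⟨x, y⟩ hw
    obtain ⟨h1, h2⟩ := mem_ring.1 hw
    have h3 := mem_box.1 h1
    simp only at h3
    rcases h2 with h2 | h2 | h2 | h2
    · exact col x y (Or.inl h2) h3.2.2.1 h3.2.2.2
    · exact col x y (Or.inr h2) h3.2.2.1 h3.2.2.2
    · simp only at h2
      subst h2
      by_cases hx : x ≤ a
      · obtain ⟨k, rfl⟩ : ∃ k : ℕ, x = 1 + k := ⟨(x - 1).toNat, by omega⟩
        have := (col 1 1 (Or.inl rfl) le_rfl h3.2.2.2).line .E k fun i hi => by
          simp [mem_eS, mem_ebox, mem_ring, mem_box, OnRing, ea, eb, inc, Dir.vec]; omega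
        simpa [Dir.vec] using this
      · obtain ⟨k, rfl⟩ : ∃ k : ℕ, x = n - k := ⟨(n - x).toNat, by omega⟩
        have := (col n 1 (Or.inr rfl) le_rfl h3.2.2.2).line .W k fun i hi => by
          simp [mem_eS, mem_ebox, mem_ring, mem_box, OnRing, ea, eb, inc, Dir.vec]; omega
        simpa [Dir.vec, sub_eq_add_neg] using this
    · exact topConn_top _ h1 h2
  · intro e he
    rw [mem_singleton.1 he]
    simp [mem_ebox, mem_ring, mem_box, OnRing, ea, eb]; omega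

end Pool.Agent.P.MP_347bd1_pr
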