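import Pool.Agent.P.MP_347bd1_pr.Stmts2

/-!
The corner estimate.
-/

namespace Pool.Agent.P.MP_347bd1_pr

open Classical Finset
open scoped ENNReal NNReal

/-- The position of the exits. -/
theorem corn_st {n : ℕ} {E : Finset Edge} (hE : SC n E) {z : Pt} {d : Dir}
    (h : (net n E).st z d) : (z.1 = 1 ∧ Col1 (cr z d)) ∨ z.1 + 1 = n ∨ z.2 = 1 := by
  obtain ⟨h1, h2, h3⟩ := h
  have h4 := hE.top _ h3
  obtain ⟨a, b⟩ := z
  rw [mem_intr] at h1 h2
  cases d <;> simp [Dir.vec, cr, ea, eb, Col1] at h1 h2 h4 ⊢ <;> omega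

/-- The sum of the potentials at one scale. -/
theorem corn_sum (h2 : T_CELL) (h3 : T_GREEN) : ∃ A : ℝ, 0 < A ∧ ∀ (N : Net) (o : Pt)
    (V : Finset Pt) (i : ℕ) (β : ℝ), 0 ≤ β → (∀ v ∈ V, Near1 N v) →
    (∀ v ∈ V, nrm (v - o) ≤ 10 * 10 ^ i) →
    (∀ v ∈ V, ∀ z d, 10 * nrm (z - v) ≤ 7 * 10 ^ i → 10 ≤ (10 : ℤ) ^ i → ¬ N.st z d) →
    (∀ z, nrm (z - o) ≤ 20 * 10 ^ i → (hN N z).toReal ≤ β) →
    ∑ v ∈ V, (hN N v).toReal ≤ A * β := by
  obtain ⟨C, hC⟩ := h2
  refine ⟨C * 101 ^ 2 * 27 + 441, by positivity, fun N o V i β hβ k1 k2 k3 k4 => ?_⟩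
  rw [add_mul]
  rcases i with _ | i
  · refine le_add_of_nonneg_of_le (by positivity) ?_
    have c1 : V.card ≤ 441 := (card_le_card fun v hv => mem_ball.2 (k2 v hv)).trans (by
      rw [ball, card_product, Int.card_Icc, Int.card_Icc,
        show o.1 + 10 * 10 ^ 0 + 1 - (o.1 - 10 * 10 ^ 0) = 21 by ring,
        show o.2 + 10 * 10 ^ 0 + 1 - (o.2 - 10 * 10 ^ 0) = 21 by ring]
      rfl)
    refine (sum_le_card_nsmul _ _ β fun v hv => k4 v ((k2 v hv).trans (by norm_num))).trans ?_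
    rw [nsmul_eq_mul]
    exact mul_le_mul_of_nonneg_right (by exact_mod_cast c1) hβ
  · refine le_add_of_le_of_nonneg ?_ (by positivity)
    have p : (1 : ℤ) ≤ 10 ^ i := one_le_pow₀ (by norm_num)
    rw [pow_succ] at k2 k3 k4
    have := hC N o (10 ^ i) 100 V (ENNReal.ofReal β) 27 (fun _ _ => True)
      (one_le_pow₀ (by norm_num)) (fun v hv => by have := k2 v hv; push_cast; omega)
      (fun v hv z d h => k3 v hv z d (by push_cast at h; omega) (by omega))
      (fun v hv z h => (ENNReal.le_ofReal_iff_toReal_le (hN_ne_top _ _) hβ).2 (k4 z (by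
        have := nrm_tri z v o
        have := k2 v hv
        push_cast at h
        omega)))
      fun y => (sum_le_sum fun v _ => ms_mono fun _ h => h.1).trans (h3 N V y k1)
    rw [← ENNReal.toReal_sum fun v _ => hN_ne_top N v]
    refine (ENNReal.toReal_mono (by finiteness) ((sum_le_sum fun v _ => ms_mono fun W h =>
      ⟨h, v, vis_start _ _ _, by simp, trivial⟩).trans this)).trans_eq ?_
    simp [ENNReal.toReal_ofReal hβ]
    norm_num

theorem t_corn (h1 : T_TS0) (h2 : T_CELL) (h3 : T_GREEN) (h4 : T_BEUR) : T_CORN := by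
  intro ε hε
  obtain ⟨A, hA, hs⟩ := corn_sum h2 h3
  obtain ⟨c, c0, c1, hB⟩ := h4
  obtain ⟨ρ, r0, r1, r2⟩ : ∃ ρ : ℝ, 0 ≤ ρ ∧ ρ < 1 ∧ 1 - c = ρ ^ 2 :=
    ⟨√(1 - c), Real.sqrt_nonneg _, by rw [Real.sqrt_lt' one_pos]; linarith,
      (Real.sq_sqrt (by linarith)).symm⟩
  have r3 : 0 < 1 - ρ := by linarith
  obtain ⟨k, hk⟩ := exists_pow_lt_of_lt_one (x := ε * (1 - ρ) / (A * 2)) (by positivity) r1
  refine ⟨100 * 10 ^ k, 100 * 10 ^ k, Nat.succ_le_of_lt (by positivity), fun n hn S hS => ?_⟩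
  have q0 : 0 < 100 * 10 ^ k := by positivity
  obtain ⟨I, hI⟩ : ∃ I, I = Nat.log 10 (n / (100 * 10 ^ k)) := ⟨_, rfl⟩
  have i1 : (100 * (10 ^ k * 10 ^ I) : ℤ) ≤ n := by
    have := (Nat.le_div_iff_mul_le q0).1
      (hI ▸ Nat.pow_log_le_self 10 (Nat.div_pos hn q0).ne' : 10 ^ I ≤ _)
    have e : (10 ^ I * (100 * 10 ^ k) : ℤ) ≤ n := by exact_mod_cast this
    linarith
  have g : ∀ v ∈ (vbase n).filter fun v => ((100 * 10 ^ k : ℕ) : ℤ) * v.1 < n,
      v ∈ intr n ∧ n - v.2 ≤ v.1 + 1 ∧ 100 * v.1 < n ∧ Nat.log 10 v.1.toNat ≤ I := by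
    intro v hv
    obtain ⟨a1, a2⟩ := mem_filter.1 hv
    obtain ⟨a3, z, a4, a5⟩ := mem_filter.1 a1
    have a6 := (mem_filter.1 a4).2.1
    have a7 := (mem_intr.1 a3).1
    have p : (1 : ℤ) ≤ 10 ^ k := one_le_pow₀ (by norm_num)
    refine ⟨a3, by unfold Corner at a5; omega, by push_cast at a2; nlinarith,
      hI ▸ Nat.log_mono_right ((Nat.le_div_iff_mul_le q0).2 ?_)⟩
    zify
    rw [Int.toNat_of_nonneg (by omega), mul_comm]
    exact_mod_cast a2.le
  generalize (vbase n).filter (fun v => ((100 * 10 ^ k : ℕ) : ℤ) * v.1 < n) = V at g ⊢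
  have key : ∀ i ∈ range (I + 1), ∑ v ∈ V.filter (fun v => Nat.log 10 v.1.toNat = i),
      PS n S (ArmF S v) ≤ A * 2 * ρ ^ k * ρ ^ (I - i) := by
    intro i hi
    rw [← sum_filter_of_ne (p := fun v => ∃ z ∈ S, Corner v z) fun v _ h => by
      by_contra m
      exact h (Pr_eq_zero fun M _ a => m a.1)]
    have g' : ∀ v ∈ (V.filter fun v => Nat.log 10 v.1.toNat = i).filter
        fun v => ∃ z ∈ S, Corner v z, (v ∈ intr n ∧ n - v.2 ≤ v.1 + 1 ∧ 100 * v.1 < n) ∧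
          (10 ^ i ≤ v.1 ∧ v.1 < 10 * 10 ^ i) ∧ ∃ z ∈ S, Corner v z := by
      intro v hv
      obtain ⟨a1, a2⟩ := mem_filter.1 hv
      obtain ⟨a3, rfl⟩ := mem_filter.1 a1
      obtain ⟨a4, a5, a6, -⟩ := g v a3
      have a7 := (mem_intr.1 a4).1
      have b1 := Nat.pow_log_le_self 10 (x := v.1.toNat) (by omega)
      have b2 := Nat.lt_pow_succ_log_self (b := 10) (by norm_num) v.1.toNat
      rw [Nat.pow_succ, mul_comm] at b2
      zify at b1 b2
      rw [Int.toNat_of_nonneg (by omega)] at b1 b2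
      exact ⟨⟨a4, a5, a6⟩, ⟨b1, b2⟩, a2⟩
    generalize (V.filter fun v => Nat.log 10 v.1.toNat = i).filter
      (fun v => ∃ z ∈ S, Corner v z) = U at g' ⊢
    rcases U.eq_empty_or_nonempty with rfl | ⟨v0, hv0⟩
    · rw [sum_empty]; positivity
    have sc := (h1 n S v0 hS (g' v0 hv0).1.1).1
    have p : (1 : ℤ) ≤ 10 ^ i := one_le_pow₀ (by norm_num)
    have two : ∀ N z, (hN N z).toReal ≤ 2 := fun N z => by
      simpa using ENNReal.toReal_mono (by simp) (hN_le N z)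
    have s1 : ∀ E ⊆ eS n S, SC n E → ∀ β : ℝ, 0 ≤ β →
        (∀ z, nrm (z - (1, (n : ℤ))) ≤ 20 * 10 ^ i → (hN (net n E) z).toReal ≤ β) →
        ∑ v ∈ U, (hN (net n E) v).toReal ≤ A * β := fun E e1 e2 β b0 b1 => by
      refine hs _ (1, n) U i β b0 (fun v hv => ?_) (fun v hv => ?_) (fun v hv z d a b m => ?_) b1
      · obtain ⟨-, -, z, a1, a2⟩ := g' v hv
        exact near1_net a2 ((hS.conn z a1).mono (e1.trans subset_union_left))
      · obtain ⟨⟨a1, a2, a3⟩, a4, -⟩ := g' v hv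
        rw [mem_intr] at a1
        rw [nrm_le_iff, Prod.fst_sub, Prod.snd_sub]
        dsimp only
        omega
      · obtain ⟨⟨a1, a2, a3⟩, a4, -⟩ := g' v hv
        have a5 := nrm_le_iff.1 (le_refl (nrm (z - v)))
        have a6 := (corn_st e2 m).imp_left And.left
        rw [Prod.fst_sub, Prod.snd_sub] at a5
        omega
    have s2 := hB (net n _) (fun z => (hN (net n ((eS n S).filter fun e => ¬ Col1 e)) z).toReal)
      (1, n) (20 * 10 ^ i) (k + (I - i)) 2 (far_net sc) (by zify; omega) zero_le_two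
      ⟨(1, n), .N, fun m => by have := (mem_intr.1 m.1).2.2.2; simp at this,
        by rw [sub_self, nrm_zero]; push_cast; omega⟩
      (fun z hz => by
        rw [hN_toReal_rec, sum_eq_zero fun d _ => if_neg fun m => ?_, zero_add]
        have a1 := (corn_st sc m).resolve_left fun a => (mem_filter.1 m.2.2).2 a.2
        have a2 : (10 : ℤ) ^ (k + (I - i)) * ((20 * 10 ^ i : ℕ) : ℤ) = 20 * (10 ^ k * 10 ^ I) := by
          obtain ⟨j, rfl⟩ := Nat.exists_eq_add_of_le (Nat.lt_succ_iff.1 (mem_range.1 hi))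
          rw [Nat.add_sub_cancel_left]
          push_cast
          ring
        have a3 : (1 : ℤ) ≤ 10 ^ k * 10 ^ I := one_le_mul_of_one_le_of_one_le
          (one_le_pow₀ (by norm_num)) (one_le_pow₀ (by norm_num))
        rw [a2, nrm_lt_iff, Prod.fst_sub, Prod.snd_sub] at hz
        dsimp only at hz
        omega) fun z _ => two _ z
    have s3 := s1 _ (filter_subset _ _) sc _ (by rw [r2]; positivity)
      fun z hz => s2 z (by exact_mod_cast hz)
    have s4 := s1 _ le_rfl hS.sc_eS 2 zero_le_two fun z _ => two _ z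
    refine (sum_le_sum fun v hv => (h1 n S v hS (g' v hv).1.1).2).trans
      ((Real.sum_sqrt_mul_sqrt_le U (fun _ => ENNReal.toReal_nonneg)
        fun _ => ENNReal.toReal_nonneg).trans ((mul_le_mul (Real.sqrt_le_sqrt s3)
          (Real.sqrt_le_sqrt s4) (Real.sqrt_nonneg _) (Real.sqrt_nonneg _)).trans_eq ?_))
    rw [r2, show A * ((ρ ^ 2) ^ (k + (I - i)) * 2) = (ρ ^ (k + (I - i))) ^ 2 * (A * 2) by ring,
      Real.sqrt_mul (sq_nonneg _), Real.sqrt_sq (by positivity), mul_assoc,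
      Real.mul_self_sqrt (by positivity)]
    ring
  rw [← sum_fiberwise_of_maps_to (g := fun v : Pt => Nat.log 10 v.1.toNat) (t := range (I + 1))
    fun v hv => mem_range.2 (Nat.lt_succ_of_le (g v hv).2.2.2)]
  refine (sum_le_sum key).trans ?_
  rw [← mul_sum, sum_flip (ρ ^ ·)]
  have e := (summable_geometric_of_lt_one r0 r1).sum_le_tsum (range (I + 1)) fun _ _ => by positivity
  rw [tsum_geometric_of_lt_one r0 r1] at e
  rw [lt_div_iff₀ (by positivity)] at hk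
  refine (mul_le_mul_of_nonneg_left e (by positivity)).trans ?_
  rw [← div_eq_mul_inv, div_le_iff₀ r3]
  linarith

end Pool.Agent.P.MP_347bd1_pr
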