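import Pool.Agent.P.MP_347bd1_pr.Basic

/-!
Killed walks on a network: words, weights, potentials, the maximum principle.
-/

namespace Pool.Agent.P.MP_347bd1_pr

open Classical Finset
open scoped ENNReal NNReal

variable {N N' : Net} {R R' : Set Pt} {p q r z : Pt} {W W' : List Dir}

theorem endp_append (p : Pt) (W W' : List Dir) : endp p (W ++ W') = endp (endp p W) W' := by
  induction W generalizing p with
  | nil => rfl
  | cons d W ih => exact ih _

theorem Al.endp_eq (h : Al N R p W q) : endp p W = q := by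
  induction h with
  | nil => rfl
  | move _ _ _ ih => exact ih
  | bounce _ _ _ ih => simpa [endp] using ih

theorem Al.mono (h : Al N R p W q) (hR : R ⊆ R') : Al N R' p W q := by
  induction h with
  | nil => exact .nil _
  | move h1 h2 _ ih => exact .move (hR h1) h2 ih
  | bounce h1 h2 _ ih => exact .bounce (hR h1) h2 ih

theorem Al.univ (h : Al N R p W q) : Al N Set.univ p W q := h.mono (Set.subset_univ _)

theorem Al.le (h : Al N' R p W q) (hN : N'.Le N) : Al N Set.univ p W q := by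
  induction h with
  | nil => exact .nil _
  | move _ h2 _ ih => exact .move trivial (hN.1 _ _ h2) ih
  | @bounce p q d W _ _ _ ih =>
    by_cases k : N.mv p d
    · exact .move trivial k (.move trivial (N.symm _ _ k) (by simpa using ih))
    · exact .bounce trivial k ih

theorem Al.append (h : Al N R p W q) (h' : Al N R q W' r) : Al N R p (W ++ W') r := by
  induction h with
  | nil => exact h'
  | move h1 h2 _ ih => exact .move h1 h2 (ih h')
  | bounce h1 h2 _ ih => exact .bounce h1 h2 (ih h')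

theorem al_nil : Al N R p [] q ↔ q = p := ⟨fun h => h.endp_eq.symm, fun h => h ▸ .nil _⟩

theorem al_cons_mv {d : Dir} (h : N.mv p d) :
    Al N R p (d :: W) q ↔ p ∈ R ∧ Al N R (p + d.vec) W q :=
  ⟨fun k => by
    cases k with
    | move h1 _ h3 => exact ⟨h1, h3⟩
    | bounce _ h2 _ => exact absurd h h2, fun k => .move k.1 h k.2⟩

theorem al_cons_not {d : Dir} (h : ¬ N.mv p d) :
    Al N R p (d :: W) q ↔ p ∈ R ∧ ∃ W', W = d.opp :: W' ∧ Al N R p W' q :=
  ⟨fun k => by
    cases k with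
    | move _ h2 _ => exact absurd h2 h
    | bounce h1 _ h3 => exact ⟨h1, _, rfl, h3⟩, fun ⟨k1, _, k2, k3⟩ => k2 ▸ .bounce k1 h k3⟩

/-- Splitting a living walk at a living prefix. -/
theorem Al.det (h : Al N R p W q) (h' : Al N R' p (W ++ W') r) :
    Al N R' p W q ∧ Al N R' q W' r := by
  induction h with
  | nil => exact ⟨.nil _, h'⟩
  | move _ h2 _ ih =>
    obtain ⟨k1, k2⟩ := (al_cons_mv h2).1 h'
    exact ⟨.move k1 h2 (ih k2).1, (ih k2).2⟩
  | bounce _ h2 _ ih =>
    obtain ⟨k1, W'', k2, k3⟩ := (al_cons_not h2).1 h'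
    obtain rfl := List.tail_eq_of_cons_eq k2
    exact ⟨.bounce k1 h2 (ih k3).1, (ih k3).2⟩

theorem Al.start_mem (h : Al N R p W q) (hW : W ≠ []) : p ∈ R := by
  cases h with
  | nil => exact absurd rfl hW
  | move h _ _ => exact h
  | bounce h _ _ => exact h

/-- The constraint `R` concerns all visited points except the last one. -/
theorem al_iff : Al N R p W q ↔ Al N Set.univ p W q ∧
    ∀ W1 W2 z, W = W1 ++ W2 → W2 ≠ [] → Al N Set.univ p W1 z → z ∈ R := by
  refine ⟨fun h => ⟨h.univ, ?_⟩, ?_⟩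
  · rintro W1 W2 z rfl h2 h3
    exact (h3.det h).2.start_mem h2
  · rintro ⟨h, k⟩
    induction h with
    | nil => exact .nil _
    | @move p q d W _ h2 _ ih =>
      exact .move (k [] _ p rfl (by simp) (.nil _)) h2
        (ih fun W1 W2 z e h4 h5 => k (d :: W1) W2 z (by simp [e]) h4 (.move trivial h2 h5))
    | @bounce p q d W _ h2 _ ih =>
      exact .bounce (k [] _ p rfl (by simp) (.nil _)) h2 (ih fun W1 W2 z e h4 h5 =>
        k (d :: d.opp :: W1) W2 z (by simp [e]) h4 (.bounce trivial h2 h5))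

/-- The reversed word. -/
def rev (W : List Dir) : List Dir := W.reverse.map Dir.opp

@[simp] theorem rev_nil : rev [] = [] := rfl

theorem rev_append (W W' : List Dir) : rev (W ++ W') = rev W' ++ rev W := by simp [rev]

theorem rev_cons (d : Dir) (W : List Dir) : rev (d :: W) = rev W ++ [d.opp] := by simp [rev]

@[simp] theorem rev_rev (W : List Dir) : rev (rev W) = W := by
  simp [rev, Function.comp_def]

@[simp] theorem length_rev (W : List Dir) : (rev W).length = W.length := by simp [rev]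

theorem Al.rev (h : Al N Set.univ p W q) : Al N Set.univ q (rev W) p := by
  induction h with
  | nil => exact .nil _
  | move _ h2 _ ih =>
    rw [rev_cons]
    exact ih.append (.move trivial (N.symm _ _ h2) (by simpa using .nil _))
  | bounce _ h2 _ ih =>
    rw [rev_cons, rev_cons, List.append_assoc, Dir.opp_opp]
    exact ih.append (.bounce trivial h2 (.nil _))

theorem vis_start (N : Net) (p : Pt) (W : List Dir) : Vis N p W p := ⟨[], W, rfl, .nil _⟩

theorem Al.vis_end (h : Al N R p W q) : Vis N p W q := ⟨W, [], by simp, h.univ⟩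

theorem Vis.append_left (h : Vis N p W z) (W' : List Dir) : Vis N p (W ++ W') z := by
  obtain ⟨W1, W2, rfl, h⟩ := h
  exact ⟨W1, W2 ++ W', by simp, h⟩

theorem Vis.append_right (h : Vis N q W' z) (k : Al N R p W q) : Vis N p (W ++ W') z := by
  obtain ⟨W1, W2, rfl, h⟩ := h
  exact ⟨W ++ W1, W2, by simp, k.univ.append h⟩

theorem vis_append (k : Al N R p W q) : Vis N p (W ++ W') z ↔ Vis N p W z ∨ Vis N q W' z := by
  refine ⟨?_, fun h => h.elim (·.append_left _) (·.append_right k)⟩
  rintro ⟨W1, W2, e, h⟩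
  rcases List.append_eq_append_iff.1 e with ⟨W3, rfl, rfl⟩ | ⟨W3, rfl, rfl⟩
  · exact Or.inr ⟨W3, W2, rfl, (k.det h).2⟩
  · exact Or.inl ⟨W1, W3, rfl, h⟩

theorem Vis.le (h : Vis N' p W z) (hN : N'.Le N) : Vis N p W z := by
  obtain ⟨W1, W2, e, h⟩ := h
  exact ⟨W1, W2, e, h.le hN⟩

theorem Vis.rev (h : Vis N p W z) (k : Al N Set.univ p W q) : Vis N q (rev W) z := by
  obtain ⟨W1, W2, rfl, h⟩ := h
  exact ⟨_, _, rev_append _ _, (h.det k).2.rev⟩

theorem Al.vis_mem (k : Al N R p W q) (h : Vis N p W z) : z ∈ R ∨ z = q := by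
  obtain ⟨W1, W2, rfl, h⟩ := h
  by_cases e : W2 = []
  · subst e
    exact Or.inr (al_nil.1 (h.det k).2).symm
  · exact Or.inl ((h.det k).2.start_mem e)

/-- Decomposition at the first visit of `T`. -/
theorem Vis.first {T : Set Pt} (h : Vis N p W z) (hz : z ∈ T) :
    ∃ W1 W2 y, W = W1 ++ W2 ∧ Al N Tᶜ p W1 y ∧ y ∈ T := by
  obtain ⟨W1, W2, rfl, h⟩ := h
  induction h with
  | nil p => exact ⟨[], _, p, rfl, .nil _, hz⟩
  | @move p q d W _ h2 _ ih =>
    by_cases k : p ∈ T
    · exact ⟨[], _, p, rfl, .nil _, k⟩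
    · obtain ⟨W3, W4, y, e, k1, k2⟩ := ih hz
      exact ⟨d :: W3, W4, y, by simp [e], .move k h2 k1, k2⟩
  | @bounce p q d W _ h2 _ ih =>
    by_cases k : p ∈ T
    · exact ⟨[], _, p, rfl, .nil _, k⟩
    · obtain ⟨W3, W4, y, e, k1, k2⟩ := ih hz
      exact ⟨d :: d.opp :: W3, W4, y, by simp [e], .bounce k h2 k1, k2⟩

/-- The first exit from `R` is unique. -/
theorem Al.exit_unique {W1 W2 W1' W2' : List Dir} {y y' : Pt} (h : Al N R p W1 y) (hy : y ∉ R)
    (h' : Al N R p W1' y') (hy' : y' ∉ R) (e : W1 ++ W2 = W1' ++ W2') : W1 = W1' := by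
  rcases List.append_eq_append_iff.1 e with ⟨W3, rfl, -⟩ | ⟨W3, rfl, -⟩
  · by_cases k : W3 = []
    · simp [k]
    · exact absurd ((h.det h').2.start_mem k) hy
  · by_cases k : W3 = []
    · simp [k]
    · exact absurd ((h'.det h).2.start_mem k) hy'

/-- A walk visits all intermediate spheres. -/
theorem Vis.ivt (h : Vis N p W z) (c : Pt) {l : ℤ} (h1 : nrm (p - c) ≤ l) (h2 : l ≤ nrm (z - c)) :
    ∃ y, Vis N p W y ∧ nrm (y - c) = l := by
  obtain ⟨W1, W2, rfl, h⟩ := h
  induction h with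
  | nil p => exact ⟨p, vis_start _ _ _, le_antisymm h1 h2⟩
  | @move p q d W _ k _ ih =>
    rcases h1.eq_or_lt with e | e
    · exact ⟨p, vis_start _ _ _, e⟩
    · obtain ⟨y, k1, k2⟩ := ih (by have := (nrm_step p c d).1; omega) h2
      exact ⟨y, k1.append_right (W := [d]) (R := Set.univ) (.move trivial k (.nil _)), k2⟩
  | @bounce p q d W _ k _ ih =>
    obtain ⟨y, k1, k2⟩ := ih h1 h2
    exact ⟨y, k1.append_right (W := [d, d.opp]) (R := Set.univ) (.bounce trivial k (.nil _)), k2⟩

theorem Run.le (h : Run N' p W) (hN : N'.Le N) : Run N p W := by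
  obtain ⟨W0, q, d, e, h1, h2⟩ := h
  exact ⟨W0, q, d, e, h1.le hN, hN.2 _ _ h2⟩

theorem Al.append_run (h : Al N R p W q) (h' : Run N q W') : Run N p (W ++ W') := by
  obtain ⟨W0, r, d, rfl, h1, h2⟩ := h'
  exact ⟨W ++ W0, r, d, by simp, h.univ.append h1, h2⟩

/-- The rest of a run after a living prefix is a run. -/
theorem Run.split (h : Run N p (W ++ W')) (k : Al N R p W q) : Run N q W' := by
  obtain ⟨W0, r, d, e, h1, h2⟩ := h
  rcases List.append_eq_append_iff.1 e with ⟨W3, rfl, rfl⟩ | ⟨W3, rfl, e'⟩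
  · exact ⟨W3, r, d, rfl, (k.det h1).2, h2⟩
  · have k1 := (h1.det k).2
    rcases W3 with _ | ⟨d', W3⟩
    · obtain rfl := al_nil.1 k1
      exact ⟨[], q, d, e'.symm, .nil _, h2⟩
    · obtain ⟨rfl, e2⟩ := List.cons_eq_cons.1 e'
      obtain ⟨-, W4, rfl, -⟩ := (al_cons_not fun m => N.disj _ _ m h2).1 k1
      simp at e2

/-! ### Weights -/

@[simp] theorem wt_nil : wt [] = 1 := by simp [wt]

theorem wt_cons (d : Dir) (W : List Dir) : wt (d :: W) = 4⁻¹ * wt W := by
  simp [wt, pow_succ']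

theorem wt_append (W W' : List Dir) : wt (W ++ W') = wt W * wt W' := by simp [wt, pow_add]

@[simp] theorem wt_rev (W : List Dir) : wt (rev W) = wt W := by simp [wt]

theorem wt_ne_top (W : List Dir) : wt W ≠ ∞ := ENNReal.pow_ne_top (by simp)

variable {A B C : List Dir → Prop}

theorem ms_mono (h : ∀ W, A W → B W) : ms A ≤ ms B :=
  ENNReal.tsum_le_tsum fun W => by by_cases k : A W <;> simp [k, h W]

theorem ms_congr (h : ∀ W, A W ↔ B W) : ms A = ms B :=
  le_antisymm (ms_mono fun W => (h W).1) (ms_mono fun W => (h W).2)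

theorem ms_eq_zero (h : ∀ W, ¬ A W) : ms A = 0 := by simp [ms, h]

theorem ms_add_not (A B : List Dir → Prop) :
    ms A = ms (fun W => A W ∧ B W) + ms fun W => A W ∧ ¬ B W := by
  simp only [ms, ← ENNReal.tsum_add]
  exact tsum_congr fun W => by by_cases h : A W <;> by_cases k : B W <;> simp [h, k]

theorem ms_or_le : ms (fun W => A W ∨ B W) ≤ ms A + ms B := by
  rw [ms_add_not _ A]
  exact add_le_add (ms_mono fun _ h => h.2) (ms_mono fun _ h => h.1.resolve_left h.2)

theorem ms_exists_le' {ι : Type*} (A : ι → List Dir → Prop) :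
    ms (fun W => ∃ i, A i W) ≤ ∑' i, ms (A i) := by
  simp only [ms]
  rw [ENNReal.tsum_comm]
  refine ENNReal.tsum_le_tsum fun W => ?_
  split_ifs with h
  · obtain ⟨i, h⟩ := h
    exact le_trans (by simp [h]) (ENNReal.le_tsum i)
  · exact zero_le

theorem ms_exists_le {ι : Type*} (s : Finset ι) (A : ι → List Dir → Prop) :
    ms (fun W => ∃ i ∈ s, A i W) ≤ ∑ i ∈ s, ms (A i) := by
  induction s using Finset.induction_on with
  | empty => simp [ms]
  | insert i s hi ih =>
    rw [sum_insert hi]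
    refine le_trans (ms_mono (B := fun W => A i W ∨ ∃ j ∈ s, A j W) fun W h => ?_)
      (ms_or_le.trans (add_le_add le_rfl ih))
    simpa using h

theorem ms_rev (A : List Dir → Prop) : ms (fun W => A (rev W)) = ms A := by
  let e : List Dir ≃ List Dir := ⟨rev, rev, rev_rev, rev_rev⟩
  rw [ms, ms, ← e.tsum_eq (fun W => if A W then wt W else 0)]
  exact tsum_congr fun W => by simp [e]

/-- Concatenation bound. -/
theorem ms_concat {B : List Dir → List Dir → Prop}
    (h : ∀ W, C W → ∃ W1 W2, W = W1 ++ W2 ∧ A W1 ∧ B W1 W2) :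
    ms C ≤ ∑' W1, if A W1 then wt W1 * ms (B W1) else 0 := by
  refine le_trans (ms_mono (B := fun W => ∃ W1, A W1 ∧ ∃ W2, W = W1 ++ W2 ∧ B W1 W2)
    fun W k => ?_) ((ms_exists_le' _).trans (ENNReal.tsum_le_tsum fun W1 => ?_))
  · obtain ⟨W1, W2, k1, k2, k3⟩ := h W k
    exact ⟨W1, k2, W2, k1, k3⟩
  split_ifs with k
  · refine le_trans (ms_mono (B := fun W => ∃ W2, W = W1 ++ W2 ∧ B W1 W2) fun W m => m.2)
      ((ms_exists_le' _).trans ?_)
    rw [ms, ← ENNReal.tsum_mul_left]
    refine ENNReal.tsum_le_tsum fun W2 => ?_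
    rw [ms, tsum_eq_single (W1 ++ W2) fun W m => by simp [m]]
    by_cases m : B W1 W2 <;> simp [m, wt_append]
  · exact (ms_eq_zero fun W m => k m.1).le

/-- Strong Markov bound at the exit from `R`. -/
theorem ms_exit_le {B : Pt → List Dir → Prop}
    (h : ∀ W, C W → ∃ W1 W2 y, W = W1 ++ W2 ∧ Al N R p W1 y ∧ y ∉ R ∧ B y W2) :
    ms C ≤ Kn N R (fun y => if y ∈ R then 0 else ms (B y)) p := by
  refine (ms_concat (A := fun W1 => Al N R p W1 (endp p W1) ∧ endp p W1 ∉ R)
    (B := fun W1 => B (endp p W1)) fun W k => ?_).trans (ENNReal.tsum_le_tsum fun W1 => ?_)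
  · obtain ⟨W1, W2, y, k1, k2, k3, k4⟩ := h W k
    obtain rfl := k2.endp_eq
    exact ⟨W1, W2, k1, ⟨k2, k3⟩, k4⟩
  · by_cases k1 : Al N R p W1 (endp p W1) <;> by_cases k2 : endp p W1 ∈ R <;> simp [k1, k2]

theorem tsum_list (f : List Dir → ℝ≥0∞) : ∑' W, f W = f [] + ∑ d, ∑' W, f (d :: W) := by
  rw [ENNReal.tsum_eq_add_tsum_ite [], ← tsum_fintype (L := .unconditional _), ← ENNReal.tsum_prod
    (f := fun d W => f (d :: W))]
  congr 1
  rw [← Function.Injective.tsum_eq (g := fun x : Dir × List Dir => x.1 :: x.2)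
    (fun x y h => Prod.ext (List.cons_eq_cons.1 h).1 (List.cons_eq_cons.1 h).2)]
  · simp
  · rintro (_ | ⟨d, W⟩) h
    · simp at h
    · exact ⟨(d, W), rfl⟩

variable {a a' f g : Pt → ℝ≥0∞}

theorem tsum_al_cons (φ : List Dir → Prop) [DecidablePred φ] (p : Pt) (d : Dir) :
    (∑' W, if Al N R p (d :: W) (endp p (d :: W)) ∧ φ (d :: W) then
      wt (d :: W) * a (endp p (d :: W)) else 0) = if p ∈ R then if N.mv p d then
      4⁻¹ * ∑' W, if Al N R (p + d.vec) W (endp (p + d.vec) W) ∧ φ (d :: W) then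
        wt W * a (endp (p + d.vec) W) else 0
    else 16⁻¹ * ∑' W, if Al N R p W (endp p W) ∧ φ (d :: d.opp :: W) then wt W * a (endp p W) else 0
    else 0 := by
  split_ifs with h1 h2
  · rw [← ENNReal.tsum_mul_left]
    exact tsum_congr fun W => by simp [al_cons_mv h2, h1, endp, wt_cons, mul_assoc]
  · rw [← ENNReal.tsum_mul_left, ← Function.Injective.tsum_eq (g := fun W => d.opp :: W)
      (fun x y h => List.tail_eq_of_cons_eq h)]
    · have e : (16⁻¹ : ℝ≥0∞) = 4⁻¹ * 4⁻¹ := by
        rw [← ENNReal.mul_inv (by simp) (by simp)]; norm_num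
      exact tsum_congr fun W => by simp [al_cons_not h2, h1, endp, wt_cons, mul_assoc, e]
    · intro W h
      by_contra k
      refine h (if_neg fun m => k ?_)
      obtain ⟨-, W', rfl, -⟩ := (al_cons_not h2).1 m.1
      exact ⟨W', rfl⟩
  · exact ENNReal.tsum_eq_zero.2 fun W => if_neg fun m => h1 (m.1.start_mem (by simp))

theorem Kn_rec (N : Net) (R : Set Pt) (a : Pt → ℝ≥0∞) (p : Pt) :
    Kn N R a p = a p + if p ∈ R then N.Pe (Kn N R a) p else 0 := by
  rw [Kn, tsum_list]
  congr 1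
  · simp [endp, al_nil]
  · have := fun d => tsum_al_cons (N := N) (R := R) (a := a) (fun _ => True) p d
    simp only [and_true] at this
    simp only [this]
    split_ifs
    · rfl
    · simp

theorem Kn_of_notMem (h : p ∉ R) : Kn N R a p = a p := by rw [Kn_rec]; simp [h]

theorem le_Kn (N : Net) (R : Set Pt) (a : Pt → ℝ≥0∞) (p : Pt) : a p ≤ Kn N R a p := by
  rw [Kn_rec]; exact le_self_add

theorem Net.Pe_mono (h : ∀ z, f z ≤ g z) (p : Pt) : N.Pe f p ≤ N.Pe g p :=
  sum_le_sum fun d _ => by split_ifs <;> exact mul_le_mul_right (h _) _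

/-- Every supersolution dominates the potential. -/
theorem Kn_le (h : ∀ z, a z + (if z ∈ R then N.Pe f z else 0) ≤ f z) (p : Pt) :
    Kn N R a p ≤ f p := by
  have key : ∀ (m : ℕ) (p : Pt), (∑' W, if Al N R p W (endp p W) ∧ W.length < m then
      wt W * a (endp p W) else 0) ≤ f p := by
    intro m
    induction m using Nat.strong_induction_on with
    | _ m ih =>
      intro p
      rcases m with _ | m
      · simp
      rw [tsum_list]
      refine le_trans (add_le_add (by simp [endp, al_nil]) ?_) (h p)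
      simp only [tsum_al_cons (N := N) (R := R) (a := a) (fun W => W.length < m + 1) p]
      split_ifs
      · refine sum_le_sum fun d _ => ?_
        split_ifs
        · exact mul_le_mul_right (by simpa using ih m (by omega) _) _
        · refine mul_le_mul_right (le_trans (ENNReal.tsum_le_tsum fun W => ?_)
            (ih m (by omega) p)) _
          split_ifs with k1 k2
          · rfl
          · exact absurd ⟨k1.1, by have := k1.2; simp at this; omega⟩ k2
          · exact zero_le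
          · rfl
      · simp
  rw [Kn, ENNReal.tsum_eq_iSup_sum]
  refine iSup_le fun s => le_trans ?_ (key (s.sup List.length + 1) p)
  refine le_trans (sum_le_sum fun W hW => ?_) (ENNReal.sum_le_tsum s)
  have : W.length < s.sup List.length + 1 := Nat.lt_succ_of_le (le_sup hW)
  simp [this]

theorem Kn_mono (hR : R ⊆ R') (h : ∀ z, a z ≤ a' z) (p : Pt) : Kn N R a p ≤ Kn N R' a' p :=
  ENNReal.tsum_le_tsum fun W => by
    by_cases k : Al N R p W (endp p W)
    · simp only [k, k.mono hR, if_true]; exact mul_le_mul_right (h _) _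
    · simp [k]

theorem Kn_add (a a' : Pt → ℝ≥0∞) (p : Pt) :
    Kn N R (fun z => a z + a' z) p = Kn N R a p + Kn N R a' p := by
  simp only [Kn, ← ENNReal.tsum_add]
  exact tsum_congr fun W => by split_ifs <;> simp [mul_add]

theorem Kn_mul (c : ℝ≥0∞) (a : Pt → ℝ≥0∞) (p : Pt) :
    Kn N R (fun z => c * a z) p = c * Kn N R a p := by
  simp only [Kn, ← ENNReal.tsum_mul_left]
  exact tsum_congr fun W => by split_ifs <;> simp [mul_left_comm]

/-- The potential in terms of the Green function. -/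
theorem Kn_eq_tsum (a : Pt → ℝ≥0∞) (p : Pt) :
    Kn N R a p = ∑' y, ms (fun W => Al N R p W y) * a y := by
  simp only [Kn, ms, ← ENNReal.tsum_mul_right]
  rw [ENNReal.tsum_comm]
  refine tsum_congr fun W => ?_
  rw [tsum_eq_single (endp p W) fun y k => by rw [if_neg fun m => k m.endp_eq.symm, zero_mul]]
  split_ifs <;> simp

theorem hN_eq_Kn (N : Net) (p : Pt) : hN N p = Kn N Set.univ N.stw p := by
  rw [hN, ms, ← Function.Injective.tsum_eq (g := fun x : List Dir × Dir => x.1 ++ [x.2])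
    (fun x y h => Prod.ext (List.append_inj_left' h rfl)
      (by simpa using List.append_inj_right' h rfl))]
  · rw [ENNReal.tsum_prod', Kn]
    refine tsum_congr fun W => ?_
    have : ∀ d, Run N p (W ++ [d]) ↔ Al N Set.univ p W (endp p W) ∧ N.st (endp p W) d := by
      refine fun d => ⟨?_, fun h => ⟨W, _, d, rfl, h.1, h.2⟩⟩
      rintro ⟨W0, q, d', e, h1, h2⟩
      obtain rfl := List.append_inj_left' e rfl
      obtain rfl : d = d' := by simpa using e
      exact h1.endp_eq.symm ▸ ⟨h1, h2⟩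
    rw [tsum_fintype]
    simp only [this, Net.stw, mul_sum]
    split_ifs with h
    · exact sum_congr rfl fun d _ => by simp [h, wt_append, wt_cons]
    · simp [h]
  · intro W h
    by_contra k
    refine h (if_neg fun ⟨W0, q, d, e, _⟩ => k ⟨(W0, d), e.symm⟩)

theorem hN_rec (N : Net) (p : Pt) : hN N p = N.stw p + N.Pe (hN N) p := by
  have : hN N = Kn N Set.univ N.stw := funext (hN_eq_Kn N)
  rw [this, Kn_rec]; simp

theorem hN_le (N : Net) (p : Pt) : hN N p ≤ 2 := by
  rw [hN_eq_Kn]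
  refine Kn_le (f := fun _ => 2) (fun z => ?_) p
  simp only [Set.mem_univ, if_true, Net.stw, Net.Pe, ← sum_add_distrib]
  have e : (2 : ℝ≥0∞) = ∑ _d : Dir, 4⁻¹ * 2 := by
    rw [sum_dir, ← add_mul, ← add_mul, ← add_mul]
    have : (4⁻¹ + 4⁻¹ + 4⁻¹ + 4⁻¹ : ℝ≥0∞) = 4 * 4⁻¹ := by ring
    rw [this, ENNReal.mul_inv_cancel (by simp) (by simp), one_mul]
  refine le_of_le_of_eq (sum_le_sum fun d _ => ?_) e.symm
  by_cases k : N.mv z d
  · simp [k, N.disj _ _ k]
  · have : (16⁻¹ : ℝ≥0∞) * 2 ≤ 4⁻¹ := by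
      rw [← ENNReal.toReal_le_toReal (by finiteness) (by finiteness)]; simp; norm_num
    rw [if_neg k, mul_two (4⁻¹ : ℝ≥0∞)]
    exact add_le_add (by split_ifs <;> simp) this

theorem hN_ne_top (N : Net) (p : Pt) : hN N p ≠ ∞ := ne_top_of_le_ne_top (by simp) (hN_le N p)

theorem hm_le_hN (N : Net) (p : Pt) (A : List Dir → Prop) : hm N p A ≤ hN N p :=
  ms_mono fun _ h => h.1

theorem hN_mono (h : N'.Le N) (p : Pt) : hN N' p ≤ hN N p := ms_mono fun _ k => k.le h

theorem hN_step {d : Dir} (h : N.mv p d) : 4⁻¹ * hN N (p + d.vec) ≤ hN N p := by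
  rw [hN_rec N p]
  refine le_add_left (le_trans ?_ (single_le_sum (f := fun d => if N.mv p d then
    4⁻¹ * hN N (p + d.vec) else 16⁻¹ * hN N p) (fun _ _ => zero_le) (mem_univ d)))
  simp [h]

/-- `hN N` is a supersolution for every subnetwork. -/
theorem hN_super (h : N'.Le N) (p : Pt) : N'.stw p + N'.Pe (hN N) p ≤ hN N p := by
  refine le_of_le_of_eq (add_le_add (sum_le_sum fun d _ => ?_) (sum_le_sum fun d _ => ?_))
    (hN_rec N p).symm
  · by_cases k : N'.st p d <;> simp [k, h.2 p d]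
  · by_cases k : N'.mv p d
    · simp [k, h.1 p d k]
    · by_cases k' : N.mv p d
      · have e : (16⁻¹ : ℝ≥0∞) = 4⁻¹ * 4⁻¹ := by
          rw [← ENNReal.mul_inv (by simp) (by simp)]; norm_num
        rw [if_neg k, if_pos k', e, mul_assoc]
        exact mul_le_mul_right (by simpa using hN_step (N.symm _ _ k')) _
      · simp [k, k']

/-- Stopping `hN N` at the exit from `R`. -/
theorem Kn_exit_le (h : N'.Le N) (R : Set Pt) (p : Pt) :
    Kn N' R (fun z => if z ∈ R then 0 else hN N z) p ≤ hN N p :=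
  Kn_le (fun z => by
    split_ifs
    · simpa using le_add_self.trans (hN_super h z)
    · simp) p

/-! ### Real functions -/

variable {u w : Pt → ℝ}

theorem Net.toReal_Pe (h : ∀ z, f z ≠ ∞) (p : Pt) :
    (N.Pe f p).toReal = N.Pr (fun z => (f z).toReal) p := by
  rw [Net.Pe, ENNReal.toReal_sum fun d _ => by
    split_ifs <;> exact ENNReal.mul_ne_top (by simp) (h _)]
  exact sum_congr rfl fun d _ => by split_ifs <;> simp [div_eq_inv_mul]

theorem Net.Pe_ne_top (h : ∀ z, f z ≠ ∞) (p : Pt) : N.Pe f p ≠ ∞ :=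
  ENNReal.sum_ne_top.2 fun d _ => by split_ifs <;> exact ENNReal.mul_ne_top (by simp) (h _)

theorem Net.Pe_ofReal (h : ∀ z, 0 ≤ u z) (p : Pt) :
    N.Pe (fun z => ENNReal.ofReal (u z)) p = ENNReal.ofReal (N.Pr u p) := by
  rw [← ENNReal.ofReal_toReal (Net.Pe_ne_top (N := N) (fun z => ENNReal.ofReal_ne_top) p),
    Net.toReal_Pe fun z => ENNReal.ofReal_ne_top]
  simp [ENNReal.toReal_ofReal, h]

theorem Net.Pr_nonneg (h : ∀ z, 0 ≤ u z) (p : Pt) : 0 ≤ N.Pr u p :=
  sum_nonneg fun d _ => by split_ifs <;> exact div_nonneg (h _) (by norm_num)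

/-- A real supersolution dominates the potential. -/
theorem Kn_le_ofReal (hu : ∀ z, 0 ≤ u z) (hw : ∀ z, 0 ≤ w z) (ha : ∀ z, a z ≤ ENNReal.ofReal (w z))
    (h : ∀ z, w z + (if z ∈ R then N.Pr u z else 0) ≤ u z) (p : Pt) :
    Kn N R a p ≤ ENNReal.ofReal (u p) :=
  Kn_le (f := fun z => ENNReal.ofReal (u z)) (fun z => by
    refine le_trans ?_ (ENNReal.ofReal_le_ofReal (h z))
    split_ifs
    · rw [Net.Pe_ofReal hu, ENNReal.ofReal_add (hw z) (Net.Pr_nonneg hu z)]
      exact add_le_add (ha z) le_rfl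
    · simpa using ha z) p

theorem hN_toReal_rec (N : Net) (p : Pt) : (hN N p).toReal =
    (∑ d, if N.st p d then 1 / 4 else 0) + N.Pr (fun z => (hN N z).toReal) p := by
  have : N.stw p ≠ ∞ := ne_top_of_le_ne_top (hN_ne_top N p) (by rw [hN_rec]; exact le_self_add)
  rw [hN_rec, ENNReal.toReal_add this (Net.Pe_ne_top (hN_ne_top N) p),
    Net.toReal_Pe (hN_ne_top N), Net.stw, ENNReal.toReal_sum fun d _ => by split_ifs <;> simp]
  congr 1
  exact sum_congr rfl fun d _ => by split_ifs <;> simp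

theorem Net.Pr_eq_avg (h : ∀ d, N.mv p d) : N.Pr u p = avg u p := by
  simp [Net.Pr, avg, h, sum_div]

theorem Net.Pr_sub (u w : Pt → ℝ) (p : Pt) :
    N.Pr (fun z => u z - w z) p = N.Pr u p - N.Pr w p := by
  simp only [Net.Pr, ← sum_sub_distrib]
  exact sum_congr rfl fun d _ => by split_ifs <;> ring

theorem Net.Pr_add (u w : Pt → ℝ) (p : Pt) :
    N.Pr (fun z => u z + w z) p = N.Pr u p + N.Pr w p := by
  simp only [Net.Pr, ← sum_add_distrib]
  exact sum_congr rfl fun d _ => by split_ifs <;> ring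

theorem Net.Pr_mul (c : ℝ) (u : Pt → ℝ) (p : Pt) : N.Pr (fun z => c * u z) p = c * N.Pr u p := by
  simp only [Net.Pr, mul_sum]
  exact sum_congr rfl fun d _ => by split_ifs <;> ring

theorem avg_eq (u : Pt → ℝ) (p : Pt) : avg u p =
    (u (p.1, p.2 + 1) + u (p.1 + 1, p.2) + u (p.1, p.2 - 1) + u (p.1 - 1, p.2)) / 4 := by
  obtain ⟨x, y⟩ := p
  simp [avg, sum_dir, Dir.vec, sub_eq_add_neg]

/-- The comparison principle on a finite set. -/
theorem Net.compare (N : Net) (D : Finset Pt) (h : ∀ z ∈ D, u z - N.Pr u z ≤ w z - N.Pr w z)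
    (hb : ∀ z ∈ D, ∀ d, N.mv z d → z + d.vec ∉ D → u (z + d.vec) ≤ w (z + d.vec)) :
    ∀ z ∈ D, u z ≤ w z := by
  intro z0 hz0
  obtain ⟨z, hz, hm⟩ := exists_max_image D (fun z => toLex (u z - w z, z.1)) ⟨z0, hz0⟩
  have h1 : ∀ y ∈ D, u y - w y ≤ u z - w z := fun y hy => by
    rcases Prod.Lex.toLex_le_toLex.1 (hm y hy) with k | k
    exacts [k.le, k.1.le]
  by_contra k
  have h2 : 0 < u z - w z := by linarith [h1 z0 hz0]
  have h3 : N.Pr (fun z => u z - w z) z < ∑ _d : Dir, (u z - w z) / 4 := by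
    refine sum_lt_sum (fun d _ => ?_) ⟨.E, mem_univ _, ?_⟩
    · split_ifs with m
      · by_cases m' : z + d.vec ∈ D
        · linarith [h1 _ m']
        · linarith [hb z hz d m m']
      · linarith
    · split_ifs with m
      · by_cases m' : z + Dir.E.vec ∈ D
        · rcases Prod.Lex.toLex_le_toLex.1 (hm _ m') with k | k
          · linarith [show u (z + Dir.E.vec) - w (z + Dir.E.vec) < u z - w z from k]
          · have := k.2; simp [Dir.vec] at this
        · linarith [hb z hz _ m m']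
      · linarith
  rw [Net.Pr_sub, sum_dir] at h3
  linarith [h z hz]

/-- The network without obstacles. -/
def Net.free : Net := ⟨fun _ _ => True, fun _ _ => False, fun _ _ _ => trivial, fun _ _ _ => id⟩

/-- The comparison principle for the simple random walk. -/
theorem avg_compare (D : Finset Pt) (h : ∀ z ∈ D, u z - avg u z ≤ w z - avg w z)
    (hb : ∀ z ∈ D, ∀ d : Dir, z + d.vec ∉ D → u (z + d.vec) ≤ w (z + d.vec)) :
    ∀ z ∈ D, u z ≤ w z :=
  Net.free.compare D (fun z hz => by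
    simpa only [Net.Pr_eq_avg (N := Net.free) fun _ => trivial] using h z hz)
    fun z hz d _ => hb z hz d

/-- The ball of the maximum norm. -/
noncomputable def ball (c : Pt) (r : ℤ) : Finset Pt :=
  Icc (c.1 - r) (c.1 + r) ×ˢ Icc (c.2 - r) (c.2 + r)

theorem mem_ball {c z : Pt} {r : ℤ} : z ∈ ball c r ↔ nrm (z - c) ≤ r := by
  simp only [ball, mem_product, mem_Icc, nrm_le_iff, Prod.fst_sub, Prod.snd_sub]; omega

/-! ### Edges crossed an odd number of times -/

theorem odd_deg_Od (p q : Pt) (W : List Dir) :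
    Odd (deg (Od p W) q) ↔ ¬ (q = p ↔ q = endp p W) := by
  induction W generalizing p with
  | nil => simp [Od, endp]
  | cons d W ih =>
    have : q = p → q ≠ p + d.vec := fun h k => d.vec_ne_zero (by simpa [h] using k)
    rw [Od, odd_deg_symmDiff, odd_deg_singleton, ih, endp]
    tauto

theorem Od_append (p : Pt) (W W' : List Dir) :
    Od p (W ++ W') = symmDiff (Od p W) (Od (endp p W) W') := by
  induction W generalizing p with
  | nil => exact (bot_symmDiff _).symm
  | cons d W ih => rw [List.cons_append, Od, ih, Od, endp, symmDiff_assoc]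

theorem Al.mem_Od {e : Edge} (h : Al N R p W q) (he : e ∈ Od p W) :
    ∃ z d, cr z d = e ∧ N.mv z d ∧ z ∈ R ∧ Vis N p W z ∧ Vis N p W (z + d.vec) := by
  induction h with
  | nil => simp [Od] at he
  | @move p q d W h1 h2 _ ih =>
    have k : Al N Set.univ p [d] (p + d.vec) := .move trivial h2 (.nil _)
    rcases mem_symmDiff.1 he with m | m
    · exact ⟨p, d, (mem_singleton.1 m.1).symm, h2, h1, vis_start _ _ _,
        (vis_start _ _ _).append_right k⟩
    · obtain ⟨z, d', k1, k2, k3, k4, k5⟩ := ih m.1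
      exact ⟨z, d', k1, k2, k3, k4.append_right k, k5.append_right k⟩
  | @bounce p q d W _ h2 _ ih =>
    have k : Al N Set.univ p [d, d.opp] p := .bounce trivial h2 (.nil _)
    rw [Od, Od, cr_opp, symmDiff_symmDiff_cancel_left] at he
    obtain ⟨z, d', k1, k2, k3, k4, k5⟩ := ih (by simpa using he)
    exact ⟨z, d', k1, k2, k3, k4.append_right k, k5.append_right k⟩

theorem Run.mem_Od {e : Edge} (h : Run N p W) (he : e ∈ Od p W) :
    ∃ z d, cr z d = e ∧ Vis N p W z ∧ ((N.mv z d ∧ Vis N p W (z + d.vec)) ∨ N.st z d) := by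
  obtain ⟨W0, q, d, rfl, h1, h2⟩ := h
  rw [Od_append, h1.endp_eq] at he
  rcases mem_symmDiff.1 he with m | m
  · obtain ⟨z, d', k1, k2, -, k4, k5⟩ := h1.mem_Od m.1
    exact ⟨z, d', k1, k4.append_left _, Or.inl ⟨k2, k5.append_left _⟩⟩
  · refine ⟨q, d, ?_, h1.vis_end.append_left _, Or.inr h2⟩
    have := m.1
    rw [Od, Od, ← bot_eq_empty, symmDiff_bot, mem_singleton] at this
    exact this.symm

theorem Run.Od_subset {n : ℕ} {E : Finset Edge} (h : Run (net n E) p W) : Od p W ⊆ E := by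
  intro e he
  obtain ⟨z, d, rfl, -, k | k⟩ := h.mem_Od he
  exacts [k.1.2.2, k.2.2]

theorem Run.src_Od {n : ℕ} {E : Finset Edge} (h : Run (net n E) p W) : Src n (Od p W) {p} := by
  obtain ⟨W0, q, d, rfl, h1, h2⟩ := h
  intro z hz
  have : z ≠ endp p (W0 ++ [d]) := by
    rw [endp_append, h1.endp_eq]
    rintro rfl
    exact h2.2.1 hz
  simp [odd_deg_Od, this]

theorem Vis.mem_intr {n : ℕ} {E : Finset Edge} (h : Vis (net n E) p W z) (hp : p ∈ intr n) :
    z ∈ intr n := by
  obtain ⟨W1, W2, -, h⟩ := h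
  induction h with
  | nil => exact hp
  | move _ k _ ih => exact ih k.2.1
  | bounce _ _ _ ih => exact ih hp

end Pool.Agent.P.MP_347bd1_pr
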