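import Pool.Agent.P.MP_347bd1_pr.Stmts2

/-!
Decomposition of a configuration along the plus cluster of the edges `Lf`.
-/

namespace Pool.Agent.P.MP_347bd1_pr

open Classical Finset
open scoped ENNReal NNReal

theorem dec1_sub (n : ℕ) (S : Finset Pt) (Lf : Finset Edge) (M : Finset Pt) :
    Pcl n S Lf M ⊆ (box n \ S) \ M := filter_subset _ _

theorem dec1_start {n : ℕ} {S M : Finset Pt} {Lf : Finset Edge} {u : Pt} {d : Dir}
    (hu : u ∈ (box n \ S) \ M) (h : inc u d ∈ Lf) : u ∈ Pcl n S Lf M :=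
  mem_filter.2 ⟨hu, u, hu, ⟨d, h⟩, Relation.ReflTransGen.refl⟩

theorem dec1_step {n : ℕ} {S M : Finset Pt} {Lf : Finset Edge} {u : Pt} {d : Dir}
    (hu : u ∈ Pcl n S Lf M) (h : u + d.vec ∈ (box n \ S) \ M) : u + d.vec ∈ Pcl n S Lf M := by
  obtain ⟨-, u0, h0, h1, h2⟩ := mem_filter.1 hu
  exact mem_filter.2 ⟨h, u0, h0, h1, h2.tail ⟨⟨d, rfl⟩, h⟩⟩

theorem dec1_key {n : ℕ} {S T M : Finset Pt} {Lf Rg : Finset Edge} (hs : Str2 n S T Lf Rg)
    (hM : M ⊆ box n \ S) (hv : ∀ u ∈ Pcl n S Lf M, ∀ d, inc u d ∉ Rg) :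
    cut (M ∪ T) ∩ eS n S ∩ Dl n Lf (Pcl n S Lf M) = lam n Lf (Pcl n S Lf M) := by
  ext e
  obtain ⟨d, h1, h2⟩ := exists_inc e
  obtain ⟨d', k1, k2⟩ := exists_inc_b e
  have a1 : ea e ∈ Pcl n S Lf M → ea e ∈ (box n \ S) \ M := fun h => dec1_sub n S Lf M h
  have b1 : eb e ∈ Pcl n S Lf M → eb e ∈ (box n \ S) \ M := fun h => dec1_sub n S Lf M h
  have a2 : ea e ∈ (box n \ S) \ M → e ∈ Lf → ea e ∈ Pcl n S Lf M := fun h k =>
    dec1_start h (d := d) (by rwa [h1])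
  have b2 : eb e ∈ (box n \ S) \ M → e ∈ Lf → eb e ∈ Pcl n S Lf M := fun h k =>
    dec1_start h (d := d') (by rwa [k1])
  have a3 : ea e ∈ Pcl n S Lf M → eb e ∈ (box n \ S) \ M → eb e ∈ Pcl n S Lf M := fun h k => by
    rw [h2] at k ⊢; exact dec1_step h k
  have b3 : eb e ∈ Pcl n S Lf M → ea e ∈ (box n \ S) \ M → ea e ∈ Pcl n S Lf M := fun h k => by
    rw [k2] at k ⊢; exact dec1_step h k
  have a4 : ea e ∈ Pcl n S Lf M → e ∉ Rg := fun h => by have := hv _ h d; rwa [h1] at this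
  have b4 : eb e ∈ Pcl n S Lf M → e ∉ Rg := fun h => by have := hv _ h d'; rwa [k1] at this
  have a5 : ea e ∈ M → ea e ∈ box n \ S := fun h => hM h
  have b5 : eb e ∈ M → eb e ∈ box n \ S := fun h => hM h
  have a6 : ea e ∈ T → ea e ∈ S := fun h => hs.hT h
  have b6 : eb e ∈ T → eb e ∈ S := fun h => hs.hT h
  have c1 := hs.lf e
  have c2 := hs.cover e
  simp only [lam, Dl, mem_inter, mem_union, mem_symmDiff, mem_cut, mem_eS, mem_ebox, mem_einc,
    mem_sdiff] at a1 b1 a2 b2 a3 b3 a4 b4 a5 b5 a6 b6 c1 c2 ⊢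
  clear h1 h2 k1 k2 hv hM hs
  generalize (ea e ∈ Pcl n S Lf M) = aP at *
  generalize (eb e ∈ Pcl n S Lf M) = bP at *
  generalize (ea e ∈ M) = aM at *
  generalize (eb e ∈ M) = bM at *
  generalize (ea e ∈ S) = aS at *
  generalize (eb e ∈ S) = bS at *
  generalize (ea e ∈ T) = aT at *
  generalize (eb e ∈ T) = bT at *
  generalize (ea e ∈ box n) = aB at *
  generalize (eb e ∈ box n) = bB at *
  generalize (e ∈ Lf) = eL at *
  generalize (e ∈ Rg) = eR at *
  grind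

theorem dec1_split (η D : Finset Edge) : η \ D = symmDiff η (η ∩ D) := by
  ext e; simp only [mem_sdiff, mem_symmDiff, mem_inter]; tauto

theorem t_dec1 : T_DEC1 := by
  intro n S T Lf Rg A0 A1 B Φ hs h0 h1 hB
  rw [Zf_eq_filter, ← sum_fiberwise_of_maps_to (s := (box n \ S).powerset.filter B)
    (t := (box n \ S).powerset.filter fun P => Valid n S Lf Rg P ∧ Φ P) (g := Pcl n S Lf)
    fun M hM => by
      obtain ⟨k1, k2⟩ := mem_filter.1 hM
      have := hB M (mem_powerset.1 k1) k2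
      exact mem_filter.2 ⟨mem_powerset.2 this.1.sub, this⟩]
  refine sum_le_sum fun P _ => ?_
  have key : ∀ M ∈ ((box n \ S).powerset.filter B).filter fun M => Pcl n S Lf M = P,
      M ⊆ box n \ S ∧ cut (M ∪ T) ∩ eS n S ∩ Dl n Lf P = lam n Lf P := fun M hM => by
    obtain ⟨k, rfl⟩ := mem_filter.1 hM
    obtain ⟨k1, k2⟩ := mem_filter.1 k
    have k3 := mem_powerset.1 k1
    exact ⟨k3, dec1_key hs k3 (hB M k3 k2).1.nrg⟩
  have hl : Src n (lam n Lf P) A1 :=
    ((src_cut n P).symmDiff h1).congr fun p _ => by simp [Set.mem_symmDiff]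
  have inj : Set.InjOn (fun M => (cut (M ∪ T) ∩ eS n S) \ Dl n Lf P)
      (((box n \ S).powerset.filter B).filter fun M => Pcl n S Lf M = P) := by
    intro M hM M' hM' h
    obtain ⟨k1, k2⟩ := key M hM
    obtain ⟨l1, l2⟩ := key M' hM'
    refine cut_eS_inj hs.good hs.hT k1 l1 ?_
    rw [← sdiff_union_inter (cut (M ∪ T) ∩ eS n S) (Dl n Lf P),
      ← sdiff_union_inter (cut (M' ∪ T) ∩ eS n S) (Dl n Lf P), k2, l2]
    exact congrArg (· ∪ lam n Lf P) h
  calc _ = ∑ M ∈ ((box n \ S).powerset.filter B).filter fun M => Pcl n S Lf M = P,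
        xc ^ (lam n Lf P).card * xc ^ ((cut (M ∪ T) ∩ eS n S) \ Dl n Lf P).card := by
        refine sum_congr rfl fun M hM => ?_
        rw [← pow_add, ← (key M hM).2, add_comm, card_sdiff_add_card_inter]
    _ ≤ _ := by
        rw [← mul_sum, Zs_eq_filter]
        refine mul_le_mul_of_nonneg_left ?_ (pow_pos xc_pos _).le
        rw [← sum_image (f := fun η : Finset Edge => xc ^ η.card) inj]
        refine sum_le_sum_of_subset_of_nonneg ?_ fun _ _ _ => (pow_pos xc_pos _).le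
        intro η hη
        obtain ⟨M, hM, rfl⟩ := mem_image.1 hη
        obtain ⟨k1, k2⟩ := key M hM
        refine mem_filter.2 ⟨mem_powerset.2 (sdiff_subset_sdiff inter_subset_right le_rfl), ?_⟩
        rw [dec1_split, k2]
        exact (src_cut_eS k1 h0).symmDiff hl

end Pool.Agent.P.MP_347bd1_pr
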