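import Pool.Agent.P.MP_347bd1_pr.Stmts2

/-!
The explored strands: simple connectivity of the rest and the sum rule.
-/

namespace Pool.Agent.P.MP_347bd1_pr

open Classical Finset
open scoped ENNReal NNReal

variable {n : ℕ} {S T P P' : Finset Pt} {Lf Rg : Finset Edge}

theorem dec2_other (hS : Str2 n S T Lf Rg) {u : Pt} {d : Dir} (hu : u ∉ S) (h : inc u d ∈ Lf) :
    u + d.vec ∈ S := by
  have h1 := (hS.lf _ h).2
  simp only [mem_sdiff] at h1
  rcases ends_inc u d with k | k <;> rw [k.1, k.2] at h1 <;> tauto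

theorem dec2_lf_ebox (hS : Str2 n S T Lf Rg) : Lf ⊆ ebox n :=
  fun e h => eS_subset n S (hS.lf e h).1

theorem dec2_lam_sub : lam n Lf P ⊆ Dl n Lf P := by
  intro e he
  simp only [lam, Dl, mem_symmDiff, mem_union, mem_inter, mem_cut, mem_einc] at he ⊢
  tauto

theorem dec2_sc (hS : Str2 n S T Lf Rg) (hP : Valid n S Lf Rg P) :
    SC n (eS n S \ Dl n Lf P) := by
  have h0 : ∀ w ∈ S, TopConn n (eS n S \ Dl n Lf P) w := fun w hw =>
    (hS.good.conn w hw).mono (sdiff_subset.trans subset_union_left)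
  have h1 : ∀ u ∈ P, TopConn n (eS n S \ Dl n Lf P) u := by
    intro u hu
    obtain ⟨u0, k0, ⟨d, k1⟩, k2⟩ := hP.conn u hu
    induction k2 with
    | refl =>
      have a := (h0 _ (dec2_other hS (mem_sdiff.1 (hP.sub k0)).2 k1)).step (d := d.opp)
        (by rw [inc_opp]; exact dec2_lf_ebox hS k1)
        (by rw [inc_opp]; exact fun m => (mem_sdiff.1 m).2 (mem_union_left _ k1))
      simpa using a
    | @tail a b k3 k4 ih =>
      have ha : a ∈ P := by
        rcases k3.cases_tail with rfl | ⟨c, -, m⟩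
        exacts [k0, m.2]
      obtain ⟨⟨d', rfl⟩, -⟩ := k4
      have he : inc a d' ∈ ebox n :=
        inc_mem_ebox.2 ⟨(mem_sdiff.1 (hP.sub ha)).1, (mem_sdiff.1 (hP.sub hu)).1⟩
      exact (ih ha).step he fun m => (mem_sdiff.1 m).2
        (mem_union_right _ (mem_inter.2 ⟨inc_mem_einc.2 (Or.inl ha), he⟩))
  refine ⟨sdiff_subset.trans (eS_subset n S),
    fun e he => hS.good.sc_eS.top e (mem_sdiff.1 he).1, fun e he he' => ?_⟩
  have key : TopConn n (eS n S \ Dl n Lf P) (ea e) ∨ TopConn n (eS n S \ Dl n Lf P) (eb e) := by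
    by_cases k : e ∈ eS n S
    · have k1 : e ∈ Dl n Lf P := by
        by_contra m
        exact he' (mem_sdiff.2 ⟨k, m⟩)
      rcases mem_union.1 k1 with m | m
      · exact (hS.lf e m).2.imp (fun a => h0 _ (mem_sdiff.1 a).1) fun a => h0 _ (mem_sdiff.1 a).1
      · exact (mem_einc.1 (mem_inter.1 m).1).imp (h1 _) (h1 _)
    · exact Or.inl ((hS.good.sc_eS.conn e he k).mono sdiff_subset)
  exact key.elim id (TopConn.edge he he').2

theorem dec2_sub (hS : Str2 n S T Lf Rg) (hP : Valid n S Lf Rg P) (hP' : Valid n S Lf Rg P')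
    {η : Finset Edge} (h : ∀ e ∈ Dl n Lf P, e ∈ η → e ∈ lam n Lf P) (h' : lam n Lf P' ⊆ η) :
    P ⊆ P' := by
  intro u hu
  obtain ⟨u0, k0, ⟨d, k1⟩, k2⟩ := hP.conn u hu
  induction k2 with
  | refl =>
    have a1 := dec2_other hS (mem_sdiff.1 (hP.sub k0)).2 k1
    have a2 : u0 + d.vec ∉ P := fun m => (mem_sdiff.1 (hP.sub m)).2 a1
    have a3 : u0 + d.vec ∉ P' := fun m => (mem_sdiff.1 (hP'.sub m)).2 a1
    have a4 := dec2_lf_ebox hS k1
    have a5 : inc u0 d ∉ lam n Lf P' := fun m => by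
      have := h _ (mem_union_left _ k1) (h' m)
      simp only [lam, mem_symmDiff, mem_inter, inc_mem_cut] at this
      tauto
    simp only [lam, mem_symmDiff, mem_inter, inc_mem_cut] at a5
    tauto
  | @tail a b k3 k4 ih =>
    have ha : a ∈ P := by
      rcases k3.cases_tail with rfl | ⟨c, -, m⟩
      exacts [k0, m.2]
    obtain ⟨⟨d', rfl⟩, -⟩ := k4
    have ha' := ih ha
    have he : inc a d' ∈ ebox n :=
      inc_mem_ebox.2 ⟨(mem_sdiff.1 (hP.sub ha)).1, (mem_sdiff.1 (hP.sub hu)).1⟩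
    have a1 : inc a d' ∉ Lf := fun m =>
      (mem_sdiff.1 (hP.sub hu)).2 (dec2_other hS (mem_sdiff.1 (hP.sub ha)).2 m)
    have a5 : inc a d' ∉ lam n Lf P' := fun m => by
      have := h _ (mem_union_right _ (mem_inter.2 ⟨inc_mem_einc.2 (Or.inl ha), he⟩)) (h' m)
      simp only [lam, mem_symmDiff, mem_inter, inc_mem_cut] at this
      tauto
    simp only [lam, mem_symmDiff, mem_inter, inc_mem_cut] at a5
    tauto

theorem dec2_sum (hS : Str2 n S T Lf Rg) {A1 : Set Pt} (hA : Src n Lf A1) {E : Finset Edge}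
    {F : Finset (Finset Pt)} (hF : ∀ P ∈ F, Valid n S Lf Rg P ∧ lam n Lf P ⊆ E) :
    ∑ P ∈ F, xc ^ (lam n Lf P).card * Zs n ∅ (E \ Dl n Lf P) ≤ Zs n A1 E := by
  have hd : ∀ (P : Finset Pt) (η : Finset Edge), η ⊆ E \ Dl n Lf P → Disjoint (lam n Lf P) η :=
    fun P η h => disjoint_left.2 fun e a b => (mem_sdiff.1 (h b)).2 (dec2_lam_sub a)
  simp only [Zs_eq_filter, mul_sum]
  rw [sum_sigma']
  have e1 : ∀ x ∈ F.sigma fun P => (E \ Dl n Lf P).powerset.filter fun η => Src n η ∅,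
      xc ^ (lam n Lf x.1).card * xc ^ x.2.card = xc ^ (lam n Lf x.1 ∪ x.2).card := by
    intro x hx
    rw [← pow_add, card_union_of_disjoint
      (hd _ _ (mem_powerset.1 (mem_filter.1 (mem_sigma.1 hx).2).1))]
  rw [sum_congr rfl e1, ← sum_image (g := fun x : Σ _ : Finset Pt, Finset Edge =>
    lam n Lf x.1 ∪ x.2) (f := fun η => xc ^ η.card)]
  · refine sum_le_sum_of_subset_of_nonneg ?_ fun _ _ _ => (pow_pos xc_pos _).le
    intro η hη
    obtain ⟨⟨P, η'⟩, hx, rfl⟩ := mem_image.1 hη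
    obtain ⟨h1, h2⟩ := mem_sigma.1 hx
    obtain ⟨h3, h4⟩ := mem_filter.1 h2
    have h5 := mem_powerset.1 h3
    refine mem_filter.2 ⟨mem_powerset.2 (union_subset (hF P h1).2 (h5.trans sdiff_subset)), ?_⟩
    have h6 : lam n Lf P ∪ η' = symmDiff (lam n Lf P) η' := (hd P η' h5).symmDiff_eq_sup.symm
    simp only
    rw [h6]
    exact (((src_cut n P).symmDiff hA).symmDiff h4).congr fun p _ => by
      simp
  · rintro ⟨P, η⟩ hx ⟨P', η'⟩ hx' e
    obtain ⟨h1, h2⟩ := mem_sigma.1 (mem_coe.1 hx)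
    obtain ⟨h1', h2'⟩ := mem_sigma.1 (mem_coe.1 hx')
    have h3 := mem_powerset.1 (mem_filter.1 h2).1
    have h3' := mem_powerset.1 (mem_filter.1 h2').1
    simp only at e h1 h1' h3 h3'
    have a1 : P ⊆ P' := dec2_sub hS (hF P h1).1 (hF P' h1').1 (η := lam n Lf P ∪ η)
      (fun f k m => (mem_union.1 m).resolve_right fun a => (mem_sdiff.1 (h3 a)).2 k)
      (e ▸ subset_union_left)
    have a2 : P' ⊆ P := dec2_sub hS (hF P' h1').1 (hF P h1).1 (η := lam n Lf P' ∪ η')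
      (fun f k m => (mem_union.1 m).resolve_right fun a => (mem_sdiff.1 (h3' a)).2 k)
      (e ▸ subset_union_left)
    obtain rfl := Subset.antisymm a1 a2
    have a3 : η = η' := by
      rw [← union_sdiff_cancel_left (hd P η h3), e, union_sdiff_cancel_left (hd P η' h3')]
    rw [a3]

theorem t_dec2 (h : T_LSM) : T_DEC2 := by
  intro n S T Lf Rg A1 hn hS hA
  refine ⟨fun P hP => dec2_sc hS hP, fun E F hE hsc hF => ?_⟩
  rw [le_div_iff₀ (Zs_pos n E), sum_mul]
  refine le_trans (sum_le_sum fun P hP => ?_) (dec2_sum hS hA hF)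
  have h1 := h n (eS n S) (eS n S \ Dl n Lf P) E hn hS.good.sc_eS (dec2_sc hS (hF P hP).1) hsc
    sdiff_subset hE
  have h2 : eS n S \ Dl n Lf P ∩ E = E \ Dl n Lf P := by
    ext e
    have := @hE e
    simp only [mem_inter, mem_sdiff]
    tauto
  rw [h2] at h1
  rw [qP, div_mul_eq_mul_div, div_le_iff₀ (Zs_pos n _), mul_assoc, mul_assoc]
  exact mul_le_mul_of_nonneg_left (by linarith) (pow_pos xc_pos _).le

end Pool.Agent.P.MP_347bd1_pr
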