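import Pool.Agent.P.MP_347bd1_pr.Stmts2

/-!
The one point function against the killed walk: the upper bound and the lower bound.
-/

namespace Pool.Agent.P.MP_347bd1_pr

open Classical Finset
open scoped ENNReal NNReal

theorem t_dhn (h1 : T_KC1) (h2 : T_KC) : T_DHN := by
  intro n E v w hE hv hc hw
  obtain ⟨Hp, Hs, a1, a2, a3, a4, -⟩ := h2 n E hE
  have key := (net n E).compare (u := fun z => max (Hp z) 0)
    (w := fun z => (hN (net n E) z).toReal) (intr n) (fun z hz => ?_)
    (fun z _ d m m' => absurd m.2.1 m') v hv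
  · have := a1 w hw.mem_box v hc
    rw [a3 w hw, (h1 n E v).2.2.2.2 hE w hw, zero_add] at this
    exact this.symm.le.trans ((le_max_left _ _).trans key)
  have e := hN_toReal_rec (net n E) z
  have : max (Hp z) 0 ≤ (∑ d, if (net n E).st z d then 1 / 4 else 0) +
      (net n E).Pr (fun z => max (Hp z) 0) z := by
    rcases le_total (Hp z) 0 with k | k
    · rw [max_eq_right k]
      exact add_nonneg (sum_nonneg fun d _ => by split_ifs <;> norm_num)
        (Net.Pr_nonneg (fun _ => le_max_right _ _) z)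
    rw [Net.Pr, ← sum_add_distrib, max_eq_left k]
    refine le_of_mul_le_mul_left ((a4 z hz).trans ?_) (by norm_num : (0 : ℝ) < 4)
    rw [mul_sum]
    refine sum_le_sum fun d _ => ?_
    by_cases c1 : cr z d ∈ E
    · by_cases c2 : z + d.vec ∈ intr n
      · rw [if_pos c1, if_neg fun m => m.2.1 c2, if_pos ⟨hz, c2, c1⟩]
        linarith [le_max_left (Hp (z + d.vec)) 0]
      · rw [if_pos c1, if_pos ⟨hz, c2, c1⟩, if_neg fun m => c2 m.2.1, a2 _ c2]
        linarith
    · rw [if_neg c1, if_neg fun m => c1 m.2.2, if_neg fun m => c1 m.2.2]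
      have : xc ^ 2 ≤ 1 / 4 := by nlinarith [xc_pos, xc_lt_half]
      nlinarith
  linarith

theorem dhn_inv {E C : Finset Edge} (hC : C ⊆ E) (f : Finset Edge → ℝ) :
    ∑ η ∈ E.powerset, f (symmDiff η C) = ∑ η ∈ E.powerset, f η := by
  have h : ∀ η ∈ E.powerset, symmDiff η C ∈ E.powerset := fun η k =>
    mem_powerset.2 (symmDiff_subset_union.trans (union_subset (mem_powerset.1 k) hC))
  exact sum_nbij' (fun η => symmDiff η C) (fun η => symmDiff η C) h h
    (fun η _ => symmDiff_symmDiff_cancel_right _ _) (fun η _ => symmDiff_symmDiff_cancel_right _ _)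
    fun _ _ => rfl

theorem dhn_card (η C : Finset Edge) : (symmDiff η C).card ≤ η.card + C.card :=
  (card_le_card symmDiff_subset_union).trans (card_union_le _ _)

theorem dhn_pow {a b : ℕ} (h : a ≤ b + 4) : xc ^ b ≤ 81 * xc ^ a := by
  have h1 := pow_le_pow_of_le_one xc_pos.le xc_lt_one.le h
  have h2 : (1 / 3 : ℝ) ^ 4 ≤ xc ^ 4 := pow_le_pow_left₀ (by norm_num) third_lt_xc.le 4
  rw [pow_add] at h1
  nlinarith [pow_pos xc_pos b]

theorem dhn_sign (s : Finset Edge) (e : Edge) :
    (-1 : ℝ) ^ (symmDiff s {e}).card = -(-1) ^ s.card := by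
  by_cases h : e ∈ s
  · have : symmDiff s {e} = s.erase e := by
      ext x; by_cases k : x = e <;> simp [mem_symmDiff, k, h]
    rw [this, ← card_erase_add_one h, pow_succ]; ring
  · have : symmDiff s {e} = insert e s := by
      ext x; by_cases k : x = e <;> simp [mem_symmDiff, k, h]
    rw [this, card_insert_of_notMem h, pow_succ]; ring

theorem dhn_src {n : ℕ} {C : Finset Edge} (h : Src n C ∅) (η : Finset Edge) (A : Set Pt) :
    Src n (symmDiff η C) A ↔ Src n η A := by
  have k : ∀ η, Src n η A → Src n (symmDiff η C) A := fun η k =>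
    (k.symmDiff h).congr fun p _ => by simp [Set.mem_symmDiff]
  exact ⟨fun m => by simpa [symmDiff_symmDiff_cancel_right] using k _ m, k η⟩

/-- A small loop meeting `Γ` once makes the signed function strictly smaller. -/
theorem dhn_Xs {n : ℕ} {E C Γ : Finset Edge} {e : Edge} (v : Pt) (hC : C ⊆ E) (h : Src n C ∅)
    (h4 : C.card ≤ 4) (he : C ∩ Γ = {e}) : Xs n E v Γ ^ 2 ≤ (40 / 41 * G1 n v E) ^ 2 := by
  refine sq_le_sq' ?_ ?_ <;> rw [Xs, G1, ← mul_div_assoc]
  on_goal 1 => rw [← neg_div]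
  all_goals
    refine div_le_div_of_nonneg_right ?_ (Zs_nonneg _ _ _)
    have e1 := dhn_inv hC fun η => if Src n η {v} then (-1) ^ (η ∩ Γ).card * xc ^ η.card else 0
    have e2 := dhn_inv hC fun η => if Src n η {v} then xc ^ η.card else 0
    have e3 : ∀ η, symmDiff η C ∩ Γ = symmDiff (η ∩ Γ) {e} := fun η => by
      rw [← he]; exact inf_symmDiff_distrib_right _ _ _
    have b1 : ∀ η, xc ^ η.card ≤ 81 * xc ^ (symmDiff η C).card := fun η =>
      dhn_pow ((dhn_card η C).trans (by omega))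
    have b2 : ∀ η, xc ^ (symmDiff η C).card ≤ 81 * xc ^ η.card := fun η => by
      simpa only [symmDiff_symmDiff_cancel_right] using b1 (symmDiff η C)
    simp only [dhn_src h, e3, dhn_sign] at e1 e2
    have b3 : ∀ s : ℝ, s = 1 ∨ s = -1 → s * (∑ η ∈ E.powerset, if Src n η {v} then
        (-1) ^ (η ∩ Γ).card * xc ^ η.card else 0) ≤ 40 / 41 * Zs n {v} E := by
      intro s hs
      have : ∑ η ∈ E.powerset, s * ((if Src n η {v} then (-1) ^ (η ∩ Γ).card * xc ^ η.card else 0) +
          if Src n η {v} then -(-1) ^ (η ∩ Γ).card * xc ^ (symmDiff η C).card else 0) ≤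
          ∑ η ∈ E.powerset, 40 / 41 * ((if Src n η {v} then xc ^ η.card else 0) +
            if Src n η {v} then xc ^ (symmDiff η C).card else 0) := by
        refine sum_le_sum fun η _ => ?_
        have := b1 η
        have := b2 η
        split_ifs
        · rcases hs with rfl | rfl <;> rcases neg_one_pow_eq_or ℝ (η ∩ Γ).card with k | k <;>
            rw [k] <;> linarith
        · simp
      rw [← mul_sum, ← mul_sum, sum_add_distrib, sum_add_distrib, e1, e2] at this
      rw [Zs]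
      linarith
    linarith [b3 1 (Or.inl rfl), b3 (-1) (Or.inr rfl)]

theorem dhn_G1 {n : ℕ} {E : Finset Edge} {e : Edge} {p : Pt} (he : e ∈ E) (h : Src n {e} {p}) :
    xc ≤ G1 n p E := by
  rw [G1, le_div_iff₀ (Zs_pos _ _), Zs, Zs, ← dhn_inv (singleton_subset_iff.2 he)
    fun η => if Src n η {p} then xc ^ η.card else 0, mul_sum]
  refine sum_le_sum fun η _ => ?_
  by_cases k : Src n η ∅
  · rw [if_pos k, if_pos ((k.symmDiff h).congr fun p _ => by simp [Set.mem_symmDiff]), ← pow_succ']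
    exact pow_le_pow_of_le_one xc_pos.le xc_lt_one.le (by simpa using dhn_card η {e})
  · rw [if_neg k, mul_zero]
    split_ifs
    exacts [(pow_pos xc_pos _).le, le_rfl]

theorem dhn_cut_sub (w : Pt) : cut {w} ⊆ univ.image (inc w) := by
  refine (filter_subset _ _).trans ?_
  rw [einc, singleton_biUnion]

theorem dhn_cut_ray {n : ℕ} {w : Pt} (h : w.2 < n) : cut {w} ∩ ray n w = {inc w .N} := by
  obtain ⟨a, b⟩ := w
  ext ⟨⟨x, y⟩, _ | _⟩ <;> simp [mem_cut, ray, ea, eb, inc] at h ⊢
  constructor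
  · rintro ⟨h1, h2, rfl⟩
    omega
  · rintro ⟨rfl, rfl⟩
    omega

theorem t_dhnl (h1 : T_KC1) (h2 : T_KC) (h3 : T_XE) (h4 : T_LOW) : T_DHNL := by
  obtain ⟨c, hc, k0, hL⟩ := h4
  have hx := xc_pos
  have h0 : 0 < c * (81 / 1681 * xc ^ 2) := by positivity
  refine ⟨Real.sqrt (c * (81 / 1681 * xc ^ 2)), Real.sqrt_pos.2 h0, max k0 1, fun k hk => ?_⟩
  have k1 : 1 ≤ k := (le_max_right _ _).trans hk
  have hA : pA k ∈ intr (16 * k) := by simp [mem_intr, pA]; omega
  have hB : pB k ∈ intr (16 * k) := by simp [mem_intr, pB]; omega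
  have hg := good_ring hB rfl
  have hE : SC (16 * k) (eD k ∪ {(pB k, true)}) := hg.sc
  obtain ⟨Hp, Hs, a1, -, a3, -, a5⟩ := h2 _ _ hE
  have hi : ∀ y ∈ box (16 * k) \ ring (16 * k), ∀ d, inc y d ∈ eD k ∪ {(pB k, true)} :=
    fun y hy d => mem_union_left _ (by rw [eD, eS_ring, inc_mem_einc]; exact Or.inl hy)
  have hr : ∀ y ∈ ring (16 * k), Hs y = 0 := fun y hy => a3 y (hg.conn y hy)
  have hn : ∀ y ∈ box (16 * k), 0 ≤ Hs y := fun y hy => by
    by_cases m : y ∈ ring (16 * k)
    · exact (hr y m).ge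
    refine avg_compare (u := fun _ => 0) (w := Hs) (box (16 * k) \ ring (16 * k))
      (fun z hz => ?_) (fun z hz d hd => (hr _ ?_).ge) y (mem_sdiff.2 ⟨hy, m⟩)
    · have := a5 z (hi z hz)
      simp only [avg, sum_const_zero, zero_div, sub_zero] at this ⊢
      linarith
    · by_contra m'
      exact hd (mem_sdiff.2 ⟨(inc_mem_ebox.1 (hE.sub (hi z hz d))).2, m'⟩)
  have hG : ∀ p ∈ intr (16 * k), p.2 = 1 → Hp p = G1 (16 * k) p (eD k ∪ {(pB k, true)}) ^ 2 := by
    intro p hp hp'
    have c1 : Corner p p := ⟨Or.inl rfl, Or.inl rfl⟩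
    have c2 : p ∈ ring (16 * k) := mem_ring.2 ⟨c1.mem_box hp, by simp [OnRing, hp']⟩
    rw [a1 p (c1.mem_box hp) p c1, hr p c2, zero_add, (h1 _ _ p).2.2.2.2 hE p (hg.conn p c2)]
  have cB : Corner (pB k) (12 * k, 2) := by simp [Corner, pB]
  have cA : Corner (pA k) (4 * k, 2) := by simp [Corner, pA]
  have s1 : 81 / 1681 * xc ^ 2 ≤ Hs (12 * k, 2) := by
    have m : ((12 * k : ℤ), (2 : ℤ)) ∈ box (16 * k) \ ring (16 * k) := by
      simp [mem_ring, mem_box, OnRing]; omega
    have b1 := dhn_Xs (n := 16 * k) (E := eD k ∪ {(pB k, true)})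
      (C := cut {((12 * k : ℤ), (2 : ℤ))}) (pB k)
      (fun e he => by
        obtain ⟨d, -, rfl⟩ := mem_image.1 (dhn_cut_sub _ he)
        exact hi _ m d)
      (fun p _ => by simp [not_odd_deg_cut])
      ((card_le_card (dhn_cut_sub _)).trans card_image_le)
      (dhn_cut_ray (n := 16 * k) (by simp; omega))
    have b2 := dhn_G1 (n := 16 * k) (E := eD k ∪ {(pB k, true)}) (e := cr (pB k) .S) (p := pB k)
      (mem_union_right _ (mem_singleton_self _)) fun q hq => by
        rw [odd_deg_singleton, Set.mem_singleton_iff]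
        refine or_iff_left ?_
        rintro rfl
        simp [mem_intr, pB, Dir.vec] at hq
    have b3 := a1 _ (cB.mem_box hB) _ cB
    rw [hG _ hB rfl] at b3
    nlinarith [pow_le_pow_left₀ hx.le b2 2]
  have s2 := hL k ((le_max_left _ _).trans hk) Hs 1 1 (16 * k - 1) (12 * k, 2) (4 * k, 2)
    (by omega) (by omega) (fun y _ _ _ _ => hn y (by rw [mem_box]; push_cast; omega))
    (fun y _ _ _ _ => a5 y (hi y (by simp [mem_ring, mem_box, OnRing]; omega))) rfl
    (by simp only; omega) (by simp only; omega) (by simp only; omega) (by simp only; omega)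
    (by simp only; omega) (by simp only; omega)
  have s3 := a1 _ (cA.mem_box hA) _ cA
  obtain ⟨x1, x2⟩ := h3 (16 * k) (eD k) (pB k) (pA k) le_rfl hB rfl hA
    (by simp [pA, pB]; omega)
  rw [hG _ hA rfl, G1, x1, x2, mul_div_assoc] at s3
  have r0 : 0 ≤ Zs (16 * k) {pA k, pB k} (eD k) / Zs (16 * k) ∅ (eD k) :=
    div_nonneg (Zs_nonneg _ _ _) (Zs_nonneg _ _ _)
  refine (sq_le_sq₀ (by positivity) r0).1 ?_
  rw [div_pow, Real.sq_sqrt h0.le]
  have s4 : c * (81 / 1681 * xc ^ 2) / k ^ 2 ≤ c / k ^ 2 * Hs (12 * k, 2) := by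
    rw [mul_div_right_comm]
    exact mul_le_mul_of_nonneg_left s1 (by positivity)
  have s5 : xc ^ 2 ≤ 1 := pow_le_one₀ hx.le xc_lt_one.le
  norm_num at s2
  nlinarith [sq_nonneg (Xs (16 * k) (eD k ∪ {(pB k, true)}) (pA k) (ray (16 * k) (4 * k, 2))),
    mul_le_mul_of_nonneg_right s5 (sq_nonneg
      (Zs (16 * k) {pA k, pB k} (eD k) / Zs (16 * k) ∅ (eD k)))]

end Pool.Agent.P.MP_347bd1_pr
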