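import Pool.Agent.P.MP_347bd1_pr.Stmts2

/-!
The geometry of the Dobrushin box.
-/

namespace Pool.Agent.P.MP_347bd1_pr

open Classical Finset
open scoped ENNReal NNReal

theorem dob_up {r : Pt → Pt → Prop} (f : ℤ → Pt) {a b : ℤ} (h : a ≤ b)
    (hr : ∀ x, a ≤ x → x < b → r (f x) (f (x + 1))) : Relation.ReflTransGen r (f a) (f b) := by
  induction b, h using Int.leInduction with
  | base => exact .refl
  | succ b hb ih => exact (ih fun x h1 h2 => hr x h1 (by omega)).tail (hr b hb (by omega))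

theorem dob_dn {r : Pt → Pt → Prop} (f : ℤ → Pt) {a b : ℤ} (h : a ≤ b)
    (hr : ∀ x, a ≤ x → x < b → r (f (x + 1)) (f x)) : Relation.ReflTransGen r (f b) (f a) := by
  induction b, h using Int.leInduction with
  | base => exact .refl
  | succ b hb ih => exact (ih fun x h1 h2 => hr x h1 (by omega)).head (hr b hb (by omega))

theorem dob_line {T : Finset Pt} (f : ℤ → Pt) (hN : ∀ x, NN (f x) (f (x + 1))) (a b : ℤ)
    (h : ∀ x, (a ≤ x ∧ x ≤ b) ∨ (b ≤ x ∧ x ≤ a) → f x ∈ T) :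
    Relation.ReflTransGen (fun u w => NN u w ∧ w ∈ T) (f a) (f b) := by
  rcases le_total a b with k | k
  · exact dob_up f k fun x h1 h2 => ⟨hN x, h _ (by omega)⟩
  · exact dob_dn f k fun x h1 h2 => ⟨(hN x).symm, h _ (by omega)⟩

theorem dob_hor {T : Finset Pt} (y a b : ℤ)
    (h : ∀ x, (a ≤ x ∧ x ≤ b) ∨ (b ≤ x ∧ x ≤ a) → (x, y) ∈ T) :
    Relation.ReflTransGen (fun u w => NN u w ∧ w ∈ T) (a, y) (b, y) :=
  dob_line (fun x => (x, y)) (fun _ => ⟨.E, by simp [Dir.vec]⟩) a b h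

theorem dob_ver {T : Finset Pt} (y a b : ℤ)
    (h : ∀ x, (a ≤ x ∧ x ≤ b) ∨ (b ≤ x ∧ x ≤ a) → (y, x) ∈ T) :
    Relation.ReflTransGen (fun u w => NN u w ∧ w ∈ T) (y, a) (y, b) :=
  dob_line (fun x => (y, x)) (fun _ => ⟨.N, by simp [Dir.vec]⟩) a b h

variable {k : ℕ}

theorem dob_ring {w : Pt} : w ∈ ring (16 * k) ↔
    (1 ≤ w.1 ∧ w.1 ≤ 16 * (k : ℤ) ∧ 1 ≤ w.2 ∧ w.2 ≤ 16 * (k : ℤ)) ∧
      (w.1 = 1 ∨ w.1 = 16 * (k : ℤ) ∨ w.2 = 1 ∨ w.2 = 16 * (k : ℤ)) := by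
  rw [mem_ring, mem_box, OnRing]
  push_cast
  rfl

theorem dob_Td {w : Pt} : w ∈ Td k ↔
    ((1 ≤ w.1 ∧ w.1 ≤ 16 * (k : ℤ) ∧ 1 ≤ w.2 ∧ w.2 ≤ 16 * (k : ℤ)) ∧
      (w.1 = 1 ∨ w.1 = 16 * (k : ℤ) ∨ w.2 = 1 ∨ w.2 = 16 * (k : ℤ))) ∧
      ¬ (w.2 = 1 ∧ 4 * (k : ℤ) + 1 ≤ w.1 ∧ w.1 ≤ 12 * k) := by
  rw [Td, mem_filter, dob_ring]

theorem dob_box {w : Pt} : w ∈ box (16 * k) ↔
    1 ≤ w.1 ∧ w.1 ≤ 16 * (k : ℤ) ∧ 1 ≤ w.2 ∧ w.2 ≤ 16 * (k : ℤ) := by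
  rw [mem_box]
  push_cast
  rfl

theorem dob_seg {w : Pt} : w ∈ ring (16 * k) \ Td k ↔
    w.2 = 1 ∧ 4 * (k : ℤ) + 1 ≤ w.1 ∧ w.1 ≤ 12 * k := by
  rw [mem_sdiff, dob_ring, dob_Td]
  omega

theorem dob_img {a b : ℤ} {w : Pt} {c : Bool} :
    (w, c) ∈ (Icc a b).image (fun i => (((i, 1), false) : Edge)) ↔
      c = false ∧ w.2 = 1 ∧ a ≤ w.1 ∧ w.1 ≤ b := by
  obtain ⟨x, y⟩ := w
  simp only [mem_image, mem_Icc, Prod.mk.injEq]
  exact ⟨fun ⟨i, h, ⟨h1, h2⟩, h3⟩ => ⟨h3.symm, h2.symm, h1 ▸ h⟩,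
    fun ⟨h1, h2, h3⟩ => ⟨x, h3, ⟨rfl, h2.symm⟩, h1.symm⟩⟩

theorem dob_intr (hk : 1 ≤ k) : pA k ∈ intr (16 * k) := by
  rw [mem_intr, pA]
  dsimp only
  omega

theorem dob_str (hk : 1 ≤ k) : Str2 (16 * k) (ring (16 * k)) (Td k) (LfD k) (RgD k) := by
  refine ⟨(good_ring (dob_intr hk) rfl).empty, filter_subset _ _, ?_, ?_, disjoint_left.2 ?_, ?_⟩
  · rintro ⟨⟨a, b⟩, _ | _⟩ <;>
      simp only [LfD, dob_img, mem_eS, mem_ebox, dob_box, dob_ring, dob_seg, ea, eb] <;>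
      simp <;> omega
  · rintro ⟨⟨a, b⟩, _ | _⟩ <;>
      simp only [RgD, dob_img, mem_eS, mem_ebox, dob_box, dob_ring, dob_seg, ea, eb] <;>
      simp <;> omega
  · rintro ⟨⟨a, b⟩, c⟩
    simp only [LfD, RgD, dob_img]
    omega
  · rintro ⟨⟨a, b⟩, _ | _⟩ <;>
      simp only [LfD, RgD, dob_img, mem_eS, mem_ebox, dob_box, dob_ring, dob_seg, ea, eb] <;>
      simp <;> omega

theorem dob_cut (hk : 1 ≤ k) :
    cut (Td k) ∩ (ebox (16 * k) \ eD k) = symmDiff {cr (pA k) .S} {cr (pB k) .S} := by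
  ext ⟨⟨a, b⟩, _ | _⟩ <;>
    simp only [mem_inter, mem_cut, mem_sdiff, eD, mem_eS, mem_ebox, dob_box, dob_ring, dob_Td, ea,
      eb, mem_symmDiff, mem_singleton, cr, pA, pB] <;> simp <;> omega

theorem dob_src1 (hk : 1 ≤ k) :
    Src (16 * k) (cut (Td k) ∩ (ebox (16 * k) \ eD k)) {pA k, pB k} := by
  rintro ⟨a, b⟩ hp
  rw [dob_cut hk, odd_deg_symmDiff, odd_deg_singleton, odd_deg_singleton]
  rw [mem_intr] at hp
  simp only [pA, pB, Dir.vec, Set.mem_insert_iff, Set.mem_singleton_iff, Prod.mk_add_mk,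
    Prod.mk.injEq] at hp ⊢
  omega

theorem dob_src2 (hk : 1 ≤ k) : Src (16 * k) (LfD k) {pV k, pA k} := by
  rintro ⟨a, b⟩ _
  simp only [deg_eq4, cr, LfD, dob_img, pA, pV, Set.mem_insert_iff, Set.mem_singleton_iff,
    Prod.mk.injEq, Bool.true_eq_false, false_and, true_and, if_false, Nat.odd_iff]
  split_ifs <;> simp <;> omega

theorem dob_loc (hk : 1 ≤ k) :
    Loc (16 * k) (ring (16 * k)) ({(pA k, true)} ∪ {(pB k, true)}) (pV k) k := by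
  refine ⟨fun w h1 _ h2 => mem_ring.2 ⟨h1, h2⟩, fun e he => ?_, ?_⟩
  · rw [← not_le, ← not_le, nrm_le_iff, nrm_le_iff]
    rcases mem_union.1 he with he | he <;> rw [mem_singleton.1 he] <;>
      simp [ea, eb, pA, pB, pV] <;> omega
  · have key : ∀ a b : ℤ, a ≤ b → 7 * (k : ℤ) ≤ a → b ≤ 9 * k → Conn (ebox (16 * k) \
        (eS (16 * k) (ring (16 * k)) ∪ ({(pA k, true)} ∪ {(pB k, true)}))) (a, 1) (b, 1) := by
      intro a b h h1 h2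
      refine dob_up (fun x => (x, 1)) h fun x h3 h4 => ⟨.E, ?_, by simp [Dir.vec]⟩
      simp only [mem_sdiff, mem_union, mem_singleton, mem_eS, mem_ebox, dob_box, dob_ring, inc, ea,
        eb, pA, pB]
      simp
      omega
    rintro ⟨a, b⟩ h1 ⟨c, d⟩ h2 h3 h4
    rw [dob_ring] at h1 h2
    rw [nrm_le_iff] at h3 h4
    simp only [pV, Prod.mk_sub_mk] at h1 h2 h3 h4
    obtain rfl : b = 1 := by omega
    obtain rfl : d = 1 := by omega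
    rcases le_total a c with h | h
    · exact key a c h (by omega) (by omega)
    · exact (key c a h (by omega) (by omega)).symm

theorem dob_conn (hk : 1 ≤ k) {w : Pt} (hw : w ∈ Td k) :
    Relation.ReflTransGen (fun u w => NN u w ∧ w ∈ Td k) w (pA k) := by
  have h1 : ∀ x : ℤ, 1 ≤ x → x ≤ 4 * k →
      Relation.ReflTransGen (fun u w => NN u w ∧ w ∈ Td k) (x, 1) (pA k) := fun x _ _ =>
    dob_hor 1 x _ fun z hz => dob_Td.2 (by dsimp only; omega)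
  have h2 : ∀ y : ℤ, 1 ≤ y → y ≤ 16 * k →
      Relation.ReflTransGen (fun u w => NN u w ∧ w ∈ Td k) (1, y) (pA k) := fun y _ _ =>
    (dob_ver 1 y 1 fun z hz => dob_Td.2 (by dsimp only; omega)).trans (h1 1 le_rfl (by omega))
  have h3 : ∀ x : ℤ, 1 ≤ x → x ≤ 16 * k →
      Relation.ReflTransGen (fun u w => NN u w ∧ w ∈ Td k) (x, 16 * (k : ℤ)) (pA k) := fun x _ _ =>
    (dob_hor _ x 1 fun z hz => dob_Td.2 (by dsimp only; omega)).trans (h2 _ (by omega) le_rfl)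
  have h4 : ∀ y : ℤ, 1 ≤ y → y ≤ 16 * k →
      Relation.ReflTransGen (fun u w => NN u w ∧ w ∈ Td k) (16 * (k : ℤ), y) (pA k) := fun y _ _ =>
    (dob_ver _ y _ fun z hz => dob_Td.2 (by dsimp only; omega)).trans (h3 _ (by omega) le_rfl)
  obtain ⟨a, b⟩ := w
  obtain ⟨⟨h5, h | h | h | h⟩, h6⟩ := dob_Td.1 hw <;> simp only at h h5 h6 <;> subst h
  · exact h2 b (by omega) (by omega)
  · exact h4 b (by omega) (by omega)
  · by_cases h7 : a ≤ 4 * k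
    · exact h1 a (by omega) h7
    · exact (dob_hor 1 a _ fun z hz => dob_Td.2 (by dsimp only; omega)).trans
        (h4 1 le_rfl (by omega))
  · exact h3 a (by omega) (by omega)

theorem t_dob (h1 : T_SEP) (h2 : T_DUAL) : T_DOB := by
  intro k hk
  refine ⟨dob_str hk, dob_src1 hk, dob_src2 hk, dob_loc hk, ?_⟩
  rintro M hM ⟨b, hb, c, ⟨h3, h4⟩, h5⟩
  have hsub : M ∪ Td k ⊆ box (16 * k) :=
    union_subset (hM.trans sdiff_subset) fun w hw => dob_box.2 (dob_Td.1 hw).1.1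
  have hp : Relation.ReflTransGen (fun u w => Star u w ∧ w ∈ M ∪ Td k) (8 * k, 2) (pA k) :=
    ((rtg_mono (fun _ _ h => ⟨h.1, mem_union_left _ h.2⟩) h4).tail
      ⟨h5, mem_union_right _ hb⟩).trans
      (rtg_mono (fun _ _ h => ⟨h.1.star, mem_union_right _ h.2⟩) (dob_conn hk hb))
  obtain ⟨η, e1, e2, -, e3⟩ := h2 (16 * k) _ _ _ (pV k) (pA k) hsub (mem_union_left _ h3) hp
    ⟨Or.inl rfl, Or.inr rfl⟩ ⟨Or.inl rfl, Or.inl rfl⟩ (by simp only [pV]; omega)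
    (by simp only [pV]; omega) (by simp only [pA]; omega) (by simp only [pA]; omega)
  refine (h1 _ _ _ M _ _ η (dob_str hk) ?_ hM e1 e2 fun p hp => ?_).1
  · rintro ⟨x, y⟩ ha ⟨x', y'⟩ hb
    rw [dob_seg] at ha hb
    simp only at ha hb
    obtain ⟨rfl, ha⟩ := ha
    obtain ⟨rfl, hb⟩ := hb
    exact dob_hor 1 x x' fun z hz => dob_seg.2 (by dsimp only; omega)
  · rw [e3 p hp, dob_src2 hk p hp]
    obtain ⟨x, y⟩ := p
    simp only [Set.mem_symmDiff, pA, pV, Set.mem_insert_iff, Set.mem_singleton_iff, Prod.mk.injEq]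
    omega

end Pool.Agent.P.MP_347bd1_pr
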