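import Pool.Agent.P.MP_347bd1_pr.Stmts2

/-! Dual contours along a star-path. -/

namespace Pool.Agent.P.MP_347bd1_pr

open Classical Finset
open scoped ENNReal NNReal

/-- A contour from `p` to `q` along `M`. -/
def dual_P (n : ℕ) (M : Finset Pt) (p q : Pt) : Prop :=
  ∃ η ⊆ ebox n, (∀ e ∈ η, ea e ∈ M ∨ eb e ∈ M) ∧ (∀ e ∈ η, ¬ Col1 e) ∧
    Src n η (symmDiff {p} {q})

variable {n : ℕ} {M : Finset Pt} {a p q r : Pt}

theorem dual_refl (p : Pt) : dual_P n M p p :=
  ⟨∅, empty_subset _, by simp, by simp, (src_empty n).congr fun _ _ => by simp⟩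

theorem dual_symm (h : dual_P n M p q) : dual_P n M q p := by
  obtain ⟨η, h1, h2, h3, h4⟩ := h
  exact ⟨η, h1, h2, h3, symmDiff_comm ({p} : Set Pt) {q} ▸ h4⟩

theorem dual_trans (h : dual_P n M p q) (h' : dual_P n M q r) : dual_P n M p r := by
  obtain ⟨η, h1, h2, h3, h4⟩ := h
  obtain ⟨η', k1, k2, k3, k4⟩ := h'
  have s : ∀ e ∈ symmDiff η η', e ∈ η ∨ e ∈ η' := fun e he =>
    (mem_symmDiff.1 he).imp And.left And.left
  refine ⟨symmDiff η η', fun e he => (s e he).elim (@h1 e) (@k1 e),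
    fun e he => (s e he).elim (h2 e) (k2 e), fun e he => (s e he).elim (h3 e) (k3 e),
    (h4.symmDiff k4).congr fun z _ => ?_⟩
  simp only [Set.mem_symmDiff, Set.mem_singleton_iff]
  tauto

theorem dual_step (d : Dir) (h1 : ea (cr p d) ∈ M ∨ eb (cr p d) ∈ M) (h2 : ¬ Col1 (cr p d)) :
    dual_P n M p (p + d.vec) := by
  have s : ∀ e ∈ {cr p d} ∩ ebox n, e = cr p d := fun e he => mem_singleton.1 (mem_inter.1 he).1
  refine ⟨{cr p d} ∩ ebox n, inter_subset_right, fun e he => s e he ▸ h1, fun e he => s e he ▸ h2,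
    fun z hz => ?_⟩
  have : p + d.vec ≠ p := fun h => d.vec_ne_zero (by simpa using h)
  rw [deg_inter_ebox hz, odd_deg_singleton]
  simp only [Set.mem_symmDiff, Set.mem_singleton_iff]
  refine ⟨fun h => h.imp (fun h => ⟨h, fun k => this (k.symm.trans h)⟩)
    fun h => ⟨h, fun k => this (h.symm.trans k)⟩, fun h => h.imp And.left And.left⟩

theorem dual_up (ha : a ∈ M) {u v : ℤ} (h1 : a.1 = u ∨ a.1 = u + 1) (h2 : a.2 = v + 1) :
    dual_P n M (u, v) (u, v + 1) := by
  have := dual_step (n := n) (M := M) (p := (u, v)) .N (h1.imp (fun h => ?_) fun h => ?_)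
    (by simp [Col1, cr])
  · simpa [Dir.vec] using this
  · exact (Prod.ext h h2 : a = ea (cr (u, v) .N)) ▸ ha
  · have e : a = eb (cr (u, v) .N) := Prod.ext (by simpa [eb, cr] using h) (by simpa [eb, cr] using h2)
    exact e ▸ ha

theorem dual_right (ha : a ∈ M) {u v : ℤ} (h1 : a.2 = v ∨ a.2 = v + 1) (h2 : a.1 = u + 1)
    (hu : 1 ≤ u) : dual_P n M (u, v) (u + 1, v) := by
  have := dual_step (n := n) (M := M) (p := (u, v)) .E (h1.imp (fun h => ?_) fun h => ?_)
    (by simp only [Col1, cr]; omega)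
  · simpa [Dir.vec] using this
  · exact (Prod.ext h2 h : a = ea (cr (u, v) .E)) ▸ ha
  · have e : a = eb (cr (u, v) .E) := Prod.ext (by simpa [eb, cr] using h2) (by simpa [eb, cr] using h)
    exact e ▸ ha

theorem dual_corner (ha : a ∈ M) (hp : Corner p a) (hq : Corner q a) (h1 : 1 ≤ p.1)
    (h2 : 1 ≤ q.1) : dual_P n M p q := by
  obtain ⟨u, v⟩ := p
  obtain ⟨u', v'⟩ := q
  obtain ⟨p1, p2⟩ := hp
  obtain ⟨q1, q2⟩ := hq
  simp only at p1 p2 q1 q2 h1 h2
  refine dual_trans (q := (u, v')) ?_ ?_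
  · rcases (show v' = v ∨ v' = v + 1 ∨ v = v' + 1 by omega) with rfl | rfl | rfl
    · exact dual_refl _
    · exact dual_up ha p1 (by omega)
    · exact dual_symm (dual_up ha p1 (by omega))
  · rcases (show u' = u ∨ u' = u + 1 ∨ u = u' + 1 by omega) with rfl | rfl | rfl
    · exact dual_refl _
    · exact dual_right ha q2 (by omega) h1
    · exact dual_symm (dual_right ha q2 (by omega) h2)

theorem dual_common {u w : Pt} (h : Star u w) (hu : u ∈ box n) (hw : w ∈ box n) :
    ∃ r, Corner r u ∧ Corner r w ∧ 1 ≤ r.1 := by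
  rw [mem_box] at hu hw
  have := nrm_le_iff.1 h.le
  simp only [Prod.fst_sub, Prod.snd_sub] at this
  refine ⟨(min u.1 w.1, min u.2 w.2), ?_, ?_, ?_⟩ <;> simp only [Corner] <;> omega

theorem t_dual : T_DUAL := by
  intro n M a b p q hM ha h hp hq h1 _ h3 h4
  clear h4
  change dual_P n M p q
  have hb : ∀ {c}, Relation.ReflTransGen (fun u w => Star u w ∧ w ∈ M) a c → c ∈ M := fun k => by
    cases k with
    | refl => exact ha
    | tail _ k => exact k.2
  induction h generalizing q with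
  | refl => exact dual_corner ha hp hq h1 h3
  | tail k k' ih =>
    obtain ⟨r, r1, r2, r3⟩ := dual_common k'.1 (hM (hb k)) (hM k'.2)
    exact dual_trans (ih r r1 r3) (dual_corner k'.2 r2 hq r3 h3)

end Pool.Agent.P.MP_347bd1_pr
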