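import Pool.Agent.P.MP_347bd1_pr.Stmts2

/-!
Spectral bounds for the heat-bath dynamics.
-/

namespace Pool.Agent.P.MP_347bd1_pr

open Classical Finset Matrix
open scoped ENNReal NNReal

/-- Diagonalisation of a reversible matrix. -/
theorem dyna_diag {ι : Type*} [Fintype ι] [DecidableEq ι] (π : ι → ℝ) (hπ : ∀ i, 0 < π i)
    (L : Matrix ι ι ℝ) (hL : ∀ i j, π i * L i j = π j * L j i) :
    ∃ (V W : Matrix ι ι ℝ) (μ : ι → ℝ), W * V = 1 ∧ V * W = 1 ∧ diagonal π * W = Vᵀ ∧
      L = W * diagonal μ * V := by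
  have hs : ∀ i, 0 < Real.sqrt (π i) := fun i => Real.sqrt_pos.2 (hπ i)
  have hq : ∀ i, Real.sqrt (π i) * Real.sqrt (π i) = π i := fun i => Real.mul_self_sqrt (hπ i).le
  set D : Matrix ι ι ℝ := diagonal fun i => Real.sqrt (π i) with hD
  set D' : Matrix ι ι ℝ := diagonal fun i => (Real.sqrt (π i))⁻¹ with hD'
  have h1 : D * D' = 1 := by
    rw [hD, hD', diagonal_mul_diagonal, ← diagonal_one]
    congr 1; funext i; exact mul_inv_cancel₀ (hs i).ne'
  have h2 : D' * D = 1 := by
    rw [hD, hD', diagonal_mul_diagonal, ← diagonal_one]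
    congr 1; funext i; exact inv_mul_cancel₀ (hs i).ne'
  have h3 : diagonal π * D' = D := by
    rw [hD, hD', diagonal_mul_diagonal]
    congr 1; funext i
    have := hs i
    rw [mul_inv_eq_iff_eq_mul₀ this.ne', hq]
  have hH : (D * L * D').IsHermitian := by
    ext i j
    simp only [hD, hD', conjTranspose_apply, mul_diagonal, diagonal_mul, star_trivial]
    have a := hs i
    have b := hs j
    field_simp
    have := hL i j
    rw [Real.sq_sqrt (hπ i).le, Real.sq_sqrt (hπ j).le]
    linarith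
  have hsp := hH.spectral_theorem
  set U : Matrix ι ι ℝ := (hH.eigenvectorUnitary : Matrix ι ι ℝ) with hU
  have u1 : U * Uᵀ = 1 := by
    have := (Matrix.mem_unitaryGroup_iff).1 hH.eigenvectorUnitary.2
    simpa [star_eq_conjTranspose] using this
  have u2 : Uᵀ * U = 1 := by
    have := (Matrix.mem_unitaryGroup_iff').1 hH.eigenvectorUnitary.2
    simpa [star_eq_conjTranspose] using this
  have hsp' : D * L * D' = U * diagonal hH.eigenvalues * Uᵀ := by
    rw [Unitary.conjStarAlgAut_apply] at hsp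
    simpa [star_eq_conjTranspose] using hsp
  refine ⟨Uᵀ * D, D' * U, hH.eigenvalues, ?_, ?_, ?_, ?_⟩
  · calc D' * U * (Uᵀ * D) = D' * (U * Uᵀ) * D := by simp only [Matrix.mul_assoc]
      _ = 1 := by rw [u1, Matrix.mul_one, h2]
  · calc Uᵀ * D * (D' * U) = Uᵀ * (D * D') * U := by simp only [Matrix.mul_assoc]
      _ = 1 := by rw [h1, Matrix.mul_one, u2]
  · rw [← Matrix.mul_assoc, h3, transpose_mul, transpose_transpose, hD, diagonal_transpose]
  · calc L = (D' * D) * L * (D' * D) := by rw [h2]; simp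
      _ = D' * (D * L * D') * D := by simp only [Matrix.mul_assoc]
      _ = D' * (U * diagonal hH.eigenvalues * Uᵀ) * D := congrArg (fun X => D' * X * D) hsp'
      _ = _ := by simp only [Matrix.mul_assoc]

theorem dyna_exp {ι : Type*} [Fintype ι] [DecidableEq ι] {V W : Matrix ι ι ℝ} (μ : ι → ℝ)
    (h1 : W * V = 1) (h2 : V * W = 1) (t : ℝ) :
    NormedSpace.exp (t • (W * diagonal μ * V)) = W * diagonal (fun i => Real.exp (t * μ i)) * V := by
  let u : (Matrix ι ι ℝ)ˣ := ⟨W, V, h1, h2⟩
  have e : t • (W * diagonal μ * V) = (u : Matrix ι ι ℝ) * diagonal (t • μ) * (u⁻¹ : (Matrix ι ι ℝ)ˣ) := by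
    change _ = W * diagonal (t • μ) * V
    rw [diagonal_smul]; simp
  rw [e, Matrix.exp_units_conj, Matrix.exp_diagonal]
  change W * _ * V = _
  congr 3
  funext i
  rw [Pi.coe_exp]
  simp [Real.exp_eq_exp_ℝ]

theorem dyna_bil {ι : Type*} [Fintype ι] [DecidableEq ι] {π : ι → ℝ} {V W : Matrix ι ι ℝ}
    (h : diagonal π * W = Vᵀ) (c f g : ι → ℝ) :
    ∑ i, ∑ j, π i * (W * diagonal c * V) i j * (f i * g j) =
      ∑ k, c k * ((V *ᵥ f) k * (V *ᵥ g) k) := by
  have e : ∀ i k, π i * W i k = V k i := fun i k => by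
    have := congrFun (congrFun h i) k
    simpa [diagonal_mul] using this
  have e2 : ∀ i j, π i * (W * diagonal c * V) i j * (f i * g j) =
      ∑ k, c k * ((V k i * f i) * (V k j * g j)) := fun i j => by
    rw [Matrix.mul_apply, Finset.mul_sum, Finset.sum_mul]
    refine Finset.sum_congr rfl fun k _ => ?_
    rw [mul_diagonal, ← e i]; ring
  simp_rw [e2]
  rw [Finset.sum_congr rfl fun i _ => Finset.sum_comm, Finset.sum_comm]
  refine Finset.sum_congr rfl fun k _ => ?_
  simp only [mulVec, dotProduct]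
  rw [Finset.sum_mul_sum, Finset.mul_sum]
  simp only [Finset.mul_sum]

/-- The abstract spectral statement. -/
theorem dyna_abs {ι : Type*} [Fintype ι] [DecidableEq ι] (π : ι → ℝ) (hπ : ∀ i, 0 < π i)
    (L : Matrix ι ι ℝ) (hL : ∀ i j, π i * L i j = π j * L j i) (h0 : ∀ i, ∑ j, L i j = 0)
    (E : (ι → ℝ) → ℝ) (hE : ∀ g, E g = - ∑ i, ∑ j, π i * L i j * (g i * g j))
    (hE0 : ∀ g, 0 ≤ E g) (f : ι → ℝ) (t : ℝ) (ht : 0 ≤ t) :
    (∑ i, ∑ j, π i * NormedSpace.exp (t • L) i j * f j = ∑ i, π i * f i) ∧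
    (∑ i, π i * f i ^ 2 - ∑ i, ∑ j, π i * NormedSpace.exp (t • L) i j * (f i * f j) ≤ t * E f) ∧
    ∃ g : ι → ℝ, (∑ i, π i * (f i - g i) ^ 2 ≤
      ∑ i, π i * f i ^ 2 - ∑ i, ∑ j, π i * NormedSpace.exp (t • L) i j * (f i * f j)) ∧
      t * E g ≤ ∑ i, π i * f i ^ 2 - ∑ i, ∑ j, π i * NormedSpace.exp (t • L) i j * (f i * f j) := by
  obtain ⟨V, W, μ, h1, h2, h3, h4⟩ := dyna_diag π hπ L hL
  have hx : NormedSpace.exp (t • L) = W * diagonal (fun i => Real.exp (t * μ i)) * V := by
    rw [h4]; exact dyna_exp μ h1 h2 t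
  have hone : ∀ f g : ι → ℝ, ∑ i, π i * (f i * g i) = ∑ k, (V *ᵥ f) k * (V *ᵥ g) k := by
    intro f g
    have := dyna_bil h3 (fun _ => 1) f g
    rw [diagonal_one, Matrix.mul_one, h1] at this
    simp only [one_mul] at this
    rw [← this]
    refine Finset.sum_congr rfl fun i _ => ?_
    simp [Matrix.one_apply]
  have hEk : ∀ g, E g = ∑ k, - μ k * (V *ᵥ g) k ^ 2 := by
    intro g
    rw [hE, h4, dyna_bil h3, ← Finset.sum_neg_distrib]
    exact Finset.sum_congr rfl fun k _ => by ring
  have hVW : ∀ a : ι → ℝ, V *ᵥ (W *ᵥ a) = a := fun a => by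
    rw [mulVec_mulVec, h2, one_mulVec]
  have hμ : ∀ k, μ k ≤ 0 := by
    intro k
    have := hE0 (W *ᵥ Pi.single k 1)
    rw [hEk, hVW, Finset.sum_eq_single k] at this
    · simpa using this
    · intro j _ hj; simp [hj]
    · simp
  have hker : ∀ k, μ k * (V *ᵥ fun _ => (1 : ℝ)) k = 0 := by
    intro k
    have a : L *ᵥ (fun _ => (1 : ℝ)) = 0 := by
      funext i; simp [mulVec, dotProduct, h0]
    have b : V *ᵥ (L *ᵥ fun _ => (1 : ℝ)) = diagonal μ *ᵥ (V *ᵥ fun _ => (1 : ℝ)) := by
      rw [h4, ← mulVec_mulVec, ← mulVec_mulVec, hVW]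
    rw [a, mulVec_zero] at b
    have := congrFun b k
    rw [mulVec_diagonal] at this
    exact this.symm
  have hV : ∑ i, π i * f i ^ 2 - ∑ i, ∑ j, π i * NormedSpace.exp (t • L) i j * (f i * f j) =
      ∑ k, (1 - Real.exp (t * μ k)) * (V *ᵥ f) k ^ 2 := by
    rw [hx, dyna_bil h3]
    simp only [sq]
    rw [hone, ← Finset.sum_sub_distrib]
    exact Finset.sum_congr rfl fun k _ => by ring
  refine ⟨?_, ?_, W *ᵥ fun k => Real.exp (t * μ k / 2) * (V *ᵥ f) k, ?_, ?_⟩
  · have a := dyna_bil h3 (fun i => Real.exp (t * μ i)) (fun _ => 1) f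
    have b := hone (fun _ => 1) f
    simp only [one_mul] at a b
    rw [hx, a, b]
    refine Finset.sum_congr rfl fun k _ => ?_
    rcases mul_eq_zero.1 (hker k) with h | h
    · simp [h]
    · simp [h]
  · rw [hV, hEk, Finset.mul_sum]
    refine Finset.sum_le_sum fun k _ => ?_
    have := Real.add_one_le_exp (t * μ k)
    have h := sq_nonneg ((V *ᵥ f) k)
    nlinarith
  · rw [hV]
    simp only [sq]
    have := hone (f - W *ᵥ fun k => Real.exp (t * μ k / 2) * (V *ᵥ f) k)
      (f - W *ᵥ fun k => Real.exp (t * μ k / 2) * (V *ᵥ f) k)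
    simp only [Pi.sub_apply] at this
    rw [this, mulVec_sub, hVW]
    refine Finset.sum_le_sum fun k _ => ?_
    simp only [Pi.sub_apply]
    have e : Real.exp (t * μ k) = Real.exp (t * μ k / 2) * Real.exp (t * μ k / 2) := by
      rw [← Real.exp_add]; ring_nf
    have y0 := Real.exp_pos (t * μ k / 2)
    have y1 : Real.exp (t * μ k / 2) ≤ 1 :=
      Real.exp_le_one_iff.2 (by nlinarith [hμ k])
    rw [e]
    have h := mul_self_nonneg ((V *ᵥ f) k)
    nlinarith [mul_nonneg (mul_nonneg y0.le (sub_nonneg.2 y1)) h]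
  · rw [hV, hEk, hVW, Finset.mul_sum]
    refine Finset.sum_le_sum fun k _ => ?_
    have e : Real.exp (t * μ k) = Real.exp (t * μ k / 2) ^ 2 := by
      rw [sq, ← Real.exp_add]; ring_nf
    have e2 : Real.exp (-(t * μ k)) * Real.exp (t * μ k) = 1 := by
      rw [← Real.exp_add]; simp
    have a := Real.add_one_le_exp (-(t * μ k))
    have y0 := Real.exp_pos (t * μ k)
    have h := sq_nonneg ((V *ᵥ f) k)
    have b : -(t * μ k) * Real.exp (t * μ k) ≤ 1 - Real.exp (t * μ k) := by nlinarith
    rw [mul_pow, ← e]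
    nlinarith [mul_le_mul_of_nonneg_right b h]

theorem dyna_pos (b : BC) {n : ℕ} (σ : Conf n) : 0 < ising b σ :=
  div_pos (Real.exp_pos _) (Finset.sum_pos (fun _ _ => Real.exp_pos _) Finset.univ_nonempty)

theorem dyna_sum (b : BC) (n : ℕ) : ∑ σ : Conf n, ising b σ = 1 := by
  unfold ising
  rw [← Finset.sum_div]
  exact div_self (Finset.sum_pos (fun _ _ => Real.exp_pos _) Finset.univ_nonempty).ne'

theorem dyna_cond_add (b : BC) {n : ℕ} (σ : Conf n) (x : Site n) :
    cond b σ x true + cond b σ x false = 1 := by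
  unfold cond
  rw [← add_div]
  exact div_self (add_pos (dyna_pos b _) (dyna_pos b _)).ne'

theorem dyna_cond_pos (b : BC) {n : ℕ} (σ : Conf n) (x : Site n) (s : Bool) :
    0 < cond b σ x s :=
  div_pos (dyna_pos b _) (add_pos (dyna_pos b _) (dyna_pos b _))

theorem dyna_cond_upd (b : BC) {n : ℕ} (σ : Conf n) (x : Site n) (s s' : Bool) :
    cond b (Function.update σ x s') x s = cond b σ x s := by
  unfold cond
  simp only [Function.update_idem]

/-- The kernel resampling the site `x`. -/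
noncomputable def dyna_K (b : BC) {n : ℕ} (x : Site n) (σ τ : Conf n) : ℝ :=
  ∑ s, if τ = Function.update σ x s then cond b σ x s else 0

theorem dyna_K_eq (b : BC) {n : ℕ} (x : Site n) (σ τ : Conf n) :
    dyna_K b x σ τ = if τ = Function.update σ x (τ x) then cond b σ x (τ x) else 0 := by
  unfold dyna_K
  rw [Finset.sum_eq_single (τ x)]
  · intro s _ hs
    rw [if_neg]
    intro h
    exact hs (by rw [h]; simp)
  · simp

theorem dyna_K_rev (b : BC) {n : ℕ} (x : Site n) (σ τ : Conf n) :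
    ising b σ * dyna_K b x σ τ = ising b τ * dyna_K b x τ σ := by
  rw [dyna_K_eq, dyna_K_eq]
  have key : ∀ σ τ : Conf n, τ = Function.update σ x (τ x) → σ = Function.update τ x (σ x) := by
    intro σ τ h
    rw [h]; simp
  by_cases h : τ = Function.update σ x (τ x)
  · rw [if_pos h, if_pos (key _ _ h)]
    have e : cond b τ x (σ x) = cond b σ x (σ x) := by
      conv_lhs => rw [h]
      exact dyna_cond_upd b σ x _ _
    rw [e]
    unfold cond
    rw [← h, Function.update_eq_self]
    ring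
  · rw [if_neg h, if_neg fun h' => h (key _ _ h')]
    simp

theorem dyna_K_sum (b : BC) {n : ℕ} (x : Site n) (σ : Conf n) (g : Conf n → ℝ) :
    ∑ τ, dyna_K b x σ τ * g τ = cond b σ x true * g (Function.update σ x true) +
      cond b σ x false * g (Function.update σ x false) := by
  unfold dyna_K
  simp_rw [Finset.sum_mul]
  rw [Finset.sum_comm]
  simp

/-- The measure is invariant for the resampling of one site. -/
theorem dyna_inv (b : BC) {n : ℕ} (x : Site n) (g : Conf n → ℝ) :
    ∑ σ, ising b σ * g σ = ∑ σ, ising b σ * (cond b σ x true * g (Function.update σ x true) +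
      cond b σ x false * g (Function.update σ x false)) := by
  simp_rw [← dyna_K_sum, Finset.mul_sum, ← mul_assoc]
  rw [Finset.sum_congr rfl fun σ _ => Finset.sum_congr rfl fun τ _ =>
    congrArg (· * g τ) (dyna_K_rev b x σ τ), Finset.sum_comm]
  refine Finset.sum_congr rfl fun τ _ => ?_
  rw [← Finset.sum_mul, ← Finset.mul_sum]
  have := dyna_K_sum b x τ fun _ => 1
  simp only [mul_one, dyna_cond_add] at this
  rw [this, mul_one]

theorem dyna_gen (b : BC) {n : ℕ} (σ τ : Conf n) :
    gen b n σ τ = ∑ x, (dyna_K b x σ τ - if τ = σ then 1 else 0) := rfl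

theorem dyna_dir (b : BC) {n : ℕ} (g : Conf n → ℝ) :
    dirF b g = - ∑ σ, ∑ τ, ising b σ * gen b n σ τ * (g σ * g τ) := by
  have e : ∀ σ : Conf n, ∑ τ, ising b σ * gen b n σ τ * (g σ * g τ) =
      ∑ x, ising b σ * (g σ * (cond b σ x true * g (Function.update σ x true) +
        cond b σ x false * g (Function.update σ x false) - g σ)) := by
    intro σ
    simp_rw [dyna_gen, Finset.mul_sum, Finset.sum_mul]
    rw [Finset.sum_comm]
    refine Finset.sum_congr rfl fun x _ => ?_
    rw [← dyna_K_sum]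
    have : g σ = ∑ τ, (if τ = σ then 1 else 0) * g τ := by simp
    conv_rhs => rw [this]
    rw [← Finset.sum_sub_distrib, ← this, Finset.mul_sum, Finset.mul_sum]
    exact Finset.sum_congr rfl fun τ _ => by ring
  simp_rw [e]
  rw [Finset.sum_comm, ← Finset.sum_neg_distrib]
  refine Finset.sum_congr rfl fun x _ => ?_
  rw [dyna_inv b x fun σ => g σ * (cond b σ x true * g (Function.update σ x true) +
        cond b σ x false * g (Function.update σ x false) - g σ), ← Finset.sum_neg_distrib]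
  refine Finset.sum_congr rfl fun σ _ => ?_
  simp only [dyna_cond_upd, Function.update_idem]
  have h : cond b σ x false = 1 - cond b σ x true := by linarith [dyna_cond_add b σ x]
  rw [h]; ring

theorem t_dyna : T_DYNA := by
  intro b n f t ht
  have hrev : ∀ σ τ : Conf n, ising b σ * gen b n σ τ = ising b τ * gen b n τ σ := by
    intro σ τ
    rw [dyna_gen, dyna_gen, Finset.mul_sum, Finset.mul_sum]
    refine Finset.sum_congr rfl fun x _ => ?_
    rw [mul_sub, mul_sub, dyna_K_rev]
    by_cases h : τ = σ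
    · subst h; rfl
    · rw [if_neg h, if_neg fun h' => h h'.symm]; simp
  have h0 : ∀ σ : Conf n, ∑ τ, gen b n σ τ = 0 := by
    intro σ
    simp_rw [dyna_gen]
    rw [Finset.sum_comm]
    refine Finset.sum_eq_zero fun x _ => ?_
    have := dyna_K_sum b x σ fun _ => 1
    simp only [mul_one, dyna_cond_add] at this
    rw [Finset.sum_sub_distrib, this]
    simp
  have hE0 : ∀ g : Conf n → ℝ, 0 ≤ dirF b g := fun g =>
    Finset.sum_nonneg fun x _ => Finset.sum_nonneg fun σ _ => mul_nonneg (dyna_pos b σ).le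
      (mul_nonneg (mul_pos (dyna_cond_pos b σ x _) (dyna_cond_pos b σ x _)).le (sq_nonneg _))
  obtain ⟨h1, h2⟩ := dyna_abs (ising b) (dyna_pos b) (gen b n) hrev h0 (dirF b) (dyna_dir b) hE0
    f t ht
  have e : var b f - cov b f t = ∑ σ, ising b σ * f σ ^ 2 -
      ∑ σ, ∑ τ, ising b σ * NormedSpace.exp (t • gen b n) σ τ * (f σ * f τ) := by
    unfold var cov trans
    rw [h1]; ring
  rw [e]
  exact h2

theorem t_dynup (h : T_DYNA) : T_DYNUP := by
  intro b n f t ht hf
  obtain ⟨h1, g, h2, -⟩ := h b n f t ht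
  refine ⟨le_trans (Finset.sum_nonneg fun σ _ => mul_nonneg (dyna_pos b σ).le (sq_nonneg _)) h2,
    h1.trans ?_⟩
  have hd : dirF b f ≤ ∑ x, ∑ σ, ising b σ *
      if f (Function.update σ x true) = f (Function.update σ x false) then 0 else 1 := by
    refine Finset.sum_le_sum fun x _ => Finset.sum_le_sum fun σ _ =>
      mul_le_mul_of_nonneg_left ?_ (dyna_pos b σ).le
    split_ifs with e
    · rw [e]; simp
    · have a := dyna_cond_add b σ x
      have c : cond b σ x true * cond b σ x false ≤ 1 / 4 := by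
        nlinarith [sq_nonneg (cond b σ x true - cond b σ x false)]
      have c0 := (mul_pos (dyna_cond_pos b σ x true) (dyna_cond_pos b σ x false)).le
      have d : (f (Function.update σ x true) - f (Function.update σ x false)) ^ 2 ≤ 4 := by
        rcases hf (Function.update σ x true) with p | p <;>
          rcases hf (Function.update σ x false) with q | q <;> rw [p, q] <;> norm_num
      nlinarith [mul_le_mul c d (sq_nonneg _) (by norm_num : (0 : ℝ) ≤ 1 / 4)]
  have hn : 0 ≤ ∑ x, ∑ σ, ising b σ *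
      if f (Function.update σ x true) = f (Function.update σ x false) then (0 : ℝ) else 1 :=
    Finset.sum_nonneg fun x _ => Finset.sum_nonneg fun σ _ =>
      mul_nonneg (dyna_pos b σ).le (by split_ifs <;> norm_num)
  nlinarith [mul_le_mul_of_nonneg_left hd ht, mul_nonneg ht hn]

end Pool.Agent.P.MP_347bd1_pr
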