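import Pool.Agent.P.MP_347bd1_pr.Stmts2

/-!
A lower bound for the loss of covariance: finite energy and a path in the fibre.
-/

namespace Pool.Agent.P.MP_347bd1_pr

open Classical Finset
open scoped ENNReal NNReal

theorem dynlo_deg {n : ℕ} (x : Site n) : (univ.filter fun y => (grid n).Adj x y).card ≤ 4 := by
  refine le_trans (card_le_card_of_injOn (t := {(x.1.val + 1, x.2.val), (x.1.val - 1, x.2.val),
    (x.1.val, x.2.val + 1), (x.1.val, x.2.val - 1)}) (fun y : Site n => (y.1.val, y.2.val))
    (fun y hy => ?_) fun y _ z _ h => ?_) card_le_four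
  · have h := (mem_filter.1 (mem_coe.1 hy)).2
    simp only [grid, SimpleGraph.boxProd_adj, SimpleGraph.pathGraph_adj, Fin.ext_iff] at h
    simp only [coe_insert, coe_singleton, Set.mem_insert_iff, Set.mem_singleton_iff, Prod.mk.injEq]
    omega
  · simp only [Prod.mk.injEq] at h
    exact Prod.ext (Fin.ext h.1) (Fin.ext h.2)

theorem dynlo_sp (s : Bool) : sp s = 1 ∨ sp s = -1 := by cases s <;> simp [sp]

theorem dynlo_energy (b : BC) {n : ℕ} (σ : Conf n) (x : Site n) (s : Bool) :
    energy b (Function.update σ x s) ≤ energy b σ + 16 := by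
  set τ := Function.update σ x s with hτ
  have d1 : (∑ y, if (grid n).Adj x y then (1 : ℝ) else 0) ≤ 4 := by
    rw [sum_boole]; exact_mod_cast dynlo_deg x
  have d2 : ((grid n).degree x : ℝ) ≤ 4 := by
    rw [← SimpleGraph.card_neighborFinset_eq_degree, SimpleGraph.neighborFinset_eq_filter]
    exact_mod_cast dynlo_deg x
  have h1 : ∀ u v, (if (grid n).Adj u v then sp (τ u) * sp (τ v) else 0) ≤
      (if (grid n).Adj u v then sp (σ u) * sp (σ v) else 0) +
        ((if u = x then 2 * if (grid n).Adj x v then 1 else 0 else 0) +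
          if v = x then 2 * if (grid n).Adj x u then 1 else 0 else 0) := by
    intro u v
    have k : sp (τ u) * sp (τ v) ≤ sp (σ u) * sp (σ v) + 2 := by
      rcases dynlo_sp (τ u) with a | a <;> rcases dynlo_sp (τ v) with c | c <;>
        rcases dynlo_sp (σ u) with d | d <;> rcases dynlo_sp (σ v) with e | e <;>
        rw [a, c, d, e] <;> norm_num
    by_cases h : (grid n).Adj u v
    · by_cases hu : u = x
      · subst hu
        simp only [h, if_true, if_neg h.ne']
        linarith
      · by_cases hv : v = x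
        · subst hv
          simp only [h, h.symm, if_true, if_neg hu]
          linarith
        · simp [h, hu, hv, hτ]
    · simp only [h, if_false]
      split_ifs <;> norm_num
  have h2 : (∑ u, ∑ v, if (grid n).Adj u v then sp (τ u) * sp (τ v) else 0) ≤
      (∑ u, ∑ v, if (grid n).Adj u v then sp (σ u) * sp (σ v) else 0) + 16 := by
    refine (sum_le_sum fun u _ => sum_le_sum fun v _ => h1 u v).trans ?_
    simp only [sum_add_distrib]
    have e1 : (∑ u, ∑ v, if u = x then 2 * if (grid n).Adj x v then (1 : ℝ) else 0 else 0) =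
        2 * ∑ y, if (grid n).Adj x y then (1 : ℝ) else 0 := by
      rw [sum_comm, mul_sum]
      exact sum_congr rfl fun v _ => by rw [sum_ite_eq', if_pos (mem_univ _)]
    have e2 : (∑ u, ∑ v, if v = x then 2 * if (grid n).Adj x u then (1 : ℝ) else 0 else 0) =
        2 * ∑ y, if (grid n).Adj x y then (1 : ℝ) else 0 := by
      rw [mul_sum]
      exact sum_congr rfl fun v _ => by rw [sum_ite_eq', if_pos (mem_univ _)]
    rw [e1, e2]
    linarith
  have h3 : ∑ u, (4 - ((grid n).degree u : ℝ)) * (sp (τ u) * outSp b) ≤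
      ∑ u, (4 - ((grid n).degree u : ℝ)) * (sp (σ u) * outSp b) + 8 := by
    have k : ∀ u, (4 - ((grid n).degree u : ℝ)) * (sp (τ u) * outSp b) ≤
        (4 - ((grid n).degree u : ℝ)) * (sp (σ u) * outSp b) + if u = x then 8 else 0 := by
      intro u
      by_cases hu : u = x
      · subst hu
        have d0 : (0 : ℝ) ≤ (grid n).degree u := Nat.cast_nonneg _
        rw [if_pos rfl]
        rcases dynlo_sp (τ u) with a | a <;> rcases dynlo_sp (σ u) with c | c <;> rw [a, c] <;>
          cases b <;> simp only [outSp] <;> linarith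
      · simp [hu, hτ]
    refine (sum_le_sum fun u _ => k u).trans ?_
    rw [sum_add_distrib, sum_ite_eq', if_pos (mem_univ _)]
  unfold energy
  linarith

theorem dynlo_beta : 0 ≤ betaC :=
  div_nonneg (Real.log_nonneg (le_add_of_nonneg_right (Real.sqrt_nonneg _))) two_pos.le

/-- The finite energy constant. -/
noncomputable def dynloA : ℝ := Real.exp (betaC * 16)

theorem dynlo_one_le : 1 ≤ dynloA := Real.one_le_exp (mul_nonneg dynlo_beta (by norm_num))

theorem dynlo_pos (b : BC) {n : ℕ} (σ : Conf n) : 0 < ising b σ :=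
  div_pos (Real.exp_pos _) (sum_pos (fun _ _ => Real.exp_pos _) ⟨σ, mem_univ _⟩)

theorem dynlo_update (b : BC) {n : ℕ} (σ : Conf n) (x : Site n) (s : Bool) :
    ising b (Function.update σ x s) ≤ dynloA * ising b σ := by
  unfold ising
  rw [← mul_div_assoc, dynloA, ← Real.exp_add]
  refine div_le_div_of_nonneg_right (Real.exp_le_exp.2 ?_)
    (sum_nonneg fun _ _ => (Real.exp_pos _).le)
  nlinarith [dynlo_energy b σ x s, dynlo_beta]

theorem dynlo_cond (b : BC) {n : ℕ} (σ : Conf n) (x : Site n) (s : Bool) :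
    1 / (2 * dynloA) ≤ cond b σ x s := by
  have h1 := dynlo_update b (Function.update σ x s) x true
  have h2 := dynlo_update b (Function.update σ x s) x false
  rw [Function.update_idem] at h1 h2
  have h3 := dynlo_one_le
  rw [cond, div_le_div_iff₀ (by linarith) (add_pos (dynlo_pos _ _) (dynlo_pos _ _))]
  linarith

theorem dynlo_off (b : BC) {n : ℕ} (τ : Conf n) (R : Finset (Site n)) :
    ∀ σ : Conf n, (∀ x, x ∉ R → τ x = σ x) → ising b σ ≤ dynloA ^ R.card * ising b τ := by
  induction R using Finset.induction_on with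
  | empty =>
    intro σ h
    rw [show σ = τ from funext fun x => (h x (notMem_empty x)).symm]
    simp
  | insert x R hx ih =>
    intro σ h
    have h1 := ih (Function.update σ x (τ x)) fun y hy => by
      by_cases e : y = x
      · rw [e, Function.update_self]
      · rw [Function.update_of_ne e]
        exact h y (by simp [e, hy])
    have h2 := dynlo_update b (Function.update σ x (τ x)) x (σ x)
    rw [Function.update_idem, Function.update_eq_self] at h2
    rw [card_insert_of_notMem hx, pow_succ', mul_assoc]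
    exact h2.trans (mul_le_mul_of_nonneg_left h1 (zero_le_one.trans dynlo_one_le))

theorem dynlo_card {n : ℕ} (τ : Conf n) (R : Finset (Site n)) (S : Finset (Conf n))
    (h : ∀ σ ∈ S, ∀ x, x ∉ R → τ x = σ x) : S.card ≤ 2 ^ R.card := by
  rw [← card_powerset]
  refine card_le_card_of_injOn (fun σ => R.filter fun x => σ x = true)
    (fun σ _ => mem_coe.2 (mem_powerset.2 (filter_subset _ _))) fun σ h1 σ' h2 e => ?_
  funext x
  by_cases hx : x ∈ R
  · have := Finset.ext_iff.1 e x
    simp only [mem_filter, hx, true_and] at this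
    exact Bool.eq_iff_iff.2 this
  · rw [← h σ h1 x hx, ← h σ' h2 x hx]

theorem dynlo_path {n : ℕ} {g : Conf n → ℝ} {σ : Conf n} {R : Finset (Site n)} {ε : ℝ}
    (h : ∀ τ : Conf n, (∀ x, x ∉ R → τ x = σ x) → ∀ x,
      |g (Function.update τ x true) - g (Function.update τ x false)| ≤ ε) (τ' : Conf n)
    (T : Finset (Site n)) : T ⊆ R → ∀ τ : Conf n, (∀ x, x ∉ R → τ x = σ x) →
      (∀ x, x ∉ T → τ' x = τ x) → |g τ' - g τ| ≤ T.card * ε := by
  induction T using Finset.induction_on with
  | empty =>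
    intro _ τ _ h2
    rw [show τ' = τ from funext fun x => h2 x (notMem_empty x)]
    simp
  | insert x T hx ih =>
    intro hT τ h1 h2
    have hxR : x ∈ R := hT (mem_insert_self _ _)
    have k1 := ih ((subset_insert _ _).trans hT) (Function.update τ x (τ' x))
      (fun y hy => by
        rw [Function.update_of_ne (by rintro rfl; exact hy hxR)]
        exact h1 y hy)
      fun y hy => by
        by_cases e : y = x
        · rw [e, Function.update_self]
        · rw [Function.update_of_ne e]
          exact h2 y (by simp [e, hy])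
    have k2 : |g (Function.update τ x (τ' x)) - g (Function.update τ x (τ x))| ≤ ε := by
      have k := h τ h1 x
      have k0 : 0 ≤ ε := (abs_nonneg _).trans k
      cases τ' x <;> cases τ x
      · simpa using k0
      · rwa [abs_sub_comm]
      · exact k
      · simpa using k0
    rw [Function.update_eq_self] at k2
    rw [card_insert_of_notMem hx]
    have := abs_sub_le (g τ') (g (Function.update τ x (τ' x))) (g τ)
    push_cast
    linarith

theorem dynlo_exists {n K : ℕ} (f g : Conf n → ℝ) (σ : Conf n) (R : Finset (Site n))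
    (hR : R.card ≤ K) (h1 : f (fun x => if x ∈ R then true else σ x) = 1)
    (h2 : f (fun x => if x ∈ R then false else σ x) = -1) :
    ∃ τ : Conf n, (∀ x, x ∉ R → τ x = σ x) ∧ (1 / (K + 2 : ℝ)) ^ 2 ≤ (f τ - g τ) ^ 2 +
      ∑ x, (g (Function.update τ x true) - g (Function.update τ x false)) ^ 2 := by
  by_contra k
  push Not at k
  have e0 : (0 : ℝ) < 1 / (K + 2 : ℝ) := by positivity
  have k1 : ∀ τ : Conf n, (∀ x, x ∉ R → τ x = σ x) → |f τ - g τ| ≤ 1 / (K + 2 : ℝ) :=
    fun τ h => abs_le_of_sq_le_sq' (le_trans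
      (le_add_of_nonneg_right (sum_nonneg fun _ _ => sq_nonneg _)) (k τ h).le) e0.le |> abs_le.2
  have k2 : ∀ τ : Conf n, (∀ x, x ∉ R → τ x = σ x) → ∀ x,
      |g (Function.update τ x true) - g (Function.update τ x false)| ≤ 1 / (K + 2 : ℝ) :=
    fun τ h x => abs_le_of_sq_le_sq' (le_trans (le_add_of_nonneg_of_le (sq_nonneg _)
      (single_le_sum (f := fun x => (g (Function.update τ x true) -
        g (Function.update τ x false)) ^ 2) (fun _ _ => sq_nonneg _) (mem_univ x)))
      (k τ h).le) e0.le |> abs_le.2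
  have a1 := k1 (fun x => if x ∈ R then true else σ x) fun x hx => if_neg hx
  have a2 := k1 (fun x => if x ∈ R then false else σ x) fun x hx => if_neg hx
  have a3 := dynlo_path k2 (fun x => if x ∈ R then true else σ x) R subset_rfl
    (fun x => if x ∈ R then false else σ x) (fun x hx => if_neg hx) fun x hx => by simp [hx]
  rw [h1] at a1
  rw [h2] at a2
  have a4 : (R.card : ℝ) * (1 / (K + 2 : ℝ)) ≤ K * (1 / (K + 2 : ℝ)) :=
    mul_le_mul_of_nonneg_right (by exact_mod_cast hR) e0.le
  have a5 : (K + 2 : ℝ) * (1 / (K + 2 : ℝ)) = 1 := by field_simp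
  rw [abs_le] at a1 a2 a3
  linarith [a1.2, a2.1, a3.2]

theorem t_dynlo (h : T_DYNA) : T_DYNLO := by
  intro t K ht
  have hA := dynlo_one_le
  have hA0 : 0 < dynloA := by linarith
  refine ⟨(1 / (K + 2 : ℝ)) ^ 2 / (dynloA ^ K * 2 ^ K * (1 + (2 * dynloA) ^ 2 / t)),
    by positivity, fun b n f G R h1 h2 h3 => ?_⟩
  obtain ⟨-, g, g1, g2⟩ := h b n f t ht.le
  set D := var b f - cov b f t
  obtain ⟨Ψ, hΨ⟩ : ∃ Ψ : Conf n → ℝ, ∀ τ, Ψ τ = (f τ - g τ) ^ 2 +
      ∑ x, (g (Function.update τ x true) - g (Function.update τ x false)) ^ 2 := ⟨_, fun _ => rfl⟩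
  have Ψ0 : ∀ τ, 0 ≤ ising b τ * Ψ τ := fun τ => mul_nonneg (dynlo_pos b τ).le (by
    rw [hΨ]; exact add_nonneg (sq_nonneg _) (sum_nonneg fun _ _ => sq_nonneg _))
  have s1 : ∑ τ, ising b τ * Ψ τ ≤ (1 + (2 * dynloA) ^ 2 / t) * D := by
    have k : ∑ τ, ising b τ * ∑ x, (g (Function.update τ x true) -
        g (Function.update τ x false)) ^ 2 ≤ (2 * dynloA) ^ 2 * dirF b g := by
      simp only [dirF, mul_sum]
      rw [sum_comm]
      refine sum_le_sum fun x _ => sum_le_sum fun τ _ => ?_
      have c1 := dynlo_cond b τ x true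
      have c2 := dynlo_cond b τ x false
      rw [div_le_iff₀ (by positivity)] at c1 c2
      have c3 := one_le_mul_of_one_le_of_one_le c1 c2
      have c4 : 0 ≤ ising b τ * (g (Function.update τ x true) -
        g (Function.update τ x false)) ^ 2 := mul_nonneg (dynlo_pos b τ).le (sq_nonneg _)
      nlinarith [mul_le_mul_of_nonneg_left c3 c4]
    have k' : (2 * dynloA) ^ 2 * dirF b g ≤ (2 * dynloA) ^ 2 / t * D := by
      rw [div_mul_eq_mul_div, mul_div_assoc]
      exact mul_le_mul_of_nonneg_left ((le_div_iff₀' ht).2 g2) (sq_nonneg _)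
    simp only [hΨ, mul_add, sum_add_distrib]
    linarith
  have s2 : ∀ σ, (1 / (K + 2 : ℝ)) ^ 2 * (ising b σ * if G σ then 1 else 0) ≤
      dynloA ^ K * ∑ τ, if G σ ∧ ∀ x, x ∉ R σ → τ x = σ x then ising b τ * Ψ τ else 0 := by
    intro σ
    have n0 : ∀ τ : Conf n, 0 ≤ if G σ ∧ ∀ x, x ∉ R σ → τ x = σ x then ising b τ * Ψ τ else 0 :=
      fun τ => by split_ifs; exacts [Ψ0 τ, le_rfl]
    by_cases hG : G σ
    · obtain ⟨τ, k1, k2⟩ := dynlo_exists f g σ (R σ) (h1 σ hG) (h3 σ hG).1 (h3 σ hG).2
      rw [← hΨ] at k2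
      have k3 := (dynlo_off b τ (R σ) σ k1).trans (mul_le_mul_of_nonneg_right
        (pow_le_pow_right₀ hA (h1 σ hG)) (dynlo_pos b τ).le)
      have k4 := single_le_sum (f := fun τ : Conf n =>
        if G σ ∧ ∀ x, x ∉ R σ → τ x = σ x then ising b τ * Ψ τ else 0) (fun τ _ => n0 τ)
        (mem_univ τ)
      rw [if_pos ⟨hG, k1⟩] at k4
      rw [if_pos hG, mul_one]
      refine le_trans ?_ (mul_le_mul_of_nonneg_left k4 (by positivity))
      rw [← mul_assoc, mul_comm]
      exact mul_le_mul k3 k2 (sq_nonneg _) (mul_nonneg (by positivity) (dynlo_pos b τ).le)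
    · rw [if_neg hG, mul_zero, mul_zero]
      exact mul_nonneg (by positivity) (sum_nonneg fun τ _ => n0 τ)
  have s3 : ∀ τ : Conf n, (∑ σ, if G σ ∧ ∀ x, x ∉ R σ → τ x = σ x then ising b τ * Ψ τ else 0) ≤
      2 ^ K * (ising b τ * Ψ τ) := by
    intro τ
    rw [← sum_filter, sum_const, nsmul_eq_mul]
    refine mul_le_mul_of_nonneg_right ?_ (Ψ0 τ)
    rcases (univ.filter fun σ : Conf n => G σ ∧ ∀ x, x ∉ R σ → τ x = σ x).eq_empty_or_nonempty
      with e | ⟨σ0, e⟩
    · rw [e]; simp
    · have k := (mem_filter.1 e).2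
      have k1 := dynlo_card τ (R τ)
        (univ.filter fun σ : Conf n => G σ ∧ ∀ x, x ∉ R σ → τ x = σ x) fun σ hσ x hx => by
          have k := (mem_filter.1 hσ).2
          exact k.2 x ((h2 σ τ k.1 k.2).2 ▸ hx)
      exact_mod_cast k1.trans (Nat.pow_le_pow_right two_pos (h1 τ (h2 σ0 τ k.1 k.2).1))
  rw [div_mul_eq_mul_div, div_le_iff₀ (by positivity), mul_sum]
  refine (sum_le_sum fun σ _ => s2 σ).trans ?_
  rw [← mul_sum, sum_comm]
  have s4 := (sum_le_sum fun τ (_ : τ ∈ univ) => s3 τ).trans_eq (mul_sum _ _ _).symm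
  calc _ ≤ dynloA ^ K * (2 ^ K * ((1 + (2 * dynloA) ^ 2 / t) * D)) :=
        mul_le_mul_of_nonneg_left (s4.trans (mul_le_mul_of_nonneg_left s1 (by positivity)))
          (by positivity)
    _ = _ := by ring

end Pool.Agent.P.MP_347bd1_pr
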