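import Mathlib

/-!
The critical Ising model on an `n × n` box, its heat-bath Glauber dynamics and the
left-right crossing function.
-/

namespace Pool.Agent.P.MP_347bd1_pr

open Classical

/-- The two boundary conditions. -/
inductive BC
  | free
  | plus

/-- The sites of the box; the first coordinate is the column. -/
abbrev Site (n : ℕ) : Type := Fin n × Fin n

/-- Spin configurations: `true` is `+1` and `false` is `-1`. -/
abbrev Conf (n : ℕ) : Type := Site n → Bool

/-- The value of a spin. -/
def sp (b : Bool) : ℝ := if b then 1 else -1

/-- The nearest-neighbour graph of the box. -/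
def grid (n : ℕ) : SimpleGraph (Site n) :=
  (SimpleGraph.pathGraph n).boxProd (SimpleGraph.pathGraph n)

/-- The critical inverse temperature. -/
noncomputable def betaC : ℝ := Real.log (1 + Real.sqrt 2) / 2

/-- The spin outside the box: absent for the free, `+1` for the plus boundary condition. -/
def outSp : BC → ℝ
  | .free => 0
  | .plus => 1

/-- The sum of `σ x * σ y` over the edges inside the box (each unordered edge once), plus the
edges to the outside: a site has `4 - degree` neighbours of `ℤ²` outside the box. -/
noncomputable def energy (b : BC) {n : ℕ} (σ : Conf n) : ℝ :=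
  (∑ x, ∑ y, if (grid n).Adj x y then sp (σ x) * sp (σ y) else 0) / 2 +
    ∑ x, (4 - ((grid n).degree x : ℝ)) * (sp (σ x) * outSp b)

/-- The critical Ising measure. -/
noncomputable def ising (b : BC) {n : ℕ} (σ : Conf n) : ℝ :=
  Real.exp (betaC * energy b σ) / ∑ τ : Conf n, Real.exp (betaC * energy b τ)

/-- The conditional probability of the spin `s` at `x` given the other spins of `σ`. -/
noncomputable def cond (b : BC) {n : ℕ} (σ : Conf n) (x : Site n) (s : Bool) : ℝ :=
  ising b (Function.update σ x s) /
    (ising b (Function.update σ x true) + ising b (Function.update σ x false))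

/-- The generator of the heat-bath dynamics: every site is resampled at rate one. -/
noncomputable def gen (b : BC) (n : ℕ) : Matrix (Conf n) (Conf n) ℝ := fun σ τ =>
  ∑ x, ((∑ s, if τ = Function.update σ x s then cond b σ x s else 0) - if τ = σ then 1 else 0)

/-- The transition probabilities at time `t`. -/
noncomputable def trans (b : BC) (n : ℕ) (t : ℝ) : Matrix (Conf n) (Conf n) ℝ :=
  NormedSpace.exp (t • gen b n)

/-- Some `+` cluster meets the left and the right column. -/
def Crossing {n : ℕ} (σ : Conf n) : Prop :=
  ∃ x y : Site n, x.1.val = 0 ∧ y.1.val + 1 = n ∧ σ x = true ∧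
    Relation.ReflTransGen (fun u w => (grid n).Adj u w ∧ σ w = true) x y

/-- The crossing function. -/
noncomputable def fcr {n : ℕ} (σ : Conf n) : ℝ := if Crossing σ then 1 else -1

/-- The variance of `f (σ 0)`. -/
noncomputable def var (b : BC) {n : ℕ} (f : Conf n → ℝ) : ℝ :=
  ∑ σ, ising b σ * f σ ^ 2 - (∑ σ, ising b σ * f σ) ^ 2

/-- The covariance of `f (σ 0)` and `f (σ t)` for the dynamics started at equilibrium. -/
noncomputable def cov (b : BC) {n : ℕ} (f : Conf n → ℝ) (t : ℝ) : ℝ :=
  ∑ σ, ∑ τ, ising b σ * trans b n t σ τ * (f σ * f τ) -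
    (∑ σ, ising b σ * f σ) * ∑ σ, ∑ τ, ising b σ * trans b n t σ τ * f τ

/-- The correlation of the crossing function at the times `0` and `t`. -/
noncomputable def corr (b : BC) (n : ℕ) (t : ℝ) : ℝ :=
  cov b (fcr (n := n)) t / var b (fcr (n := n))

end Pool.Agent.P.MP_347bd1_pr
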