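import Pool.Agent.P.MP_347bd1_pr.Stmts2

/-!
Exploration of the minus cluster of the top row.
-/

namespace Pool.Agent.P.MP_347bd1_pr

open Classical Finset
open scoped ENNReal NNReal

/-- The minus cluster of the top row. -/
noncomputable def explCl (n : ℕ) (ξ : Pt → Bool) (M : Finset Pt) : Finset Pt :=
  M.filter fun w => ∃ a ∈ M, a.2 = (n : ℤ) ∧
    Relation.ReflTransGen (fun u w => Lk ξ false u w ∧ w ∈ M) a w

/-- The explored set. -/
noncomputable def explS (n : ℕ) (ξ : Pt → Bool) (C : Finset Pt) : Finset Pt :=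
  (box n).filter fun w => w ∈ C ∨ w.2 = (n : ℤ) ∨ ∃ c ∈ C, Lk ξ false c w

variable {n : ℕ} {ξ : Pt → Bool}

theorem expl_mem_cl {M : Finset Pt} {w : Pt} : w ∈ explCl n ξ M ↔ w ∈ M ∧ ∃ a ∈ M, a.2 = (n : ℤ) ∧
    Relation.ReflTransGen (fun u w => Lk ξ false u w ∧ w ∈ M) a w := mem_filter

theorem expl_mem_S {C : Finset Pt} {w : Pt} : w ∈ explS n ξ C ↔
    w ∈ box n ∧ (w ∈ C ∨ w.2 = (n : ℤ) ∨ ∃ c ∈ C, Lk ξ false c w) := mem_filter

theorem expl_cl_top {M : Finset Pt} {w : Pt} (h : w ∈ M) (h' : w.2 = (n : ℤ)) :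
    w ∈ explCl n ξ M := expl_mem_cl.2 ⟨h, w, h, h', .refl⟩

theorem expl_cl_step {M : Finset Pt} {u w : Pt} (hu : u ∈ explCl n ξ M) (h : Lk ξ false u w)
    (hw : w ∈ M) : w ∈ explCl n ξ M := by
  obtain ⟨-, a, h1, h2, h3⟩ := expl_mem_cl.1 hu
  exact expl_mem_cl.2 ⟨hw, a, h1, h2, h3.tail ⟨h, hw⟩⟩

theorem expl_cl_ind {M : Finset Pt} {P : Pt → Prop} (h1 : ∀ a ∈ M, a.2 = (n : ℤ) → P a)
    (h2 : ∀ u ∈ explCl n ξ M, ∀ w ∈ M, Lk ξ false u w → P u → P w) :
    ∀ w ∈ explCl n ξ M, P w := by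
  intro w hw
  obtain ⟨-, a, k1, k2, k3⟩ := expl_mem_cl.1 hw
  have : w ∈ explCl n ξ M ∧ P w := by
    clear hw
    induction k3 with
    | refl => exact ⟨expl_cl_top k1 k2, h1 a k1 k2⟩
    | tail _ k ih => exact ⟨expl_cl_step ih.1 k.1 k.2, h2 _ ih.1 _ k.2 k.1 ih.2⟩
  exact this.2

theorem expl_cl_of_S {M : Finset Pt} {w : Pt} (h : w ∈ M) (h' : w ∈ explS n ξ (explCl n ξ M)) :
    w ∈ explCl n ξ M := by
  rcases (expl_mem_S.1 h').2 with k | k | ⟨c, k1, k2⟩
  exacts [k, expl_cl_top h k, expl_cl_step k1 k2 h]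

theorem expl_fibre_iff {M M1 : Finset Pt} (hM : M ⊆ box n) :
    explCl n ξ M = explCl n ξ M1 ↔
      M \ (box n \ explS n ξ (explCl n ξ M1)) = explCl n ξ M1 := by
  constructor
  · intro h
    rw [← h]
    ext w
    simp only [mem_sdiff, not_and, not_not]
    constructor
    · exact fun k => expl_cl_of_S k.1 (k.2 (hM k.1))
    · intro k
      have k1 := (expl_mem_cl.1 k).1
      exact ⟨k1, fun k2 => expl_mem_S.2 ⟨k2, Or.inl k⟩⟩
  · intro h
    have h1 : ∀ w ∈ M, w ∈ explS n ξ (explCl n ξ M1) → w ∈ explCl n ξ M1 := fun w k k' => by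
      rw [← h]; simp [k, k']
    have h2 : ∀ w ∈ explCl n ξ M1, w ∈ M := fun w k => by
      rw [← h] at k; exact (mem_sdiff.1 k).1
    apply Subset.antisymm
    · exact expl_cl_ind (fun a k k' => h1 a k (expl_mem_S.2 ⟨hM k, Or.inr (Or.inl k')⟩))
        fun u _ w k k' ih => h1 w k (expl_mem_S.2 ⟨hM k, Or.inr (Or.inr ⟨u, ih, k'⟩)⟩)
    · exact expl_cl_ind (fun a k k' => expl_cl_top (h2 a (expl_cl_top k k')) k')
        fun u hu w k k' ih => expl_cl_step ih k' (h2 w (expl_cl_step hu k' k))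

theorem expl_good {M : Finset Pt} (hM : M ⊆ box n) : Good n (explS n ξ (explCl n ξ M)) ∅ := by
  set C := explCl n ξ M with hC
  have hb : ∀ c ∈ C, c ∈ box n := fun c k => hM (expl_mem_cl.1 k).1
  have st : ∀ u ∈ explS n ξ C, ∀ w ∈ explS n ξ C, NN u w →
      TopConn n (eS n (explS n ξ C) ∪ ∅) u → TopConn n (eS n (explS n ξ C) ∪ ∅) w := by
    rintro u hu w hw ⟨d, rfl⟩ h
    refine h.step (inc_mem_ebox.2 ⟨(expl_mem_S.1 hu).1, (expl_mem_S.1 hw).1⟩) ?_
    rw [union_empty, inc_mem_eS]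
    simp [hu, hw]
  have st2 : ∀ c ∈ C, ∀ w ∈ box n, Lk ξ false c w →
      TopConn n (eS n (explS n ξ C) ∪ ∅) c → TopConn n (eS n (explS n ξ C) ∪ ∅) w := by
    intro c hc w hw h k
    have k1 : c ∈ explS n ξ C := expl_mem_S.2 ⟨hb c hc, Or.inl hc⟩
    have k2 : w ∈ explS n ξ C := expl_mem_S.2 ⟨hw, Or.inr (Or.inr ⟨c, hc, h⟩)⟩
    rcases h with h | ⟨h1, h2, -⟩
    · exact st c k1 w k2 h k
    · have m1 : NN c (w.1, c.2) := by
        rw [abs_eq zero_le_one] at h1
        rcases h1 with h1 | h1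
        · exact ⟨.W, by simp [Dir.vec, Prod.ext_iff]; omega⟩
        · exact ⟨.E, by simp [Dir.vec, Prod.ext_iff]; omega⟩
      have m2 : NN (w.1, c.2) w := by
        rw [abs_eq zero_le_one] at h2
        rcases h2 with h2 | h2
        · exact ⟨.S, by simp [Dir.vec, Prod.ext_iff]; omega⟩
        · exact ⟨.N, by simp [Dir.vec, Prod.ext_iff]; omega⟩
      have m3 : (w.1, c.2) ∈ box n := by
        have a1 := mem_box.1 hw
        have a2 := mem_box.1 (hb c hc)
        rw [mem_box]; simp only; omega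
      have m4 : (w.1, c.2) ∈ explS n ξ C :=
        expl_mem_S.2 ⟨m3, Or.inr (Or.inr ⟨c, hc, Or.inl m1⟩)⟩
      exact st _ m4 w k2 m2 (st c k1 _ m4 m1 k)
  have cc : ∀ c ∈ C, TopConn n (eS n (explS n ξ C) ∪ ∅) c :=
    expl_cl_ind (fun a k k' => topConn_top _ (hM k) k') fun u hu w k k' ih => st2 u hu w (hM k) k' ih
  refine ⟨filter_subset _ _, fun w k k' => expl_mem_S.2 ⟨k, Or.inr (Or.inl k')⟩, ?_, by simp⟩
  intro w hw
  obtain ⟨k, k' | k' | ⟨c, k1, k2⟩⟩ := expl_mem_S.1 hw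
  exacts [cc w k', topConn_top _ k k', st2 c k1 w k k2 (cc c k1)]

/-- The weight of the explored part. -/
noncomputable def explW (n : ℕ) (ξ : Pt → Bool) (C : Finset Pt) : ℝ :=
  xc ^ (cut (C ∪ ∅) ∩ (ebox n \ einc (box n \ explS n ξ C))).card

theorem expl_fibre {M1 : Finset Pt} (hM : M1 ⊆ box n) (A : Finset Pt → Prop) :
    Zf (ebox n) (box n) ∅ (fun M => explCl n ξ M = explCl n ξ M1 ∧ A M) =
      explW n ξ (explCl n ξ M1) * Zf (eS n (explS n ξ (explCl n ξ M1)))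
        (box n \ explS n ξ (explCl n ξ M1)) ∅ fun M => A (M ∪ explCl n ξ M1) := by
  set C := explCl n ξ M1 with hC
  have hb : ∀ c ∈ C, c ∈ box n := fun c k => hM (expl_mem_cl.1 k).1
  have h1 : C ⊆ box n \ (box n \ explS n ξ C) := fun c k => by
    have : c ∈ explS n ξ C := expl_mem_S.2 ⟨hb c k, Or.inl k⟩
    simp [hb c k, this]
  have h2 : ebox n ∩ einc (box n \ explS n ξ C) = eS n (explS n ξ C) := by
    ext e
    simp only [mem_inter, mem_einc, mem_sdiff, mem_eS, mem_ebox]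
    tauto
  have h3 : ∀ e ∈ eS n (explS n ξ C), ea e ∉ C ∧ eb e ∉ C := by
    intro e he
    obtain ⟨k1, k2⟩ := mem_eS.1 he
    obtain ⟨k3, k4⟩ := mem_ebox.1 k1
    obtain ⟨d, -, k5⟩ := exists_inc e
    have k6 : NN (ea e) (eb e) := ⟨d, k5⟩
    constructor
    · intro k
      rcases k2 with k2 | k2
      · exact k2 (expl_mem_S.2 ⟨k3, Or.inl k⟩)
      · exact k2 (expl_mem_S.2 ⟨k4, Or.inr (Or.inr ⟨_, k, Or.inl k6⟩)⟩)
    · intro k
      rcases k2 with k2 | k2
      · exact k2 (expl_mem_S.2 ⟨k3, Or.inr (Or.inr ⟨_, k, Or.inl k6.symm⟩)⟩)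
      · exact k2 (expl_mem_S.2 ⟨k4, Or.inl k⟩)
  rw [Zf_congr (B := fun M => M \ (box n \ explS n ξ C) = C ∧ A M) fun M k => by
    rw [hC, expl_fibre_iff k], Zf_fibre sdiff_subset h1, h2, explW]
  congr 1
  refine sum_congr rfl fun M _ => ?_
  have : cut (M ∪ (C ∪ ∅)) ∩ eS n (explS n ξ C) = cut (M ∪ ∅) ∩ eS n (explS n ξ C) := by
    ext e
    simp only [mem_inter, mem_cut, mem_union, notMem_empty, or_false, and_congr_left_iff]
    intro he
    simp [h3 e he]
  rw [this]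

theorem expl_arm (hn : 3 ≤ n) {M : Finset Pt} (hM : M ⊆ box n) {z : Pt} (hz : z ∈ base n)
    (hz' : z ∉ M) (h : Piv n ξ M z) : ∃ v ∈ (vbase n).filter fun v => Corner v z,
      ArmF (explS n ξ (explCl n ξ M)) v (M \ explS n ξ (explCl n ξ M)) := by
  rw [Piv, erase_eq_of_notMem hz'] at h
  have mono : TB n ξ M → TB n ξ (insert z M) := fun ⟨a, b, k1, k2, k3, k4⟩ =>
    ⟨a, b, mem_insert_of_mem k1, k2, k3, rtg_mono (fun _ _ k => ⟨k.1, mem_insert_of_mem k.2⟩) k4⟩
  have h1 : ¬ TB n ξ M := fun k => h ⟨fun _ => k, mono⟩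
  have h2 : TB n ξ (insert z M) := by
    by_contra k
    exact h ⟨fun m => absurd m k, fun m => absurd m h1⟩
  obtain ⟨hzb, hz1, hz2⟩ := mem_filter.1 hz
  obtain ⟨a, b, k1, k2, k3, k4⟩ := h2
  have hS : z ∈ explS n ξ (explCl n ξ M) := by
    have : b ∈ explCl n ξ M ∨ z ∈ explS n ξ (explCl n ξ M) := by
      clear k3
      induction k4 with
      | refl =>
        rcases mem_insert.1 k1 with rfl | k
        exacts [Or.inr (expl_mem_S.2 ⟨hzb, Or.inr (Or.inl k2)⟩), Or.inl (expl_cl_top k k2)]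
      | tail _ k ih =>
        rcases ih with ih | ih
        · rcases mem_insert.1 k.2 with rfl | m
          exacts [Or.inr (expl_mem_S.2 ⟨hzb, Or.inr (Or.inr ⟨_, ih, k.1⟩)⟩),
            Or.inl (expl_cl_step ih k.1 m)]
        · exact Or.inr ih
    refine this.resolve_left fun m => ?_
    obtain ⟨-, a', m1, m2, m3⟩ := expl_mem_cl.1 m
    exact h1 ⟨a', b, m1, m2, k3, m3⟩
  have last : (a ∈ M ∧ Relation.ReflTransGen (fun u w => Lk ξ false u w ∧ w ∈ M) a b) ∨ z = b ∨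
      ∃ s, Lk ξ false z s ∧ s ∈ M ∧
        Relation.ReflTransGen (fun u w => Lk ξ false u w ∧ w ∈ M) s b := by
    clear k2
    induction k4 using Relation.ReflTransGen.head_induction_on with
    | refl =>
      rcases mem_insert.1 k1 with rfl | k
      exacts [Or.inr (Or.inl rfl), Or.inl ⟨k, .refl⟩]
    | head k _ ih =>
      rcases ih k.2 with ih' | ih'
      · rcases mem_insert.1 k1 with e | m
        exacts [Or.inr (Or.inr ⟨_, e ▸ k.1, ih'⟩), Or.inl ⟨m, .head ⟨k.1, ih'.1⟩ ih'.2⟩]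
      · exact Or.inr ih'
  have hzb' := mem_box.1 hzb
  rcases last with m | rfl | ⟨s, m1, m2, m3⟩
  · exact absurd ⟨a, b, m.1, k2, k3, m.2⟩ h1
  · omega
  have nS : ∀ u ∈ M, Relation.ReflTransGen (fun u w => Lk ξ false u w ∧ w ∈ M) u b →
      u ∈ M \ explS n ξ (explCl n ξ M) := by
    intro u hu k
    refine mem_sdiff.2 ⟨hu, fun m => ?_⟩
    obtain ⟨-, a', m1, m2, m3⟩ := expl_mem_cl.1 (expl_cl_of_S hu m)
    exact h1 ⟨a', b, m1, m2, k3, m3.trans k⟩
  have sp : SPath (M \ explS n ξ (explCl n ξ M)) s b := by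
    refine ⟨nS s m2 m3, ?_⟩
    clear m1 m2
    induction m3 using Relation.ReflTransGen.head_induction_on with
    | refl => exact .refl
    | head k k' ih => exact .head ⟨k.1.star, nS _ k.2 k'⟩ ih
  have hs := mem_box.1 (hM m2)
  have hd := nrm_le_iff.1 m1.star.le
  simp only [Prod.fst_sub, Prod.snd_sub] at hd
  have c1 : Corner (min (min z.1 s.1) (n - 1), min (min z.2 s.2) (n - 1)) z := by
    unfold Corner; simp only; omega
  have c2 : Corner (min (min z.1 s.1) (n - 1), min (min z.2 s.2) (n - 1)) s := by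
    unfold Corner; simp only; omega
  refine ⟨_, mem_filter.2 ⟨mem_filter.2 ⟨?_, z, hz, c1⟩, c1⟩, ⟨z, hS, c1⟩, s, b, c2, k3, sp⟩
  rw [mem_intr]; simp only; omega

theorem expl_count (V B : Finset Pt) (f : Pt → ℝ) (hf : ∀ v, 0 ≤ f v) :
    ∑ z ∈ B, ∑ v ∈ V.filter (fun v => Corner v z), f v ≤ 4 * ∑ v ∈ V, f v := by
  simp only [sum_filter]
  rw [sum_comm, mul_sum]
  refine sum_le_sum fun v _ => ?_
  rw [← sum_filter, sum_const, nsmul_eq_mul]
  refine mul_le_mul_of_nonneg_right ?_ (hf v)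
  have : B.filter (fun z => Corner v z) ⊆ {v.1, v.1 + 1} ×ˢ {v.2, v.2 + 1} := fun z k => by
    have := (mem_filter.1 k).2
    simpa [Corner] using this
  have k := card_le_card this
  rw [card_product] at k
  have k1 : ({v.1, v.1 + 1} : Finset ℤ).card ≤ 2 := card_le_two
  have k2 : ({v.2, v.2 + 1} : Finset ℤ).card ≤ 2 := card_le_two
  exact_mod_cast k.trans (Nat.mul_le_mul k1 k2)

theorem t_expl : T_EXPL := by
  refine ⟨82 * 4, by norm_num, fun n ξ ε hn h => ?_⟩
  have hs : ∀ M ⊆ box n, explCl n ξ M ∈ (box n).powerset.image (explCl n ξ) := fun M k =>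
    mem_image_of_mem _ (mem_powerset.2 k)
  have key : ∑ z ∈ base n, Zf (ebox n) (box n) ∅ (fun M => z ∉ M ∧ Piv n ξ M z) ≤
      4 * ε * Zf (ebox n) (box n) ∅ fun _ => True := by
    rw [Zf_eq_sum_fibre (F := ebox n) (T := ∅) _ _ hs fun _ => True,
      sum_congr rfl fun z _ => Zf_eq_sum_fibre (F := ebox n) (T := ∅) _ _ hs _, sum_comm, mul_sum]
    refine sum_le_sum fun C hC => ?_
    obtain ⟨M1, k, rfl⟩ := mem_image.1 hC
    have hM := mem_powerset.1 k
    simp only [expl_fibre hM]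
    set C := explCl n ξ M1 with hC
    set S := explS n ξ C with hS
    have hb : ∀ c ∈ C, c ∈ box n := fun c k => hM (expl_mem_cl.1 k).1
    have hCS : ∀ c ∈ C, c ∈ S := fun c k => expl_mem_S.2 ⟨hb c k, Or.inl k⟩
    rw [← mul_sum, mul_left_comm]
    refine mul_le_mul_of_nonneg_left ?_ (pow_pos xc_pos _).le
    have h1 := h S (expl_good hM)
    simp only [PS, Pr, ← sum_div] at h1
    rw [div_le_iff₀ Zf_pos] at h1
    calc _ ≤ ∑ z ∈ base n, ∑ v ∈ (vbase n).filter (fun v => Corner v z),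
          Zf (eS n S) (box n \ S) ∅ (ArmF S v) := by
          refine sum_le_sum fun z hz => le_trans (Zf_mono fun M hM' m => ?_) (Zf_exists_le _ _)
          have e1 : M ∪ C ⊆ box n := union_subset (hM'.trans sdiff_subset) hb
          have e2 : explCl n ξ (M ∪ C) = C := by
            rw [hC, expl_fibre_iff e1]
            ext w
            have := @hM' w; have := hCS w
            simp only [mem_sdiff, mem_union, ← hC, ← hS] at *
            tauto
          have e3 : (M ∪ C) \ S = M := by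
            ext w
            have := @hM' w; have := hCS w
            simp only [mem_sdiff, mem_union] at *
            tauto
          have := expl_arm hn e1 hz m.1 m.2
          rwa [e2, ← hS, e3] at this
      _ ≤ _ := (expl_count _ _ _ fun _ => Zf_nonneg).trans (by linarith)
  have key2 : ∑ z ∈ base n, Pf n (fun M => z ∉ M ∧ Piv n ξ M z) ≤ 4 * ε := by
    simp only [Pf, Pr, ← sum_div]
    rwa [div_le_iff₀ Zf_pos]
  calc npiv n ξ (base n) ≤ ∑ z ∈ base n, 82 * Pf n (fun M => z ∉ M ∧ Piv n ξ M z) := by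
        refine sum_le_sum fun z _ => ?_
        have a1 := Pr_add_not (F := ebox n) (U := box n) (T := ∅) (fun M => Piv n ξ M z)
          fun M => z ∈ M
        have a2 := Pr_erase_le (F := ebox n) (U := box n) (T := ∅) (z := z)
          (A := fun M => Piv n ξ M z)
        have a3 : Pr (ebox n) (box n) ∅ (fun M => z ∉ M ∧ Piv n ξ (insert z M) z) =
            Pr (ebox n) (box n) ∅ fun M => z ∉ M ∧ Piv n ξ M z :=
          Pr_congr fun M _ => by simp [Piv, erase_insert_eq_erase]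
        have a4 : Pr (ebox n) (box n) ∅ (fun M => Piv n ξ M z ∧ z ∈ M) =
            Pr (ebox n) (box n) ∅ fun M => z ∈ M ∧ Piv n ξ M z := Pr_congr fun M _ => and_comm
        have a5 : Pr (ebox n) (box n) ∅ (fun M => Piv n ξ M z ∧ z ∉ M) =
            Pr (ebox n) (box n) ∅ fun M => z ∉ M ∧ Piv n ξ M z := Pr_congr fun M _ => and_comm
        simp only [Pf]
        linarith
    _ ≤ _ := by rw [← mul_sum]; linarith

end Pool.Agent.P.MP_347bd1_pr
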