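import Pool.Agent.P.MP_347bd1_pr.Stmts2

/-!
Upper bounds near the flat boundary of the Dobrushin box.
-/

namespace Pool.Agent.P.MP_347bd1_pr

open Classical Finset
open scoped ENNReal NNReal

theorem flatu_mv {k : ℕ} (hk : 1 ≤ k) (p : Pt) {y : Pt} {d : Dir} (h : y ∈ intr (16 * k))
    (h' : y + d.vec ∈ intr (16 * k)) : (netD k p).mv y d := by
  refine ⟨h, h', mem_union_left _ (mem_eS.2 ⟨cr_mem_ebox h d, ?_⟩)⟩
  rw [mem_intr] at h h'
  cases d <;> simp [mem_ring, mem_box, OnRing, cr, ea, eb, Dir.vec] at h h' ⊢ <;> omega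

theorem flatu_st {k : ℕ} {p y : Pt} {d : Dir} (hp : p.2 = 1) (h : (netD k p).st y d) :
    y = p ∧ d = .S := by
  obtain ⟨h1, h2, h3⟩ := h
  obtain ⟨a, b⟩ := y
  rw [mem_intr] at h1 h2
  rcases mem_union.1 h3 with m | m
  · have := (mem_eS.1 m).2
    cases d <;> simp [mem_ring, mem_box, OnRing, cr, ea, eb, Dir.vec] at h1 h2 this <;> omega
  · cases d <;> simp [cr, Prod.ext_iff] at h1 m ⊢ <;> omega

theorem flatu_one (N : Net) (R : Set Pt) (a : Pt → ℝ≥0∞) (h : ∀ z ∈ R, a z = 0)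
    (h' : ∀ z, a z ≤ 1) (z : Pt) : Kn N R a z ≤ ENNReal.ofReal 1 :=
  Kn_le_ofReal (u := fun _ => 1) (w := fun z => if z ∈ R then 0 else 1) (fun _ => zero_le_one)
    (fun z => by split_ifs <;> norm_num)
    (fun z => by split_ifs with k; exacts [by simp [h z k], by simpa using h' z])
    (fun z => by
      split_ifs
      · rw [zero_add, Net.Pr, sum_dir]; split_ifs <;> norm_num
      · simp) z

/-- The dipole potential. -/
noncomputable def flatuU (a : ℤ) (z : Pt) : ℝ :=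
  Real.log ((z.1 - a) ^ 2 + (z.2 + 5) ^ 2 - 1) - Real.log ((z.1 - a) ^ 2 + (z.2 - 1) ^ 2 + 1)

theorem flatu_eq (a : ℤ) {z : Pt} (h : 0 ≤ z.2) : flatuU a z =
    Real.log (1 + (12 * z.2 + 22) / ((z.1 - a) ^ 2 + (z.2 - 1) ^ 2 + 1)) := by
  have h' : (0 : ℝ) ≤ z.2 := by exact_mod_cast h
  rw [flatuU, ← Real.log_div (by nlinarith [sq_nonneg ((z.1 : ℝ) - a)]) (by positivity)]
  congr 1
  field_simp
  ring

theorem flatu_nonneg (a : ℤ) {z : Pt} (h : 0 ≤ z.2) : 0 ≤ flatuU a z := by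
  have h' : (0 : ℝ) ≤ z.2 := by exact_mod_cast h
  rw [flatu_eq a h]
  exact Real.log_nonneg (le_add_of_nonneg_right (by positivity))

theorem flatu_four {x y : ℝ} (hx : 0 ≤ x) (hy : 0 ≤ y) (h : x ≤ 4 * y) :
    Real.log (1 + x) ≤ 4 * Real.log (1 + y) := by
  have := Real.log_pow (1 + y) 4
  push_cast at this
  rw [← this]
  exact Real.log_le_log (by positivity) (by nlinarith [pow_nonneg hy 2, pow_nonneg hy 3, pow_nonneg hy 4])

theorem flatu_ratio (a : ℤ) {z : Pt} (h : 1 ≤ z.2) (d : Dir) (hd : d = .S → z.2 = 1) :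
    flatuU a z ≤ 4 * flatuU a (z + d.vec) := by
  obtain ⟨x, y⟩ := z
  have h' : (1 : ℝ) ≤ y := by exact_mod_cast h
  have h0 : 0 ≤ ((x, y) + d.vec).2 := by cases d <;> simp [Dir.vec] at h ⊢ <;> omega
  have h1 : (0 : ℝ) ≤ ((x, y) + d.vec).2 := by exact_mod_cast h0
  rw [flatu_eq a (by simp only; omega), flatu_eq a h0]
  refine flatu_four (by positivity) (by positivity) ?_
  rw [← mul_div_assoc, div_le_div_iff₀ (by positivity) (by positivity)]
  generalize hX : (x : ℝ) - a = X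
  have e : (x : ℝ) = X + a := by linarith
  cases d
  · simp only [Dir.vec, Prod.mk_add_mk, add_zero]; push_cast; rw [hX]
    have : X ^ 2 + (y + 1 - 1) ^ 2 + 1 ≤ 4 * (X ^ 2 + (y - 1) ^ 2 + 1) := by
      nlinarith [sq_nonneg ((y : ℝ) - 4 / 3)]
    nlinarith [sq_nonneg X, sq_nonneg ((y : ℝ) - 1)]
  · simp only [Dir.vec, Prod.mk_add_mk, add_zero]; push_cast; rw [e]
    have : (X + a + 1 - a) ^ 2 + (y - 1) ^ 2 + 1 ≤ 4 * (X ^ 2 + (y - 1) ^ 2 + 1) := by
      nlinarith [sq_nonneg (X - 1 / 3), sq_nonneg ((y : ℝ) - 1)]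
    nlinarith
  · obtain rfl : y = 1 := hd rfl
    simp only [Dir.vec, Prod.mk_add_mk, add_zero]; push_cast; rw [hX]
    nlinarith [sq_nonneg X]
  · simp only [Dir.vec, Prod.mk_add_mk, add_zero]; push_cast; rw [e]
    have : (X + a + -1 - a) ^ 2 + (y - 1) ^ 2 + 1 ≤ 4 * (X ^ 2 + (y - 1) ^ 2 + 1) := by
      nlinarith [sq_nonneg (X + 1 / 3), sq_nonneg ((y : ℝ) - 1)]
    nlinarith

theorem flatu_super (h : T_LOG) (a : ℤ) {z : Pt} (hz : 1 ≤ z.2) :
    (if z = (a, 1) then 1 / 4 else 0) + avg (flatuU a) z ≤ flatuU a z := by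
  obtain ⟨h1, ψ, h2, -, h3⟩ := h
  obtain ⟨x, y⟩ := z
  simp only at hz
  have k1 := h3 (x - a, y + 5) (by simp; omega)
  rw [avg_eq, h2, h2, h2, h2, h2] at k1 <;> try (simp only; nlinarith [sq_nonneg (x - a), sq_nonneg (x - a + 1), sq_nonneg (x - a - 1)])
  have k2 : (if (x, y) = (a, 1) then 1 / 4 else 0) + Real.log ((x - a) ^ 2 + (y - 1) ^ 2 + 1) ≤
      avg (fun y : Pt => Real.log (y.1 ^ 2 + y.2 ^ 2 + 1)) (x - a, y - 1) := by
    split_ifs with e
    · obtain ⟨rfl, rfl⟩ := Prod.mk.inj e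
      have := Real.log_two_gt_d9
      norm_num [avg_eq]
      linarith
    · simpa using h1 (x - a, y - 1)
  rw [avg_eq] at k2 ⊢
  simp only [flatuU] at k1 k2 ⊢
  push_cast at k1 k2 ⊢
  ring_nf at k1 k2 ⊢
  linarith

theorem flatu_h (h : T_LOG) {k : ℕ} (hk : 1 ≤ k) {a : ℤ} (hp : (a, 1) ∈ intr (16 * k)) {z : Pt}
    (hz : 0 ≤ z.2) : hN (netD k (a, 1)) z ≤ ENNReal.ofReal (flatuU a z) := by
  have := Kn_le_ofReal (N := netD k (a, 1)) (R := Set.univ) (a := (netD k (a, 1)).stw)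
    (u := fun z => if 0 ≤ z.2 then flatuU a z else 0)
    (w := fun z => if z = (a, 1) then 1 / 4 else 0)
    (fun z => by split_ifs with m; exacts [flatu_nonneg a m, le_rfl])
    (fun z => by split_ifs <;> norm_num) (fun y => ?_) (fun y => ?_) z
  · rwa [← hN_eq_Kn, if_pos hz] at this
  · have e : ∀ d, d ≠ .S → ¬ (netD k (a, 1)).st y d := fun d m n => m (flatu_st rfl n).2
    rw [Net.stw, sum_dir, if_neg (e _ (by simp)), if_neg (e _ (by simp)), if_neg (e .W (by simp))]
    split_ifs with m1 m2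
    · rw [one_div, ENNReal.ofReal_inv_of_pos (by norm_num)]; simp
    · exact absurd (flatu_st rfl m1).1 m2
    · simp
    · simp
  · rw [if_pos (Set.mem_univ _)]
    by_cases hy : y ∈ intr (16 * k)
    · have h1 := (mem_intr.1 hy).2.2.1
      rw [if_pos (show 0 ≤ y.2 by omega)]
      refine le_trans (add_le_add le_rfl ?_) (flatu_super h a h1)
      rw [avg, sum_div]
      refine sum_le_sum fun d _ => ?_
      have h0 : 0 ≤ (y + d.vec).2 := by cases d <;> simp [Dir.vec] <;> omega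
      simp only [if_pos h0, if_pos (show 0 ≤ y.2 by omega)]
      split_ifs with m
      · rfl
      · have := flatu_ratio a h1 d fun e => by
          subst e
          by_contra c
          refine m (flatu_mv hk _ hy ?_)
          rw [mem_intr] at hy ⊢
          simp only [Dir.vec, Prod.fst_add, Prod.snd_add]; omega
        linarith
    · have m : ∀ d, ¬ (netD k (a, 1)).mv y d := fun d m => hy m.1
      rw [if_neg fun e : y = (a, 1) => hy (e ▸ hp), Net.Pr, sum_dir]
      simp only [m, if_false]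
      split_ifs with c
      · linarith [flatu_nonneg a c]
      · norm_num

theorem flatu_exit {k : ℕ} (hk : 1 ≤ k) (p z : Pt) (l : ℕ) (h1 : nrm (z - pV k) ≤ k)
    (h2 : 1 ≤ z.2) (h3 : 1 ≤ l) (h4 : l ≤ k) :
    Kn (netD k p) {y | nrm (y - z) < l} (fun y => if nrm (y - z) < l then 0 else 1) z ≤
      ENNReal.ofReal (9 * z.2 / l) := by
  have l0 : (0 : ℝ) < l := by exact_mod_cast h3
  have z1 : (1 : ℝ) ≤ z.2 := by exact_mod_cast h2
  by_cases hl : (l : ℤ) ≤ z.2
  · refine (flatu_one _ _ _ (fun y hy => if_pos hy) (fun y => by split_ifs <;> simp) z).trans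
      (ENNReal.ofReal_le_ofReal ?_)
    have : (l : ℝ) ≤ z.2 := by exact_mod_cast hl
    rw [le_div_iff₀ l0]; linarith
  let φ : Pt → ℝ := fun y => (3 * l * (y.2 + 1) + (y.1 - z.1) ^ 2 - y.2 ^ 2) / l ^ 2
  have f1 : ∀ y : Pt, 0 ≤ y.2 → nrm (y - z) ≤ l → (l * y.2 + (y.1 - z.1) ^ 2) / l ^ 2 ≤ φ y := by
    intro y a b
    have b' := nrm_le_iff.1 b
    simp only [Prod.snd_sub] at b'
    have a1 : (0 : ℝ) ≤ y.2 := by exact_mod_cast a
    have a2 : (y.2 : ℝ) ≤ 2 * l := by exact_mod_cast (show y.2 ≤ 2 * l by omega)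
    exact div_le_div_of_nonneg_right (by nlinarith) (by positivity)
  have f0 : ∀ y : Pt, 0 ≤ y.2 → nrm (y - z) ≤ l → 0 ≤ φ y := fun y a b => by
    have a1 : (0 : ℝ) ≤ y.2 := by exact_mod_cast a
    exact le_trans (by positivity) (f1 y a b)
  have u0 : ∀ y : Pt, 0 ≤ (if 1 ≤ y.2 ∧ nrm (y - z) ≤ l then φ y else 1) := fun y => by
    split_ifs with m; exacts [f0 y (by omega) m.2, zero_le_one]
  refine (Kn_le_ofReal (u := fun y => if 1 ≤ y.2 ∧ nrm (y - z) ≤ l then φ y else 1)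
    (w := fun y => if nrm (y - z) < l then 0 else 1) u0 (fun y => by split_ifs <;> norm_num)
    (fun y => by split_ifs <;> simp) (fun y => ?_) z).trans (ENNReal.ofReal_le_ofReal ?_)
  · simp only [Set.mem_ofPred_eq]
    by_cases c : nrm (y - z) < l
    · rw [if_pos c, if_pos c, zero_add]
      have c1 := nrm_lt_iff.1 c
      have c2 := nrm_le_iff.1 h1
      simp only [Prod.fst_sub, Prod.snd_sub, pV] at c1 c2
      by_cases c3 : 1 ≤ y.2
      · have hy : y ∈ intr (16 * k) := by rw [mem_intr]; push_cast; omega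
        have e : avg φ y = φ y := by simp only [avg_eq, φ]; push_cast; field_simp; ring
        rw [if_pos ⟨c3, c.le⟩, ← e, avg, sum_div]
        refine sum_le_sum fun d _ => ?_
        have c4 : nrm (y + d.vec - z) ≤ l := by have := (nrm_step y z d).1; omega
        split_ifs with m
        · simp only [if_pos (And.intro (mem_intr.1 m.2.1).2.2.1 c4), le_refl]
        · simp only [if_pos (And.intro c3 c.le)]
          have : d = .S ∧ y.2 = 1 := by
            by_contra c5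
            refine m (flatu_mv hk _ hy ?_)
            rw [mem_intr]
            cases d <;> simp [Dir.vec] at c5 ⊢ <;> omega
          obtain ⟨rfl, c5⟩ := this
          simp only [φ, Dir.vec, Prod.fst_add, Prod.snd_add, c5]
          push_cast
          rw [div_div, div_div, div_le_div_iff₀ (by positivity) (by positivity)]
          have : 0 ≤ ((y.1 : ℝ) - z.1) ^ 2 * l ^ 2 := by positivity
          have : 0 ≤ (l : ℝ) ^ 3 := by positivity
          have : 0 ≤ (l : ℝ) ^ 2 := by positivity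
          nlinarith
      · have m : ∀ d, ¬ (netD k p).mv y d := fun d m => c3 (mem_intr.1 m.1).2.2.1
        rw [Net.Pr, sum_dir]
        simp only [m, if_false, c3, false_and]
        norm_num
    · rw [if_neg c, if_neg c, add_zero]
      split_ifs with m
      · refine le_trans ?_ (f1 y (by omega) m.2)
        have c1 := nrm_eq_iff.1 (le_antisymm m.2 (not_lt.1 c))
        simp only [Prod.fst_sub, Prod.snd_sub] at c1
        have a1 : (0 : ℝ) ≤ y.2 := by exact_mod_cast (show 0 ≤ y.2 by omega)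
        rw [le_div_iff₀ (by positivity)]
        by_cases c2 : (l : ℤ) ≤ y.2
        · have : (l : ℝ) ≤ y.2 := by exact_mod_cast c2
          nlinarith [sq_nonneg ((y.1 : ℝ) - z.1)]
        · have : (y.1 - z.1) ^ 2 = (l : ℤ) ^ 2 := by
            rcases c1.2 with e | e | e | e
            exacts [by rw [e], by rw [e, neg_sq], by omega, by omega]
          have : ((y.1 : ℝ) - z.1) ^ 2 = (l : ℝ) ^ 2 := by exact_mod_cast this
          nlinarith
      · rfl
  · rw [if_pos ⟨h2, by simp⟩, div_le_div_iff₀ (by positivity) l0]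
    have : 0 ≤ (z.2 : ℝ) ^ 2 * l := by positivity
    have : (l : ℝ) ^ 2 ≤ z.2 * l ^ 2 := le_mul_of_one_le_left (by positivity) z1
    nlinarith

theorem t_flatu (h : T_LOG) : T_FLATU := by
  refine ⟨9, fun k hk p hp => ⟨fun z h1 h2 => ?_, fun z l h1 h2 h3 h4 => ?_⟩⟩
  · obtain ⟨a, rfl, ha⟩ : ∃ a : ℤ, p = (a, 1) ∧ (a = 4 * k ∨ a = 12 * k) := by
      rcases hp with rfl | rfl
      exacts [⟨_, rfl, Or.inl rfl⟩, ⟨_, rfl, Or.inr rfl⟩]
    have z1 : (1 : ℝ) ≤ z.2 := by exact_mod_cast h2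
    have k0 : (0 : ℝ) < k := by exact_mod_cast hk
    refine (ENNReal.toReal_le_of_le_ofReal (flatu_nonneg a (by omega))
      (flatu_h h hk (by rw [mem_intr]; simp only; omega) (by omega))).trans ?_
    rw [flatu_eq a (by omega)]
    refine (Real.log_le_sub_one_of_pos (by positivity)).trans ?_
    have c := nrm_le_iff.1 h1
    simp only [Prod.fst_sub, pV] at c
    have : (2 * k : ℤ) ^ 2 ≤ (z.1 - a) ^ 2 := by
      rw [sq_le_sq, abs_of_nonneg (by omega), le_abs]; omega
    have : (2 * k : ℝ) ^ 2 ≤ (z.1 - a) ^ 2 := by exact_mod_cast this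
    rw [add_sub_cancel_left, div_le_div_iff₀ (by positivity) (by positivity)]
    push_cast
    have e : (2 * k : ℝ) ^ 2 ≤ (z.1 - a) ^ 2 + (z.2 - 1) ^ 2 + 1 := by nlinarith [sq_nonneg ((z.2 : ℝ) - 1)]
    have := mul_le_mul_of_nonneg_left e (show (0 : ℝ) ≤ 9 * z.2 by positivity)
    have : (k : ℝ) ^ 2 ≤ z.2 * k ^ 2 := le_mul_of_one_le_left (by positivity) z1
    nlinarith
  · simpa using flatu_exit hk p z l h1 h2 h3 h4

end Pool.Agent.P.MP_347bd1_pr
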