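import Pool.Agent.P.MP_347bd1_pr.Stmts2

/-!
The flux bound through an annulus, and its version for cells.
-/

namespace Pool.Agent.P.MP_347bd1_pr

open Classical Finset
open scoped ENNReal NNReal

/-- The squared Euclidean distance. -/
def fluxS (c z : Pt) : ℤ := (z.1 - c.1) ^ 2 + (z.2 - c.2) ^ 2

theorem flux_concat {A B C : List Dir → Prop}
    (h : ∀ W, C W → ∃ W1 W2, W = W1 ++ W2 ∧ A W1 ∧ B W2) : ms C ≤ ms A * ms B := by
  refine (ms_concat (A := A) (B := fun _ => B) h).trans (le_of_eq ?_)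
  rw [ms, ms.eq_1 A, ← ENNReal.tsum_mul_right]
  exact tsum_congr fun W => by split_ifs <;> simp

theorem flux_single (d : Dir) : ms (fun W => W = [d]) ≤ 1 := by
  rw [ms, tsum_eq_single [d] fun W k => by simp [k]]
  simp [wt]

/-- Decomposition at the last visit of `T`. -/
theorem flux_last {N : Net} {T : Set Pt} {p : Pt} (n : ℕ) : ∀ (W1 W2 : List Dir) (z : Pt),
    W2.length ≤ n → Al N Set.univ p W1 z → z ∈ T → ∃ W3 W4 y, W1 ++ W2 = W3 ++ W4 ∧
      Al N Set.univ p W3 y ∧ y ∈ T ∧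
      ∀ W5 W6 y', W4 = W5 ++ W6 → W5 ≠ [] → Al N Set.univ y W5 y' → y' ∉ T := by
  induction n with
  | zero =>
    intro W1 W2 z h1 h2 h3
    obtain rfl : W2 = [] := List.length_eq_zero_iff.1 (by omega)
    refine ⟨W1, [], z, rfl, h2, h3, fun W5 W6 y' e k => absurd ?_ k⟩
    exact (List.append_eq_nil_iff.1 e.symm).1
  | succ n ih =>
    intro W1 W2 z h1 h2 h3
    by_cases k : ∃ W5 W6 y', W2 = W5 ++ W6 ∧ W5 ≠ [] ∧ Al N Set.univ z W5 y' ∧ y' ∈ T
    · obtain ⟨W5, W6, y', rfl, k1, k2, k3⟩ := k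
      have : 0 < W5.length := List.length_pos_iff.2 k1
      rw [← List.append_assoc]
      exact ih (W1 ++ W5) W6 y' (by rw [List.length_append] at h1; omega) (h2.append k2) k3
    · exact ⟨W1, W2, z, rfl, h2, h3, fun W5 W6 y' e k1 k2 k3 => k ⟨W5, W6, y', e, k1, k2, k3⟩⟩

theorem flux_near {N : Net} {R : Set Pt} {p q : Pt} {W : List Dir} (h : Al N R p W q) :
    q = p ∨ ∃ r ∈ R, nrm (q - r) ≤ 1 := by
  induction h with
  | nil => exact Or.inl rfl
  | @move p q d W h1 _ _ ih =>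
    rcases ih with rfl | ih
    · exact Or.inr ⟨p, h1, by simp⟩
    · exact Or.inr ih
  | bounce _ _ _ ih => exact ih

theorem flux_nrm_le {c z : Pt} {r : ℤ} (hr : 0 ≤ r) (h : fluxS c z ≤ r ^ 2) : nrm (z - c) ≤ r := by
  unfold fluxS at h
  rw [nrm_le_iff]
  simp only [Prod.fst_sub, Prod.snd_sub]
  have h1 := abs_le_of_sq_le_sq' (a := z.1 - c.1) (b := r) (by nlinarith [sq_nonneg (z.2 - c.2)]) hr
  have h2 := abs_le_of_sq_le_sq' (a := z.2 - c.2) (b := r) (by nlinarith [sq_nonneg (z.1 - c.1)]) hr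
  omega

theorem flux_le_of_nrm {c z : Pt} {r : ℤ} (h : nrm (z - c) ≤ r) : fluxS c z ≤ 2 * r ^ 2 := by
  unfold fluxS
  rw [nrm_le_iff] at h
  simp only [Prod.fst_sub, Prod.snd_sub] at h
  nlinarith [sq_le_sq' h.1 h.2.1, sq_le_sq' h.2.2.1 h.2.2.2]

theorem flux_abs {x t s : ℤ} (hs : 1 ≤ s) (h : 9 * s ^ 2 < x ^ 2 + t ^ 2) :
    3 * s * |x| ≤ x ^ 2 + t ^ 2 := by
  have h1 := abs_nonneg x
  have h2 := sq_abs x
  rcases le_total |x| (3 * s) with k | k
  · nlinarith
  · nlinarith [sq_nonneg t]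

theorem flux_step_down {c z : Pt} {s : ℤ} (hs : 1 ≤ s) (h : 9 * s ^ 2 < fluxS c z) (d : Dir) :
    s * (fluxS c z - fluxS c (z + d.vec)) ≤ 2 * (fluxS c (z + d.vec) - 1) ∧
      2 ≤ fluxS c (z + d.vec) := by
  unfold fluxS at *
  have h1 := flux_abs hs h
  have h2 := flux_abs (x := z.2 - c.2) (t := z.1 - c.1) hs (by linarith)
  have h3 := abs_le.1 (le_refl |z.1 - c.1|)
  have h4 := abs_le.1 (le_refl |z.2 - c.2|)
  have h5 := abs_nonneg (z.1 - c.1)
  have h6 := abs_nonneg (z.2 - c.2)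
  generalize |z.1 - c.1| = a at *
  generalize |z.2 - c.2| = b at *
  have h7 : a ≤ s * a := by nlinarith
  have h8 : b ≤ s * b := by nlinarith
  have h9 : 1 ≤ s ^ 2 := by nlinarith
  have k1 := mul_le_mul_of_nonneg_left h3.1 (by omega : 0 ≤ s)
  have k2 := mul_le_mul_of_nonneg_left h3.2 (by omega : 0 ≤ s)
  have k3 := mul_le_mul_of_nonneg_left h4.1 (by omega : 0 ≤ s)
  have k4 := mul_le_mul_of_nonneg_left h4.2 (by omega : 0 ≤ s)
  cases d <;> simp only [Dir.vec, Prod.fst_add, Prod.snd_add, add_zero] <;> constructor <;>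
    nlinarith

theorem flux_step_up {c z : Pt} {s : ℤ} (hs : 1 ≤ s) (h : fluxS c z ≤ 9 * s ^ 2) (d : Dir) :
    fluxS c (z + d.vec) - 1 ≤ 9 * s ^ 2 + 6 * s := by
  have h1 := nrm_le_iff.1 (flux_nrm_le (c := c) (z := z) (r := 3 * s) (by omega) (by linarith))
  simp only [Prod.fst_sub, Prod.snd_sub] at h1
  unfold fluxS at *
  cases d <;> simp only [Dir.vec, Prod.fst_add, Prod.snd_add, add_zero] <;> nlinarith

/-- The annulus. -/
def fluxA (c : Pt) (s : ℤ) : Set Pt := {z | 9 * s ^ 2 < fluxS c z ∧ fluxS c z ≤ 36 * s ^ 2}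

theorem flux_barrier (h : T_LOG) (N : Net) (c : Pt) (s : ℕ) (hs : 1 ≤ s) (y : Pt) (d : Dir)
    (hy : fluxS c y ≤ 9 * (s : ℤ) ^ 2) (hy' : 9 * (s : ℤ) ^ 2 < fluxS c (y + d.vec)) :
    Kn N (fluxA c s) (fun z => if fluxS c z ≤ 36 * (s : ℤ) ^ 2 then 0 else 1) (y + d.vec) ≤
      ENNReal.ofReal (9 / s) := by
  obtain ⟨ψ, h1, -, h3⟩ := h.2
  have hs' : (1 : ℤ) ≤ s := by exact_mod_cast hs
  have hr : (1 : ℝ) ≤ s := by exact_mod_cast hs
  set L : Pt → ℝ := fun z => Real.log (fluxS c z - 1) - Real.log (9 * s ^ 2) + 8 / s with hL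
  have hψ : ∀ z, 2 ≤ fluxS c z → L z = ψ (z - c) - Real.log (9 * s ^ 2) + 8 / s := fun z k => by
    rw [h1 (z - c) k]; simp [hL, fluxS]
  have low : ∀ z, 9 * (s : ℤ) ^ 2 < fluxS c z → 8 / (s : ℝ) ≤ L z := fun z k => by
    have k1 : (9 * (s : ℝ) ^ 2) ≤ fluxS c z - 1 := by
      have : 9 * (s : ℤ) ^ 2 ≤ fluxS c z - 1 := by omega
      exact_mod_cast this
    have := Real.log_le_log (by positivity) k1
    simp only [hL]; linarith
  have p2 : (0 : ℝ) < 2 / s := by positivity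
  have e8 : (8 : ℝ) / s = 4 * (2 / s) := by ring
  have stp : ∀ z (d : Dir), 9 * (s : ℤ) ^ 2 < fluxS c z → L z - 2 / s ≤ L (z + d.vec) := by
    intro z d k
    obtain ⟨k1, k2⟩ := flux_step_down hs' k d
    have k3 : (s : ℝ) * (fluxS c z - fluxS c (z + d.vec)) ≤ 2 * (fluxS c (z + d.vec) - 1) := by
      exact_mod_cast k1
    have k4 : (2 : ℝ) ≤ fluxS c (z + d.vec) := by exact_mod_cast k2
    have k5 : (2 : ℝ) ≤ fluxS c z := by
      have : 2 ≤ fluxS c z := by nlinarith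
      exact_mod_cast this
    have k6 := Real.log_le_sub_one_of_pos
      (show (0 : ℝ) < (fluxS c z - 1) / (fluxS c (z + d.vec) - 1) from
        div_pos (by linarith) (by linarith))
    rw [Real.log_div (by linarith) (by linarith)] at k6
    have k7 : ((fluxS c z : ℝ) - 1) / (fluxS c (z + d.vec) - 1) - 1 ≤ 2 / s := by
      rw [div_sub_one (by linarith), div_le_div_iff₀ (by linarith) (by linarith)]
      linarith
    simp only [hL]; linarith
  refine (Kn_le_ofReal (u := fun z => max 0 (L z))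
    (w := fun z => if fluxS c z ≤ 36 * (s : ℤ) ^ 2 then 0 else 1) (fun z => le_max_left _ _)
    (fun z => by split_ifs <;> norm_num) (fun z => by split_ifs <;> simp) (fun z => ?_) _).trans
    (ENNReal.ofReal_le_ofReal ?_)
  · by_cases k : z ∈ fluxA c s
    · have k1 := low z k.1
      have k2 : ∀ d : Dir, max 0 (L (z + d.vec)) = L (z + d.vec) := fun d =>
        max_eq_right (by linarith [stp z d k.1])
      have k3 : max 0 (L z) = L z := max_eq_right (by linarith)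
      have k4 : avg ψ (z - c) ≤ ψ (z - c) := h3 _ fun e => by
        have := k.1
        rw [sub_eq_zero.1 e] at this
        simp [fluxS] at this
        nlinarith
      have k5 : ∀ d : Dir, L (z + d.vec) =
          ψ (z - c + d.vec) - Real.log (9 * s ^ 2) + 8 / s := fun d => by
        rw [hψ _ (flux_step_down hs' k.1 d).2, add_sub_right_comm]
      have k6 : N.Pr (fun z => max 0 (L z)) z ≤ ∑ d : Dir, L (z + d.vec) / 4 :=
        sum_le_sum fun d _ => by
          split_ifs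
          · simp only [k2, le_refl]
          · simp only [k3]; linarith [stp z d k.1]
      rw [if_pos k.2, if_pos k, k3, hψ z (by have := k.1; nlinarith)]
      rw [sum_dir, k5, k5, k5, k5] at k6
      rw [avg, sum_dir] at k4
      linarith
    · rw [if_neg k, add_zero]
      split_ifs with m
      · exact le_max_left _ _
      · refine le_max_of_le_right ?_
        have k1 : (4 * (9 * (s : ℝ) ^ 2)) ≤ fluxS c z - 1 := by
          have : 4 * (9 * (s : ℤ) ^ 2) ≤ fluxS c z - 1 := by omega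
          exact_mod_cast this
        have k2 := Real.log_le_log (by positivity) k1
        rw [Real.log_mul (by norm_num) (by positivity)] at k2
        have k3 : Real.log 4 = 2 * Real.log 2 := by
          rw [show (4 : ℝ) = 2 ^ 2 by norm_num, Real.log_pow]; norm_num
        simp only [hL]; linarith [Real.log_two_gt_d9]
  · refine max_le (by positivity) ?_
    have k1 : (fluxS c (y + d.vec) : ℝ) - 1 ≤ 9 * s ^ 2 + 6 * s := by
      exact_mod_cast flux_step_up hs' hy d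
    have k2 : (0 : ℝ) < fluxS c (y + d.vec) - 1 := by
      have : 0 < fluxS c (y + d.vec) - 1 := by nlinarith
      exact_mod_cast this
    have k6 := Real.log_le_sub_one_of_pos
      (show (0 : ℝ) < (fluxS c (y + d.vec) - 1) / (9 * s ^ 2) from div_pos k2 (by positivity))
    rw [Real.log_div k2.ne' (by positivity)] at k6
    have k7 : ((fluxS c (y + d.vec) : ℝ) - 1) / (9 * s ^ 2) - 1 ≤ 1 / s := by
      rw [div_sub_one (by positivity), div_le_div_iff₀ (by positivity) (by positivity)]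
      nlinarith
    have e9 : (9 : ℝ) / s = 8 / s + 1 / s := by ring
    simp only [hL]; linarith

/-- The steps leaving the inner disc. -/
noncomputable def fluxP (c : Pt) (s : ℤ) : Finset (Pt × Dir) :=
  (ball c (3 * s) ×ˢ univ).filter fun x =>
    fluxS c x.1 ≤ 9 * s ^ 2 ∧ 9 * s ^ 2 < fluxS c (x.1 + x.2.vec)

theorem flux_card (c : Pt) (s : ℕ) (hs : 1 ≤ s) : (fluxP c s).card ≤ 28 * s := by
  have : (fluxP c s).card ≤ ((univ : Finset Dir) ×ˢ Icc (-(3 * (s : ℤ))) (3 * s)).card := by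
    refine card_le_card_of_injOn
      (fun x => (x.2, if x.2 = .N ∨ x.2 = .S then x.1.1 - c.1 else x.1.2 - c.2)) ?_ ?_
    · intro x hx
      have := nrm_le_iff.1 (mem_ball.1 (mem_product.1 (mem_filter.1 hx).1).1)
      simp only [Prod.fst_sub, Prod.snd_sub] at this
      simp only [coe_product, coe_univ, coe_Icc, Set.mem_prod, Set.mem_univ, Set.mem_Icc, true_and]
      split_ifs <;> omega
    · rintro ⟨⟨a, b⟩, d⟩ hx ⟨⟨a', b'⟩, d'⟩ hx' e
      obtain ⟨rfl, e⟩ : d = d' ∧ _ := Prod.mk.inj e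
      obtain ⟨h1, h2⟩ := (mem_filter.1 hx).2
      obtain ⟨h3, h4⟩ := (mem_filter.1 hx').2
      unfold fluxS at h1 h2 h3 h4
      cases d <;> simp [Dir.vec] at e h1 h2 h3 h4 ⊢ <;> subst e <;> simp only [true_and, and_true] <;>
        refine le_antisymm (not_lt.1 fun k => ?_) (not_lt.1 fun k => ?_) <;> nlinarith
  refine this.trans ?_
  rw [card_product, Int.card_Icc, show (univ : Finset Dir).card = 4 from rfl]
  omega

theorem flux_dec {N : Net} {c v : Pt} {s : ℕ} {Φ : Pt → Prop} {W : List Dir}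
    (hst : ∀ z d, nrm (z - c) ≤ 6 * s → ¬ N.st z d) (hW : Run N v W)
    (hz : ∃ z, Vis N v W z ∧ nrm (z - c) ≤ 2 * s ∧ Φ z) :
    ∃ x ∈ fluxP c s, ∃ W1 W2, W = W1 ++ W2 ∧ (Al N Set.univ v W1 x.1 ∧ ∃ z, Vis N v W1 z ∧ Φ z) ∧
      ∃ W3 W4, W2 = W3 ++ W4 ∧ W3 = [x.2] ∧ ∃ W5 W6 y, W4 = W5 ++ W6 ∧
        Al N (fluxA c s) (x.1 + x.2.vec) W5 y ∧ y ∉ fluxA c s ∧
        ¬ fluxS c y ≤ 36 * (s : ℤ) ^ 2 ∧ nrm (y - c) ≤ 6 * s + 1 ∧ Run N y W6 := by
  obtain ⟨z, hv, hz, hΦ⟩ := hz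
  have hzB : fluxS c z ≤ 9 * (s : ℤ) ^ 2 := by
    have := flux_le_of_nrm hz
    nlinarith [sq_nonneg (s : ℤ)]
  obtain ⟨U1, U2, rfl, hU⟩ := id hv
  obtain ⟨W1, W2, y, e, h1, h2, h3⟩ :=
    flux_last (T := {z | fluxS c z ≤ 9 * (s : ℤ) ^ 2}) _ U1 U2 z le_rfl hU hzB
  rw [e] at hW hv ⊢
  have hv1 : Vis N v W1 z := by
    rcases (vis_append h1).1 hv with k | ⟨W5, W6, k1, k2⟩
    · exact k
    · by_cases m : W5 = []
      · subst m
        rw [al_nil.1 k2]; exact h1.vis_end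
      · exact absurd hzB (h3 W5 W6 z k1 m k2)
  obtain ⟨W0, q, d', rfl, k1, k2⟩ := hW.split h1
  have hq : ¬ nrm (q - c) ≤ 6 * s := fun m => hst q d' m k2
  have hy : nrm (y - c) ≤ 3 * s := flux_nrm_le (by omega) 
    (by have : fluxS c y ≤ 9 * (s : ℤ) ^ 2 := h2; linarith)
  cases k1 with
  | nil => exact absurd (by omega) hq
  | @bounce _ _ d W0 _ m _ =>
    exact absurd h2 (h3 [d, d.opp] (W0 ++ [d']) y rfl (by simp) (.bounce trivial m (.nil _)))
  | @move _ _ d W0 _ m k3 =>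
    have hq' : q ∈ {z | ¬ fluxS c z ≤ 36 * (s : ℤ) ^ 2} := fun m =>
      hq (flux_nrm_le (by omega) (by linarith))
    obtain ⟨W5, W6, y2, e2, k4, k5⟩ := (k3.vis_end.append_left [d']).first hq'
    have k6 : Al N (fluxA c s) (y + d.vec) W5 y2 := by
      refine al_iff.2 ⟨k4.univ, fun V1 V2 r e3 m1 m2 => ⟨not_le.1 ?_, ?_⟩⟩
      · exact h3 (d :: V1) (V2 ++ W6) r (by simp [e2, e3]) (by simp) (.move trivial m m2)
      · simpa using (al_iff.1 k4).2 V1 V2 r e3 m1 m2
    refine ⟨(y, d), mem_filter.2 ⟨mem_product.2 ⟨mem_ball.2 hy, mem_univ _⟩, h2, not_le.1 ?_⟩,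
      W1, _, rfl, ⟨h1, z, hv1, hΦ⟩, [d], W0 ++ [d'], rfl, rfl, W5, W6, y2, e2, k6,
      fun m => k5 m.2, k5, ?_, ?_⟩
    · exact h3 [d] (W0 ++ [d']) _ rfl (by simp) (.move trivial m (.nil _))
    · rcases flux_near k6 with rfl | ⟨r, m1, m2⟩
      · have := (nrm_step y c d).1; omega
      · have := flux_nrm_le (c := c) (z := r) (r := 6 * s) (by omega) (by linarith [m1.2])
        have := nrm_tri y2 r c
        omega
    · exact Run.split (e2 ▸ ⟨W0, q, d', rfl, k3, k2⟩) k6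

theorem t_flux (h : T_LOG) : T_FLUX := by
  refine ⟨252, fun N c s V β γ Φ hs _ hst hβ hγ => ?_⟩
  have key : ∀ v, hm N v (fun W => ∃ z, Vis N v W z ∧ nrm (z - c) ≤ 2 * s ∧ Φ v z) ≤
      ∑ x ∈ fluxP c s, ms (fun W => Al N Set.univ v W x.1 ∧ ∃ z, Vis N v W z ∧ Φ v z) *
        (β * ENNReal.ofReal (9 / s)) := by
    intro v
    refine (ms_mono fun W k => flux_dec hst k.1 k.2).trans
      ((ms_exists_le _ _).trans (sum_le_sum fun x hx => ?_))
    refine (flux_concat fun W k => k).trans (mul_le_mul_right ?_ _)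
    refine (flux_concat fun W k => k).trans ((mul_le_of_le_one_left' (flux_single _)).trans ?_)
    refine (ms_exit_le (B := fun y W => ¬ fluxS c y ≤ 36 * (s : ℤ) ^ 2 ∧
      nrm (y - c) ≤ 6 * s + 1 ∧ Run N y W) fun W k => k).trans ?_
    refine (Kn_mono (a' := fun z => β * if fluxS c z ≤ 36 * (s : ℤ) ^ 2 then 0 else 1) le_rfl
      (fun z => ?_) _).trans ?_
    · by_cases k1 : fluxS c z ≤ 36 * (s : ℤ) ^ 2
      · rw [ms_eq_zero fun W m => m.1 k1]; simp
      · rw [if_neg k1, mul_one]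
        split_ifs
        · exact zero_le
        · by_cases k2 : nrm (z - c) ≤ 6 * s + 1
          · exact (ms_mono fun W m => m.2.2).trans (hβ z k2)
          · rw [ms_eq_zero fun W m => k2 m.2.1]; exact zero_le
    · rw [Kn_mul]
      exact mul_le_mul_right
        (flux_barrier h N c s hs _ _ (mem_filter.1 hx).2.1 (mem_filter.1 hx).2.2) _
  refine (sum_le_sum fun v _ => key v).trans ?_
  rw [sum_comm]
  refine (sum_le_card_nsmul _ _ (γ * (β * ENNReal.ofReal (9 / s))) fun x _ => ?_).trans ?_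
  · rw [← sum_mul]; exact mul_le_mul_left (hγ _) _
  · have k : ((fluxP c s).card : ℝ≥0∞) * ENNReal.ofReal (9 / s) ≤ (252 : ℝ≥0) := by
      have hr : (1 : ℝ) ≤ s := by exact_mod_cast hs
      have k1 : ((fluxP c s).card : ℝ) ≤ 28 * s := by exact_mod_cast flux_card c s hs
      rw [← ENNReal.ofReal_natCast, ← ENNReal.ofReal_mul (by positivity),
        ← ENNReal.ofReal_coe_nnreal]
      refine ENNReal.ofReal_le_ofReal ?_
      rw [← mul_div_assoc, div_le_iff₀ (by positivity)]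
      push_cast
      linarith
    calc _ = ((fluxP c s).card : ℝ≥0∞) * ENNReal.ofReal (9 / s) * γ * β := by
          rw [nsmul_eq_mul]; ring
      _ ≤ _ := by gcongr

theorem t_cell (h : T_FLUX) : T_CELL := by
  obtain ⟨C, hC⟩ := h
  refine ⟨4 * C, fun N a s m V β γ Φ hs hV hst hβ hγ => ?_⟩
  have hs' : (0 : ℤ) < s := by exact_mod_cast hs
  let φ : Pt → Pt := fun v => ((v.1 - a.1) / s, (v.2 - a.2) / s)
  have hφ : ∀ v ∈ V, φ v ∈ Icc (-(m : ℤ)) m ×ˢ Icc (-(m : ℤ)) m := fun v hv => by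
    have := nrm_le_iff.1 (hV v hv)
    simp only [Prod.fst_sub, Prod.snd_sub] at this
    simp only [φ, mem_product, mem_Icc, Int.le_ediv_iff_mul_le hs', neg_mul]
    exact ⟨⟨this.1, Int.ediv_le_of_le_mul hs' this.2.1⟩, this.2.2.1,
      Int.ediv_le_of_le_mul hs' this.2.2.2⟩
  rw [← sum_fiberwise_of_maps_to hφ]
  refine (sum_le_card_nsmul _ _ (C * γ * β) fun x _ => ?_).trans ?_
  · rcases (V.filter fun v => φ v = x).eq_empty_or_nonempty with k | ⟨v0, k⟩
    · rw [k, sum_empty]; exact zero_le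
    obtain ⟨k1, k2⟩ := mem_filter.1 k
    have near : ∀ v ∈ V.filter fun v => φ v = x, nrm (v - v0) ≤ s := fun v hv => by
      obtain ⟨e1, e2⟩ := Prod.mk.inj ((mem_filter.1 hv).2.trans k2.symm)
      have f := fun t : ℤ => Int.mul_ediv_add_emod t s
      have g := fun t : ℤ => Int.emod_nonneg t hs'.ne'
      have g' := fun t : ℤ => Int.emod_lt_of_pos t hs'
      have a1 := f (v.1 - a.1); have a2 := f (v0.1 - a.1)
      have a3 := f (v.2 - a.2); have a4 := f (v0.2 - a.2)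
      rw [e1] at a1; rw [e2] at a3
      rw [nrm_le_iff]
      simp only [Prod.fst_sub, Prod.snd_sub]
      refine ⟨?_, ?_, ?_, ?_⟩ <;>
        linarith [g (v.1 - a.1), g (v0.1 - a.1), g (v.2 - a.2), g (v0.2 - a.2), g' (v.1 - a.1),
          g' (v0.1 - a.1), g' (v.2 - a.2), g' (v0.2 - a.2)]
    refine le_trans (sum_le_sum fun v hv => ms_mono fun W m => ⟨m.1, ?_⟩)
      (hC N v0 s _ β γ Φ hs near (fun z d m => hst v0 k1 z d (by omega))
        (fun z m => hβ v0 k1 z (by omega)) fun y =>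
          (sum_le_sum_of_subset (filter_subset _ _)).trans (hγ y))
    obtain ⟨z, m1, m2, m3⟩ := m.2
    exact ⟨z, m1, by have := nrm_tri z v v0; have := near v hv; omega, m3⟩
  · have k : (Icc (-(m : ℤ)) m ×ˢ Icc (-(m : ℤ)) m).card ≤ 4 * (m + 1) ^ 2 := by
      rw [card_product, Int.card_Icc, show ((m : ℤ) + 1 - -m).toNat = 2 * m + 1 by omega]
      nlinarith
    have k' : ((Icc (-(m : ℤ)) m ×ˢ Icc (-(m : ℤ)) m).card : ℝ≥0∞) ≤ 4 * (m + 1) ^ 2 := by
      exact_mod_cast k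
    calc _ ≤ 4 * ((m : ℝ≥0∞) + 1) ^ 2 * (C * γ * β) := by rw [nsmul_eq_mul]; gcongr
      _ = _ := by push_cast; ring

end Pool.Agent.P.MP_347bd1_pr
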