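import Pool.Agent.P.MP_347bd1_pr.Stmts2

/-!
A left-right crossing and a top-bottom crossing exclude each other.
-/

namespace Pool.Agent.P.MP_347bd1_pr

open Classical Finset
open scoped ENNReal NNReal

/-- The step from `u` to `u'` crosses the horizontal ray that starts just above `w`. -/
def hex1_c (u u' w : Pt) : Prop :=
  (u.2 = w.2 ∧ u'.2 = w.2 + 1 ∧ u.1 < w.1) ∨ (u'.2 = w.2 ∧ u.2 = w.2 + 1 ∧ u'.1 < w.1)

/-- The site `u` lies between the rays of `w` and `w'`. -/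
def hex1_d (u w w' : Pt) : Prop :=
  (w'.2 = w.2 + 1 ∧ u.2 = w'.2 ∧ u.1 < w'.1) ∨ (w.2 = w'.2 + 1 ∧ u.2 = w.2 ∧ u.1 < w.1)

theorem hex1_le {ξ : Pt → Bool} {c : Bool} {a b : Pt} (h : Lk ξ c a b) :
    a.1 ≤ b.1 + 1 ∧ b.1 ≤ a.1 + 1 ∧ a.2 ≤ b.2 + 1 ∧ b.2 ≤ a.2 + 1 := by
  have h1 := nrm_le_iff.1 (show nrm (a - b) = 1 from h.star).le
  simp only [Prod.fst_sub, Prod.snd_sub] at h1
  omega

theorem hex1_diag {ξ : Pt → Bool} {c : Bool} {a b : Pt} (h : Lk ξ c a b) (h1 : a.1 ≠ b.1)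
    (h2 : a.2 ≠ b.2) : ξ (min a.1 b.1, min a.2 b.2) = c := by
  rcases h with ⟨d, rfl⟩ | h
  · cases d <;> simp [Dir.vec] at h1 h2
  · exact h.2.2

theorem hex1_ne {M : Finset Pt} {u w : Pt} (hu : u ∈ M) (hw : w ∉ M) : u.1 ≠ w.1 ∨ u.2 ≠ w.2 := by
  by_contra h
  push Not at h
  exact hw (Prod.ext h.1 h.2 ▸ hu)

theorem hex1_aux (x y x' y' p q p' q' : ℤ)
    (a1 : x ≤ x' + 1 ∧ x' ≤ x + 1 ∧ y ≤ y' + 1 ∧ y' ≤ y + 1)
    (a2 : p ≤ p' + 1 ∧ p' ≤ p + 1 ∧ q ≤ q' + 1 ∧ q' ≤ q + 1)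
    (a3 : x ≠ p ∨ y ≠ q) (a4 : x ≠ p' ∨ y ≠ q') (a5 : x' ≠ p ∨ y' ≠ q) (a6 : x' ≠ p' ∨ y' ≠ q')
    (a7 : x = x' ∨ y = y' ∨ p = p' ∨ q = q' ∨ min x x' ≠ min p p' ∨ min y y' ≠ min q q') :
    (((y = q ∧ y' = q + 1 ∧ x < p) ∨ (y' = q ∧ y = q + 1 ∧ x' < p)) ↔
      ((y = q' ∧ y' = q' + 1 ∧ x < p') ∨ (y' = q' ∧ y = q' + 1 ∧ x' < p'))) ↔
    (((q' = q + 1 ∧ y = q' ∧ x < p') ∨ (q = q' + 1 ∧ y = q ∧ x < p)) ↔
      ((q' = q + 1 ∧ y' = q' ∧ x' < p') ∨ (q = q' + 1 ∧ y' = q ∧ x' < p))) := by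
  obtain ⟨s, rfl⟩ : ∃ s, y' = y + s := ⟨y' - y, by ring⟩
  obtain ⟨t, rfl⟩ : ∃ t, q' = q + t := ⟨q' - q, by ring⟩
  obtain ⟨r, rfl⟩ : ∃ r, y = q + r := ⟨y - q, by ring⟩
  simp only [add_assoc, add_right_inj, left_eq_add, add_eq_left, ne_eq, min_add_add_left] at *
  obtain rfl | rfl | rfl : s = 0 ∨ s = 1 ∨ s = -1 := by omega
  all_goals
    obtain rfl | rfl | rfl : t = 0 ∨ t = 1 ∨ t = -1 := by omega
  all_goals
    by_cases hr : r < -2 ∨ 2 < r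
    · clear a1 a2 a3 a4 a5 a6 a7
      refine iff_of_true (iff_of_false ?_ ?_) (iff_of_false ?_ ?_) <;> omega
    obtain rfl | rfl | rfl | rfl | rfl : r = -2 ∨ r = -1 ∨ r = 0 ∨ r = 1 ∨ r = 2 := by omega
    all_goals
      simp at * <;> omega

theorem hex1_local {ξ : Pt → Bool} {M : Finset Pt} {u u' w w' : Pt} (h : Lk ξ false u u')
    (h' : Lk ξ true w w') (hu : u ∈ M) (hu' : u' ∈ M) (hw : w ∉ M) (hw' : w' ∉ M) :
    (hex1_c u u' w ↔ hex1_c u u' w') ↔ (hex1_d u w w' ↔ hex1_d u' w w') := by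
  have a1 := hex1_le h
  have a2 := hex1_le h'
  have a3 := hex1_ne hu hw
  have a4 := hex1_ne hu hw'
  have a5 := hex1_ne hu' hw
  have a6 := hex1_ne hu' hw'
  have a7 : u.1 = u'.1 ∨ u.2 = u'.2 ∨ w.1 = w'.1 ∨ w.2 = w'.2 ∨
      min u.1 u'.1 ≠ min w.1 w'.1 ∨ min u.2 u'.2 ≠ min w.2 w'.2 := by
    by_contra k
    push Not at k
    obtain ⟨k1, k2, k3, k4, k5, k6⟩ := k
    have b1 := hex1_diag h k1 k2
    have b2 := hex1_diag h' k3 k4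
    rw [k5, k6, b2] at b1
    exact Bool.noConfusion b1
  exact hex1_aux _ _ _ _ _ _ _ _ a1 a2 a3 a4 a5 a6 a7

theorem hex1_inv {n : ℕ} {ξ : Pt → Bool} {M : Finset Pt} (hM : M ⊆ box n) {a b : Pt} (ha : a ∈ M)
    (ha' : a.2 = n) (h : Relation.ReflTransGen (fun u w => Lk ξ false u w ∧ w ∈ M) a b) :
    b ∈ M ∧ ∃ φ : Pt → Prop,
      (∀ w w', Lk ξ true w w' → w ∈ box n → w ∉ M → w' ∈ box n → w' ∉ M →
        ((φ w ↔ φ w') ↔ ¬ hex1_d b w w')) ∧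
      (∀ w : Pt, w.1 = 1 → ¬ φ w) ∧
      ∀ w : Pt, w ∈ box n → w ∉ M → w.1 = n → (φ w ↔ b.2 ≤ w.2) := by
  induction h with
  | refl =>
    have a0 := mem_box.1 (hM ha)
    refine ⟨ha, fun w => w.2 = n ∧ a.1 < w.1, fun w w' k k1 k2 k3 k4 => ?_, fun w k => ?_,
      fun w k1 k2 k3 => ?_⟩
    · have a1 := hex1_le k
      have a2 := hex1_ne ha k2
      have a3 := hex1_ne ha k4
      rw [mem_box] at k1 k3
      unfold hex1_d
      omega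
    · omega
    · have a2 := hex1_ne ha k2
      rw [mem_box] at k1
      omega
  | @tail u u' _ hs ih =>
    obtain ⟨hu, φ, i1, i2, i3⟩ := ih
    obtain ⟨hl, hu'⟩ := hs
    have a0 := mem_box.1 (hM hu)
    have a1 := mem_box.1 (hM hu')
    refine ⟨hu', fun w => ¬ (φ w ↔ hex1_c u u' w), fun w w' k k1 k2 k3 k4 => ?_, fun w k => ?_,
      fun w k1 k2 k3 => ?_⟩
    · have b1 := i1 w w' k k1 k2 k3 k4
      have b2 := hex1_local hl k hu hu' k2 k4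
      tauto
    · have b1 := i2 w k
      have b2 : ¬ hex1_c u u' w := by
        unfold hex1_c
        omega
      tauto
    · have b1 := hex1_le hl
      have b2 := hex1_ne hu k2
      have b3 := hex1_ne hu' k2
      simp only
      rw [i3 w k1 k2 k3]
      unfold hex1_c
      omega

theorem t_hex1 : T_HEX1 := by
  rintro n ξ M hM ⟨a, b, a1, a2, a3, a4, h⟩ ⟨a', b', b1, b2, b3, h'⟩
  obtain ⟨-, φ, i1, i2, i3⟩ := hex1_inv hM b1 b2 h'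
  have key : b ∈ box n ∧ b ∉ M ∧ ¬ φ b := by
    clear a4
    induction h with
    | refl => exact ⟨a1, a2, i2 a a3⟩
    | @tail w w' _ hs ih =>
      obtain ⟨k1, k2, k3⟩ := ih
      obtain ⟨k4, k5, k6⟩ := hs
      have c1 := i1 w w' k4 k1 k2 k5 k6
      have c2 : ¬ hex1_d b' w w' := by
        rw [mem_box] at k1 k5
        unfold hex1_d
        omega
      exact ⟨k5, k6, fun k => k3 ((c1.2 c2).2 k)⟩
  refine key.2.2 ((i3 b key.1 key.2.1 a4).2 ?_)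
  have := mem_box.1 key.1
  omega

end Pool.Agent.P.MP_347bd1_pr
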