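import Pool.Agent.P.MP_347bd1_pr.Stmts2

/-!
If there is no top-bottom minus crossing, there is a left-right plus crossing.
-/

namespace Pool.Agent.P.MP_347bd1_pr

open Classical Finset

theorem hex2_bool : ∀ m0 m1 m2 m3 r0 r1 r2 r3 x : Bool, (m0 = m1 → r0 = r1) → (m1 = m2 → r1 = r2) →
    (m3 = m2 → r3 = r2) → (m0 = m3 → r0 = r3) → (m0 = x → m2 = x → r0 = r2) →
    (m1 = x → m3 = x → r1 = r3) →
    ¬ Odd ((if r3 ∧ r2 ∧ m3 ≠ m2 then 1 else 0) + (if r1 ∧ r2 ∧ m1 ≠ m2 then 1 else 0) +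
      (if r0 ∧ r1 ∧ m0 ≠ m1 then 1 else 0) + if r0 ∧ r3 ∧ m0 ≠ m3 then 1 else 0 : ℕ) := by
  decide

theorem hex2_loc {m0 m1 m2 m3 r0 r1 r2 r3 x : Prop} (h1 : (m0 ↔ m1) → (r0 ↔ r1))
    (h2 : (m1 ↔ m2) → (r1 ↔ r2)) (h3 : (m3 ↔ m2) → (r3 ↔ r2)) (h4 : (m0 ↔ m3) → (r0 ↔ r3))
    (h5 : (m0 ↔ x) → (m2 ↔ x) → (r0 ↔ r2)) (h6 : (m1 ↔ x) → (m3 ↔ x) → (r1 ↔ r3)) :
    ¬ Odd ((if r3 ∧ r2 ∧ ¬ (m3 ↔ m2) then 1 else 0) + (if r1 ∧ r2 ∧ ¬ (m1 ↔ m2) then 1 else 0) +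
      (if r0 ∧ r1 ∧ ¬ (m0 ↔ m1) then 1 else 0) +
      if r0 ∧ r3 ∧ ¬ (m0 ↔ m3) then 1 else 0 : ℕ) := by
  have := hex2_bool (decide m0) (decide m1) (decide m2) (decide m3) (decide r0) (decide r1)
    (decide r2) (decide r3) (decide x)
  simp only [decide_eq_decide, decide_eq_true_eq, ne_eq] at this
  exact this h1 h2 h3 h4 h5 h6

theorem hex2_a {d d' r r' m m' : Prop} (h : ¬ (d ↔ d') ↔ r ∧ r' ∧ ¬ (m ↔ m'))
    (k : r → r' → (m ↔ m')) : d ↔ d' := by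
  by_contra h0
  exact (h.1 h0).2.2 (k (h.1 h0).1 (h.1 h0).2.1)

theorem hex2_b {d d' r r' m m' : Prop} (h : ¬ (d ↔ d') ↔ r ∧ r' ∧ ¬ (m ↔ m'))
    (k : ¬ m → r) (k' : ¬ m' → r') (e : (m ↔ m') → (r ↔ r')) :
    (d ↔ m ∧ r) ↔ (d' ↔ m' ∧ r') := by
  by_cases a : m <;> by_cases a' : m' <;> by_cases b : r <;> by_cases b' : r' <;>
    by_cases c : d <;> simp_all

theorem hex2_c {a b c d m r m' r' m0 r0 : Prop} (e1 : a ↔ b) (e2 : b ↔ c)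
    (e3 : (a ↔ m ∧ r) ↔ (d ↔ m0 ∧ r0)) (e4 : (d ↔ ¬ m0 ∧ r0) ↔ (c ↔ ¬ m' ∧ r'))
    (e5 : r → ¬ m) (e6 : r' → m') (e7 : m0 → r0) (e8 : ¬ m0 → r0) : False := by
  have h1 : ¬ (m ∧ r) := fun k => e5 k.2 k.1
  have h2 : ¬ (¬ m' ∧ r') := fun k => k.1 (e6 k.2)
  rw [iff_false_intro h1, e1, e2] at e3
  rw [iff_false_intro h2] at e4
  have := e3.symm.trans e4.symm
  by_cases k : m0 <;> simp_all

theorem hex2_line {n : ℤ} (hn : 1 ≤ n) (f : ℤ → Prop)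
    (h : ∀ i, 1 ≤ i → i + 1 ≤ n → (f i ↔ f (i + 1))) : f 1 ↔ f n := by
  induction n, hn using Int.leInduction with
  | base => rfl
  | succ k hk ih => exact (ih fun i h1 h2 => h i h1 (by omega)).trans (h k hk le_rfl)

theorem hex2_symm {ξ : Pt → Bool} {c : Bool} {u w : Pt} (h : Lk ξ c u w) : Lk ξ c w u := by
  rcases h with ⟨d, h⟩ | ⟨h1, h2, h3⟩
  · exact Or.inl ⟨d.opp, by simp [h]⟩
  · exact Or.inr ⟨by rwa [abs_sub_comm], by rwa [abs_sub_comm], by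
      rwa [min_comm w.1, min_comm w.2]⟩

theorem t_hex2 (h : T_POIN) : T_HEX2 := by
  intro n ξ M hn hM hTB
  by_contra hLR
  obtain ⟨R, cl, cT, pL, c1, pn⟩ : ∃ R : Pt → Prop,
      (∀ c u w, Lk ξ c u w → w ∈ box n → (u ∈ M ↔ c = false) → (w ∈ M ↔ c = false) → R u → R w) ∧
      (∀ w ∈ M, w.2 = n → R w) ∧ (∀ w ∈ box n, w ∉ M → w.1 = 1 → R w) ∧
      (∀ w, R w → w.2 = 1 → w ∉ M) ∧ ∀ w, R w → w.1 = n → w ∈ M := by
    refine ⟨fun w => (w ∈ M ∧ ∃ a ∈ M, a.2 = n ∧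
        Relation.ReflTransGen (fun u w => Lk ξ false u w ∧ w ∈ M) a w) ∨
      (w ∉ M ∧ ∃ a ∈ box n, a ∉ M ∧ a.1 = 1 ∧
        Relation.ReflTransGen (fun u w => Lk ξ true u w ∧ w ∈ box n ∧ w ∉ M) a w),
      ?_, fun w h1 h2 => Or.inl ⟨h1, w, h1, h2, .refl⟩,
      fun w h1 h2 h3 => Or.inr ⟨h2, w, h1, h2, h3, .refl⟩, ?_, ?_⟩
    · rintro c u w h1 h2 h3 h4 (⟨k, a, k1, k2, k3⟩ | ⟨k, a, k1, k2, k3, k4⟩)
      · obtain rfl := h3.1 k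
        exact Or.inl ⟨h4.2 rfl, a, k1, k2, k3.tail ⟨h1, h4.2 rfl⟩⟩
      · obtain rfl : c = true := by simpa using mt h3.2 k
        have k5 : w ∉ M := by simpa using h4
        exact Or.inr ⟨k5, a, k1, k2, k3, k4.tail ⟨h1, h2, k5⟩⟩
    · rintro w (⟨-, a, k1, k2, k3⟩ | ⟨k, -⟩) h1
      exacts [absurd ⟨a, w, k1, k2, h1, k3⟩ hTB, k]
    · rintro w (⟨k, -⟩ | ⟨-, a, k1, k2, k3, k4⟩) h1
      exacts [k, absurd ⟨a, w, k1, k2, k3, h1, k4⟩ hLR]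
  have cl2 : ∀ c u w, Lk ξ c u w → u ∈ box n → w ∈ box n → (u ∈ M ↔ c = false) →
      (w ∈ M ↔ c = false) → (R u ↔ R w) := fun c u w h1 h2 h3 h4 h5 =>
    ⟨cl c u w h1 h3 h4 h5, cl c w u (hex2_symm h1) h2 h5 h4⟩
  have nn : ∀ u w, NN u w → u ∈ box n → w ∈ box n → (u ∈ M ↔ w ∈ M) → (R u ↔ R w) :=
    fun u w h1 h2 h3 h4 =>
      cl2 (decide (u ∉ M)) u w (Or.inl h1) h2 h3 (by simp) (by simp [h4])
  obtain ⟨D, -, hD, -⟩ := h n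
    ((ebox n).filter fun e => R (ea e) ∧ R (eb e) ∧ ¬ (ea e ∈ M ↔ eb e ∈ M)) (filter_subset _ _)
    (by
      rintro ⟨a, b⟩ hp
      have hc := cr_mem_ebox hp
      have h0 : (a, b) ∈ box n := Corner.mem_box (by simp [Corner]) hp
      have h1 : (a + 1, b) ∈ box n := Corner.mem_box (by simp [Corner]) hp
      have h2 : (a + 1, b + 1) ∈ box n := Corner.mem_box (by simp [Corner]) hp
      have h3 : (a, b + 1) ∈ box n := Corner.mem_box (by simp [Corner]) hp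
      simp only [deg_eq4, mem_filter, hc, true_and, Set.mem_empty_iff_false, iff_false]
      simp only [cr, ea, eb, if_true, Prod.mk_add_mk, add_zero, Bool.false_eq_true, if_false]
      convert hex2_loc (x := ξ (a, b) = false) (nn _ _ ⟨.E, by simp [Dir.vec]⟩ h0 h1)
        (nn _ _ ⟨.N, by simp [Dir.vec]⟩ h1 h2) (nn _ _ ⟨.E, by simp [Dir.vec]⟩ h3 h2)
        (nn _ _ ⟨.N, by simp [Dir.vec]⟩ h0 h3)
        (cl2 _ _ _ (Or.inr ⟨by simp, by simp, by simp⟩) h0 h2)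
        (cl2 _ _ _ (Or.inr ⟨by simp, by simp, by simp⟩) h1 h3))
  have key : ∀ e : Edge, ea e ∈ box n → eb e ∈ box n → (¬ (ea e ∈ D ↔ eb e ∈ D) ↔
      R (ea e) ∧ R (eb e) ∧ ¬ (ea e ∈ M ↔ eb e ∈ M)) := fun e h1 h2 => by
    have := Finset.ext_iff.1 hD e
    simpa only [mem_inter, mem_filter, mem_cut, mem_ebox, h1, h2, and_true, true_and] using this
  have hn' : (1 : ℤ) ≤ n := by exact_mod_cast hn
  have bx : ∀ x y : ℤ, 1 ≤ x → x ≤ n → 1 ≤ y → y ≤ n → (x, y) ∈ box n := fun x y h1 h2 h3 h4 =>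
    mem_box.2 ⟨h1, h2, h3, h4⟩
  have kE : ∀ x y : ℤ, (x, y) ∈ box n → (x + 1, y) ∈ box n →
      (¬ ((x, y) ∈ D ↔ (x + 1, y) ∈ D) ↔
        R (x, y) ∧ R (x + 1, y) ∧ ¬ ((x, y) ∈ M ↔ (x + 1, y) ∈ M)) := fun x y h1 h2 => by
    simpa [ea, eb] using key ((x, y), true) h1 (by simpa [eb] using h2)
  have kN : ∀ x y : ℤ, (x, y) ∈ box n → (x, y + 1) ∈ box n →
      (¬ ((x, y) ∈ D ↔ (x, y + 1) ∈ D) ↔
        R (x, y) ∧ R (x, y + 1) ∧ ¬ ((x, y) ∈ M ↔ (x, y + 1) ∈ M)) := fun x y h1 h2 => by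
    simpa [ea, eb] using key ((x, y), false) h1 (by simpa [eb] using h2)
  have e1 := hex2_line hn' (fun i => (i, 1) ∈ D) fun i h1 h2 =>
    hex2_a (kE i 1 (bx _ _ h1 (by omega) le_rfl hn') (bx _ _ (by omega) h2 le_rfl hn'))
      fun k k' => iff_of_false (c1 _ k rfl) (c1 _ k' rfl)
  have e2 := hex2_line hn' (fun i => ((n : ℤ), i) ∈ D) fun i h1 h2 =>
    hex2_a (kN n i (bx _ _ hn' le_rfl h1 (by omega)) (bx _ _ hn' le_rfl (by omega) h2))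
      fun k k' => iff_of_true (pn _ k rfl) (pn _ k' rfl)
  have e3 := hex2_line hn' (fun i => ((1, i) ∈ D ↔ (1, i) ∈ M ∧ R (1, i))) fun i h1 h2 => by
    have k1 := bx 1 i le_rfl hn' h1 (by omega)
    have k2 := bx 1 (i + 1) le_rfl hn' (by omega) h2
    exact hex2_b (kN 1 i k1 k2) (fun k => pL _ k1 k rfl) (fun k => pL _ k2 k rfl)
      (nn _ _ ⟨.N, by simp [Dir.vec]⟩ k1 k2)
  have e4 := hex2_line hn' (fun i => ((i, (n : ℤ)) ∈ D ↔ (i, (n : ℤ)) ∉ M ∧ R (i, n)))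
    fun i h1 h2 => by
    have k1 := bx i n h1 (by omega) hn' le_rfl
    have k2 := bx (i + 1) n (by omega) h2 hn' le_rfl
    refine hex2_b ?_ (fun k => cT _ (not_not.1 k) rfl) (fun k => cT _ (not_not.1 k) rfl)
      fun k => nn _ _ ⟨.E, by simp [Dir.vec]⟩ k1 k2 (not_iff_not.1 k)
    rw [not_iff_not (a := (i, (n : ℤ)) ∈ M)]
    exact kE i n k1 k2
  exact hex2_c e1 e2 e3 e4 (fun k => c1 (1, 1) k rfl) (fun k => pn (n, n) k rfl)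
    (fun k => cT (1, n) k rfl) fun k => pL _ (bx 1 n le_rfl hn' hn' le_rfl) k rfl

theorem t_hex (h1 : T_HEX1) (h2 : T_HEX2) : T_HEX := fun n ξ M hn hM =>
  ⟨h1 n ξ M hM, h2 n ξ M hn hM⟩

end Pool.Agent.P.MP_347bd1_pr
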