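import Pool.Agent.P.MP_347bd1_pr.Stmts2

namespace Pool.Agent.P.MP_347bd1_pr

open Classical Finset

theorem hit_log4 {a b c d e : ℝ} (ha : 0 < a) (hb : 0 < b) (hc : 0 < c) (hd : 0 < d) :
    (Real.log a + Real.log b + Real.log c + Real.log d) / 4 - Real.log e =
      (Real.log (a * b * c * d) - Real.log (e ^ 4)) / 4 := by
  rw [Real.log_mul (by positivity) hd.ne', Real.log_mul (by positivity) hc.ne',
    Real.log_mul ha.ne' hb.ne', Real.log_pow]
  push_cast
  ring

/-- The exponential of the superharmonic function. -/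
noncomputable def hit_g (z : Pt) : ℝ :=
  if z.1 ^ 2 + z.2 ^ 2 = 0 then 1 / 768 else if z.1 ^ 2 + z.2 ^ 2 = 1 then 1 / 4
  else (z.1 : ℝ) ^ 2 + (z.2 : ℝ) ^ 2 - 1

theorem hit_g_eq {z : Pt} (h : 2 ≤ z.1 ^ 2 + z.2 ^ 2) :
    hit_g z = (z.1 : ℝ) ^ 2 + (z.2 : ℝ) ^ 2 - 1 := by
  rw [hit_g, if_neg (by omega), if_neg (by omega)]

theorem hit_g_pos (z : Pt) : 0 < hit_g z := by
  unfold hit_g
  split_ifs with h1 h2
  · norm_num
  · norm_num
  · have : 2 ≤ z.1 ^ 2 + z.2 ^ 2 := by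
      have := sq_nonneg z.1
      have := sq_nonneg z.2
      omega
    have h : ((2 : ℤ) : ℝ) ≤ ((z.1 ^ 2 + z.2 ^ 2 : ℤ) : ℝ) := Int.cast_le.mpr this
    push_cast at h
    linarith

theorem hit_g_super (x y : ℤ) (h : (x, y) ≠ (0 : Pt)) :
    hit_g (x, y + 1) * hit_g (x + 1, y) * hit_g (x, y - 1) * hit_g (x - 1, y) ≤
      hit_g (x, y) ^ 4 := by
  by_cases hs : (-2 ≤ x ∧ x ≤ 2) ∧ (-2 ≤ y ∧ y ≤ 2)
  · obtain ⟨⟨h1, h2⟩, h3, h4⟩ := hs
    interval_cases x <;> interval_cases y <;> first | exact absurd rfl h | norm_num [hit_g]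
  · have hx := sq_nonneg x
    have hy := sq_nonneg y
    have hb : 3 ≤ x ∨ x ≤ -3 ∨ 3 ≤ y ∨ y ≤ -3 := by omega
    have k0 : 2 ≤ x ^ 2 + y ^ 2 := by rcases hb with k | k | k | k <;> nlinarith
    rw [hit_g_eq (z := (x, y + 1)), hit_g_eq (z := (x + 1, y)), hit_g_eq (z := (x, y - 1)),
      hit_g_eq (z := (x - 1, y)), hit_g_eq (z := (x, y)) k0]
    · have k1 : ((2 : ℤ) : ℝ) ≤ ((x ^ 2 + y ^ 2 : ℤ) : ℝ) := Int.cast_le.mpr k0
      push_cast at k1 ⊢
      generalize (x : ℝ) = a at *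
      generalize (y : ℝ) = b at *
      have e : (a ^ 2 + b ^ 2 - 1) ^ 4 - (a ^ 2 + (b + 1) ^ 2 - 1) * ((a + 1) ^ 2 + b ^ 2 - 1) *
          (a ^ 2 + (b - 1) ^ 2 - 1) * ((a - 1) ^ 2 + b ^ 2 - 1) =
          4 * (a ^ 2 - b ^ 2) ^ 2 + 2 * (a ^ 2 + b ^ 2) * (a ^ 2 + b ^ 2 - 2) + 1 := by ring
      have : 0 ≤ 2 * (a ^ 2 + b ^ 2) * (a ^ 2 + b ^ 2 - 2) :=
        mul_nonneg (by positivity) (by linarith)
      nlinarith [sq_nonneg (a ^ 2 - b ^ 2)]
    all_goals
      dsimp only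
      rcases hb with k | k | k | k <;>
        nlinarith [sq_nonneg (x + 1), sq_nonneg (x - 1), sq_nonneg (y + 1), sq_nonneg (y - 1)]

theorem t_log : T_LOG := by
  refine ⟨fun z => ?_, fun z => Real.log (hit_g z),
    fun z hz => congrArg Real.log (hit_g_eq hz), ?_, ?_⟩
  · rw [avg_eq]
    push_cast
    generalize (z.1 : ℝ) = a
    generalize (z.2 : ℝ) = b
    rw [← sub_nonneg, hit_log4 (by positivity) (by positivity) (by positivity) (by positivity)]
    refine div_nonneg (sub_nonneg.mpr (Real.log_le_log (by positivity) ?_)) (by norm_num)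
    have e : (a ^ 2 + (b + 1) ^ 2 + 1) * ((a + 1) ^ 2 + b ^ 2 + 1) * (a ^ 2 + (b - 1) ^ 2 + 1) *
        ((a - 1) ^ 2 + b ^ 2 + 1) - (a ^ 2 + b ^ 2 + 1) ^ 4 =
        2 * (a ^ 2 + b ^ 2) ^ 2 + 12 * (a ^ 2 + b ^ 2) + 15 + 16 * (a * b) ^ 2 := by ring
    have : 0 ≤ 2 * (a ^ 2 + b ^ 2) ^ 2 + 12 * (a ^ 2 + b ^ 2) + 15 + 16 * (a * b) ^ 2 := by
      positivity
    linarith
  · intro z hz
    have hg : 1 / 1024 ≤ hit_g z ∧ hit_g z ≤ 1 := by
      unfold hit_g
      split_ifs with h1 h2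
      · norm_num
      · norm_num
      · have := sq_nonneg z.1
        have := sq_nonneg z.2
        omega
    refine ⟨?_, Real.log_nonpos (hit_g_pos z).le hg.2⟩
    have h1 := Real.log_le_log (by norm_num) hg.1
    have h2 : Real.log (1 / 1024) = -10 * Real.log 2 := by
      rw [show (1 / 1024 : ℝ) = 2 ^ (-10 : ℤ) by norm_num, Real.log_zpow]
      norm_num
    have h3 := Real.log_two_lt_d9
    change -10 ≤ Real.log (hit_g z)
    linarith
  · rintro ⟨x, y⟩ hz
    rw [avg_eq, ← sub_nonpos, hit_log4 (hit_g_pos _) (hit_g_pos _) (hit_g_pos _) (hit_g_pos _)]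
    refine div_nonpos_of_nonpos_of_nonneg (sub_nonpos.mpr (Real.log_le_log ?_
      (hit_g_super x y hz))) (by norm_num)
    exact mul_pos (mul_pos (mul_pos (hit_g_pos _) (hit_g_pos _)) (hit_g_pos _)) (hit_g_pos _)

theorem hit_sq_le (y : Pt) : nrm y ^ 2 ≤ y.1 ^ 2 + y.2 ^ 2 ∧ y.1 ^ 2 + y.2 ^ 2 ≤ 2 * nrm y ^ 2 := by
  rw [← sq_abs y.1, ← sq_abs y.2]
  have h1 := abs_nonneg y.1
  have h2 := abs_nonneg y.2
  unfold nrm
  rcases le_total |y.1| |y.2| with h | h
  · rw [max_eq_right h]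
    constructor <;> nlinarith
  · rw [max_eq_left h]
    constructor <;> nlinarith

theorem hit_sum_log (m : ℕ) : ∑ j ∈ range m, (Real.log m - Real.log ((j : ℝ) + 1)) ≤ m := by
  have key : ∀ n : ℕ, n * Real.log n - n ≤ ∑ j ∈ range n, Real.log ((j : ℝ) + 1) := by
    intro n
    induction n with
    | zero => simp
    | succ n ih =>
      rw [sum_range_succ]
      push_cast
      rcases Nat.eq_zero_or_pos n with rfl | hn
      · simp
      · have hn' : (0 : ℝ) < n := Nat.cast_pos.mpr hn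
        have h1 := Real.log_le_sub_one_of_pos (show 0 < ((n : ℝ) + 1) / n by positivity)
        rw [Real.log_div (by positivity) hn'.ne'] at h1
        have h2 := mul_le_mul_of_nonneg_left h1 hn'.le
        have h3 : (n : ℝ) * (((n : ℝ) + 1) / n - 1) = 1 := by
          field_simp
          ring
        rw [h3] at h2
        linarith
  have := key m
  rw [sum_sub_distrib, sum_const, card_range, nsmul_eq_mul]
  linarith

theorem hit_sum_abs (s : ℕ) (l1 : ℤ) (h1 : (s : ℤ) ≤ l1) (h2 : l1 ≤ 2 * s) :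
    ∑ l ∈ Icc (s : ℤ) (2 * s), (Real.log ((s : ℝ) + 1) - Real.log (((l - l1).natAbs : ℝ) + 1)) ≤
      2 * ((s : ℝ) + 1) := by
  have hm : ∀ l ∈ Icc (s : ℤ) (2 * s), (l - l1).natAbs ∈ range (s + 1) := by
    intro l hl
    rw [mem_Icc] at hl
    rw [mem_range]
    omega
  rw [← sum_fiberwise_of_maps_to hm]
  have h3 := hit_sum_log (s + 1)
  push_cast at h3
  refine le_trans (sum_le_sum (g := fun j : ℕ =>
    2 * (Real.log ((s : ℝ) + 1) - Real.log ((j : ℝ) + 1))) fun j hj => ?_) ?_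
  · have hj' : (j : ℝ) ≤ s := Nat.cast_le.mpr (Nat.lt_succ_iff.mp (mem_range.mp hj))
    have h0 : 0 ≤ Real.log ((s : ℝ) + 1) - Real.log ((j : ℝ) + 1) :=
      sub_nonneg.mpr (Real.log_le_log (by positivity) (by linarith))
    rw [sum_congr rfl (g := fun _ => Real.log ((s : ℝ) + 1) - Real.log ((j : ℝ) + 1))
      (fun l hl => by rw [(mem_filter.mp hl).2]), sum_const, nsmul_eq_mul]
    refine mul_le_mul_of_nonneg_right ?_ h0
    have : #{l ∈ Icc (s : ℤ) (2 * s) | (l - l1).natAbs = j} ≤ 2 := by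
      refine le_trans (card_le_card (t := {l1 + j, l1 - j}) fun l hl => ?_) card_le_two
      have := (mem_filter.mp hl).2
      simp only [mem_insert, mem_singleton]
      omega
    exact_mod_cast this
  · rw [← mul_sum]
    linarith

theorem t_hit (h : T_LOG) : T_HIT := by
  obtain ⟨-, ψ, ψ1, ψ2, ψ3⟩ := h
  refine ⟨1 / 160, by norm_num, by norm_num, fun p s k hs hk => ?_⟩
  have hs' : (1 : ℝ) ≤ s := by exact_mod_cast hs
  have hcard : (#(Icc (s : ℤ) (2 * s)) : ℝ) = s + 1 := by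
    rw [Int.card_Icc, show 2 * (s : ℤ) + 1 - s = ((s + 1 : ℕ) : ℤ) by push_cast; ring,
      Int.toNat_natCast]
    push_cast
    rfl
  set L := Real.log (63 * (s : ℝ) ^ 2) with hL
  set f0 : Pt → ℝ := fun z => (∑ l ∈ Icc (s : ℤ) (2 * s), (L - ψ (z - k l))) / (s + 1) with hf0
  have low : ∀ (y : Pt) (j : ℕ), (j : ℤ) ≤ nrm y → 2 * Real.log ((j : ℝ) + 1) - 12 ≤ ψ y := by
    intro y j hj
    have hq := (hit_sq_le y).1
    have hj2 : (j : ℤ) ^ 2 ≤ nrm y ^ 2 := pow_le_pow_left₀ (by positivity) hj 2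
    by_cases h2 : 2 ≤ y.1 ^ 2 + y.2 ^ 2
    · rw [ψ1 y h2]
      have a1 : ((j : ℤ) + 1) ^ 2 ≤ 6 * (y.1 ^ 2 + y.2 ^ 2 - 1) := by
        nlinarith [sq_nonneg ((j : ℤ) - 1)]
      have a2 : ((j : ℝ) + 1) ^ 2 ≤ 6 * ((y.1 : ℝ) ^ 2 + (y.2 : ℝ) ^ 2 - 1) := by
        exact_mod_cast a1
      have a0 : (0 : ℝ) < ((j : ℝ) + 1) ^ 2 := by positivity
      have a3 := Real.log_le_log a0 a2
      rw [Real.log_pow, Real.log_mul (by norm_num) (by linarith)] at a3
      have a4 := Real.log_le_sub_one_of_pos (show (0 : ℝ) < 6 by norm_num)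
      push_cast at a3
      linarith
    · have a1 := (ψ2 y (by omega)).1
      have a2 : j ≤ 1 := by
        by_contra a2
        have : (2 : ℤ) ≤ j := by omega
        nlinarith
      have a3 : (j : ℝ) ≤ 1 := by exact_mod_cast a2
      have a4 := Real.log_le_sub_one_of_pos (show (0 : ℝ) < (j : ℝ) + 1 by positivity)
      linarith
  have up : ∀ z, f0 z ≤ 80 := by
    intro z
    obtain ⟨l1, a1, a2, a3⟩ : ∃ l1 : ℤ, (s : ℤ) ≤ l1 ∧ l1 ≤ 2 * s ∧
        ∀ l : ℤ, s ≤ l → l ≤ 2 * s → ((l - l1).natAbs : ℤ) ≤ (l - nrm (z - p)).natAbs := by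
      refine ⟨max (s : ℤ) (min (nrm (z - p)) (2 * s)), le_max_left _ _, by omega, ?_⟩
      intro l _ _
      omega
    have b1 := hit_sum_abs s l1 a1 a2
    have hL' : L ≤ 62 + 2 * Real.log ((s : ℝ) + 1) := by
      rw [hL, Real.log_mul (by norm_num) (by positivity), Real.log_pow]
      have c1 := Real.log_le_sub_one_of_pos (show (0 : ℝ) < 63 by norm_num)
      have c2 := Real.log_le_log (show (0 : ℝ) < s by linarith) (show (s : ℝ) ≤ s + 1 by linarith)
      push_cast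
      linarith
    have b2 : ∑ l ∈ Icc (s : ℤ) (2 * s), (L - ψ (z - k l)) ≤ ∑ l ∈ Icc (s : ℤ) (2 * s),
        (74 + 2 * (Real.log ((s : ℝ) + 1) - Real.log (((l - l1).natAbs : ℝ) + 1))) := by
      refine sum_le_sum fun l hl => ?_
      rw [mem_Icc] at hl
      have c1 := hk l hl.1 hl.2
      have c2 := nrm_tri z (k l) p
      have c3 := nrm_tri (k l) z p
      rw [nrm_sub_comm (k l) z] at c3
      have c4 := a3 l hl.1 hl.2
      have := low (z - k l) (l - l1).natAbs (by omega)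
      linarith
    rw [sum_add_distrib, sum_const, nsmul_eq_mul, hcard, ← mul_sum] at b2
    rw [hf0]
    dsimp only
    rw [div_le_iff₀ (by positivity)]
    linarith
  refine ⟨fun z => max 0 (f0 z) / 80, fun z => ⟨by positivity, ?_⟩, fun z hz => ?_,
    fun z hz => ?_, fun z hz => ?_⟩
  · rw [div_le_one (by norm_num)]
    exact max_le (by norm_num) (up z)
  · have : f0 z ≤ 0 := by
      refine div_nonpos_of_nonpos_of_nonneg (sum_nonpos fun l hl => ?_) (by positivity)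
      rw [mem_Icc] at hl
      have c1 := hk l hl.1 hl.2
      have c2 := nrm_tri z (k l) p
      have c3 : 8 * (s : ℤ) ≤ nrm (z - k l) := by omega
      have c4 := (hit_sq_le (z - k l)).1
      have c5 : (8 * (s : ℤ)) ^ 2 ≤ nrm (z - k l) ^ 2 := pow_le_pow_left₀ (by positivity) c3 2
      have c0 : (1 : ℤ) ≤ s := by omega
      have c6 : 63 * (s : ℤ) ^ 2 ≤ (z - k l).1 ^ 2 + (z - k l).2 ^ 2 - 1 := by nlinarith
      rw [ψ1 _ (by nlinarith), sub_nonpos]
      refine Real.log_le_log (by positivity) ?_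
      exact_mod_cast c6
    simp only [max_eq_left this, zero_div]
  · have b1 : f0 z ≤ avg f0 z := by
      have : avg f0 z = (∑ l ∈ Icc (s : ℤ) (2 * s), (L - avg ψ (z - k l))) / (s + 1) := by
        simp only [hf0, avg, sum_dir, ← add_div, ← sum_add_distrib]
        rw [div_right_comm, sum_div]
        congr 1
        refine sum_congr rfl fun l _ => ?_
        simp only [add_sub_right_comm z _ (k l)]
        ring
      rw [this, hf0]
      refine div_le_div_of_nonneg_right (sum_le_sum fun l hl => ?_) (by positivity)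
      rw [mem_Icc] at hl
      have := ψ3 (z - k l) (sub_ne_zero.mpr (hz l hl.1 hl.2))
      linarith
    simp only [avg, sum_dir] at b1 ⊢
    have d1 := le_max_left 0 (f0 (z + Dir.N.vec))
    have d2 := le_max_left 0 (f0 (z + Dir.E.vec))
    have d3 := le_max_left 0 (f0 (z + Dir.S.vec))
    have d4 := le_max_left 0 (f0 (z + Dir.W.vec))
    have e1 := le_max_right 0 (f0 (z + Dir.N.vec))
    have e2 := le_max_right 0 (f0 (z + Dir.E.vec))
    have e3 := le_max_right 0 (f0 (z + Dir.S.vec))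
    have e4 := le_max_right 0 (f0 (z + Dir.W.vec))
    rcases le_total 0 (f0 z) with h0 | h0
    · rw [max_eq_right h0]
      linarith
    · rw [max_eq_left h0]
      linarith
  · have b1 : 1 / 2 ≤ f0 z := by
      rw [hf0]
      dsimp only
      rw [le_div_iff₀ (by positivity), ← hcard, mul_comm, ← nsmul_eq_mul]
      refine card_nsmul_le_sum _ _ _ fun l hl => ?_
      rw [mem_Icc] at hl
      have c1 := hk l hl.1 hl.2
      have c2 := nrm_tri z p (k l)
      rw [nrm_sub_comm p (k l)] at c2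
      have c3 : nrm (z - k l) ≤ 3 * s := by omega
      have c4 := (hit_sq_le (z - k l)).2
      have c5 : nrm (z - k l) ^ 2 ≤ (3 * (s : ℤ)) ^ 2 := pow_le_pow_left₀ (nrm_nonneg _) c3 2
      have c6 : ψ (z - k l) ≤ Real.log (18 * (s : ℝ) ^ 2) := by
        by_cases h2 : 2 ≤ (z - k l).1 ^ 2 + (z - k l).2 ^ 2
        · rw [ψ1 _ h2]
          have g1 : (0 : ℤ) < (z - k l).1 ^ 2 + (z - k l).2 ^ 2 - 1 := by omega
          have g2 : (z - k l).1 ^ 2 + (z - k l).2 ^ 2 - 1 ≤ 18 * (s : ℤ) ^ 2 := by nlinarith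
          exact Real.log_le_log (by exact_mod_cast g1) (by exact_mod_cast g2)
        · exact (ψ2 _ (by omega)).2.trans (Real.log_nonneg (by nlinarith))
      have c7 : L = Real.log (7 / 2) + Real.log (18 * (s : ℝ) ^ 2) := by
        rw [hL, ← Real.log_mul (by norm_num) (by positivity)]
        congr 1
        ring
      have c8 := Real.one_sub_inv_le_log_of_pos (show (0 : ℝ) < 7 / 2 by norm_num)
      linarith
    have := le_max_right 0 (f0 z)
    linarith

end Pool.Agent.P.MP_347bd1_pr
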