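import Pool.Agent.P.MP_347bd1_pr.Stmts2

/-! The discrete primitive of the square of the signed one point function. -/

namespace Pool.Agent.P.MP_347bd1_pr

open Classical Finset
open scoped ENNReal NNReal

variable {n : ℕ} {E : Finset Edge}

noncomputable def kcQ (n : ℕ) (E : Finset Edge) (v w : Pt) : ℝ := Xs n E v (ray n w) ^ 2

noncomputable def kcH (n : ℕ) (E : Finset Edge) (w : Pt) : ℝ :=
  ∑ j ∈ Ico w.2 (n : ℤ), (kcQ n E (w.1, j) (w.1, j + 1) - kcQ n E (w.1, j) (w.1, j))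

noncomputable def kcP (n : ℕ) (E : Finset Edge) (v : Pt) : ℝ :=
  if v ∈ intr n then kcH n E v + kcQ n E v v else 1

theorem kc_sq2 : Real.sqrt 2 ^ 2 = 2 := Real.sq_sqrt (by norm_num)

theorem kc_form (a b c d : ℝ) : 0 ≤ 2 * (a ^ 2 + b ^ 2 + c ^ 2 + d ^ 2) -
    2 * Real.sqrt 2 * (a * b + b * c + c * d - d * a) := by
  have := kc_sq2
  nlinarith [sq_nonneg (a - Real.sqrt 2 * b + c), sq_nonneg (b - Real.sqrt 2 * c + d),
    sq_nonneg (c - Real.sqrt 2 * d - a), sq_nonneg (d + Real.sqrt 2 * a - b)]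

theorem kc_mem_ray {w : Pt} {e : Edge} :
    e ∈ ray n w ↔ e.2 = false ∧ e.1.1 = w.1 ∧ w.2 ≤ e.1.2 ∧ e.1.2 < n := by
  obtain ⟨⟨a, b⟩, c⟩ := e
  simp only [ray, mem_image, mem_Ico, Prod.mk.injEq]
  constructor
  · rintro ⟨j, h, ⟨rfl, rfl⟩, rfl⟩; exact ⟨rfl, rfl, h⟩
  · rintro ⟨rfl, rfl, h⟩; exact ⟨b, h, ⟨rfl, rfl⟩, rfl⟩

theorem kc_top (i : ℤ) : kcH n E (i, n) = 0 := by simp [kcH]

theorem kc_rec (i : ℤ) {j : ℤ} (hj : j < n) :
    kcH n E (i, j) + kcQ n E (i, j) (i, j) = kcH n E (i, j + 1) + kcQ n E (i, j) (i, j + 1) := by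
  simp only [kcH]
  rw [← Finset.insert_Ico_add_one_left_eq_Ico hj, sum_insert (by simp)]
  ring

theorem kc_outer {v u : Pt} (hv : v ∉ intr n) (hu : u ∉ intr n) (Γ : Finset Edge) :
    Xs n E v Γ = Xs n E u Γ := by
  have k : ∀ {v u : Pt}, v ∉ intr n → u ∉ intr n → ∀ η, Src n η {v} → Src n η {u} :=
    fun hv hu η s => s.congr fun p hp => ⟨fun e => absurd (e ▸ hp) hv, fun e => absurd (e ▸ hp) hu⟩
  simp only [Xs]
  congr 1
  exact sum_congr rfl fun η _ => if_congr ⟨k hv hu η, k hu hv η⟩ rfl rfl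

theorem kc_outer_empty {v : Pt} (hv : v ∉ intr n) : Xs n E v ∅ = 1 := by
  have : Zs n {v} E = Zs n ∅ E :=
    Zs_congr (fun p hp => ⟨fun e => absurd (e ▸ hp) hv, fun e => e.elim⟩) E
  rw [Xs, div_eq_one_iff_eq (Zs_pos n E).ne', ← this, Zs]
  simp

section
variable (h : T_KC1) (sc : SC n E)
include h sc

theorem kc_off {w : Pt} {d : Dir} (h1 : inc w d ∈ ebox n) (h2 : inc w d ∉ E) (v : Pt) :
    kcQ n E v (w + d.vec) = kcQ n E v w := by
  rw [kcQ, (h n E v).2.2.2.1 sc w d h1, (h n E v).2.1 _ _ h2, kcQ]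

theorem kc_on {v w : Pt} {d d' : Dir} (e : cr v d = inc w d') (h2 : inc w d' ∈ E) :
    kcQ n E v w - kcQ n E v (w + d'.vec) =
      -(Xs n E v (ray n w) ^ 2 + Xs n E (v + d.vec) (ray n w) ^ 2 - 2 * Real.sqrt 2 *
        ((if inc w d' ∈ ray n w then -1 else 1) *
          (Xs n E v (ray n w) * Xs n E (v + d.vec) (ray n w)))) := by
  rw [kcQ, kcQ, (h n E v).2.2.2.1 sc w d' (sc.sub h2), ← e, (h n E v).1 _ d (e ▸ h2)]
  split_ifs <;> linear_combination (-Xs n E v (ray n w) ^ 2) * kc_sq2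

theorem kc_edge {v w : Pt} {d d' : Dir} (e : cr v d = inc w d') (h1 : inc w d' ∈ ebox n) :
    kcQ n E v w - kcQ n E v (w + d'.vec) =
      kcQ n E (v + d.vec) w - kcQ n E (v + d.vec) (w + d'.vec) := by
  by_cases h2 : inc w d' ∈ E
  · have k : v + d.vec + d.opp.vec = v := by cases d <;> simp [Dir.vec, Dir.opp, Prod.ext_iff]
    rw [kc_on h sc e h2, kc_on h sc ((cr_opp v d).trans e) h2, k]
    ring
  · rw [kc_off h sc h1 h2, kc_off h sc h1 h2]; ring

theorem kc_left {i j : ℤ} (h1 : 0 ≤ i) (h2 : i + 1 ≤ n) (h3 : 1 ≤ j) (h4 : j + 1 ≤ n) :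
    kcH n E (i + 1, j) + kcQ n E (i, j) (i + 1, j) =
      kcH n E (i + 1, j + 1) + kcQ n E (i, j) (i + 1, j + 1) := by
  have a := kc_edge h sc (v := (i, j)) (w := (i + 1, j)) (d := .E) (d' := .N) rfl
    (by simp [inc_mem_ebox, mem_box, Dir.vec]; omega)
  have b := kc_rec (n := n) (E := E) (i + 1) (j := j) (by omega)
  simp only [Dir.vec, Prod.mk_add_mk, add_zero] at a
  linarith

theorem kc_below {i j : ℤ} (h1 : 1 ≤ i) (h2 : i + 1 ≤ n) (h3 : 0 ≤ j) (h4 : j + 1 ≤ n)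
    (k : kcH n E (i, j + 1) + kcQ n E (i, j + 1) (i, j + 1) =
      kcH n E (i + 1, j + 1) + kcQ n E (i, j + 1) (i + 1, j + 1)) :
    kcH n E (i, j + 1) + kcQ n E (i, j) (i, j + 1) =
      kcH n E (i + 1, j + 1) + kcQ n E (i, j) (i + 1, j + 1) := by
  have a := kc_edge h sc (v := (i, j)) (w := (i, j + 1)) (d := .N) (d' := .E) rfl
    (by simp [inc_mem_ebox, mem_box, Dir.vec]; omega)
  simp only [Dir.vec, Prod.mk_add_mk, add_zero] at a
  linarith

theorem kc_above {i j : ℤ} (h1 : 1 ≤ i) (h2 : i + 1 ≤ n) (h3 : 1 ≤ j) (h4 : j ≤ n) :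
    kcH n E (i, j) + kcQ n E (i, j) (i, j) = kcH n E (i + 1, j) + kcQ n E (i, j) (i + 1, j) := by
  induction j, h4 using Int.leInductionDown with
  | base =>
    have a := kc_off h sc (w := (i, n)) (d := .E) (by simp [inc_mem_ebox, mem_box, Dir.vec]; omega)
      (fun k => sc.top _ k (by simp [inc, ea, eb])) (i, n)
    simp only [Dir.vec, Prod.mk_add_mk, add_zero] at a
    rw [kc_top, kc_top, a]
  | pred j hj ih =>
    obtain ⟨j, rfl⟩ : ∃ k, j = k + 1 := ⟨j - 1, by ring⟩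
    simp only [add_sub_cancel_right] at h3 ⊢
    have a := kc_below h sc h1 h2 (by omega) hj (ih (by omega))
    have b := kc_rec (n := n) (E := E) i (j := j) (by omega)
    have c := kc_left h sc (by omega) h2 h3 hj
    linarith

theorem kc_side {v : Pt} {d : Dir} (k : cr v d ∈ ebox n) :
    kcH n E (ea (cr v d)) + kcQ n E v (ea (cr v d)) =
      kcH n E (eb (cr v d)) + kcQ n E v (eb (cr v d)) := by
  obtain ⟨i, j⟩ := v
  rw [mem_ebox, mem_box, mem_box] at k
  cases d <;> simp only [cr, ea, eb, Prod.mk_add_mk, add_zero, if_true, Bool.false_eq_true,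
    if_false] at k ⊢
  · exact kc_below h sc (by omega) (by omega) (by omega) (by omega)
      (kc_above h sc (by omega) (by omega) (by omega) (by omega))
  · exact kc_left h sc (by omega) (by omega) (by omega) (by omega)
  · exact kc_above h sc (by omega) (by omega) (by omega) (by omega)
  · exact kc_rec i (by omega)

theorem kc_claim {v w : Pt} {d d' : Dir} (e : cr v d = inc w d') (h1 : inc w d' ∈ ebox n) :
    kcH n E w + kcQ n E v w = kcH n E (w + d'.vec) + kcQ n E v (w + d'.vec) := by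
  have a := kc_side h sc (e ▸ h1)
  rw [e] at a
  rcases ends_inc w d' with ⟨b, c⟩ | ⟨b, c⟩ <;> rw [b, c] at a
  · exact a
  · exact a.symm

theorem kc_ring {w : Pt} (hw : w ∈ box n) (hr : OnRing n w) :
    kcH n E w + kcQ n E (0, 0) w = 1 := by
  have o : ((0, 0) : Pt) ∉ intr n := by simp [mem_intr]
  have q : ∀ {v : Pt}, v ∉ intr n → ∀ w, kcQ n E v w = kcQ n E (0, 0) w := fun hv w => by
    rw [kcQ, kcQ, kc_outer hv o]
  have top : ∀ i : ℤ, kcH n E (i, n) + kcQ n E (0, 0) (i, n) = 1 := fun i => by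
    rw [kc_top, kcQ, show ray n (i, n) = ∅ by simp [ray], kc_outer_empty o]; ring
  have col : ∀ i : ℤ, 1 ≤ i → i ≤ n → i = 1 ∨ i = n → ∀ j : ℤ, j ≤ n → 1 ≤ j →
      kcH n E (i, j) + kcQ n E (0, 0) (i, j) = 1 := by
    intro i a1 a2 a3 j hj
    induction j, hj using Int.leInductionDown with
    | base => exact fun _ => top i
    | pred j hj ih =>
      obtain ⟨j, rfl⟩ : ∃ k, j = k + 1 := ⟨j - 1, by ring⟩
      simp only [add_sub_cancel_right]
      intro h3
      rw [← ih (by omega)]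
      rcases a3 with rfl | rfl
      · have := kc_left h sc (i := 0) le_rfl (by omega) h3 hj
        simpa only [q (v := (0, j)) (by simp [mem_intr]), zero_add] using this
      · have := kc_rec (n := n) (E := E) n (j := j) (by omega)
        simpa only [q (v := (n, j)) (by simp [mem_intr])] using this
  have row : ∀ i : ℤ, 1 ≤ i → i ≤ n → kcH n E (i, 1) + kcQ n E (0, 0) (i, 1) = 1 := by
    intro i hi
    induction i, hi using Int.leInduction with
    | base => exact fun k => col 1 le_rfl k (.inl rfl) 1 k le_rfl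
    | succ i hi ih =>
      intro k
      have := kc_below h sc (j := 0) hi k le_rfl (by omega)
        (kc_above h sc hi k (by omega) (by omega))
      simp only [q (v := (i, 0)) (by simp [mem_intr]), zero_add] at this
      rw [← this, ih (by omega)]
  obtain ⟨i, j⟩ := w
  obtain ⟨a1, a2, a3, a4⟩ := mem_box.1 hw
  rcases hr with r | r | r | r
  · exact col i a1 a2 (.inl r) j a4 a3
  · exact col i a1 a2 (.inr r) j a4 a3
  · obtain rfl : j = 1 := r
    exact row i a1 a2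
  · obtain rfl : j = n := r
    exact top i

theorem kc_corner {w v : Pt} (hw : w ∈ box n) (hc : Corner v w) :
    kcP n E v = kcH n E w + kcQ n E v w := by
  unfold kcP
  split_ifs with hv
  · have a := kc_side h sc (cr_mem_ebox hv .S)
    have b := kc_side h sc (cr_mem_ebox hv .W)
    have c := kc_side h sc (cr_mem_ebox hv .E)
    obtain ⟨i, j⟩ := v
    obtain ⟨x, y⟩ := w
    simp only [cr, ea, eb, Prod.mk_add_mk, add_zero, if_true, Bool.false_eq_true,
      if_false] at a b c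
    simp only [Corner] at hc
    obtain ⟨rfl | rfl, rfl | rfl⟩ := hc <;> linarith
  · rw [kcQ, kc_outer hv (u := (0, 0)) (by simp [mem_intr]), ← kcQ, kc_ring h sc hw]
    rw [mem_intr] at hv
    rw [mem_box] at hw
    unfold Corner at hc
    unfold OnRing
    omega

theorem kc_zero {w : Pt} (hw : TopConn n E w) : kcH n E w = 0 := by
  obtain ⟨u, -, h2, h3⟩ := hw
  induction h3 with
  | refl => rw [show u = (u.1, (n : ℤ)) from Prod.ext rfl h2, kc_top]
  | tail _ k ih =>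
    obtain ⟨d, k, rfl⟩ := k
    obtain ⟨k1, k2⟩ := mem_sdiff.1 k
    obtain ⟨d0, e⟩ := exists_cr (inc _ d)
    have := kc_claim h sc e k1
    rw [kc_off h sc k1 k2, ih] at this
    linarith

theorem kc_sub1 {v w : Pt} (hv : v ∈ intr n) {d : Dir} (hw : w = ea (cr v d) ∨ w = eb (cr v d))
    {Γ : Finset Edge} (hΓ : ∀ u, Xs n E u Γ ^ 2 = kcQ n E u w) :
    (if cr v d ∈ E then kcP n E (v + d.vec) else xc ^ 2 * kcP n E v) = kcP n E v +
      (Xs n E v Γ ^ 2 + Xs n E v (symmDiff Γ {cr v d}) ^ 2 -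
        2 * Real.sqrt 2 * (Xs n E v Γ * Xs n E v (symmDiff Γ {cr v d}))) := by
  have c1 : Corner v w := by rcases hw with rfl | rfl; exacts [(corner_cr v d).1, (corner_cr v d).2]
  have c2 : Corner (v + d.vec) w := by
    have := corner_cr (v + d.vec) d.opp
    rw [cr_opp] at this
    rcases hw with rfl | rfl; exacts [this.1, this.2]
  have b := c1.mem_box hv
  rw [kc_corner h sc b c1, kc_corner h sc b c2, ← hΓ, ← hΓ]
  split_ifs with k
  · rw [(h n E v).1 Γ d k]
    split_ifs <;> linear_combination (Xs n E v Γ ^ 2) * kc_sq2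
  · have t : TopConn n E w := by
      rcases hw with rfl | rfl
      exacts [sc.conn _ (cr_mem_ebox hv d) k, sc.conn_b (cr_mem_ebox hv d) k]
    rw [(h n E v).2.1 Γ _ k, kc_zero h sc t, xc_sq, xc]
    ring

theorem kc_sub {v : Pt} (hv : v ∈ intr n) :
    4 * kcP n E v ≤ ∑ d, if cr v d ∈ E then kcP n E (v + d.vec) else xc ^ 2 * kcP n E v := by
  have a1 := kc_sub1 h sc hv (d := .S) (w := v) (.inl rfl) (Γ := ray n v) fun _ => rfl
  have a2 := kc_sub1 h sc hv (d := .W) (w := v) (.inl rfl) (Γ := ray n v) fun _ => rfl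
  have a3 := kc_sub1 h sc hv (d := .N) (w := (v.1, v.2 + 1)) (.inl rfl)
    (Γ := ray n (v.1, v.2 + 1)) fun _ => rfl
  have a4 := kc_sub1 h sc hv (d := .E) (w := v + Dir.E.vec)
    (.inl (by simp [ea, cr, Dir.vec, Prod.ext_iff])) (Γ := symmDiff (ray n v) {cr v .S})
    fun u => ((h n E u).2.2.2.1 sc v .E (cr_mem_ebox hv .S)).symm
  have m := mem_intr.1 hv
  have e1 : ray n (v.1, v.2 + 1) = symmDiff (ray n v) {cr v .W} := by
    ext ⟨⟨a, b⟩, c⟩
    cases c <;> simp [mem_symmDiff, kc_mem_ray, cr, Prod.ext_iff]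
    omega
  have e2 : symmDiff (symmDiff (ray n v) {cr v .W}) {cr v .N} =
      symmDiff (symmDiff (symmDiff (ray n v) {cr v .S}) {cr v .E}) (univ.image (cr v)) := by
    ext ⟨⟨a, b⟩, c⟩
    cases c <;> simp [mem_symmDiff, kc_mem_ray, cr, Prod.ext_iff, Dir.exists_iff] <;> omega
  rw [e1, e2, (h n E v).2.2.1 _ hv] at a3
  rw [sum_dir, a1, a2, a3, a4]
  have := kc_form (Xs n E v (ray n v)) (Xs n E v (symmDiff (ray n v) {cr v .S}))
    (Xs n E v (symmDiff (symmDiff (ray n v) {cr v .S}) {cr v .E}))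
    (-Xs n E v (symmDiff (ray n v) {cr v .W}))
  linarith

theorem kc_super {w : Pt} (hw : ∀ d, inc w d ∈ E) : avg (kcH n E) w ≤ kcH n E w := by
  obtain ⟨i, j⟩ := w
  have k : ∀ {v : Pt} {d d' : Dir}, cr v d = inc (i, j) d' → kcH n E ((i, j) + d'.vec) =
      kcH n E (i, j) + (kcQ n E v (i, j) - kcQ n E v ((i, j) + d'.vec)) := fun e => by
    linarith [kc_claim h sc e (sc.sub (hw _))]
  have m := mem_box.1 (inc_mem_ebox.1 (sc.sub (hw .N))).2
  have e1 : cr (i, j) .W = inc (i, j) .N := rfl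
  have e2 : cr (i, j) .S = inc (i, j) .E := rfl
  have e3 : cr (i, j - 1) .W = inc (i, j) .S := rfl
  have e4 : cr (i - 1, j) .S = inc (i, j) .W := rfl
  rw [avg, sum_dir, k e1, k e2, k e3, k e4, kc_on h sc e1 (hw _), kc_on h sc e2 (hw _),
    kc_on h sc e3 (hw _), kc_on h sc e4 (hw _), if_pos, if_neg, if_neg, if_neg]
  · simp only [Dir.vec, Prod.mk_add_mk, add_zero, ← sub_eq_add_neg]
    have := kc_form (Xs n E (i, j) (ray n (i, j))) (Xs n E (i, j - 1) (ray n (i, j)))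
      (Xs n E (i - 1, j - 1) (ray n (i, j))) (Xs n E (i - 1, j) (ray n (i, j)))
    linarith
  all_goals simp [kc_mem_ray, inc, Dir.vec] at m ⊢
  omega

end

theorem t_kc (h : T_KC1) : T_KC := fun n E sc =>
  ⟨kcP n E, kcH n E, fun _ hw _ hc => kc_corner h sc hw hc, fun _ hv => if_neg hv,
    fun _ hw => kc_zero h sc hw, fun _ hv => kc_sub h sc hv, fun _ hw => kc_super h sc hw⟩

end Pool.Agent.P.MP_347bd1_pr
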