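import Pool.Agent.P.MP_347bd1_pr.Stmts2

/-!
Signed one point functions: the local relations and the independence of the ray.
-/

namespace Pool.Agent.P.MP_347bd1_pr

open Classical Finset
open scoped ENNReal NNReal

theorem kc1_prod (η Γ : Finset Edge) :
    (-1 : ℝ) ^ (η ∩ Γ).card = ∏ e ∈ η, if e ∈ Γ then -1 else 1 := by
  rw [prod_ite_mem, prod_const]

theorem kc1_symm (η Γ Γ' : Finset Edge) :
    (-1 : ℝ) ^ (η ∩ symmDiff Γ Γ').card = (-1) ^ (η ∩ Γ).card * (-1) ^ (η ∩ Γ').card := by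
  simp only [kc1_prod, ← prod_mul_distrib]
  refine prod_congr rfl fun e _ => ?_
  by_cases h : e ∈ Γ <;> by_cases h' : e ∈ Γ' <;> simp [mem_symmDiff, h, h']

theorem kc1_ins {η : Finset Edge} {e : Edge} (he : e ∉ η) (Γ : Finset Edge) :
    (-1 : ℝ) ^ (insert e η ∩ Γ).card = (if e ∈ Γ then -1 else 1) * (-1) ^ (η ∩ Γ).card := by
  rw [kc1_prod, kc1_prod, prod_insert he]

theorem kc1_off {η : Finset Edge} {e : Edge} (he : e ∉ η) (Γ : Finset Edge) :
    η ∩ symmDiff Γ {e} = η ∩ Γ := by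
  ext x
  by_cases k : x = e
  · simp [k, he]
  · simp [mem_symmDiff, k]

theorem kc1_src {n : ℕ} {η : Finset Edge} {v : Pt} {d : Dir} (he : cr v d ∉ η) :
    (Src n (insert (cr v d) η) {v} ↔ Src n η {v + d.vec}) ∧
      (Src n (insert (cr v d) η) {v + d.vec} ↔ Src n η {v}) := by
  have e1 : insert (cr v d) η = symmDiff {cr v d} η := by
    ext x; by_cases k : x = cr v d <;> simp [mem_symmDiff, k, he]
  have hne : v + d.vec ≠ v := fun k => d.vec_ne_zero (by simpa using k)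
  constructor
  · refine forall₂_congr fun p _ => ?_
    rw [e1, odd_deg_symmDiff, odd_deg_singleton, Set.mem_singleton_iff, Set.mem_singleton_iff]
    by_cases h1 : p = v
    · simp [h1, hne.symm]
    · by_cases h2 : p = v + d.vec
      · simp [h2, hne]
      · simp [h1, h2]
  · refine forall₂_congr fun p _ => ?_
    rw [e1, odd_deg_symmDiff, odd_deg_singleton, Set.mem_singleton_iff, Set.mem_singleton_iff]
    by_cases h1 : p = v
    · simp [h1, hne.symm]
    · by_cases h2 : p = v + d.vec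
      · simp [h2, hne]
      · simp [h1, h2]

theorem kc1_i (n : ℕ) (E : Finset Edge) (v : Pt) (Γ : Finset Edge) (d : Dir) (h : cr v d ∈ E) :
    Xs n E v (symmDiff Γ {cr v d}) =
      Real.sqrt 2 * Xs n E v Γ - (if cr v d ∈ Γ then -1 else 1) * Xs n E (v + d.vec) Γ := by
  obtain ⟨E0, h0, rfl⟩ : ∃ E0, cr v d ∉ E0 ∧ E = insert (cr v d) E0 :=
    ⟨E.erase _, notMem_erase _ _, (insert_erase h).symm⟩
  simp only [Xs]
  rw [← mul_div_assoc, ← mul_div_assoc, ← sub_div]
  congr 1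
  simp only [sum_powerset_insert h0, ← sum_add_distrib, mul_sum, ← sum_sub_distrib]
  refine sum_congr rfl fun η hη => ?_
  have he : cr v d ∉ η := fun k => h0 (mem_powerset.1 hη k)
  have h2 : Real.sqrt 2 = xc + 1 := by simp [xc]
  have h3 := xc_sq
  rw [(kc1_src he).1, (kc1_src he).2, kc1_ins he, kc1_ins he, kc1_off he, card_insert_of_notMem he,
    h2, pow_succ]
  generalize (-1 : ℝ) ^ (η ∩ Γ).card = s
  generalize xc ^ η.card = y
  by_cases a1 : Src n η {v} <;> by_cases a2 : Src n η {v + d.vec} <;>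
    by_cases a3 : cr v d ∈ Γ <;>
    simp only [a1, a2, a3, mem_symmDiff, mem_singleton, if_true, if_false, not_true, not_false_iff,
      and_false, and_true, or_self, false_or] <;>
    first | ring1 | linear_combination (s * y) * h3 | linear_combination (-(s * y)) * h3

theorem kc1_ii (n : ℕ) (E : Finset Edge) (v : Pt) (Γ : Finset Edge) (e : Edge) (h : e ∉ E) :
    Xs n E v (symmDiff Γ {e}) = Xs n E v Γ := by
  simp only [Xs]
  congr 1
  refine sum_congr rfl fun η hη => ?_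
  rw [kc1_off fun k => h (mem_powerset.1 hη k)]

theorem kc1_deg (η : Finset Edge) (q : Pt) : (η ∩ univ.image (cr q)).card = deg η q := by
  have hi : Function.Injective (cr q) := fun d d' k => by
    rcases cr_eq_iff.1 k with k | k
    · exact k.2
    · exact absurd (by simpa using k.1) d'.vec_ne_zero
  rw [deg, ← card_image_of_injective _ hi]
  congr 1
  ext e
  simp only [mem_inter, mem_image, mem_univ, true_and, mem_filter]
  constructor
  · rintro ⟨k, d, rfl⟩
    exact ⟨d, k, rfl⟩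
  · rintro ⟨d, k, rfl⟩
    exact ⟨k, d, rfl⟩

theorem kc1_iii (n : ℕ) (E : Finset Edge) (v : Pt) (Γ : Finset Edge) {q : Pt} (hq : q ∈ intr n) :
    Xs n E v (symmDiff Γ (univ.image (cr q))) = (if q = v then -1 else 1) * Xs n E v Γ := by
  simp only [Xs]
  rw [← mul_div_assoc, mul_sum]
  congr 1
  refine sum_congr rfl fun η _ => ?_
  by_cases a : Src n η {v}
  · rw [if_pos a, if_pos a, kc1_symm, kc1_deg]
    have k := a q hq
    rw [Set.mem_singleton_iff] at k
    by_cases b : q = v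
    · rw [if_pos b, (k.2 b).neg_one_pow]
      ring
    · rw [if_neg b, (Nat.not_odd_iff_even.1 (mt k.1 b)).neg_one_pow]
      ring
  · rw [if_neg a, if_neg a, mul_zero]

/-- Changing the signs along `A` does not change the square. -/
def kc1_Tr (n : ℕ) (E : Finset Edge) (v : Pt) (A : Finset Edge) : Prop :=
  ∀ Γ, Xs n E v (symmDiff Γ A) ^ 2 = Xs n E v Γ ^ 2

theorem kc1_Tr.symmDiff {n : ℕ} {E : Finset Edge} {v : Pt} {A B : Finset Edge}
    (hA : kc1_Tr n E v A) (hB : kc1_Tr n E v B) : kc1_Tr n E v (symmDiff A B) := fun Γ => by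
  rw [← symmDiff_assoc, hB, hA]

theorem kc1_tr_empty (n : ℕ) (E : Finset Edge) (v : Pt) : kc1_Tr n E v ∅ := fun Γ => by
  rw [← bot_eq_empty, symmDiff_bot]

theorem kc1_tr_single {n : ℕ} {E : Finset Edge} (v : Pt) {e : Edge} (h : e ∉ E) :
    kc1_Tr n E v {e} := fun Γ => by rw [kc1_ii n E v Γ e h]

theorem kc1_tr_cr {n : ℕ} (E : Finset Edge) (v : Pt) {q : Pt} (hq : q ∈ intr n) :
    kc1_Tr n E v (univ.image (cr q)) := fun Γ => by
  rw [kc1_iii n E v Γ hq]
  split_ifs <;> ring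

theorem kc1_mem_ray {n : ℕ} {w : Pt} {e : Edge} :
    e ∈ ray n w ↔ e.2 = false ∧ e.1.1 = w.1 ∧ w.2 ≤ e.1.2 ∧ e.1.2 < n := by
  obtain ⟨⟨a, b⟩, c⟩ := e
  simp only [ray, mem_image, mem_Ico, Prod.mk.injEq]
  constructor
  · rintro ⟨j, h, ⟨rfl, rfl⟩, rfl⟩
    exact ⟨rfl, rfl, h⟩
  · rintro ⟨rfl, rfl, h⟩
    exact ⟨b, h, ⟨rfl, rfl⟩, rfl⟩

theorem kc1_E {n : ℕ} {E : Finset Edge} (hE : SC n E) (v : Pt) (a : ℤ) (h1 : 1 ≤ a)
    (h2 : a + 1 ≤ n) (k : ℕ) (hk : k + 1 ≤ n) :
    kc1_Tr n E v (symmDiff (symmDiff (ray n (a, n - k)) {((a, (n : ℤ) - k), true)})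
      (ray n (a + 1, n - k))) := by
  induction k with
  | zero =>
    have e : symmDiff (symmDiff (ray n (a, n - (0 : ℕ))) {((a, (n : ℤ) - (0 : ℕ)), true)})
        (ray n (a + 1, n - (0 : ℕ))) = {((a, (n : ℤ)), true)} := by
      ext ⟨⟨x, y⟩, _ | _⟩ <;> simp [mem_symmDiff, kc1_mem_ray]
    rw [e]
    exact kc1_tr_single v fun m => hE.top _ m (by simp [ea, eb])
  | succ k ih =>
    have e : symmDiff (symmDiff (ray n (a, n - (k + 1 : ℕ))) {((a, (n : ℤ) - (k + 1 : ℕ)), true)})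
        (ray n (a + 1, n - (k + 1 : ℕ))) =
        symmDiff (symmDiff (symmDiff (ray n (a, n - k)) {((a, (n : ℤ) - k), true)})
          (ray n (a + 1, n - k))) (univ.image (cr (a, n - (k + 1 : ℕ)))) := by
      ext ⟨⟨x, y⟩, _ | _⟩ <;> simp [mem_symmDiff, kc1_mem_ray, Dir.exists_iff, cr] <;> omega
    rw [e]
    exact (ih (by omega)).symmDiff (kc1_tr_cr E v (by rw [mem_intr]; simp only; omega))

theorem kc1_tr_step {n : ℕ} {E : Finset Edge} (hE : SC n E) (v w : Pt) (d : Dir)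
    (h : inc w d ∈ ebox n) :
    kc1_Tr n E v (symmDiff (symmDiff (ray n w) {inc w d}) (ray n (w + d.vec))) := by
  obtain ⟨a, b⟩ := w
  rw [inc_mem_ebox, mem_box, mem_box] at h
  cases d with
  | N =>
    have e : symmDiff (symmDiff (ray n (a, b)) {inc (a, b) .N}) (ray n ((a, b) + Dir.N.vec)) =
        ∅ := by
      simp only [Dir.vec, Prod.mk_add_mk] at h
      ext ⟨⟨x, y⟩, _ | _⟩ <;> simp [mem_symmDiff, kc1_mem_ray, inc, Dir.vec] <;> omega
    rw [e]
    exact kc1_tr_empty n E v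
  | S =>
    have e : symmDiff (symmDiff (ray n (a, b)) {inc (a, b) .S}) (ray n ((a, b) + Dir.S.vec)) =
        ∅ := by
      simp only [Dir.vec, Prod.mk_add_mk] at h
      ext ⟨⟨x, y⟩, _ | _⟩ <;> simp [mem_symmDiff, kc1_mem_ray, inc, Dir.vec] <;> omega
    rw [e]
    exact kc1_tr_empty n E v
  | E =>
    simp only [Dir.vec, Prod.mk_add_mk] at h
    obtain ⟨k, rfl⟩ : ∃ k : ℕ, b = n - k := ⟨(n - b).toNat, by omega⟩
    simpa [inc, Dir.vec] using kc1_E hE v a (by omega) (by omega) k (by omega)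
  | W =>
    simp only [Dir.vec, Prod.mk_add_mk] at h
    obtain ⟨k, rfl⟩ : ∃ k : ℕ, b = n - k := ⟨(n - b).toNat, by omega⟩
    have := kc1_E hE v (a - 1) (by omega) (by omega) k (by omega)
    rw [symmDiff_comm, symmDiff_comm (ray n (a - 1, n - k)), ← symmDiff_assoc,
      sub_add_cancel] at this
    simpa [inc, Dir.vec, sub_eq_add_neg] using this

theorem kc1_iv {n : ℕ} {E : Finset Edge} (hE : SC n E) (v w : Pt) (d : Dir)
    (h : inc w d ∈ ebox n) :
    Xs n E v (ray n (w + d.vec)) ^ 2 = Xs n E v (symmDiff (ray n w) {inc w d}) ^ 2 := by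
  rw [← kc1_tr_step hE v w d h (symmDiff (ray n w) {inc w d}), symmDiff_symmDiff_cancel_left]

theorem kc1_v {n : ℕ} {E : Finset Edge} (hE : SC n E) (v w : Pt) (h : TopConn n E w) :
    Xs n E v (ray n w) ^ 2 = G1 n v E ^ 2 := by
  obtain ⟨u, -, hu, hp⟩ := h
  induction hp with
  | refl =>
    have e : ray n u = ∅ := by simp [ray, hu]
    rw [e, Xs, G1]
    simp only [Zs, inter_empty, card_empty, pow_zero, one_mul]
  | tail _ k ih =>
    obtain ⟨d, k1, rfl⟩ := k
    rw [kc1_iv hE v _ d (mem_sdiff.1 k1).1, kc1_ii n E v _ _ (mem_sdiff.1 k1).2, ih]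

theorem t_kc1 : T_KC1 := fun n E v =>
  ⟨kc1_i n E v, kc1_ii n E v, fun Γ hv => by rw [kc1_iii n E v Γ hv, if_pos rfl, neg_one_mul],
    fun hE => kc1_iv hE v, fun hE => kc1_v hE v⟩

end Pool.Agent.P.MP_347bd1_pr
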