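import Pool.Agent.P.MP_347bd1_pr.Stmts2

/-!
Killing at many scales, and chains of Harnack inequalities.
-/

namespace Pool.Agent.P.MP_347bd1_pr

open Classical Finset
open scoped ENNReal NNReal

theorem kill_gen (N N' : Net) (m : ℕ) (A T : ℕ → Set Pt) (θ : ℝ≥0∞) (hle : N'.Le N)
    (hd : ∀ i < m, ∀ j < m, i ≠ j → Disjoint (A i) (A j)) (hT : ∀ j < m, T j ⊆ A j)
    (hst : ∀ j < m, ∀ z ∈ A j, ∀ d, ¬ N'.st z d)
    (hK : ∀ j < m, ∀ y ∈ T j,
      Kn N' (A j) (fun z => if z ∈ A j then 0 else hN N z) y ≤ θ * hN N y) (k : ℕ) :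
    ∀ (J : Finset ℕ) (v : Pt), (∀ j ∈ J, j < m) →
      hm N' v (fun W => k ≤ (J.filter fun j => ∃ z ∈ T j, Vis N' v W z).card) ≤
        θ ^ k * hN N v := by
  induction k with
  | zero =>
    intro J v _
    rw [pow_zero, one_mul]
    exact (hm_le_hN _ _ _).trans (hN_mono hle v)
  | succ k ih =>
    intro J v hJ
    obtain ⟨R, hR⟩ : ∃ R : Set Pt, R = {y | ∃ j ∈ J, y ∈ T j}ᶜ := ⟨_, rfl⟩
    have h1 := ms_exit_le (N := N') (R := R) (p := v)
      (C := fun W => Run N' v W ∧ k + 1 ≤ (J.filter fun j => ∃ z ∈ T j, Vis N' v W z).card)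
      (B := fun y W2 => ∃ j ∈ J, y ∈ T j ∧ ∃ W1 W3 z, W2 = W1 ++ W3 ∧ Al N' (A j) y W1 z ∧
        z ∉ A j ∧ Run N' z W3 ∧
          k ≤ ((J.erase j).filter fun i => ∃ x ∈ T i, Vis N' z W3 x).card) (by
      rintro W ⟨r1, r2⟩
      subst hR
      obtain ⟨j0, hj0⟩ := card_pos.1 (lt_of_lt_of_le (Nat.succ_pos k) r2)
      obtain ⟨j1, z0, j2, j3⟩ := mem_filter.1 hj0
      obtain ⟨W1, W2, y, rfl, a1, j, hj, hy⟩ :=
        j3.first (T := {y | ∃ j ∈ J, y ∈ T j}) ⟨j0, j1, j2⟩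
      have r3 := r1.split a1
      obtain ⟨W0, q, d, e, b1, b2⟩ := id r3
      have b3 : Vis N' y W2 q := e ▸ b1.vis_end.append_left _
      obtain ⟨W4, W3, z, rfl, c1, c2⟩ :=
        b3.first (T := (A j)ᶜ) fun hq => hst j (hJ j hj) q hq d b2
      rw [compl_compl] at c1
      refine ⟨W1, W4 ++ W3, y, rfl, a1, fun h => h ⟨j, hj, hy⟩, j, hj, hy, W4, W3, z, rfl, c1, c2,
        r3.split c1, ?_⟩
      refine le_trans (Nat.le_sub_one_of_lt r2) ((pred_card_le_card_erase (a := j)).trans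
        (card_le_card fun i hi => ?_))
      obtain ⟨i1, i2⟩ := mem_erase.1 hi
      obtain ⟨i3, x, i4, i5⟩ := mem_filter.1 i2
      have i6 : x ∉ A j := Set.disjoint_left.1 (hd i (hJ i i3) j (hJ j hj) i1) (hT i (hJ i i3) i4)
      refine mem_filter.2 ⟨mem_erase.2 ⟨i1, i3⟩, x, i4, ?_⟩
      rcases (vis_append a1).1 i5 with h | h
      · rcases a1.vis_mem h with h | rfl
        · exact absurd ⟨i, i3, i4⟩ h
        · exact absurd (hT j (hJ j hj) hy) i6
      · rcases (vis_append c1).1 h with h | h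
        · rcases c1.vis_mem h with h | rfl
          · exact absurd h i6
          · exact vis_start _ _ _
        · exact h)
    refine h1.trans ((Kn_mono (a' := fun y => θ ^ (k + 1) *
      if y ∈ R then 0 else hN N y) le_rfl (fun y => ?_) v).trans ?_)
    · split_ifs with hy
      · exact zero_le
      · rw [hR] at hy
        obtain ⟨j, hj, hy⟩ := not_not.1 hy
        have h2 := ms_exit_le (N := N') (R := A j) (p := y)
          (C := fun W2 => ∃ j ∈ J, y ∈ T j ∧ ∃ W1 W3 z, W2 = W1 ++ W3 ∧ Al N' (A j) y W1 z ∧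
            z ∉ A j ∧ Run N' z W3 ∧
              k ≤ ((J.erase j).filter fun i => ∃ x ∈ T i, Vis N' z W3 x).card)
          (B := fun z W3 => Run N' z W3 ∧
              k ≤ ((J.erase j).filter fun i => ∃ x ∈ T i, Vis N' z W3 x).card) (by
          rintro W ⟨j', hj', hy', h⟩
          obtain rfl : j' = j := by
            by_contra hne
            exact Set.disjoint_left.1 (hd j' (hJ j' hj') j (hJ j hj) hne) (hT j' (hJ j' hj') hy')
              (hT j (hJ j hj) hy)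
          exact h)
        refine h2.trans ((Kn_mono (a' := fun z => θ ^ k * if z ∈ A j then 0 else hN N z) le_rfl
          (fun z => ?_) y).trans ?_)
        · split_ifs
          · exact zero_le
          · exact ih (J.erase j) z fun i hi => hJ i (mem_of_mem_erase hi)
        · rw [Kn_mul, pow_succ, mul_assoc]
          exact mul_le_mul_right (hK j (hJ j hj) y hy) _
    · rw [Kn_mul]
      exact mul_le_mul_right (Kn_exit_le hle _ v) _

theorem t_kill : T_KILL := fun N N' m A T θ hle hd hT hst hK k v =>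
  kill_gen N N' m A T θ hle hd hT hst hK k (range m) v fun _ hj => mem_range.1 hj

theorem kill_path {y : ℕ → Pt} {l : ℕ} (hy : ∀ i < l, nrm (y (i + 1) - y i) ≤ 1) (i t : ℕ)
    (h : i + t ≤ l) : nrm (y (i + t) - y i) ≤ t := by
  induction t with
  | zero => simp
  | succ t ih =>
    have h1 := nrm_tri (y (i + t + 1)) (y (i + t)) (y i)
    have h2 := hy (i + t) (by omega)
    have h3 := ih (by omega)
    rw [← add_assoc]
    push_cast
    omega

theorem kill_path' {y : ℕ → Pt} {l : ℕ} (hy : ∀ i < l, nrm (y (i + 1) - y i) ≤ 1) {i j s : ℕ}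
    (h1 : i ≤ j) (h2 : j ≤ l) (h3 : j ≤ i + s) : nrm (y j - y i) ≤ s := by
  obtain ⟨t, rfl⟩ := Nat.exists_eq_add_of_le h1
  have := kill_path hy i t h2
  omega

theorem t_chain (h1 : T_BEUR) (h2 : T_HARN) : T_CHAIN := by
  obtain ⟨cB, b0, b1, hB⟩ := h1
  obtain ⟨cH, c0, c1, hH⟩ := h2
  obtain ⟨k, hk⟩ := exists_pow_lt_of_lt_one (half_pos c0) (show 1 - cB < 1 by linarith)
  have k1 : 1 ≤ 10 ^ k := Nat.one_le_pow _ _ (by norm_num)
  refine ⟨120 * 10 ^ k, by omega, fun l0 => ?_⟩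
  have p0 : ∀ a : ℕ, 0 < cH ^ a := fun a => pow_pos c0 a
  have p1 : ∀ a : ℕ, cH ^ a ≤ 1 := fun a => pow_le_one₀ c0.le c1
  obtain ⟨θ, hθ⟩ : ∃ θ : ℝ≥0, (θ : ℝ) = 1 - cH ^ (2 * l0) / 2 :=
    ⟨Real.toNNReal _, Real.coe_toNNReal _ (by linarith [p1 (2 * l0)])⟩
  refine ⟨θ, ?_, ?_⟩
  · rw [← NNReal.coe_lt_coe, hθ, NNReal.coe_one]
    linarith [p0 (2 * l0)]
  intro N N' A s l y hle hfar hs hl hy hA hnear
  obtain ⟨G, hG⟩ : ∃ G, G = Kn N' A (fun z => if z ∈ A then 0 else hN N z) := ⟨_, rfl⟩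
  have G1 : ∀ z, G z ≤ hN N z := fun z => hG ▸ Kn_exit_le hle A z
  have G2 : ∀ z, G z ≠ ∞ := fun z => ne_top_of_le_ne_top (hN_ne_top N z) (G1 z)
  obtain ⟨h, hh⟩ : ∃ h : Pt → ℝ, h = fun z => (hN N z).toReal := ⟨_, rfl⟩
  obtain ⟨g, hg⟩ : ∃ g : Pt → ℝ, g = fun z => (G z).toReal := ⟨_, rfl⟩
  have h0 : ∀ z, 0 ≤ h z := fun z => hh ▸ ENNReal.toReal_nonneg
  have gh : ∀ z, g z ≤ h z := fun z => by
    rw [hh, hg]
    exact ENNReal.toReal_mono (hN_ne_top N z) (G1 z)
  obtain ⟨K, hK⟩ : ∃ K : ℤ, K = 10 ^ k := ⟨_, rfl⟩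
  have K1 : 1 ≤ K := by rw [hK]; exact_mod_cast k1
  have s1 : (1 : ℤ) ≤ s := by exact_mod_cast hs
  have Ks : (s : ℤ) ≤ K * s := le_mul_of_one_le_left (by omega) K1
  have KK : K ≤ K * s := le_mul_of_one_le_right (by omega) s1
  have hA' : ∀ i ≤ l, ∀ z, nrm (z - y i) ≤ 120 * (K * s) →
      h z = avg h z ∧ g z = N'.Pr g z := fun i hi z hz => by
    obtain ⟨a1, a2⟩ := hA i hi z (by rw [hK] at hz; push_cast; linarith)
    constructor
    · have e := hN_toReal_rec N z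
      rw [← hh, Net.Pr_eq_avg a2, sum_eq_zero fun d _ => if_neg (N.disj _ _ (a2 d)),
        zero_add] at e
      rw [← e, hh]
    · have e := Kn_rec N' A (fun z => if z ∈ A then 0 else hN N z) z
      rw [← hG, if_pos a1, if_pos a1, zero_add] at e
      rw [hg, ← Net.toReal_Pe G2, ← e]
  obtain ⟨i0, hi0⟩ : ∃ i0, i0 = Nat.findGreatest (fun i => NearK N' (10 * s) (y i)) l := ⟨_, rfl⟩
  have i1 : i0 ≤ l := hi0 ▸ Nat.findGreatest_le l
  have i2 : NearK N' (10 * s) (y i0) := by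
    rw [hi0]
    refine Nat.findGreatest_spec (P := fun i => NearK N' (10 * s) (y i)) (Nat.zero_le l) ?_
    obtain ⟨q, d, q1, q2⟩ := hnear
    exact ⟨q, d, q1, by omega⟩
  have i3 : ∀ i, i0 < i → i ≤ l → ∀ z, nrm (z - y i) ≤ 10 * s → ∀ d, N'.mv z d :=
    fun i a1 a2 z a3 d => by
      by_contra a4
      exact Nat.findGreatest_is_greatest (hi0 ▸ a1) a2 ⟨z, d, a4, a3⟩
  have base : ∀ x, nrm (x - y i0) ≤ 1 → g x ≤ h x / 2 := fun x hx => by
    have e1 : ((10 ^ k * (10 * s + 2) : ℕ) : ℤ) = 10 * (K * s) + 2 * K := by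
      rw [hK]; push_cast; ring
    have e2 : (10 : ℤ) ^ k * ((10 * s + 2 : ℕ) : ℤ) = 10 * (K * s) + 2 * K := by
      rw [hK]; push_cast; ring
    have a1 := hH h (y i0) (10 ^ k * (10 * s + 2)) (Nat.mul_pos k1 (by omega)) (fun z _ => h0 z)
      (fun z hz => (hA' i0 i1 z (by rw [e1] at hz; omega)).1) x
    have a2 := hB N' g (y i0) (10 * s + 2) k (h x / cH) hfar (by omega) (div_nonneg (h0 x) c0.le)
      (by simpa using i2)
      (fun z hz => (hA' i0 i1 z (by rw [e2] at hz; omega)).2.le)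
      (fun z hz => (gh z).trans (by
        rw [le_div_iff₀ c0, mul_comm]
        exact a1 z (by rw [e1]; omega) (by rw [e1, ← e2]; exact hz))) x (by push_cast; omega)
    calc g x ≤ (1 - cB) ^ k * (h x / cH) := a2
      _ ≤ cH / 2 * (h x / cH) := mul_le_mul_of_nonneg_right hk.le (div_nonneg (h0 x) c0.le)
      _ = h x / 2 := by field_simp
  have main : ∀ a j : ℕ, i0 ≤ j → j ≤ l → j ≤ i0 + 1 + a * s →
      cH ^ (2 * a) / 2 * h (y j) ≤ h (y j) - g (y j) := by
    intro a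
    induction a with
    | zero =>
      intro j a1 a2 a3
      have := base (y j) (by simpa using kill_path' (s := 1) hy a1 a2 (by omega))
      rw [mul_zero, pow_zero]
      linarith
    | succ a ih =>
      intro j a1 a2 a3
      have e : cH ^ (2 * (a + 1)) = cH ^ (2 * a) * (cH * cH) := by ring
      have q0 := p0 (2 * a)
      rcases le_or_gt j (i0 + 1 + a * s) with a4 | a4
      · refine le_trans (mul_le_mul_of_nonneg_right ?_ (h0 _)) (ih j a1 a2 a4)
        have : cH * cH ≤ 1 := mul_le_one₀ c1 c0.le c1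
        rw [e]
        nlinarith
      · obtain ⟨i, hi⟩ : ∃ i, i = i0 + 1 + a * s := ⟨_, rfl⟩
        rw [← hi] at a4 ih
        have a5 := ih i (by omega) (by omega) le_rfl
        have a6 : nrm (y j - y i) ≤ s :=
          kill_path' hy a4.le a2 (by rw [hi, add_assoc _ (a * s), ← Nat.succ_mul]; exact a3)
        have a7 : nrm (y i - y i) ≤ s := by simp
        have a8 := hH h (y i) s hs (fun z _ => h0 z)
          (fun z hz => (hA' i (by omega) z (by omega)).1) _ _ a7 a6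
        have a9 := hH (fun z => h z - g z) (y i) s hs (fun z _ => sub_nonneg.2 (gh z))
          (fun z hz => by
            obtain ⟨f1, f2⟩ := hA' i (by omega) z (by omega)
            rw [Net.Pr_eq_avg (i3 i (by omega) (by omega) z hz.le)] at f2
            rw [avg_eq] at f1 f2 ⊢
            linarith) _ _ a6 a7
        calc cH ^ (2 * (a + 1)) / 2 * h (y j) = cH * (cH ^ (2 * a) / 2 * (cH * h (y j))) := by
              rw [e]; ring
          _ ≤ cH * (cH ^ (2 * a) / 2 * h (y i)) := by gcongr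
          _ ≤ cH * (h (y i) - g (y i)) := by gcongr
          _ ≤ h (y j) - g (y j) := a9
  have fin := main l0 l i1 le_rfl (by omega)
  rw [← hG, ← ENNReal.toReal_le_toReal (G2 _) (ENNReal.mul_ne_top ENNReal.coe_ne_top
    (hN_ne_top N _)), ENNReal.toReal_mul, ENNReal.coe_toReal, hθ]
  rw [hh, hg] at fin
  linarith

end Pool.Agent.P.MP_347bd1_pr
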