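import Pool.Agent.P.MP_347bd1_pr.Stmts2

/-!
Walks in the Dobrushin box are rarely thin at many scales.
-/

namespace Pool.Agent.P.MP_347bd1_pr

open Classical Finset
open scoped ENNReal NNReal

/-- the number of elements of `F` below `i` -/
def ld_cnt (F : Finset ℕ) (i : ℕ) : ℕ := (F.filter (· < i)).card

theorem ld_upper (F : Finset ℕ) (i : ℕ) : ∑ j ∈ F.filter (i ≤ ·), (1 / 2 : ℝ) ^ ld_cnt F j ≤
    2 * (1 / 2) ^ ld_cnt F i - 2 * (1 / 2) ^ F.card := by
  induction F using Finset.induction_on_max with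
  | empty => simp [ld_cnt]
  | insert a F ha ih =>
    have hn : a ∉ F := fun h => lt_irrefl _ (ha a h)
    by_cases h : i ≤ a
    · have e : ∀ j, j ≤ a → ld_cnt (insert a F) j = ld_cnt F j := fun j hj => by
        rw [ld_cnt, filter_insert, if_neg (by omega), ld_cnt]
      have e' : ld_cnt F a = F.card := by rw [ld_cnt, filter_true_of_mem ha]
      rw [filter_insert, if_pos h, sum_insert fun k => hn (mem_filter.1 k).1, e a le_rfl, e i h,
        e', card_insert_of_notMem hn, pow_succ,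
        sum_congr rfl fun j hj => by rw [e j (ha j (mem_filter.1 hj).1).le]]
      linarith
    · have k : ∀ j ∈ insert a F, j < i := fun j hj => by
        rcases mem_insert.1 hj with rfl | hj
        · omega
        · have := ha j hj; omega
      rw [ld_cnt, filter_true_of_mem k, filter_false_of_mem fun j hj => by have := k j hj; omega]
      simp

theorem ld_lower (F : Finset ℕ) (i : ℕ) :
    ∑ j ∈ F.filter (· < i), (1 / 5 : ℝ) ^ (i - j) * (1 / 2) ^ ld_cnt F j ≤
      (1 / 2) ^ ld_cnt F i := by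
  induction i with
  | zero => simp
  | succ i ih =>
    have e : ∑ j ∈ F.filter (· < i), (1 / 5 : ℝ) ^ (i + 1 - j) * (1 / 2) ^ ld_cnt F j =
        1 / 5 * ∑ j ∈ F.filter (· < i), (1 / 5 : ℝ) ^ (i - j) * (1 / 2) ^ ld_cnt F j := by
      rw [mul_sum]
      refine sum_congr rfl fun j hj => ?_
      have := (mem_filter.1 hj).2
      rw [show i + 1 - j = i - j + 1 by omega]
      ring
    have p : (0 : ℝ) < (1 / 2) ^ ld_cnt F i := by positivity
    by_cases h : i ∈ F
    · have e1 : F.filter (· < i + 1) = insert i (F.filter (· < i)) := by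
        ext j
        simp only [mem_filter, mem_insert]
        exact ⟨fun k => (Nat.lt_succ_iff_lt_or_eq.1 k.2).elim (fun m => Or.inr ⟨k.1, m⟩) Or.inl,
          fun k => k.elim (fun m => ⟨m ▸ h, by omega⟩) fun m => ⟨m.1, by omega⟩⟩
      have hn : i ∉ F.filter (· < i) := by simp
      have e2 : ld_cnt F (i + 1) = ld_cnt F i + 1 := by
        rw [ld_cnt, e1, card_insert_of_notMem hn, ld_cnt]
      rw [e1, sum_insert hn, e, e2, pow_succ, Nat.add_sub_cancel_left]
      linarith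
    · have e1 : F.filter (· < i + 1) = F.filter (· < i) :=
        filter_congr fun j hj => by have : j ≠ i := fun m => h (m ▸ hj); omega
      have e2 : ld_cnt F (i + 1) = ld_cnt F i := by rw [ld_cnt, e1, ld_cnt]
      rw [e1, e, e2]
      linarith

theorem ld_scalar (F : Finset ℕ) (i : ℕ) :
    ∑ j ∈ F, (1 / 5 : ℝ) ^ (i - j) * (1 / 2) ^ ld_cnt F j ≤ 3 * (1 / 2) ^ ld_cnt F i := by
  rw [← sum_filter_add_sum_filter_not F (· < i)]
  have h1 := ld_lower F i
  have h2 := ld_upper F i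
  have h3 : ∑ j ∈ F.filter (fun j => ¬ j < i), (1 / 5 : ℝ) ^ (i - j) * (1 / 2) ^ ld_cnt F j =
      ∑ j ∈ F.filter (i ≤ ·), (1 / 2 : ℝ) ^ ld_cnt F j :=
    sum_congr (filter_congr fun j _ => not_lt) fun j hj => by
      rw [Nat.sub_eq_zero_of_le (mem_filter.1 hj).2, pow_zero, one_mul]
  have p : (0 : ℝ) < (1 / 2) ^ F.card := by positivity
  linarith

theorem ld_Kn_sum (N : Net) (R : Set Pt) (F : Finset ℕ) (a : ℕ → Pt → ℝ≥0∞) (x : Pt) :
    Kn N R (fun y => ∑ j ∈ F, a j y) x = ∑ j ∈ F, Kn N R (a j) x := by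
  induction F using Finset.induction_on with
  | empty => simp [Kn]
  | insert j F hj ih => simp only [sum_insert hj, Kn_add, ih]

/-- visiting many sets that are hard to hit -/
theorem ld_many (N : Net) (Z : ℕ → Set Pt) (S : Finset ℕ) (η : ℝ) (hη : 0 ≤ η)
    (hit : ∀ i j, i = 0 ∨ i ∈ S → j ∈ S → i ≠ j → ∀ x ∈ Z i, ∀ T : Set Pt, Z j ⊆ T →
      Kn N Tᶜ (fun y => if y ∈ Z j then hN N y else 0) x ≤
        ENNReal.ofReal (η * (1 / 5) ^ (i - j)) * hN N x) (m : ℕ) :
    ∀ F ⊆ S, F.card = m → ∀ i, i = 0 ∨ i ∈ S → i ∉ F → ∀ x ∈ Z i,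
      hm N x (fun W => ∀ j ∈ F, ∃ z ∈ Z j, Vis N x W z) ≤
        ENNReal.ofReal ((3 * η) ^ m * (1 / 2) ^ ld_cnt F i) * hN N x := by
  induction m with
  | zero =>
    intro F _ hF i _ _ x _
    rw [card_eq_zero.1 hF]
    simpa [ld_cnt] using hm_le_hN N x _
  | succ m ih =>
    intro F hS hF i hi hiF x hx
    obtain ⟨j0, hj0⟩ : F.Nonempty := card_pos.1 (by omega)
    set T : Set Pt := {y | ∃ j ∈ F, y ∈ Z j} with hT
    have h1 := ms_exit_le (N := N) (R := Tᶜ) (p := x)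
      (C := fun W => Run N x W ∧ ∀ j ∈ F, ∃ z ∈ Z j, Vis N x W z)
      (B := fun y W => ∃ j ∈ F, y ∈ Z j ∧ Run N y W ∧ ∀ j' ∈ F.erase j, ∃ z ∈ Z j', Vis N y W z)
      fun W ⟨hr, hW⟩ => by
        obtain ⟨z, hz, hv⟩ := hW j0 hj0
        obtain ⟨W1, W2, y, rfl, ha, j, hj, hy⟩ := hv.first (T := T) ⟨j0, hj0, hz⟩
        refine ⟨W1, W2, y, rfl, ha, fun k => k ⟨j, hj, hy⟩, j, hj, hy, hr.split ha,
          fun j' hj' => ?_⟩
        obtain ⟨z, hz, hv⟩ := hW j' (mem_of_mem_erase hj')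
        refine ⟨z, hz, ((vis_append ha).1 hv).elim (fun k => ?_) id⟩
        rcases ha.vis_mem k with k | rfl
        · exact absurd ⟨j', mem_of_mem_erase hj', hz⟩ k
        · exact vis_start _ _ _
    refine h1.trans ((Kn_mono (a' := fun y => ∑ j ∈ F,
      ENNReal.ofReal ((3 * η) ^ m * (1 / 2) ^ ld_cnt F j) * if y ∈ Z j then hN N y else 0)
      le_rfl (fun y => ?_) x).trans ?_)
    · split_ifs
      · exact zero_le
      · refine (ms_exists_le F _).trans (sum_le_sum fun j hj => ?_)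
        by_cases k : y ∈ Z j
        · have := ih (F.erase j) ((erase_subset _ _).trans hS) (by rw [card_erase_of_mem hj]; omega)
            j (Or.inr (hS hj)) (notMem_erase _ _) y k
          rw [show ld_cnt (F.erase j) j = ld_cnt F j by
            rw [ld_cnt, filter_erase, erase_eq_of_notMem (by simp), ld_cnt]] at this
          rw [if_pos k]
          exact (ms_mono fun W h => h.2).trans this
        · rw [ms_eq_zero fun W h => k h.1]
          exact zero_le
    · rw [ld_Kn_sum]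
      refine (sum_le_sum (g := fun j => ENNReal.ofReal ((3 * η) ^ m * η *
        ((1 / 5) ^ (i - j) * (1 / 2) ^ ld_cnt F j)) * hN N x) fun j hj => ?_).trans ?_
      · rw [Kn_mul]
        refine (mul_le_mul_right (hit i j hi (hS hj) (fun k => hiF (k ▸ hj)) x hx T
          fun y hy => ⟨j, hj, hy⟩) _).trans (le_of_eq ?_)
        rw [← mul_assoc, ← ENNReal.ofReal_mul (by positivity)]
        congr 2
        ring
      · rw [← sum_mul, ← ENNReal.ofReal_sum_of_nonneg fun j _ => by positivity, ← mul_sum]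
        refine mul_le_mul_left (ENNReal.ofReal_le_ofReal ?_) _
        refine (mul_le_mul_of_nonneg_left (ld_scalar F i) (by positivity)).trans (le_of_eq ?_)
        ring

theorem ld_Pe_const (N : Net) (c : ℝ≥0∞) (z : Pt) : N.Pe (fun _ => c) z ≤ c := by
  refine (sum_le_sum (g := fun _ => 4⁻¹ * c) fun d _ => ?_).trans (le_of_eq ?_)
  · split_ifs
    · exact le_rfl
    · exact mul_le_mul_left (ENNReal.inv_le_inv.2 (by norm_num)) _
  · rw [sum_dir, ← add_mul, ← add_mul, ← add_mul, show (4⁻¹ + 4⁻¹ + 4⁻¹ + 4⁻¹ : ℝ≥0∞) = 4 * 4⁻¹ by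
      ring, ENNReal.mul_inv_cancel (by norm_num) (by norm_num), one_mul]

theorem ld_Pe_mul (N : Net) (c : ℝ≥0∞) (f : Pt → ℝ≥0∞) (z : Pt) :
    N.Pe (fun y => c * f y) z = c * N.Pe f z := by
  simp only [Net.Pe, mul_sum]
  exact sum_congr rfl fun d _ => by split_ifs <;> ring

/-- to hit a far set the walk has to leave a ball -/
theorem ld_hit (N : Net) {Z T : Set Pt} (hT : Z ⊆ T) (R : Pt → Prop) [DecidablePred R]
    (hR : ∀ y ∈ Z, ¬ R y) {H : ℝ≥0∞} (hH : ∀ y ∈ Z, hN N y ≤ H) (x : Pt) :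
    Kn N Tᶜ (fun y => if y ∈ Z then hN N y else 0) x ≤
      H * Kn N {y | R y} (fun y => if R y then 0 else 1) x := by
  have h1 : ∀ z, Kn N {y | R y} (fun y => if R y then 0 else 1) z ≤ 1 :=
    Kn_le (f := fun _ => 1) fun z => by
      by_cases k : R z
      · simpa [k] using ld_Pe_const N 1 z
      · simp [k]
  refine Kn_le (f := fun z => H * Kn N {y | R y} (fun y => if R y then 0 else 1) z) (fun z => ?_) x
  by_cases k : R z
  · rw [if_neg fun m => hR z m k, zero_add, Kn_rec, if_pos k, zero_add,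
      if_pos (show z ∈ {y | R y} from k), ← ld_Pe_mul]
    split_ifs
    · exact le_rfl
    · exact zero_le
  · rw [Kn_of_notMem (show z ∉ {y | R y} from k), if_neg k, mul_one]
    by_cases m : z ∈ Z
    · rw [if_pos m, if_neg fun a => a (hT m), add_zero]
      exact hH z m
    · rw [if_neg m, zero_add]
      split_ifs
      · exact (Net.Pe_mono (fun y => mul_le_of_le_one_right' (h1 y)) z).trans (ld_Pe_const N H z)
      · exact zero_le

theorem ld_mv {k : ℕ} (hk : 1 ≤ k) (p : Pt) {y : Pt} {d : Dir} (h : y ∈ intr (16 * k))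
    (h' : y + d.vec ∈ intr (16 * k)) : (netD k p).mv y d := by
  refine ⟨h, h', mem_union_left _ (mem_eS.2 ⟨cr_mem_ebox h d, ?_⟩)⟩
  rw [mem_intr] at h h'
  cases d <;> simp [ring, OnRing, mem_box, cr, ea, eb, Dir.vec] at h h' ⊢ <;> omega

theorem ld_low (h1 : T_LOW) : ∃ c : ℝ, 0 < c ∧ ∃ k0 : ℕ, 1 ≤ k0 ∧ ∀ k ≥ k0, ∀ p : Pt,
    p = pA k ∨ p = pB k → ∀ z : Pt, nrm (z - pV k) ≤ k → 1 ≤ z.2 →
    ENNReal.ofReal (c * z.2 / k ^ 2) ≤ hN (netD k p) z := by
  obtain ⟨c, hc, k0, h⟩ := h1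
  refine ⟨c / 4, by positivity, k0 + 1, by omega, fun k hk p hp z hz hz' => ?_⟩
  have hp1 : p.2 = 1 ∧ 4 * (k : ℤ) ≤ p.1 ∧ p.1 ≤ 12 * k := by
    rcases hp with rfl | rfl <;> refine ⟨rfl, ?_, ?_⟩ <;> simp only [pA, pB] <;> omega
  have hpi : p ∈ intr (16 * k) := by rw [mem_intr]; omega
  simp only [nrm_le_iff, pV, Prod.fst_sub, Prod.snd_sub] at hz
  have hzi : z ∈ intr (16 * k) := by rw [mem_intr]; omega
  have key := h k (by omega)
    (fun y => if y ∈ intr (16 * k) then (hN (netD k p) y).toReal else 0) 0 0 (16 * k) p z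
    (by omega) (by omega) (fun y _ _ _ _ => by split_ifs <;> positivity)
    (fun y a1 a2 a3 a4 => by
      have hy : y ∈ intr (16 * k) := by rw [mem_intr]; omega
      rw [if_pos hy, hN_toReal_rec, avg, sum_div]
      refine le_add_of_nonneg_of_le (sum_nonneg fun d _ => by split_ifs <;> norm_num)
        (sum_le_sum fun d _ => ?_)
      by_cases m : y + d.vec ∈ intr (16 * k)
      · rw [if_pos m, if_pos (ld_mv (by omega) p hy m)]
      · rw [if_neg m, zero_div]
        split_ifs <;> positivity)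
    (by omega) (by omega) (by omega) (by omega) (by omega) (by omega) (by omega)
  rw [if_pos hpi, if_pos hzi] at key
  have hs : 1 / 4 ≤ (hN (netD k p) p).toReal := by
    rw [hN_toReal_rec]
    refine le_add_of_le_of_nonneg (le_trans ?_ (single_le_sum (f := fun d =>
      if (netD k p).st p d then (1 / 4 : ℝ) else 0) (fun d _ => by split_ifs <;> norm_num)
      (mem_univ Dir.S))) (Net.Pr_nonneg (fun _ => ENNReal.toReal_nonneg) p)
    rw [if_pos ⟨hpi, by rw [mem_intr]; simp [Dir.vec, hp1.1], by simp [cr]⟩]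
  refine ENNReal.ofReal_le_of_le_toReal (le_trans ?_ key)
  have : (0 : ℝ) ≤ z.2 := by exact_mod_cast (by omega : 0 ≤ z.2)
  calc c / 4 * z.2 / k ^ 2 = c * z.2 / k ^ 2 * (1 / 4) := by ring
    _ ≤ _ := by
      rw [Int.cast_zero, sub_zero]
      exact mul_le_mul_of_nonneg_left hs (by positivity)

/-- the target sets -/
def ld_Z (k t L : ℕ) : ℕ → Set Pt
  | 0 => {pV k}
  | j + 1 => {z | z ∈ intr (16 * k) ∧ (L * (t * 5 ^ j) : ℕ) ≤ nrm (z - pV k) ∧
      nrm (z - pV k) ≤ 4 * (L * (t * 5 ^ j) : ℕ) ∧ z.2 ≤ 2 * (t * 5 ^ j : ℕ)}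

theorem ld_scale {k t L l j : ℕ} (h : 8 * (L * (t * 5 ^ (4 * l))) ≤ k) (hj : j ≤ 4 * l) :
    8 * (L * (t * 5 ^ j)) ≤ k := le_trans (by gcongr; norm_num) h

theorem ld_thin {k t L l j : ℕ} (p : Pt) (ht : 1 ≤ t) (hL : 1 ≤ L)
    (h : 8 * (L * (t * 5 ^ (4 * l))) ≤ k) (hj : j < 4 * l) {W : List Dir}
    (hW : Thin (netD k p) (t * 5 ^ j) (L * (t * 5 ^ j)) (pV k) W) :
    ∃ z ∈ ld_Z k t L (j + 1), Vis (netD k p) (pV k) W z := by
  obtain ⟨z, hv, a1, a2, q, d, hq, a3⟩ := hW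
  have b1 := ld_scale h hj.le
  have b2 : t * 5 ^ j ≤ L * (t * 5 ^ j) := Nat.le_mul_of_pos_left _ hL
  have b3 : 1 ≤ t * 5 ^ j := Nat.mul_pos ht (by positivity)
  have e1 : (t : ℤ) * 5 ^ j = (t * 5 ^ j : ℕ) := by push_cast; rfl
  rw [e1] at a1 a2 a3
  rw [← Nat.cast_mul] at a1 a2
  refine ⟨z, ⟨hv.mem_intr (by rw [mem_intr]; simp only [pV]; omega), a1, a2, ?_⟩, hv⟩
  by_contra hc
  simp only [nrm_le_iff, pV, Prod.fst_sub, Prod.snd_sub] at a2 a3
  refine hq (ld_mv (by omega) p (by rw [mem_intr]; omega) ?_)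
  rw [mem_intr]
  cases d <;> simp only [Dir.vec, Prod.fst_add, Prod.snd_add] <;> omega

theorem ld_geom {k t L l i j : ℕ} (ht : 1 ≤ t) (hL : 5 ≤ L)
    (h : 8 * (L * (t * 5 ^ (4 * l))) ≤ k) (hi : i ≤ 4 * l) (hij : i ≠ j + 1)
    {x : Pt} (hx : x ∈ ld_Z k t L i) : nrm (x - pV k) ≤ k ∧ 1 ≤ x.2 ∧
      ∀ y ∈ ld_Z k t L (j + 1), ¬ nrm (y - x) < (L / 5 * (t * 5 ^ (j + (i - (j + 1)))) : ℕ) := by
  have b : ∀ m, 5 * (L / 5 * (t * 5 ^ m)) ≤ L * (t * 5 ^ m) := fun m => by
    rw [← mul_assoc]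
    exact Nat.mul_le_mul_right _ (Nat.mul_div_le L 5)
  have b' : ∀ a m, a < m → 5 * (L * (t * 5 ^ a)) ≤ L * (t * 5 ^ m) := fun a m ham =>
    calc 5 * (L * (t * 5 ^ a)) = L * (t * 5 ^ (a + 1)) := by ring
      _ ≤ _ := by gcongr; exacts [by norm_num, ham]
  cases i with
  | zero =>
    rw [show x = pV k from hx]
    refine ⟨by simp, le_rfl, fun y hy => ?_⟩
    have := hy.2.1
    have := b j
    rw [Nat.zero_sub, add_zero]
    omega
  | succ i =>
    obtain ⟨a0, a1, a2, -⟩ := hx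
    have := ld_scale h (show i ≤ 4 * l by omega)
    refine ⟨by omega, (mem_intr.1 a0).2.2.1, fun y ⟨_, c1, c2, _⟩ => ?_⟩
    rcases lt_or_gt_of_ne (show i ≠ j by omega) with m | m
    · have := b j
      have := b' i j m
      have := nrm_tri y x (pV k)
      rw [show j + (i + 1 - (j + 1)) = j by omega]
      omega
    · have := b i
      have := b' j i m
      have := nrm_tri x y (pV k)
      rw [show j + (i + 1 - (j + 1)) = i by omega, nrm_sub_comm]
      omega

theorem t_ld (h1 : T_LOW) (h2 : T_FLATU) : T_LD := by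
  obtain ⟨c, hc, k0, hk0, low⟩ := ld_low h1
  obtain ⟨C, up⟩ := h2
  obtain ⟨M, hM⟩ := exists_nat_ge (192 * (C : ℝ) ^ 2 / c)
  refine ⟨5 * (M + 1), k0, fun L hL k hk p t l hp ht h => ?_⟩
  obtain ⟨up1, up2⟩ := up k (by omega) p hp
  have kpos : (0 : ℝ) < k := by exact_mod_cast (by omega : 0 < k)
  have hL5 : M + 1 ≤ L / 5 := by omega
  have key := ld_many (netD k p) (ld_Z k t L) (Icc 1 (4 * l)) (1 / 96) (by norm_num)
    fun i j hi hj hij x hx T hT => by
      obtain ⟨j, rfl⟩ : ∃ j', j = j' + 1 := ⟨j - 1, by have := (mem_Icc.1 hj).1; omega⟩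
      have hj' := (mem_Icc.1 hj).2
      have hi' : i ≤ 4 * l := hi.elim (fun m => by omega) fun m => (mem_Icc.1 m).2
      obtain ⟨g1, g2, g3⟩ := ld_geom ht (by omega) h hi' hij hx
      have s1 := ld_scale h (show j ≤ 4 * l by omega)
      have s2 := ld_scale h (show j + (i - (j + 1)) ≤ 4 * l by omega)
      have s3 : L / 5 * (t * 5 ^ (j + (i - (j + 1)))) ≤ L * (t * 5 ^ (j + (i - (j + 1)))) :=
        Nat.mul_le_mul_right _ (Nat.div_le_self _ _)
      have hH : ∀ y ∈ ld_Z k t L (j + 1), hN (netD k p) y ≤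
          ENNReal.ofReal (C * (2 * (t * 5 ^ j)) / k ^ 2) := fun y ⟨a0, _, a2, a3⟩ => by
        rw [← ENNReal.ofReal_toReal (hN_ne_top _ y)]
        refine ENNReal.ofReal_le_ofReal ((up1 y (by omega) (mem_intr.1 a0).2.2.1).trans ?_)
        gcongr
        exact_mod_cast a3
      refine (ld_hit _ hT _ g3 hH x).trans ((mul_le_mul_right (up2 x _ g1 g2
        (Nat.mul_pos (by omega) (Nat.mul_pos ht (by positivity))) (by omega)) _).trans
        (le_trans ?_ (mul_le_mul_right (low k hk p hp x g1 g2) _)))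
      rw [← ENNReal.ofReal_mul (by positivity), ← ENNReal.ofReal_mul (by positivity)]
      refine ENNReal.ofReal_le_ofReal ?_
      have x0 : (0 : ℝ) ≤ x.2 := by exact_mod_cast (by omega : 0 ≤ x.2)
      have t0 : (0 : ℝ) < t := by exact_mod_cast ht
      have L1 : (M : ℝ) + 1 ≤ (L / 5 : ℕ) := by exact_mod_cast hL5
      have L0 : (0 : ℝ) < (L / 5 : ℕ) := lt_of_lt_of_le (by positivity) L1
      have L2 : 2 * (C : ℝ) ^ 2 / (L / 5 : ℕ) ≤ 1 / 96 * c := by
        rw [div_le_iff₀ hc] at hM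
        rw [div_le_iff₀ L0]
        nlinarith
      generalize i - (j + 1) = e
      rw [Nat.cast_mul, Nat.cast_mul, Nat.cast_pow, Nat.cast_ofNat]
      calc _ = 2 * (C : ℝ) ^ 2 / (L / 5 : ℕ) * ((1 / 5) ^ e * x.2 / k ^ 2) := by
            rw [one_div_pow, pow_add]
            field_simp
        _ ≤ 1 / 96 * c * ((1 / 5) ^ e * x.2 / k ^ 2) := by gcongr
        _ = _ := by ring
  unfold hm
  refine le_trans (ms_mono (B := fun W => ∃ F ∈ powersetCard l (Icc 1 (4 * l)),
    Run (netD k p) (pV k) W ∧ ∀ j ∈ F, ∃ z ∈ ld_Z k t L j, Vis (netD k p) (pV k) W z)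
    fun W hW' => ?_) (le_trans (ms_exists_le _ _) ?_)
  · obtain ⟨hr, hW⟩ := hW'
    obtain ⟨G, hG, hl⟩ := exists_subset_card_eq hW
    refine ⟨G.image (· + 1), mem_powersetCard.2 ⟨fun j hj => ?_,
      by rw [card_image_of_injective _ (add_left_injective 1), hl]⟩, hr, fun j hj => ?_⟩
    · obtain ⟨a, ha, rfl⟩ := mem_image.1 hj
      have := mem_range.1 (mem_filter.1 (hG ha)).1
      rw [mem_Icc]
      omega
    · obtain ⟨a, ha, rfl⟩ := mem_image.1 hj
      exact ld_thin p ht (by omega) h (mem_range.1 (mem_filter.1 (hG ha)).1)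
        (mem_filter.1 (hG ha)).2
  · refine (sum_le_card_nsmul _ _ (ENNReal.ofReal ((1 / 32) ^ l) * hN (netD k p) (pV k))
      fun F hF => ?_).trans ?_
    · obtain ⟨a1, a2⟩ := mem_powersetCard.1 hF
      have := key l F a1 a2 0 (Or.inl rfl) (fun m => by simpa using a1 m) (pV k) rfl
      rwa [show ld_cnt F 0 = 0 by simp [ld_cnt], pow_zero, mul_one,
        show (3 * (1 / 96) : ℝ) = 1 / 32 by norm_num] at this
    · rw [nsmul_eq_mul, ← mul_assoc]
      refine mul_le_mul_left ?_ _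
      have a1 : (powersetCard l (Icc 1 (4 * l))).card ≤ 16 ^ l := by
        rw [card_powersetCard, Nat.card_Icc, Nat.add_sub_cancel]
        exact (Nat.choose_le_two_pow _ _).trans (by rw [pow_mul]; norm_num)
      rw [← ENNReal.ofReal_natCast, ← ENNReal.ofReal_mul (by positivity),
        show (2⁻¹ : ℝ≥0∞) = ENNReal.ofReal (1 / 2) by
          rw [one_div, ENNReal.ofReal_inv_of_pos two_pos, ENNReal.ofReal_ofNat],
        ← ENNReal.ofReal_pow (by norm_num)]
      refine ENNReal.ofReal_le_ofReal ?_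
      calc _ ≤ (16 : ℝ) ^ l * (1 / 32) ^ l := by gcongr; exact_mod_cast a1
        _ = _ := by rw [← mul_pow]; norm_num

end Pool.Agent.P.MP_347bd1_pr
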