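import Pool.Agent.P.MP_347bd1_pr.Stmts2

/-!
A lower bound for nonnegative superharmonic functions near a flat boundary.
-/

namespace Pool.Agent.P.MP_347bd1_pr

open Classical Finset
open scoped ENNReal NNReal

/-- The property of the constant in `T_HIT`. -/
def low_Hit (c : ℝ) : Prop := ∀ (p : Pt) (s : ℕ) (k : ℤ → Pt), 1 ≤ s →
  (∀ l : ℤ, s ≤ l → l ≤ 2 * s → nrm (k l - p) = l) →
  ∃ f : Pt → ℝ, (∀ z, 0 ≤ f z ∧ f z ≤ 1) ∧ (∀ z, 10 * (s : ℤ) ≤ nrm (z - p) → f z = 0) ∧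
    (∀ z, (∀ l : ℤ, s ≤ l → l ≤ 2 * s → z ≠ k l) → f z ≤ avg f z) ∧
    ∀ z, nrm (z - p) ≤ s → c ≤ f z

theorem low_avg_mul (m : ℝ) (f : Pt → ℝ) (z : Pt) : avg (fun y => m * f y) z = m * avg f z := by
  simp only [avg_eq]
  ring

theorem low_step {c m : ℝ} (hc1 : c ≤ 1) (hc : low_Hit c) {s : ℕ} (hs : 1 ≤ s) {u : Pt → ℝ}
    {q : Pt} (hm : 0 ≤ m) (h0 : ∀ z, nrm (z - q) ≤ 10 * s → 0 ≤ u z)
    (h1 : ∀ z, nrm (z - q) < 10 * s → avg u z ≤ u z) {k : ℤ → Pt}
    (hk : ∀ l : ℤ, s ≤ l → l ≤ 2 * s → nrm (k l - q) = l)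
    (hk' : ∀ l : ℤ, s ≤ l → l ≤ 2 * s → m ≤ u (k l)) :
    ∀ z, nrm (z - q) ≤ s → c * m ≤ u z := by
  obtain ⟨f, f1, f2, f3, f4⟩ := hc q s k hs hk
  have key := avg_compare (u := fun y => m * f y) (w := u)
    ((ball q (10 * s - 1)).filter fun z => ∀ l : ℤ, s ≤ l → l ≤ 2 * s → z ≠ k l) (by
      intro z hz
      rw [mem_filter, mem_ball] at hz
      have a1 := mul_le_mul_of_nonneg_left (f3 z hz.2) hm
      have a2 := h1 z (by omega)
      rw [low_avg_mul]
      linarith) (by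
      intro z hz d hd
      rw [mem_filter, mem_ball] at hz hd
      have a1 := (nrm_step z q d).1
      by_cases a2 : nrm (z + d.vec - q) ≤ 10 * s - 1
      · have a3 : ¬ ∀ l : ℤ, s ≤ l → l ≤ 2 * s → z + d.vec ≠ k l := fun h => hd ⟨a2, h⟩
        push Not at a3
        obtain ⟨l, l1, l2, e⟩ := a3
        have a4 := mul_le_mul_of_nonneg_left (f1 (z + d.vec)).2 hm
        have a5 := hk' l l1 l2
        rw [← e] at a5
        linarith
      · rw [f2 _ (by omega), mul_zero]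
        exact h0 _ (by omega))
  intro z hz
  by_cases a : ∀ l : ℤ, s ≤ l → l ≤ 2 * s → z ≠ k l
  · have a1 := key z (by rw [mem_filter, mem_ball]; exact ⟨by omega, a⟩)
    have a2 := mul_le_mul_of_nonneg_left (f4 z hz) hm
    linarith
  · push Not at a
    obtain ⟨l, l1, l2, e⟩ := a
    have a1 := hk' l l1 l2
    have a2 := mul_le_mul_of_nonneg_right hc1 hm
    rw [e]
    linarith

theorem low_chain {c m : ℝ} (hc0 : 0 < c) (hc1 : c ≤ 1) (hc : low_Hit c) {s : ℕ} (hs : 1 ≤ s)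
    {u : Pt → ℝ} {x0 y0 a : ℤ}
    (h0 : ∀ y : Pt, x0 ≤ y.1 → y.1 ≤ x0 + a → y0 ≤ y.2 → y.2 ≤ y0 + a → 0 ≤ u y)
    (h1 : ∀ y : Pt, x0 < y.1 → y.1 < x0 + a → y0 < y.2 → y.2 < y0 + a → avg u y ≤ u y)
    (hm : 0 ≤ m) {q : Pt} (d : Dir)
    (g : x0 + 10 * s ≤ q.1 ∧ q.1 ≤ x0 + a - 10 * s ∧ y0 + 10 * s ≤ q.2 ∧ q.2 ≤ y0 + a - 10 * s)
    (hq : ∀ z, nrm (z - q) ≤ s → m ≤ u z) (j : ℕ) :
    ∀ q' : Pt, q' = q + ((j : ℤ) * s) • d.vec →
      x0 + 10 * s ≤ q'.1 ∧ q'.1 ≤ x0 + a - 10 * s ∧ y0 + 10 * s ≤ q'.2 ∧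
        q'.2 ≤ y0 + a - 10 * s →
      ∀ z, nrm (z - q') ≤ s → c ^ j * m ≤ u z := by
  induction j with
  | zero =>
    intro q' e _
    simpa [e] using hq
  | succ j ih =>
    intro q' e g'
    have t0 : 0 ≤ (j : ℤ) * s := by positivity
    have e' : q' = q + ((j : ℤ) * s + s) • d.vec := by
      rw [e]
      push_cast
      rw [add_mul, one_mul]
    generalize (j : ℤ) * s = t at t0 e' ih
    have ih' := ih _ rfl (by
      rw [e'] at g'
      cases d <;> simp [Dir.vec] at g' ⊢ <;> omega)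
    rw [pow_succ', mul_assoc]
    refine low_step hc1 hc hs (by positivity) (fun z hz => ?_) (fun z hz => ?_)
      (k := fun l => q' - l • d.vec) (fun l l1 l2 => ?_) fun l l1 l2 => ih' _ ?_
    · rw [nrm_le_iff] at hz
      simp only [Prod.fst_sub, Prod.snd_sub] at hz
      exact h0 z (by omega) (by omega) (by omega) (by omega)
    · rw [nrm_lt_iff] at hz
      simp only [Prod.fst_sub, Prod.snd_sub] at hz
      exact h1 z (by omega) (by omega) (by omega) (by omega)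
    · rw [nrm_eq_iff]
      cases d <;> simp [Dir.vec] <;> omega
    · rw [nrm_le_iff, e']
      cases d <;> simp [Dir.vec] <;> omega

theorem low_div {s N : ℕ} (hs : 1 ≤ s) {D : ℤ} (h0 : 0 ≤ D) (h1 : D ≤ N * s) :
    ∃ i : ℕ, i ≤ N ∧ (i : ℤ) * s ≤ D ∧ D ≤ (i : ℤ) * s + s := by
  obtain ⟨D, rfl⟩ := Int.eq_ofNat_of_zero_le h0
  have h2 : D ≤ N * s := by exact_mod_cast h1
  refine ⟨D / s, Nat.div_le_of_le_mul (by rwa [mul_comm]), ?_, ?_⟩
  · exact_mod_cast Nat.div_mul_le_self D s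
  · exact_mod_cast (Nat.lt_div_mul_add (a := D) hs).le

theorem t_low (h1 : T_HIT) (h2 : T_LOWA) (h3 : T_LOWC) : T_LOW := by
  obtain ⟨c, hc0, hc1, hc⟩ := h1
  obtain ⟨cA, hA0, hA⟩ := h2
  refine ⟨c ^ 130 * (c ^ 700 * cA), by positivity, 20, ?_⟩
  intro k hk u x0 y0 a p z a1 a2 h0 h1 p1 p2 p3 z1 z2 z3 z4
  obtain ⟨s, hs, s1, s2⟩ : ∃ s : ℕ, 1 ≤ s ∧ 20 * s ≤ k ∧ k ≤ 40 * s := ⟨k / 20, by omega⟩
  have hp : 0 ≤ u p := h0 p (by omega) (by omega) (by omega) (by omega)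
  have hm0 : 0 ≤ cA / s * u p := by positivity
  have hq0 := hA s u p hs
    (fun y y1 y2 y3 => by
      rw [abs_le] at y1
      exact h0 y (by omega) (by omega) (by omega) (by omega))
    (fun y y1 y2 y3 => by
      rw [abs_lt] at y1
      exact h1 y (by omega) (by omega) (by omega) (by omega))
  have key : ∀ y : Pt, x0 + 3 * k - 26 * s ≤ y.1 → y.1 ≤ x0 + a - 3 * k + 26 * s →
      y0 + 12 * s + 1 ≤ y.2 → y.2 ≤ y0 + 3 * k → c ^ 130 * (c ^ 700 * (cA / s * u p)) ≤ u y := by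
    intro y y1 y2 y3 y4
    obtain ⟨x, x1, x2, x3, x4, hx⟩ : ∃ x : ℤ, x0 + 10 * s ≤ x ∧ x ≤ x0 + a - 10 * s ∧
        x - s ≤ y.1 ∧ y.1 ≤ x + s ∧
        ∀ z, nrm (z - (x, p.2 + 12 * s)) ≤ s → c ^ 700 * (cA / s * u p) ≤ u z := by
      rcases le_total p.1 y.1 with h | h
      · obtain ⟨i, i1, i2, i3⟩ := low_div (N := 700) hs (D := y.1 - p.1) (by omega)
          (by push_cast; omega)
        have t0 : 0 ≤ (i : ℤ) * s := by positivity
        refine ⟨p.1 + i * s, by omega, by omega, by omega, by omega, fun z hz => ?_⟩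
        refine le_trans (mul_le_mul_of_nonneg_right (pow_le_pow_of_le_one hc0.le hc1 i1) hm0) ?_
        exact low_chain hc0 hc1 hc hs h0 h1 hm0 .E (by simp only; omega) hq0 i _
          (by simp [Dir.vec]) (by simp only; omega) z hz
      · obtain ⟨i, i1, i2, i3⟩ := low_div (N := 700) hs (D := p.1 - y.1) (by omega)
          (by push_cast; omega)
        have t0 : 0 ≤ (i : ℤ) * s := by positivity
        refine ⟨p.1 - i * s, by omega, by omega, by omega, by omega, fun z hz => ?_⟩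
        refine le_trans (mul_le_mul_of_nonneg_right (pow_le_pow_of_le_one hc0.le hc1 i1) hm0) ?_
        exact low_chain hc0 hc1 hc hs h0 h1 hm0 .W (by simp only; omega) hq0 i _
          (by simp [Dir.vec, sub_eq_add_neg]) (by simp only; omega) z hz
    obtain ⟨j, j1, j2, j3⟩ := low_div (N := 130) hs (D := y.2 - (p.2 + 12 * s)) (by omega)
      (by push_cast; omega)
    have t0 : 0 ≤ (j : ℤ) * s := by positivity
    have hm1 : 0 ≤ c ^ 700 * (cA / s * u p) := by positivity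
    refine le_trans (mul_le_mul_of_nonneg_right (pow_le_pow_of_le_one hc0.le hc1 j1) hm1) ?_
    refine low_chain hc0 hc1 hc hs h0 h1 hm1 .N (by simp only; omega) hx j
      (x, p.2 + 12 * s + j * s) (by simp [Dir.vec]) (by simp only; omega) y ?_
    rw [nrm_le_iff]
    simp only [Prod.fst_sub, Prod.snd_sub]
    omega
  have hsR : (1 : ℝ) ≤ s := by exact_mod_cast hs
  have hkR : 20 * (s : ℝ) ≤ k := by exact_mod_cast s1
  have hzR : (0 : ℝ) ≤ z.2 - y0 := by exact_mod_cast (show 0 ≤ z.2 - y0 by omega)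
  have hK : 0 ≤ c ^ 130 * (c ^ 700 * cA) * u p := by positivity
  have e1 : c ^ 130 * (c ^ 700 * cA) * (z.2 - y0) / k ^ 2 * u p =
      c ^ 130 * (c ^ 700 * cA) * u p * ((z.2 - y0) / k ^ 2) := by ring
  rw [e1]
  rcases le_total (y0 + 12 * s + 1) z.2 with h | h
  · refine le_trans ?_ (key z (by omega) (by omega) h z4)
    have e2 : c ^ 130 * (c ^ 700 * (cA / s * u p)) =
        c ^ 130 * (c ^ 700 * cA) * u p * (1 / s) := by ring
    rw [e2]
    refine mul_le_mul_of_nonneg_left ?_ hK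
    have hz3 : (z.2 : ℝ) - y0 ≤ 3 * k := by exact_mod_cast (show z.2 - y0 ≤ 3 * k by omega)
    rw [div_le_div_iff₀ (by nlinarith) (by linarith)]
    nlinarith
  · have h4 := h3 (12 * s + 1) u z y0 (c ^ 130 * (c ^ 700 * (cA / s * u p))) (Nat.le_add_left _ _)
      (mul_nonneg (pow_nonneg hc0.le _) (mul_nonneg (pow_nonneg hc0.le _) hm0))
      (fun y y1 y2 y3 => by
        rw [abs_le] at y1
        push_cast at y1 y3
        exact h0 y (by omega) (by omega) (by omega) (by omega))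
      (fun y y1 y2 y3 => by
        rw [abs_lt] at y1
        push_cast at y1 y3
        exact h1 y (by omega) (by omega) (by omega) (by omega))
      (fun y y1 y2 => by
        rw [abs_le] at y1
        push_cast at y1 y2
        exact key y (by omega) (by omega) (by omega) (by omega))
      z3.le (by push_cast; omega)
    refine le_trans ?_ h4
    have e2 : c ^ 130 * (c ^ 700 * (cA / s * u p)) * (z.2 - y0) / (2 * ((12 * s + 1 : ℕ) : ℝ)) =
        c ^ 130 * (c ^ 700 * cA) * u p * ((z.2 - y0) / (s * (2 * (12 * s + 1)))) := by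
      push_cast
      field_simp
    rw [e2]
    refine mul_le_mul_of_nonneg_left ?_ hK
    exact div_le_div_of_nonneg_left hzR (by positivity) (by nlinarith)

end Pool.Agent.P.MP_347bd1_pr
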