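import Pool.Agent.P.MP_347bd1_pr.Stmts2

/-!
Lower bounds for positive superharmonic functions near a flat boundary.
-/

namespace Pool.Agent.P.MP_347bd1_pr

open Classical Finset
open scoped ENNReal NNReal

theorem lowa_rect (x0 y0 A B : ℤ) (Ex : Pt → Prop) (w u : Pt → ℝ)
    (h : ∀ y : Pt, |y.1 - x0| < A → y0 < y.2 → y.2 < y0 + B → ¬ Ex y →
      w y - avg w y ≤ u y - avg u y)
    (hb : ∀ y : Pt, |y.1 - x0| ≤ A → y0 ≤ y.2 → y.2 ≤ y0 + B →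
      (|y.1 - x0| = A ∨ y.2 = y0 ∨ y.2 = y0 + B ∨ Ex y) → w y ≤ u y) :
    ∀ y : Pt, |y.1 - x0| ≤ A → y0 ≤ y.2 → y.2 ≤ y0 + B → w y ≤ u y := by
  set D : Finset Pt := (Ioo (x0 - A) (x0 + A) ×ˢ Ioo y0 (y0 + B)).filter fun y => ¬ Ex y with hD
  have hm : ∀ y : Pt, y ∈ D ↔ |y.1 - x0| < A ∧ y0 < y.2 ∧ y.2 < y0 + B ∧ ¬ Ex y := by
    intro y
    simp only [hD, mem_filter, mem_product, mem_Ioo, abs_lt]
    constructor
    · rintro ⟨⟨⟨h1, h2⟩, h3, h4⟩, h5⟩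
      exact ⟨⟨by omega, by omega⟩, h3, h4, h5⟩
    · rintro ⟨⟨h1, h2⟩, h3, h4, h5⟩
      exact ⟨⟨⟨by omega, by omega⟩, h3, h4⟩, h5⟩
  have hb' : ∀ y : Pt, |y.1 - x0| ≤ A → y0 ≤ y.2 → y.2 ≤ y0 + B → y ∉ D → w y ≤ u y := by
    intro y h1 h2 h3 h4
    refine hb y h1 h2 h3 ?_
    by_contra k
    push Not at k
    exact h4 ((hm y).2 ⟨lt_of_le_of_ne h1 k.1, lt_of_le_of_ne h2 k.2.1.symm,
      lt_of_le_of_ne h3 k.2.2.1, k.2.2.2⟩)
  have key := avg_compare (u := w) (w := u) D (fun z hz => by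
    obtain ⟨h1, h2, h3, h4⟩ := (hm z).1 hz
    exact h z h1 h2 h3 h4) (fun z hz d hd => by
    obtain ⟨h1, h2, h3, -⟩ := (hm z).1 hz
    rw [abs_lt] at h1
    refine hb' _ ?_ ?_ ?_ hd
    · rw [abs_le]
      cases d <;> simp only [Dir.vec, Prod.fst_add] <;> omega
    · cases d <;> simp only [Dir.vec, Prod.snd_add] <;> omega
    · cases d <;> simp only [Dir.vec, Prod.snd_add] <;> omega)
  intro y h1 h2 h3
  by_cases k : y ∈ D
  · exact key y k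
  · exact hb' y h1 h2 h3 k

theorem t_lowc : T_LOWC := by
  intro H u z y0 m hH hm h0 hs ht hz1 hz2
  have hH' : (1 : ℝ) ≤ H := by exact_mod_cast hH
  have hc : 0 ≤ m / (4 * (H : ℝ) ^ 3) := by positivity
  have key := lowa_rect z.1 y0 (2 * H) H (fun _ => False)
    (fun y => m / (4 * (H : ℝ) ^ 3) * (((y.2 : ℝ) - y0) * (11 * (H : ℝ) ^ 2 / 3 - ((y.1 : ℝ) - z.1) ^ 2) +
      ((y.2 : ℝ) - y0) ^ 3 / 3)) u (fun y h1 h2 h3 _ => by
      have := hs y h1 h2 h3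
      rw [avg_eq]
      push_cast
      linarith) (fun y h1 h2 h3 h4 => by
      have k0 := h0 y h1 h2 h3
      have k2 : (0 : ℝ) ≤ (y.2 : ℝ) - y0 := by
        have : (y0 : ℝ) ≤ y.2 := by exact_mod_cast h2
        linarith
      have k3 : (y.2 : ℝ) - y0 ≤ H := by
        have : (y.2 : ℝ) ≤ y0 + H := by exact_mod_cast h3
        linarith
      rcases h4 with h4 | h4 | h4 | h4
      · have e : ((y.1 : ℝ) - z.1) ^ 2 = (2 * H) ^ 2 := by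
          have : |(y.1 : ℝ) - z.1| = 2 * H := by exact_mod_cast h4
          rw [← this, sq_abs]
        refine le_trans (mul_nonpos_of_nonneg_of_nonpos hc ?_) k0
        rw [e]
        have : ((y.2 : ℝ) - y0) ^ 2 ≤ (H : ℝ) ^ 2 := pow_le_pow_left₀ k2 k3 2
        nlinarith [mul_le_mul_of_nonneg_left this k2]
      · have e : (y.2 : ℝ) - y0 = 0 := by rw [h4, sub_self]
        simp only [e]
        simpa using k0
      · have e : (y.2 : ℝ) - y0 = H := by rw [h4]; push_cast; ring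
        refine le_trans ?_ (ht y h1 h4)
        simp only [e]
        calc m / (4 * (H : ℝ) ^ 3) * ((H : ℝ) * (11 * (H : ℝ) ^ 2 / 3 - ((y.1 : ℝ) - z.1) ^ 2) +
              (H : ℝ) ^ 3 / 3) ≤ m / (4 * (H : ℝ) ^ 3) * (4 * (H : ℝ) ^ 3) := by
              refine mul_le_mul_of_nonneg_left ?_ hc
              nlinarith [mul_nonneg (by linarith : (0 : ℝ) ≤ H) (sq_nonneg ((y.1 : ℝ) - z.1))]
          _ = m := by field_simp
      · exact h4.elim) z (by simp) hz1 hz2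
  refine le_trans ?_ key
  have k2 : (0 : ℝ) ≤ (z.2 : ℝ) - y0 := by
    have : (y0 : ℝ) ≤ z.2 := by exact_mod_cast hz1
    linarith
  calc m * ((z.2 : ℝ) - y0) / (2 * H) =
        m / (4 * (H : ℝ) ^ 3) * (((z.2 : ℝ) - y0) * (2 * (H : ℝ) ^ 2)) := by field_simp; ring
    _ ≤ _ := by
      refine mul_le_mul_of_nonneg_left ?_ hc
      have : 0 ≤ ((z.2 : ℝ) - y0) ^ 3 := by positivity
      have h' : 0 ≤ ((z.2 : ℝ) - y0) * (H : ℝ) ^ 2 := by positivity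
      simp only [sub_self]
      nlinarith

theorem lowa_up {a b : ℝ} (ha : 0 < a) (hb : 0 < b) : Real.log a - Real.log b ≤ (a - b) / b := by
  rw [← Real.log_div ha.ne' hb.ne']
  refine (Real.log_le_sub_one_of_pos (div_pos ha hb)).trans (le_of_eq ?_)
  field_simp

theorem lowa_dn {a b : ℝ} (ha : 0 < a) (hb : 0 < b) : (a - b) / a ≤ Real.log a - Real.log b := by
  have := lowa_up hb ha
  have e : (a - b) / a = -((b - a) / a) := by ring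
  linarith

theorem t_lowa (h : T_LOG) : T_LOWA := by
  obtain ⟨h1, ψ, hψ1, hψ2, hψ3⟩ := h
  refine ⟨1 / 400, by norm_num, fun s u p hs h0 hu z hz => ?_⟩
  have hs' : (1 : ℝ) ≤ s := by exact_mod_cast hs
  have hsz : (1 : ℤ) ≤ s := by exact_mod_cast hs
  set κ : ℝ := 6 / (3480 * (s : ℝ) ^ 2) with hκ
  have hκ0 : 0 ≤ κ := by positivity
  set w : Pt → ℝ := fun y => Real.log (((y.1 : ℝ) - p.1) ^ 2 + ((y.2 : ℝ) - p.2 + 2) ^ 2 + 1) -
    ψ (y.1 - p.1, y.2 - p.2 - 1) - κ * ((y.2 : ℝ) - p.2 + 1) with hw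
  have hp0 : 0 ≤ u p := h0 p (by simp) (by omega) (by omega)
  have hP : u p / 4 ≤ u (p.1, p.2 + 1) := by
    have k := hu (p.1, p.2 + 1) (by simp; omega) (by simp) (by simp; omega)
    rw [avg_eq] at k
    have k1 := h0 (p.1, p.2 + 1 + 1) (by simp) (by simp; omega) (by simp; omega)
    have k2 := h0 (p.1 + 1, p.2 + 1) (by simp; omega) (by simp; omega) (by simp; omega)
    have k3 := h0 (p.1 - 1, p.2 + 1) (by simp; omega) (by simp; omega) (by simp; omega)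
    simp only [add_sub_cancel_right] at k
    linarith
  have hP0 : 0 ≤ u (p.1, p.2 + 1) / 20 := by linarith
  have hsub : ∀ y : Pt, y ≠ (p.1, p.2 + 1) → w y ≤ avg w y := by
    intro y hy
    have k1 := h1 (y.1 - p.1, y.2 - p.2 + 2)
    have k2 := hψ3 (y.1 - p.1, y.2 - p.2 - 1) (by
      intro e
      apply hy
      simp only [Prod.ext_iff, Prod.fst_zero, Prod.snd_zero] at e ⊢
      omega)
    rw [avg_eq] at k1 k2 ⊢
    simp only [hw]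
    push_cast at k1 k2 ⊢
    have e1 : y.2 + 1 - p.2 - 1 = y.2 - p.2 - 1 + 1 := by ring
    have e2 : y.1 + 1 - p.1 = y.1 - p.1 + 1 := by ring
    have e3 : y.2 - 1 - p.2 - 1 = y.2 - p.2 - 1 - 1 := by ring
    have e4 : y.1 - 1 - p.1 = y.1 - p.1 - 1 := by ring
    have f1 : (y.2 : ℝ) + 1 - p.2 + 2 = y.2 - p.2 + 2 + 1 := by ring
    have f2 : (y.1 : ℝ) + 1 - p.1 = y.1 - p.1 + 1 := by ring
    have f3 : (y.2 : ℝ) - 1 - p.2 + 2 = y.2 - p.2 + 2 - 1 := by ring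
    have f4 : (y.1 : ℝ) - 1 - p.1 = y.1 - p.1 - 1 := by ring
    rw [e1, e2, e3, e4, f1, f2, f3, f4]
    linarith
  have hfar : ∀ y : Pt, 2 ≤ (y.1 - p.1) ^ 2 + (y.2 - p.2 - 1) ^ 2 →
      w y = Real.log (((y.1 : ℝ) - p.1) ^ 2 + ((y.2 : ℝ) - p.2 + 2) ^ 2 + 1) -
        Real.log (((y.1 : ℝ) - p.1) ^ 2 + ((y.2 : ℝ) - p.2 - 1) ^ 2 - 1) -
          κ * ((y.2 : ℝ) - p.2 + 1) := by
    intro y hy
    simp only [hw]
    rw [hψ1 _ hy]
    push_cast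
    rfl
  have hbd : ∀ y : Pt, p.2 - 1 ≤ y.2 →
      3480 * (s : ℤ) ^ 2 ≤ (y.1 - p.1) ^ 2 + (y.2 - p.2 - 1) ^ 2 - 1 → w y ≤ 0 := by
    intro y hy1 hy2
    have k1 : (0 : ℝ) ≤ (y.2 : ℝ) - p.2 + 1 := by
      have : (p.2 : ℝ) - 1 ≤ y.2 := by exact_mod_cast hy1
      linarith
    have k2 : 3480 * (s : ℝ) ^ 2 ≤ ((y.1 : ℝ) - p.1) ^ 2 + ((y.2 : ℝ) - p.2 - 1) ^ 2 - 1 := by
      exact_mod_cast hy2
    have k3 : 0 < 3480 * (s : ℝ) ^ 2 := by positivity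
    rw [hfar y (by nlinarith)]
    have k4 := lowa_up (a := ((y.1 : ℝ) - p.1) ^ 2 + ((y.2 : ℝ) - p.2 + 2) ^ 2 + 1)
      (by positivity) (k3.trans_le k2)
    have k5 : (((y.1 : ℝ) - p.1) ^ 2 + ((y.2 : ℝ) - p.2 + 2) ^ 2 + 1 -
        (((y.1 : ℝ) - p.1) ^ 2 + ((y.2 : ℝ) - p.2 - 1) ^ 2 - 1)) /
        (((y.1 : ℝ) - p.1) ^ 2 + ((y.2 : ℝ) - p.2 - 1) ^ 2 - 1) ≤
        6 * ((y.2 : ℝ) - p.2 + 1) / (3480 * (s : ℝ) ^ 2) :=
      div_le_div₀ (by positivity) (by nlinarith) k3 k2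
    have k6 : κ * ((y.2 : ℝ) - p.2 + 1) = 6 * ((y.2 : ℝ) - p.2 + 1) / (3480 * (s : ℝ) ^ 2) := by
      rw [hκ]; ring
    linarith
  have key := lowa_rect p.1 (p.2 - 1) (60 * s) (60 * s + 1) (fun y => y = (p.1, p.2 + 1))
    (fun y => u (p.1, p.2 + 1) / 20 * w y) u (fun y k1 k2 k3 k4 => by
      have a1 := hu y k1 k2 (by omega)
      have a2 := mul_le_mul_of_nonneg_left (hsub y k4) hP0
      rw [avg_eq] at a2
      rw [avg_eq (fun y => u (p.1, p.2 + 1) / 20 * w y)]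
      linarith) (fun y k1 k2 k3 k4 => by
      have a0 := h0 y k1 k2 (by omega)
      rcases k4 with k4 | k4 | k4 | k4
      · refine le_trans (mul_nonpos_of_nonneg_of_nonpos hP0 (hbd y k2 ?_)) a0
        have : (y.1 - p.1) ^ 2 = (60 * (s : ℤ)) ^ 2 := by rw [← k4, sq_abs]
        nlinarith [sq_nonneg (y.2 - p.2 - 1)]
      · refine le_trans (mul_nonpos_of_nonneg_of_nonpos hP0 ?_) a0
        rw [hfar y (by rw [k4]; nlinarith [sq_nonneg (y.1 - p.1)])]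
        have e : (y.2 : ℝ) = p.2 - 1 := by rw [k4]; push_cast; ring
        rw [e]
        have : Real.log (((y.1 : ℝ) - p.1) ^ 2 + ((p.2 : ℝ) - 1 - p.2 + 2) ^ 2 + 1) ≤
            Real.log (((y.1 : ℝ) - p.1) ^ 2 + ((p.2 : ℝ) - 1 - p.2 - 1) ^ 2 - 1) :=
          Real.log_le_log (by positivity) (by nlinarith)
        nlinarith
      · refine le_trans (mul_nonpos_of_nonneg_of_nonpos hP0 (hbd y k2 ?_)) a0
        rw [k4]
        nlinarith [sq_nonneg (y.1 - p.1)]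
      · subst k4
        have b1 : w (p.1, p.2 + 1) ≤ 20 := by
          simp only [hw]
          have b2 := (hψ2 (p.1 - p.1, p.2 + 1 - p.2 - 1) (by simp)).1
          push_cast
          have b3 := Real.log_le_sub_one_of_pos
            (x := ((p.1 : ℝ) - p.1) ^ 2 + ((p.2 : ℝ) + 1 - p.2 + 2) ^ 2 + 1) (by positivity)
          nlinarith
        nlinarith [mul_le_mul_of_nonneg_left b1 hP0])
  rw [nrm_le_iff] at hz
  simp only [Prod.fst_sub, Prod.snd_sub] at hz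
  obtain ⟨z1, z2, z3, z4⟩ := hz
  have kz := key z (by rw [abs_le]; omega) (by omega) (by omega)
  refine le_trans ?_ kz
  have r1 : -(s : ℝ) ≤ (z.1 : ℝ) - p.1 := by exact_mod_cast z1
  have r2 : (z.1 : ℝ) - p.1 ≤ s := by exact_mod_cast z2
  have r3 : -(s : ℝ) ≤ (z.2 : ℝ) - (p.2 + 12 * s) := by exact_mod_cast z3
  have r4 : (z.2 : ℝ) - (p.2 + 12 * s) ≤ s := by exact_mod_cast z4
  have hwz : 1 / (5 * (s : ℝ)) ≤ w z := by
    rw [hfar z (by nlinarith [sq_nonneg (z.1 - p.1)])]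
    have t1 : ((z.1 : ℝ) - p.1) ^ 2 ≤ (s : ℝ) ^ 2 := sq_le_sq' r1 r2
    have t2 : ((z.2 : ℝ) - p.2 + 2) ^ 2 ≤ (15 * (s : ℝ)) ^ 2 :=
      pow_le_pow_left₀ (by linarith) (by linarith) 2
    have t3 : (1 : ℝ) ≤ (s : ℝ) ^ 2 := by nlinarith
    have t4 := lowa_dn (a := ((z.1 : ℝ) - p.1) ^ 2 + ((z.2 : ℝ) - p.2 + 2) ^ 2 + 1)
      (b := ((z.1 : ℝ) - p.1) ^ 2 + ((z.2 : ℝ) - p.2 - 1) ^ 2 - 1) (by positivity)
      (by nlinarith [sq_nonneg ((z.1 : ℝ) - p.1)])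
    have t5 : 5 * ((z.2 : ℝ) - p.2 + 1) / (227 * (s : ℝ) ^ 2) ≤
        (((z.1 : ℝ) - p.1) ^ 2 + ((z.2 : ℝ) - p.2 + 2) ^ 2 + 1 -
        (((z.1 : ℝ) - p.1) ^ 2 + ((z.2 : ℝ) - p.2 - 1) ^ 2 - 1)) /
        (((z.1 : ℝ) - p.1) ^ 2 + ((z.2 : ℝ) - p.2 + 2) ^ 2 + 1) :=
      div_le_div₀ (by nlinarith) (by nlinarith) (by positivity) (by nlinarith)
    have t6 : 5 * ((z.2 : ℝ) - p.2 + 1) / (227 * (s : ℝ) ^ 2) - κ * ((z.2 : ℝ) - p.2 + 1) =
        (5 / 227 - 6 / 3480) * ((z.2 : ℝ) - p.2 + 1) / (s : ℝ) ^ 2 := by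
      rw [hκ]; field_simp
    have t7 : 1 / (5 * (s : ℝ)) ≤ (5 / 227 - 6 / 3480) * ((z.2 : ℝ) - p.2 + 1) / (s : ℝ) ^ 2 := by
      rw [div_le_div_iff₀ (by positivity) (by positivity)]
      nlinarith
    linarith
  calc 1 / 400 / (s : ℝ) * u p = u p / 4 / 20 * (1 / (5 * (s : ℝ))) := by field_simp; ring
    _ ≤ u (p.1, p.2 + 1) / 20 * w z :=
      mul_le_mul (by linarith) hwz (by positivity) hP0

end Pool.Agent.P.MP_347bd1_pr
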