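import Pool.Agent.P.MP_347bd1_pr.Stmts2

/-!
Log-supermodularity of the contour partition function, and adding one boundary edge.
-/

namespace Pool.Agent.P.MP_347bd1_pr

open Classical Finset
open scoped ENNReal NNReal

theorem lsm_submod (G : Finset Edge) (D D' : Finset Pt) :
    (cut (D ∩ D') ∩ G).card + (cut (D ∪ D') ∩ G).card ≤ (cut D ∩ G).card + (cut D' ∩ G).card := by
  have h : ∀ M : Finset Pt, (cut M ∩ G).card = ∑ e ∈ G, if e ∈ cut M then 1 else 0 := fun M => by
    rw [← card_filter, filter_mem_eq_inter, inter_comm]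
  simp only [h, ← sum_add_distrib]
  refine sum_le_sum fun e _ => ?_
  simp only [mem_cut, mem_inter, mem_union]
  by_cases h1 : ea e ∈ D <;> by_cases h2 : eb e ∈ D <;> by_cases h3 : ea e ∈ D' <;>
    by_cases h4 : eb e ∈ D' <;> simp [h1, h2, h3, h4]

/-- The configurations whose contours are active. -/
def lsm_ok (n : ℕ) (F : Finset Edge) (D : Finset Pt) : Prop :=
  ((1 : ℤ), (n : ℤ)) ∉ D ∧ ∀ e ∈ ebox n, e ∉ F → ea e ∉ D ∧ eb e ∉ D

noncomputable def lsm_f (n : ℕ) (F : Finset Edge) (D : Finset Pt) : ℝ :=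
  if lsm_ok n F D then xc ^ (cut D ∩ ebox n).card else 0

theorem lsm_nonneg (n : ℕ) (F : Finset Edge) : 0 ≤ lsm_f n F := fun D => by
  unfold lsm_f
  split_ifs
  exacts [(pow_pos xc_pos _).le, le_rfl]

theorem lsm_sum (h : T_POIN) {n : ℕ} (hn : 1 ≤ n) {F : Finset Edge} (hF : SC n F) :
    ∑ D ∈ (box n).powerset, lsm_f n F D = Zs n ∅ F := by
  have h0 : ((1 : ℤ), (n : ℤ)) ∈ box n := by
    rw [mem_box]
    simp only
    omega
  rw [Zs_eq_filter]
  unfold lsm_f
  rw [← sum_filter]
  refine sum_bij (fun D _ => cut D ∩ ebox n) (fun D hD => ?_) (fun D hD D' hD' k => ?_)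
    (fun η hη => ?_) fun _ _ => rfl
  · rw [mem_filter] at hD ⊢
    refine ⟨mem_powerset.2 fun e he => ?_, src_cut n D⟩
    by_contra k
    have h1 := hD.2.2 e (mem_inter.1 he).2 k
    exact mem_cut.1 (mem_inter.1 he).1 (iff_of_false h1.1 h1.2)
  · rw [mem_filter, mem_powerset] at hD hD'
    have h1 : ∀ e ∈ ebox n, e ∉ cut (symmDiff D D') := fun e he => by
      have h2 := Finset.ext_iff.1 k e
      simp only [mem_inter, he, and_true] at h2
      rw [cut_symmDiff, mem_symmDiff]
      tauto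
    ext w
    by_cases hw : w ∈ box n
    · have h2 := mem_iff_of_cut h1 hw h0
      have h3 := hD.2.1
      have h4 := hD'.2.1
      simp only [mem_symmDiff] at h2
      tauto
    · exact iff_of_false (fun k => hw (hD.1 k)) fun k => hw (hD'.1 k)
  · rw [mem_filter, mem_powerset] at hη
    obtain ⟨D, h1, h2, h3⟩ := h n η (hη.1.trans hF.sub) hη.2
    have key : ∀ w, TopConn n F w → w ∉ D := fun w hw => by
      have h4 := conn_of_topConn hF.top (topConn_top F h0 rfl) hw
      clear hw
      induction h4 with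
      | refl => exact h3
      | tail _ k ih =>
        obtain ⟨d, k1, rfl⟩ := k
        rw [mem_sdiff] at k1
        intro k2
        exact k1.2 (hη.1 (h2 ▸ mem_inter.2 ⟨inc_mem_cut.2 fun k3 => ih (k3.2 k2), k1.1⟩))
    exact ⟨D, mem_filter.2 ⟨mem_powerset.2 h1, h3, fun e he he' =>
      ⟨key _ (hF.conn e he he'), key _ (hF.conn_b he he')⟩⟩, h2⟩

theorem t_lsm (h : T_POIN) : T_LSM := by
  intro n E A B hn hE hA hB hAE hBE
  have hAB : SC n (A ∩ B) := ⟨inter_subset_left.trans hA.sub,
    fun e he => hA.top e (mem_inter.1 he).1, fun e he he' => by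
      by_cases k : e ∈ A
      · exact (hB.conn e he fun k' => he' (mem_inter.2 ⟨k, k'⟩)).mono inter_subset_right
      · exact (hA.conn e he k).mono inter_subset_left⟩
  have key := Finset.four_functions_theorem (box n) (lsm_nonneg n A) (lsm_nonneg n B)
    (lsm_nonneg n (A ∩ B)) (lsm_nonneg n E) (fun D _ D' _ => ?_) (subset_refl _) (subset_refl _)
  · rw [powerset_infs_powerset_self, powerset_sups_powerset_self, lsm_sum h hn hA,
      lsm_sum h hn hB, lsm_sum h hn hAB, lsm_sum h hn hE] at key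
    rwa [mul_comm (Zs n ∅ E)]
  by_cases h1 : lsm_ok n A D
  · by_cases h2 : lsm_ok n B D'
    · have h3 : lsm_ok n (A ∩ B) (D ∩ D') := ⟨fun k => h1.1 (mem_inter.1 k).1, fun e he he' => by
        simp only [mem_inter, not_and_or] at he' ⊢
        rcases he' with k | k
        · exact ⟨Or.inl (h1.2 e he k).1, Or.inl (h1.2 e he k).2⟩
        · exact ⟨Or.inr (h2.2 e he k).1, Or.inr (h2.2 e he k).2⟩⟩
      have h4 : lsm_ok n E (D ∪ D') := ⟨fun k => (mem_union.1 k).elim h1.1 h2.1, fun e he he' => by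
        have k1 := h1.2 e he fun k => he' (hAE k)
        have k2 := h2.2 e he fun k => he' (hBE k)
        simp only [mem_union, not_or]
        exact ⟨⟨k1.1, k2.1⟩, k1.2, k2.2⟩⟩
      simp only [lsm_f, if_pos h1, if_pos h2, if_pos h3, if_pos h4, ← pow_add]
      exact pow_le_pow_of_le_one xc_pos.le xc_lt_one.le (lsm_submod _ D D')
    · rw [lsm_f, lsm_f, if_neg h2, mul_zero]
      exact mul_nonneg (lsm_nonneg _ _ _) (lsm_nonneg _ _ _)
  · rw [lsm_f, if_neg h1, zero_mul]
    exact mul_nonneg (lsm_nonneg _ _ _) (lsm_nonneg _ _ _)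

theorem lsm_inner {n : ℕ} {e : Edge} (h : e ∈ eS n (ring n)) :
    ∃ q d, cr q d = e ∧ q ∈ intr n ∧ q + d.vec ∈ intr n := by
  obtain ⟨⟨a, b⟩, c⟩ := e
  simp only [mem_eS, mem_ebox, ring, mem_filter, mem_box, OnRing] at h
  cases c
  · refine ⟨(a, b), .W, rfl, ?_⟩
    simp only [ea, eb, mem_intr, Dir.vec, Prod.mk_add_mk, Bool.false_eq_true, if_false] at h ⊢
    omega
  · refine ⟨(a, b), .S, rfl, ?_⟩
    simp only [ea, eb, mem_intr, Dir.vec, Prod.mk_add_mk, if_true] at h ⊢
    omega

theorem t_xe : T_XE := by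
  intro n E p v hE hp hp2 hv hvp
  have hout : p + Dir.S.vec ∉ intr n := by
    simp only [mem_intr, Dir.vec, Prod.snd_add]
    omega
  have he : (p, true) ∉ E := fun k => by
    obtain ⟨q, d, h1, h2, h3⟩ := lsm_inner (hE k)
    rcases (cr_eq_iff (p := p) (d := .S)).1 h1 with ⟨rfl, rfl⟩ | ⟨rfl, -⟩
    exacts [hout h3, hout h2]
  have hin : ∀ η ∈ E.powerset, ∀ w ∈ intr n, ¬ Src n η {w} := fun η hη w hw =>
    not_src_single hw fun e k => lsm_inner (hE (mem_powerset.1 hη k))
  have h1 : Src n {(p, true)} {p} := fun q hq => by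
    rw [show (p, true) = cr p .S from rfl, odd_deg_singleton, Set.mem_singleton_iff]
    exact ⟨fun k => k.resolve_right fun k' => hout (k' ▸ hq), Or.inl⟩
  have h2 : ∀ η ∈ E.powerset, ∀ A : Set Pt,
      Src n (insert (p, true) η) A ↔ Src n η (symmDiff A {p}) := fun η hη A => by
    have h3 : (p, true) ∉ η := fun k => he (mem_powerset.1 hη k)
    have h4 : insert (p, true) η = symmDiff η {(p, true)} := by
      ext e
      simp only [mem_insert, mem_symmDiff, mem_singleton]
      constructor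
      · rintro (rfl | k)
        · exact Or.inr ⟨rfl, h3⟩
        · exact Or.inl ⟨k, fun k' => h3 (k' ▸ k)⟩
      · tauto
    rw [h4]
    refine ⟨fun k => ?_, fun k => ?_⟩
    · simpa only [symmDiff_symmDiff_cancel_right] using k.symmDiff h1
    · simpa only [symmDiff_symmDiff_cancel_right] using k.symmDiff h1
  have h5 : symmDiff ({v} : Set Pt) {p} = {v, p} := by
    ext w
    simp only [Set.mem_symmDiff, Set.mem_singleton_iff, Set.mem_insert_iff]
    constructor
    · tauto
    · rintro (rfl | rfl)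
      exacts [Or.inl ⟨rfl, hvp⟩, Or.inr ⟨rfl, hvp.symm⟩]
  rw [union_comm, ← insert_eq]
  simp only [Zs, sum_powerset_insert he]
  constructor
  · rw [add_eq_left]
    refine sum_eq_zero fun η hη => if_neg ?_
    rw [h2 η hη, ← Set.bot_eq_empty, bot_symmDiff]
    exact hin η hη p hp
  · rw [sum_eq_zero fun η hη => if_neg (hin η hη v hv), zero_add, mul_sum]
    refine sum_congr rfl fun η hη => ?_
    simp only [h2 η hη, h5]
    rw [card_insert_of_notMem fun k => he (mem_powerset.1 hη k), pow_succ']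
    split_ifs <;> simp

end Pool.Agent.P.MP_347bd1_pr
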