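import Pool.Agent.P.MP_347bd1_pr.Stmts2

/-!
Pairs of runs that do not cross: the second run is killed at every scale where both are fat.
-/

namespace Pool.Agent.P.MP_347bd1_pr

open Classical Finset
open scoped ENNReal NNReal

theorem ni_corner {p w v : Pt} (h : Corner p w) : nrm (w - v) ≤ nrm (p - v) + 1 := by
  have h1 := nrm_le_iff.1 (le_refl (nrm (p - v)))
  rw [nrm_le_iff]
  unfold Corner at h
  simp only [Prod.fst_sub, Prod.snd_sub] at h1 ⊢
  omega

theorem ni_ring {n : ℕ} {z : Pt} {d : Dir} (h1 : z ∈ intr n) (h2 : z + d.vec ∉ intr n) :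
    OnRing n (ea (cr z d)) ∧ OnRing n (eb (cr z d)) := by
  rw [mem_intr] at h1 h2
  cases d <;> simp [OnRing, cr, ea, eb, Dir.vec] at h2 ⊢ <;> omega

theorem ni_noexit {n : ℕ} {S : Finset Pt} {X1 X2 E : Finset Edge} {v z : Pt} {R : ℤ}
    (hL : Loc n S (X1 ∪ X2) v R) (hE : E ⊆ eS n S ∪ X1) (hz : nrm (z - v) + 1 ≤ R) (d : Dir) :
    ¬ (net n E).st z d := by
  rintro ⟨h1, h2, h3⟩
  have c := corner_cr z d
  have r := ni_ring h1 h2
  have a1 := (ni_corner (v := v) c.1).trans hz
  have a2 := (ni_corner (v := v) c.2).trans hz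
  rcases mem_union.1 (hE h3) with k | k
  · rcases (mem_eS.1 k).2 with m | m
    · exact m (hL.ring _ (c.1.mem_box h1) a1 r.1)
    · exact m (hL.ring _ (c.2.mem_box h1) a2 r.2)
  · exact absurd (hL.far _ (mem_union_left _ k)).1 (not_lt.2 a1)

theorem ni_count {m l : ℕ} {P Q T : ℕ → Prop} (hm : m = 4 * l)
    (h : ∀ j < m, ¬ P j → ¬ Q j → T j) (hP : ¬ l ≤ ((range m).filter P).card)
    (hQ : ¬ l ≤ ((range m).filter Q).card) : 2 * l ≤ ((range m).filter T).card := by
  have h1 : range m ⊆ (range m).filter P ∪ (range m).filter Q ∪ (range m).filter T := by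
    intro j hj
    simp only [mem_union, mem_filter]
    have := h j (mem_range.1 hj)
    tauto
  have h2 := (card_le_card h1).trans ((card_union_le _ _).trans
    (add_le_add_left (card_union_le _ _) _))
  rw [card_range] at h2
  omega

theorem t_ni (h1 : T_NIG) (h2 : T_CHAIN) (h3 : T_KILL) : T_NI := by
  obtain ⟨M, -, hch⟩ := h2
  refine ⟨2 * M + 8, by omega, fun L hL => ?_⟩
  obtain ⟨θ, hθ, hch⟩ := hch (16 * (L * (2 * M + 8)) + 9)
  refine ⟨θ, hθ, ?_⟩
  intro n S X1 X2 v u l R E2 K Gd g1 g2 hv hu hR hloc hbar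
  set N1 := net n (eS n S ∪ X1) with hN1
  set N2 := net n (eS n S ∪ X2) with hN2
  have key : ∀ W, Run N2 v W → Gd W → hN (net n (E2 W ∪ X1)) v ≤ hN N1 v ∧
      (¬ Many N2 ((2 * M + 8) * u) L l v W → hN (net n (E2 W ∪ X1)) v ≤
        θ ^ (2 * l) * hN N1 v + hm N1 v (Many N1 ((2 * M + 8) * u) L l v)) := by
    intro W hW hG
    obtain ⟨b1, b2, b3, b4, b5⟩ := hbar W hW hG
    have hE : E2 W ∪ X1 ⊆ eS n S ∪ X1 := union_subset_union_left b1
    have hle : (net n (E2 W ∪ X1)).Le N1 := net_le hE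
    refine ⟨hN_mono hle v, fun hW2 => ?_⟩
    set N' := net n (E2 W ∪ X1) with hN'
    let s : ℕ → ℕ := fun j => u * 5 ^ j
    let r : ℕ → ℕ := fun j => L * ((2 * M + 8) * s j)
    let A : ℕ → Set Pt := fun j => {z | (r j : ℤ) ≤ nrm (z - v) ∧ nrm (z - v) ≤ 4 * r j}
    let T : ℕ → Set Pt := fun j => {y | y ∈ A j ∧
      Kn N' (A j) (fun z => @ite _ (z ∈ A j) (propDecidable _) 0 (hN N1 z)) y ≤ θ * hN N1 y}
    have hs : ∀ j, 1 ≤ s j := fun j => Nat.mul_pos hu (by positivity)
    have hr : ∀ j, 1 ≤ r j := fun j =>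
      Nat.mul_pos (by omega) (Nat.mul_pos (by omega) (hs j))
    have hrR : ∀ j < 4 * l, 8 * (r j : ℤ) ≤ R := by
      intro j hj
      have : r j ≤ L * ((2 * M + 8) * u * 5 ^ (4 * l)) := by
        rw [mul_assoc]
        exact Nat.mul_le_mul_left _ (Nat.mul_le_mul_left _ (Nat.mul_le_mul_left _
          (Nat.pow_le_pow_right (by norm_num) hj.le)))
      have : (r j : ℤ) ≤ (L * ((2 * M + 8) * u * 5 ^ (4 * l)) : ℕ) := by exact_mod_cast this
      linarith
    have hr5 : ∀ i j, i < j → 5 * r i ≤ r j := by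
      intro i j hij
      have e : 5 * r i = L * ((2 * M + 8) * (u * 5 ^ (i + 1))) := by
        simp only [r, s]
        ring
      rw [e]
      exact Nat.mul_le_mul_left _ (Nat.mul_le_mul_left _ (Nat.mul_le_mul_left _
        (Nat.pow_le_pow_right (by norm_num) hij)))
    have hdis : ∀ i j, i < j → Disjoint (A i) (A j) := by
      intro i j hij
      rw [Set.disjoint_left]
      rintro z ⟨-, a2⟩ ⟨a3, -⟩
      have := hr5 i j hij
      have := hr i
      omega
    have hk := h3 N1 N' (4 * l) A T θ hle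
      (fun i _ j _ hij => (lt_or_gt_of_ne hij).elim (hdis i j) fun k => (hdis j i k).symm)
      (fun j _ y hy => hy.1)
      (fun j hj z hz d => ni_noexit hloc hE (by
        have := hrR j hj
        have := hr j
        have := hz.2
        omega) d)
      (fun j _ y hy => hy.2) (2 * l) v
    rw [hN, ms_add_not _ (Many N1 ((2 * M + 8) * u) L l v), add_comm]
    refine add_le_add (le_trans (ms_mono fun W' k => ⟨k.1, ?_⟩) hk)
      (ms_mono fun W' k => ⟨k.1.le hle, k.2⟩)
    refine ni_count rfl (fun j hj t2 t1 => ?_) hW2 k.2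
    have e1 : (((2 * M + 8) * u : ℕ) : ℤ) * 5 ^ j = ((2 * M + 8) * s j : ℕ) := by
      simp only [s]
      push_cast
      ring
    have e2 : (L : ℤ) * ((2 * M + 8) * s j : ℕ) = r j := by
      simp only [r]
      push_cast
      ring
    rw [e1, e2] at t1 t2
    obtain ⟨l', y, y1, y2, y3, y4, y5⟩ := h1 n S X1 X2 (E2 W ∪ X1) (K W) v R M (s j) (r j) W W'
      g1 g2 hv hloc (hs j) (Nat.mul_le_mul_right _ hL) (hrR j hj) hE hW k.1 b3 b4 b5 t2 t1
    refine ⟨y l', ⟨(y3 l' le_rfl (y l') ?_).1, ?_⟩, y5⟩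
    · rw [sub_self, nrm_zero]
      positivity
    · refine hch N1 N' (A j) (s j) l' y hle (far_net b2) (hs j) (y1.trans ?_) y2 y3 y4
      have := hs j
      simp only [r]
      nlinarith
  have hsum : ∀ (P : List Dir → Prop) [DecidablePred P] (c : ℝ≥0∞),
      (∑' W, if P W then wt W * c else 0) = ms P * c := by
    intro P _ c
    rw [ms, ← ENNReal.tsum_mul_right]
    exact tsum_congr fun W => by split_ifs <;> simp
  calc omg n S X1 X2 v E2 Gd
      ≤ ∑' W, ((if Run N2 v W then wt W * (θ ^ (2 * l) * hN N1 v) else 0) +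
          (if Run N2 v W ∧ Many N2 ((2 * M + 8) * u) L l v W then wt W * hN N1 v else 0) +
          if Run N2 v W then wt W * hm N1 v (Many N1 ((2 * M + 8) * u) L l v) else 0) := by
        refine ENNReal.tsum_le_tsum fun W => ?_
        by_cases k : Run N2 v W ∧ Gd W
        · rw [if_pos k, if_pos k.1, if_pos k.1]
          by_cases m : Many N2 ((2 * M + 8) * u) L l v W
          · rw [if_pos ⟨k.1, m⟩]
            exact le_add_right (le_add_left (mul_le_mul_right (key W k.1 k.2).1 _))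
          · rw [if_neg fun a => m a.2, add_zero, ← mul_add]
            exact mul_le_mul_right ((key W k.1 k.2).2 m) _
        · rw [if_neg k]
          exact zero_le
    _ = _ := by
        rw [ENNReal.tsum_add, ENNReal.tsum_add, hsum, hsum, hsum, mul_comm (ms (Run N2 v))]
        rfl

end Pool.Agent.P.MP_347bd1_pr
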