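import Pool.Agent.P.MP_347bd1_pr.Stmts2

/-!
At a scale where both walks are fat there is a chain from the barrier to the second walk.
-/

namespace Pool.Agent.P.MP_347bd1_pr

open Classical Finset
open scoped ENNReal NNReal

theorem nig_ring {n : ℕ} {w : Pt} {d : Dir} (h : w ∈ box n) (h' : w + d.vec ∉ box n) :
    OnRing n w := by
  rw [mem_box] at h h'
  unfold OnRing
  cases d <;> simp [Dir.vec] at h' <;> omega

theorem nig_corner_ring {n : ℕ} {p w : Pt} (hp : p ∉ intr n) (h : Corner p w) (hw : w ∈ box n) :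
    OnRing n w := by
  rw [mem_box] at hw
  rw [mem_intr] at hp
  unfold OnRing
  obtain ⟨h1, h2⟩ := h
  omega

theorem nig_out {n : ℕ} {p : Pt} (hp : p ∉ intr n) : ∃ a, a ∉ box n ∧ nrm (a - p) ≤ 1 := by
  by_cases h : p ∈ box n
  · refine ⟨p + (1, 1), ?_, ?_⟩
    · rw [mem_box] at h ⊢
      rw [mem_intr] at hp
      simp only [Prod.fst_add, Prod.snd_add]
      omega
    · simp [nrm]
  · exact ⟨p, h, by simp⟩

theorem nig_corner_inc {z w : Pt} {d d' : Dir} (h : cr z d' = inc w d) : nrm (w - z) ≤ 1 := by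
  have h1 := corner_cr z d'
  rw [h] at h1
  rcases ends_inc w d with k | k
  · exact (k.1 ▸ h1.1 : Corner z w).nrm_le
  · exact (k.2 ▸ h1.2 : Corner z w).nrm_le

theorem nig_conn {F : Finset Edge} {D : Finset Pt} (h : ∀ e ∈ F, e ∉ cut D) {a b : Pt}
    (k : Conn F a b) : a ∈ D ↔ b ∈ D := by
  induction k with
  | refl => rfl
  | tail _ k ih =>
    obtain ⟨d, k1, rfl⟩ := k
    have := h _ k1
    rw [inc_mem_cut, not_not] at this
    exact ih.trans this

theorem nig_path {D : Finset Pt} {c : Pt} {ρ : ℤ} (hc : c ∈ D) (k : ℕ) :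
    ∀ a, a ∉ D → nrm (a - c) ≤ ρ → (a.1 - c.1).natAbs + (a.2 - c.2).natAbs ≤ k →
      ∃ (b : Pt) (d : Dir), b ∈ D ∧ b + d.vec ∉ D ∧ nrm (b - c) ≤ ρ := by
  induction k with
  | zero =>
    intro a ha _ hk
    have : a = c := Prod.ext (by omega) (by omega)
    exact absurd (this ▸ hc) ha
  | succ k ih =>
    intro a ha hρ hk
    have hne : a ≠ c := fun e => ha (e ▸ hc)
    have key : ∃ d : Dir, nrm (a + d.vec - c) ≤ ρ ∧
        ((a + d.vec).1 - c.1).natAbs + ((a + d.vec).2 - c.2).natAbs ≤ k := by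
      rw [Dir.exists_iff]
      have hne' : a.1 ≠ c.1 ∨ a.2 ≠ c.2 := by
        by_contra hh
        exact hne (Prod.ext (by omega) (by omega))
      simp only [nrm_le_iff, Dir.vec, Prod.fst_add, Prod.snd_add, Prod.fst_sub, Prod.snd_sub] at hρ ⊢
      omega
    obtain ⟨d, h1, h2⟩ := key
    by_cases hd : a + d.vec ∈ D
    · exact ⟨a + d.vec, d.opp, hd, by simpa using ha, h1⟩
    · exact ih _ hd h1 h2

theorem nig_side (h1 : T_POIN) {n : ℕ} {S : Finset Pt} {X η : Finset Edge} {v : Pt} {R : ℤ}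
    (hL : Loc n S X v R) (hη : η ⊆ ebox n) (hη' : η ⊆ eS n S ∪ X) (hs : Src n η ∅) :
    ∃ D ⊆ box n, (∀ w ∈ S, nrm (w - v) ≤ R → w ∉ D) ∧
      ∀ e, nrm (ea e - v) ≤ R → nrm (eb e - v) ≤ R → (¬ (ea e ∈ D ↔ eb e ∈ D) ↔ e ∈ η) := by
  have main : ∃ D ⊆ box n, (∀ w ∈ S, nrm (w - v) ≤ R → w ∉ D) ∧
      ∀ e ∈ ebox n, (e ∈ cut D ↔ e ∈ η) := by
    obtain ⟨D, hD, hc, -⟩ := h1 n η hη hs
    have hc' : ∀ e ∈ ebox n, (e ∈ cut D ↔ e ∈ η) := fun e he => by
      rw [← hc, mem_inter]; exact ⟨fun k => ⟨k, he⟩, fun k => k.1⟩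
    by_cases hw : ∃ w ∈ S, nrm (w - v) ≤ R ∧ w ∈ D
    · obtain ⟨w0, k1, k2, k3⟩ := hw
      refine ⟨box n \ D, sdiff_subset, fun w k4 k5 k6 => (mem_sdiff.1 k6).2 ?_, fun e he => ?_⟩
      · refine (nig_conn (fun e he k => ?_) (hL.conn w0 k1 w k4 k2 k5)).1 k3
        rw [mem_sdiff] at he
        exact he.2 (hη' ((hc' e he.1).1 k))
      · rw [← hc' e he, mem_cut, mem_cut, mem_sdiff, mem_sdiff]
        have := mem_ebox.1 he
        tauto
    · exact ⟨D, hD, fun w k1 k2 k3 => hw ⟨w, k1, k2, k3⟩, hc'⟩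
  obtain ⟨D, hD, ha, hc⟩ := main
  refine ⟨D, hD, ha, fun e k1 k2 => ?_⟩
  by_cases he : e ∈ ebox n
  · rw [← mem_cut]; exact hc e he
  · have a1 : ea e ∉ D := fun k => by
      obtain ⟨d, -, hd⟩ := exists_inc e
      refine ha _ (hL.ring _ (hD k) k1 (nig_ring (d := d) (hD k) fun k' => he ?_)) k1 k
      exact mem_ebox.2 ⟨hD k, hd ▸ k'⟩
    have a2 : eb e ∉ D := fun k => by
      obtain ⟨d, -, hd⟩ := exists_inc_b e
      refine ha _ (hL.ring _ (hD k) k2 (nig_ring (d := d) (hD k) fun k' => he ?_)) k2 k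
      exact mem_ebox.2 ⟨hd ▸ k', hD k⟩
    have a3 : e ∉ η := fun k => he (hη k)
    tauto

theorem t_nig (h1 : T_POIN) (h2 : T_ARC) : T_NIG := by
  intro n S X1 X2 E' K v R M s r W W' g1 g2 hv hL hs hr hR hE hW hW' hK hsrc hdis t2 t1
  obtain ⟨u, hu⟩ : ∃ u : ℤ, u = (M : ℤ) * s := ⟨_, rfl⟩
  have hu0 : 0 ≤ u := by rw [hu]; positivity
  have ht : (((2 * M + 8) * s : ℕ) : ℤ) = 2 * u + 8 * s := by rw [hu]; push_cast; ring
  have hr' : 4 * (2 * u + 8 * s) ≤ (r : ℤ) := by rw [← ht]; exact_mod_cast hr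
  have hs' : (1 : ℤ) ≤ s := by exact_mod_cast hs
  rw [ht] at t1 t2
  rw [← hu]
  have b1 : eS n S ∪ X1 ⊆ ebox n := union_subset (eS_subset n S) fun e he => (g1.xs e he).1
  have b2 : eS n S ∪ X2 ⊆ ebox n := union_subset (eS_subset n S) fun e he => (g2.xs e he).1
  have hK2 : K ⊆ eS n S ∪ X2 := hK.trans hW.Od_subset
  have hO : Od v W' ⊆ E' := hW'.Od_subset
  have hd : Disjoint K (Od v W') := hdis.mono_right hO
  have hsd : ∀ e, e ∈ symmDiff K (Od v W') ↔ e ∈ K ∨ e ∈ Od v W' := fun e => by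
    have : e ∈ K → e ∉ Od v W' := fun k => disjoint_left.1 hd k
    rw [mem_symmDiff]; tauto
  obtain ⟨D, hD, ha, hb⟩ := nig_side h1 (η := symmDiff K (Od v W')) hL
    (fun e he => ((hsd e).1 he).elim (fun k => b2 (hK2 k)) fun k => b1 (hE (hO k)))
    (fun e he => ((hsd e).1 he).elim
      (fun k => union_subset_union_right subset_union_right (hK2 k))
      fun k => union_subset_union_right subset_union_left (hE (hO k)))
    ((hsrc.symmDiff hW'.src_Od).congr fun p _ => by simp)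
  have hc : ∀ q, nrm (q - v) ≤ ((2 * r : ℕ) : ℤ) → (Odd (deg K q) ↔ q = v) := by
    intro q hq
    by_cases hi : q ∈ intr n
    · exact hsrc q hi
    · have h0 : deg K q = deg ∅ q := by
        refine deg_congr fun d => ⟨fun k => ?_, fun k => absurd k (notMem_empty _)⟩
        exfalso
        have k1 := hK2 k
        have k2 := mem_ebox.1 (b2 k1)
        have k3 := corner_cr q d
        have k4 := nrm_tri (ea (cr q d)) q v
        have k5 := nrm_tri (eb (cr q d)) q v
        have k6 := k3.1.nrm_le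
        have k7 := k3.2.nrm_le
        push_cast at hq
        rcases mem_union.1 k1 with k8 | k8
        · rcases (mem_eS.1 k8).2 with k9 | k9
          · exact k9 (hL.ring _ k2.1 (by omega) (nig_corner_ring hi k3.1 k2.1))
          · exact k9 (hL.ring _ k2.2 (by omega) (nig_corner_ring hi k3.2 k2.2))
        · have := (hL.far _ (mem_union_right _ k8)).1
          omega
      rw [h0, deg_empty]
      exact ⟨fun k => absurd k (by decide), fun k => absurd (k ▸ hv) hi⟩
  obtain ⟨m, w, hm, hnn, hw, ⟨d0, hd0⟩, d1, hd1⟩ := h2 (· ∈ D) K (Od v W') v (2 * r) hd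
    (fun e k1 k2 => by
      push_cast at k1 k2
      rw [← hsd]; exact hb e (by omega) (by omega)) hc
  push_cast at hw
  obtain ⟨z0, d2, hz0, hvis, -⟩ := hW'.mem_Od hd1
  have hz1 := nig_corner_inc hz0
  have key : ∀ i ≤ m, ∀ z d, nrm (z - w i) ≤ u + 1 → (net n (eS n S ∪ X1)).mv z d := by
    intro i hi z d hz
    obtain ⟨w1, w2, w3⟩ := hw i hi
    by_contra hmv
    have c1 : (∃ a, a ∉ D ∧ nrm (a - w i) ≤ u + 3) ∧ ¬ (net n (eS n S ∪ X2)).mv z d := by
      by_cases k1 : z ∈ intr n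
      · by_cases k2 : z + d.vec ∈ intr n
        · have k3 : cr z d ∉ eS n S ∪ X1 := fun k => hmv ⟨k1, k2, k⟩
          have k4 : cr z d ∉ eS n S := fun k => k3 (mem_union_left _ k)
          have k5 : ea (cr z d) ∈ S := by
            by_contra k
            exact k4 (mem_eS.2 ⟨cr_mem_ebox k1 d, .inl k⟩)
          have k6 := (corner_cr z d).1.nrm_le
          have k7 := nrm_tri (ea (cr z d)) z (w i)
          have k8 := nrm_tri (ea (cr z d)) (w i) v
          refine ⟨⟨_, ha _ k5 (by omega), by omega⟩, fun k => ?_⟩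
          rcases mem_union.1 k.2.2 with k9 | k9
          · exact k4 k9
          · have := (hL.far _ (mem_union_right _ k9)).1
            omega
        · obtain ⟨a, k3, k4⟩ := nig_out k2
          have k5 := nrm_tri a (z + d.vec) (w i)
          have k6 := (nrm_step z (w i) d).1
          exact ⟨⟨a, fun k => k3 (hD k), by omega⟩, fun k => k2 k.2.1⟩
      · obtain ⟨a, k3, k4⟩ := nig_out k1
        have k5 := nrm_tri a z (w i)
        exact ⟨⟨a, fun k => k3 (hD k), by omega⟩, fun k => k1 k.1⟩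
    obtain ⟨⟨a, a1, a2⟩, hmv2⟩ := c1
    obtain ⟨b, d', b3, b4, b5⟩ := nig_path w1 _ a a1 a2 le_rfl
    have b6 := nrm_tri b (w i) v
    have b7 := (nrm_step b v d').1
    have b8 : inc b d' ∈ symmDiff K (Od v W') := by
      rcases ends_inc b d' with k | k
      · refine (hb _ (by rw [k.1]; omega) (by rw [k.2]; omega)).1 ?_
        rw [k.1, k.2]; tauto
      · refine (hb _ (by rw [k.1]; omega) (by rw [k.2]; omega)).1 ?_
        rw [k.1, k.2]; tauto
    have fin : ∀ z' d'', cr z' d'' = inc b d' → ((r : ℤ) ≤ nrm (z' - v) ∧ nrm (z' - v) ≤ 4 * r) ∧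
        nrm (z - z') ≤ 2 * u + 8 * s := by
      intro z' d'' k
      have k1 := nig_corner_inc k
      have k2 := nrm_tri z' b (w i)
      have k3 := nrm_sub_comm z' b
      have k4 := nrm_tri z' (w i) v
      have k5 := nrm_tri (w i) z' v
      have k6 := nrm_sub_comm z' (w i)
      have k7 := nrm_tri z (w i) z'
      omega
    rcases (hsd _).1 b8 with k | k
    · obtain ⟨z', d'', k1, k2, -⟩ := hW.mem_Od (hK k)
      obtain ⟨k3, k4⟩ := fin z' d'' k1
      exact t2 ⟨z', k2, k3.1, k3.2, z, d, hmv2, k4⟩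
    · obtain ⟨z', d'', k1, k2, -⟩ := hW'.mem_Od k
      obtain ⟨k3, k4⟩ := fin z' d'' k1
      exact t1 ⟨z', k2.le (net_le hE), k3.1, k3.2, z, d, hmv, k4⟩
  refine ⟨m + 1, fun i => if i ≤ m then w i else z0, by omega, fun i hi => ?_, fun i hi z hz => ?_,
    ?_, ?_⟩
  · by_cases k : i + 1 ≤ m
    · simp only [k, if_true, show i ≤ m by omega]
      obtain ⟨d, hd⟩ := hnn i (by omega)
      rw [hd]; simp
    · have e : i = m := by omega
      subst e
      simp only [k, if_false, le_refl, if_true]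
      rwa [nrm_sub_comm]
  · have : ∃ j ≤ m, nrm (z - w j) ≤ u + 1 := by
      by_cases k : i ≤ m
      · simp only [k, if_true] at hz
        exact ⟨i, k, by omega⟩
      · simp only [k, if_false] at hz
        have k1 := nrm_tri z z0 (w m)
        have k2 := nrm_sub_comm z0 (w m)
        exact ⟨m, le_rfl, by omega⟩
    obtain ⟨j, j1, j2⟩ := this
    obtain ⟨-, w2, w3⟩ := hw j j1
    have k4 := nrm_tri z (w j) v
    have k5 := nrm_tri (w j) z v
    have k6 := nrm_sub_comm z (w j)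
    exact ⟨by omega, fun d => key j j1 z d j2⟩
  · obtain ⟨d, hd⟩ := exists_cr (inc (w 0) d0)
    have k1 := nig_corner_inc hd
    have k2 := nrm_sub_comm (w 0) (ea (inc (w 0) d0))
    refine ⟨ea (inc (w 0) d0), d, fun k => disjoint_left.1 hdis hd0 (hd ▸ k.2.2), ?_⟩
    simp only [Nat.zero_le, if_true]
    omega
  · simpa using hvis

end Pool.Agent.P.MP_347bd1_pr
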