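import Pool.Agent.P.MP_347bd1_pr.Stmts2

/-!
One and two arms from the bottom row under plus boundary conditions.
-/

namespace Pool.Agent.P.MP_347bd1_pr

open Classical Finset
open scoped ENNReal NNReal

/-! ### Star paths and clusters -/

theorem pair_mono {M M' : Finset Pt} {a b : Pt} (h : M ⊆ M') (k : SPath M a b) : SPath M' a b :=
  ⟨h k.1, rtg_mono (fun _ _ m => ⟨m.1, h m.2⟩) k.2⟩

theorem pair_trans {M : Finset Pt} {a b c : Pt} (h : SPath M a b) (k : SPath M b c) :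
    SPath M a c := ⟨h.1, h.2.trans k.2⟩

theorem pair_end {M : Finset Pt} {a b : Pt} (h : SPath M a b) : b ∈ M := by
  obtain ⟨h1, h2⟩ := h
  induction h2 with
  | refl => exact h1
  | tail _ k _ => exact k.2

/-- The star cluster of `x`. -/
noncomputable def pairCl (x : Pt) (M : Finset Pt) : Finset Pt := M.filter (SPath M x)

theorem pair_mem_cl {x a : Pt} {M : Finset Pt} : a ∈ pairCl x M ↔ SPath M x a :=
  mem_filter.trans ⟨fun h => h.2, fun h => ⟨pair_end h, h⟩⟩

theorem pair_cl_subset (x : Pt) (M : Finset Pt) : pairCl x M ⊆ M := filter_subset _ _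

theorem pair_cl_step {x a b : Pt} {M : Finset Pt} (h : a ∈ pairCl x M) (k : Star a b)
    (hb : b ∈ M) : b ∈ pairCl x M :=
  pair_mem_cl.2 ⟨(pair_mem_cl.1 h).1, (pair_mem_cl.1 h).2.tail ⟨k, hb⟩⟩

theorem pair_cl_path {x a : Pt} {M : Finset Pt} (h : a ∈ pairCl x M) :
    SPath (pairCl x M) x a := by
  obtain ⟨h1, h2⟩ := pair_mem_cl.1 h
  refine ⟨pair_mem_cl.2 ⟨h1, .refl⟩, ?_⟩
  clear h
  induction h2 with
  | refl => exact .refl
  | tail m k ih => exact ih.tail ⟨k.1, pair_mem_cl.2 ⟨h1, m.tail k⟩⟩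

theorem pair_split {M K K' : Finset Pt} (hd : Disjoint K K') {a b : Pt} (h : SPath M a b) :
    SPath (M \ (K ∪ K')) a b ∨ (∃ c ∈ K, SPath (M \ K') c b) ∨ ∃ c ∈ K', SPath (M \ K) c b := by
  obtain ⟨h1, h2⟩ := h
  have key : ∀ {a : Pt}, a ∈ M →
      Relation.ReflTransGen (fun u w => Star u w ∧ w ∈ M \ (K ∪ K')) a b →
      SPath (M \ (K ∪ K')) a b ∨ (∃ c ∈ K, SPath (M \ K') c b) ∨
        ∃ c ∈ K', SPath (M \ K) c b := by
    intro a ha k
    by_cases m : a ∈ K
    · exact .inr (.inl ⟨a, m, mem_sdiff.2 ⟨ha, disjoint_left.1 hd m⟩,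
        rtg_mono (fun _ _ j => ⟨j.1, sdiff_subset_sdiff le_rfl subset_union_right j.2⟩) k⟩)
    by_cases m' : a ∈ K'
    · exact .inr (.inr ⟨a, m', mem_sdiff.2 ⟨ha, m⟩,
        rtg_mono (fun _ _ j => ⟨j.1, sdiff_subset_sdiff le_rfl subset_union_left j.2⟩) k⟩)
    · exact .inl ⟨by simp [ha, m, m'], k⟩
  induction h2 using Relation.ReflTransGen.head_induction_on with
  | refl => exact key h1 .refl
  | head k _ ih =>
    rcases ih k.2 with m | m
    · exact key h1 (m.2.head ⟨k.1, m.1⟩)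
    · exact .inr m

theorem pair_up_mono {n : ℕ} {M M' : Finset Pt} {x : Pt} (h : M ⊆ M') (k : Up n M x) :
    Up n M' x := k.imp fun _ m => ⟨m.1, pair_mono h m.2⟩

theorem pair_two {n : ℕ} {M U U' : Finset Pt} (hd : Disjoint U U') {x x' : Pt} (hx : x ∈ U)
    (h : Up n M x) : Up n (M \ pairCl x (M ∩ U)) x' ∨ Up n (M \ pairCl x' (M ∩ U')) x := by
  obtain ⟨b, hb, h⟩ := h
  have s1 := pair_cl_subset x (M ∩ U)
  have s2 := pair_cl_subset x' (M ∩ U')
  have d1 : Disjoint (pairCl x (M ∩ U)) (pairCl x' (M ∩ U')) :=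
    hd.mono (s1.trans inter_subset_right) (s2.trans inter_subset_right)
  rcases pair_split d1 h with m | ⟨c, hc, m⟩ | ⟨c, hc, m⟩
  · exact absurd (mem_union_left _ (pair_mem_cl.2 ⟨mem_inter.2 ⟨h.1, hx⟩, .refl⟩))
      (mem_sdiff.1 m.1).2
  · exact .inr ⟨b, hb, pair_trans (pair_mono
      (subset_sdiff.2 ⟨s1.trans inter_subset_left, d1⟩) (pair_cl_path hc)) m⟩
  · exact .inl ⟨b, hb, pair_trans (pair_mono
      (subset_sdiff.2 ⟨s2.trans inter_subset_left, d1.symm⟩) (pair_cl_path hc)) m⟩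

/-! ### Conditioning -/

theorem pair_einc_inter {U U' : Finset Pt} (h : U ⊆ U') : einc U' ∩ einc U = einc U :=
  inter_eq_right.2 fun _ he => mem_einc.2 ((mem_einc.1 he).imp (@h _) (@h _))

theorem pair_Zf_eq {F : Finset Edge} {U T : Finset Pt} (A : Finset Pt → Prop) :
    Zf F U T A = Pr F U T A * Zf F U T fun _ => True := by
  rw [Pr, div_mul_cancel₀ _ Zf_pos.ne']

theorem pair_cond {n : ℕ} {U : Finset Pt} (hU : U ⊆ box n) {A B : Finset Pt → Prop} {c : ℝ}
    (h : ∀ T ⊆ box n \ U, Pr (einc U) U T (fun M => A (M ∪ T)) ≤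
      c * Pr (einc U) U T fun M => B (M ∪ T)) : Pp n A ≤ c * Pp n B := by
  have e := fun A => Zf_eq_sum_fibre (F := einc (box n)) (U := box n) (T := ∅)
    (box n \ U).powerset (fun M => M \ U)
    (fun M k => mem_powerset.2 (sdiff_subset_sdiff k le_rfl)) A
  rw [Pp, Pp, Pr, Pr, ← mul_div_assoc]
  refine div_le_div_of_nonneg_right ?_ Zf_nonneg
  rw [e A, e B, mul_sum]
  refine sum_le_sum fun T hT => ?_
  have k := mem_powerset.1 hT
  rw [Zf_fibre hU k, Zf_fibre hU k, pair_einc_inter hU, union_empty, mul_left_comm,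
    pair_Zf_eq fun M => A (M ∪ T), pair_Zf_eq fun M => B (M ∪ T), ← mul_assoc c]
  exact mul_le_mul_of_nonneg_left (mul_le_mul_of_nonneg_right (h T k) Zf_nonneg)
    (pow_pos xc_pos _).le

theorem pair_star_ends (e : Edge) : Star (ea e) (eb e) := by
  obtain ⟨d, -, h⟩ := exists_inc e
  exact NN.star ⟨d, h⟩

/-- The cluster of `x` and an increasing event off the cluster are negatively correlated. -/
theorem pair_bhk (hm : T_MONO) {U T : Finset Pt} (hT : Disjoint T U) {x : Pt}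
    {A B : Finset Pt → Prop} (hA : ∀ K, A K → x ∈ K) (hB : ∀ M M', M ⊆ M' → B M → B M') :
    Pr (einc U) U T (fun M => A (pairCl x M) ∧ B (M \ pairCl x M)) ≤
      Pr (einc U) U T (fun M => A (pairCl x M)) * Pr (einc U) U T B := by
  have e := fun A => Zf_eq_sum_fibre (F := einc U) (U := U) (T := T) U.powerset (pairCl x)
    (fun M k => mem_powerset.2 ((pair_cl_subset x M).trans k)) A
  rw [Pr, Pr, div_mul_eq_mul_div]
  refine div_le_div_of_nonneg_right ?_ Zf_nonneg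
  rw [e, e fun M => A (pairCl x M), sum_mul]
  refine sum_le_sum fun K _ => ?_
  by_cases h : A K ∧ ∃ M1 ⊆ U, pairCl x M1 = K
  swap
  · refine le_trans (le_of_eq (sum_eq_zero fun M hM => if_neg fun m => h ?_))
      (mul_nonneg Zf_nonneg Pr_nonneg)
    exact ⟨m.1 ▸ m.2.1, M, mem_powerset.1 hM, m.1⟩
  obtain ⟨h1, M1, h2, h3⟩ := h
  set U0 := U.filter fun w => w ∉ K ∧ ∀ a ∈ K, ¬ Star a w with hU0
  have s0 : U0 ⊆ U := filter_subset _ _
  have n0 : ∀ w ∈ U0, w ∉ K ∧ ∀ a ∈ K, ¬ Star a w := fun w k => (mem_filter.1 k).2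
  have s1 : K ⊆ U \ U0 := fun w k =>
    mem_sdiff.2 ⟨h2 (pair_cl_subset x M1 (h3 ▸ k)), fun m => (n0 w m).1 k⟩
  have key : ∀ M ⊆ U, (pairCl x M = K ↔ M \ U0 = K) := by
    intro M hM
    constructor
    · intro k
      ext w
      refine ⟨fun m => ?_, fun m =>
        mem_sdiff.2 ⟨pair_cl_subset x M (k ▸ m), (mem_sdiff.1 (s1 m)).2⟩⟩
      obtain ⟨m1, m2⟩ := mem_sdiff.1 m
      by_contra m3
      exact m2 (mem_filter.2 ⟨hM m1, m3, fun a ha j => m3 (k ▸ pair_cl_step (k ▸ ha) j m1)⟩)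
    · intro k
      ext w
      refine ⟨fun m => ?_, fun m => pair_mem_cl.2 (pair_mono (M := K) (k ▸ sdiff_subset) ?_)⟩
      · obtain ⟨-, m'⟩ := pair_mem_cl.1 m
        clear m
        induction m' with
        | refl => exact hA K h1
        | tail _ j ih => exact k ▸ mem_sdiff.2 ⟨j.2, fun i => (n0 _ i).2 _ ih j.1⟩
      · have := pair_cl_path (h3 ▸ m : w ∈ pairCl x M1)
        rwa [h3] at this
  have drop : ∀ C, Zf (einc U0) U0 (K ∪ T) C = Zf (einc U0) U0 T C := by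
    refine fun C => sum_congr rfl fun M _ => ?_
    congr 3
    ext e
    have a1 : e ∈ einc U0 → ea e ∉ K ∧ eb e ∉ K := fun k => by
      rcases mem_einc.1 k with k | k
      · exact ⟨(n0 _ k).1, fun m => (n0 _ k).2 _ m (pair_star_ends e).symm⟩
      · exact ⟨fun m => (n0 _ k).2 _ m (pair_star_ends e), (n0 _ k).1⟩
    rw [mem_inter, mem_inter]
    refine and_congr_left fun k => ?_
    simp [mem_cut, a1 k]
  have e1 : Zf (einc U) U T (fun M => pairCl x M = K ∧ A (pairCl x M) ∧ B (M \ pairCl x M)) =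
      Zf (einc U) U T fun M => M \ U0 = K ∧ B (M \ K) :=
    Zf_congr fun M k => by
      rw [← key M k]
      exact and_congr_right fun m => by simp [m, h1]
  have e2 : Zf (einc U) U T (fun M => pairCl x M = K ∧ A (pairCl x M)) =
      Zf (einc U) U T fun M => M \ U0 = K ∧ True :=
    Zf_congr fun M k => by
      rw [← key M k]
      exact and_congr_right fun m => by simp [m, h1]
  have e3 : Zf (einc U0) U0 T (fun M => B ((M ∪ K) \ K)) = Zf (einc U0) U0 T B :=
    Zf_congr fun M k => by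
      rw [union_sdiff_cancel_right (disjoint_left.2 fun w m => (n0 w (k m)).1)]
  rw [e1, e2, Zf_fibre s0 s1 fun M => B (M \ K), Zf_fibre s0 s1 fun _ => True,
    pair_einc_inter s0, drop, drop, e3, pair_Zf_eq B, mul_assoc, mul_comm (Pr _ _ _ _)]
  exact mul_le_mul_of_nonneg_left (mul_le_mul_of_nonneg_left
    (hm U0 U T T B s0 hT hT (fun _ k _ => k) hB) Zf_nonneg) (pow_pos xc_pos _).le

/-! ### Translation -/

/-- Translation of a set of sites. -/
noncomputable def pairSh (τ : Pt) (M : Finset Pt) : Finset Pt := M.image (· + τ)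

theorem pair_mem_sh {τ w : Pt} {M : Finset Pt} : w ∈ pairSh τ M ↔ w - τ ∈ M := by
  rw [pairSh, mem_image]
  exact ⟨by rintro ⟨a, h, rfl⟩; simpa using h, fun h => ⟨_, h, by simp⟩⟩

theorem pair_sh_mono {τ : Pt} {M M' : Finset Pt} (h : M ⊆ M') : pairSh τ M ⊆ pairSh τ M' :=
  image_subset_image h

theorem pair_sh_sh (τ : Pt) (M : Finset Pt) : pairSh (-τ) (pairSh τ M) = M := by
  ext w; simp [pair_mem_sh]

theorem pair_sh_sh' (τ : Pt) (M : Finset Pt) : pairSh τ (pairSh (-τ) M) = M := by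
  ext w; simp [pair_mem_sh]

theorem pair_Zf_sh (τ : Pt) (U T : Finset Pt) (A : Finset Pt → Prop) :
    Zf (einc (pairSh τ U)) (pairSh τ U) (pairSh τ T) (fun M => A (pairSh (-τ) M)) =
      Zf (einc U) U T A := by
  have ha : ∀ (σ : Pt) (e : Edge), ea (e.1 + σ, e.2) = ea e + σ := fun _ _ => rfl
  have hb : ∀ (σ : Pt) (e : Edge), eb (e.1 + σ, e.2) = eb e + σ := by
    rintro σ ⟨w, _ | _⟩ <;> simp [eb, add_right_comm]
  refine (sum_nbij' (pairSh τ) (pairSh (-τ)) (fun M k => ?_) (fun M k => ?_)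
    (fun M _ => pair_sh_sh τ M) (fun M _ => pair_sh_sh' τ M) fun M _ => ?_).symm
  · exact mem_powerset.2 (pair_sh_mono (mem_powerset.1 k))
  · exact mem_powerset.2 (pair_sh_sh τ U ▸ pair_sh_mono (mem_powerset.1 k))
  · refine if_congr (by simp only [pair_sh_sh]) (congrArg _ ?_) rfl
    refine card_nbij' (fun e => (e.1 + τ, e.2)) (fun e => (e.1 + -τ, e.2)) (fun e k => ?_)
      (fun e k => ?_) (fun e _ => by simp) fun e _ => by simp
    · simpa [mem_cut, mem_einc, ha, hb, pair_mem_sh] using k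
    · simpa only [mem_coe, mem_inter, mem_cut, mem_einc, ha, hb, pair_mem_sh, mem_union,
        sub_eq_add_neg] using k

theorem pair_path_sh (τ : Pt) {M : Finset Pt} {a b : Pt} (h : SPath M a b) :
    SPath (pairSh τ M) (a + τ) (b + τ) := by
  obtain ⟨h1, h2⟩ := h
  refine ⟨by simpa [pair_mem_sh] using h1, ?_⟩
  induction h2 with
  | refl => exact .refl
  | tail _ k ih => exact ih.tail ⟨by simpa [Star] using k.1, by simpa [pair_mem_sh] using k.2⟩

/-! ### The translated Dobrushin box -/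

/-- The translation taking the marked site of the Dobrushin box to `x`. -/
def pairT (k : ℕ) (x : Pt) : Pt := x - (8 * (k : ℤ), 2)

/-- The free sites of the translated box. -/
noncomputable def pairU (k : ℕ) (x : Pt) : Finset Pt :=
  pairSh (pairT k x) (box (16 * k) \ ring (16 * k))

/-- The translated arm event. -/
def pairA (k : ℕ) (x : Pt) (M : Finset Pt) : Prop := ArmD k (pairSh (-pairT k x) M)

theorem pair_mem_U {k : ℕ} {x w : Pt} : w ∈ pairU k x ↔ x.1 - 8 * k + 2 ≤ w.1 ∧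
    w.1 ≤ x.1 + 8 * k - 1 ∧ x.2 ≤ w.2 ∧ w.2 ≤ x.2 + 16 * k - 3 := by
  simp only [pairU, pair_mem_sh, mem_sdiff, mem_ring, mem_box, OnRing, pairT, Prod.fst_sub,
    Prod.snd_sub]
  push_cast
  omega

theorem pair_mem_Td {k : ℕ} {x a w : Pt} (ha : a ∈ pairU k x) (h : Star a w) (hw : w ∉ pairU k x)
    (h2 : x.2 ≤ w.2) : w - pairT k x ∈ Td k := by
  rw [pair_mem_U] at ha hw
  rw [Star, nrm_eq_iff] at h
  simp only [Td, mem_filter, mem_ring, mem_box, OnRing, pairT, Prod.fst_sub, Prod.snd_sub] at h ⊢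
  push_cast
  omega

theorem pair_A_mono (k : ℕ) (x : Pt) (M M' : Finset Pt) (h : M ⊆ M') (m : pairA k x M) :
    pairA k x M' := by
  obtain ⟨b, hb, c, h1, h2⟩ := m
  exact ⟨b, hb, c, pair_mono (pair_sh_mono h) h1, h2⟩

theorem pair_A_mem (k : ℕ) (x : Pt) (K : Finset Pt) (m : pairA k x K) : x ∈ K := by
  obtain ⟨b, -, c, h1, -⟩ := m
  simpa [pair_mem_sh, pairT] using h1.1

theorem pair_arm_le (hm : T_MONO) {n k : ℕ} {x : Pt} (hx : x.2 = 1) {T : Finset Pt}
    (hT : T ⊆ box n \ (pairU k x ∩ box n)) :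
    Pr (einc (pairU k x ∩ box n)) (pairU k x ∩ box n) T (pairA k x) ≤ piD k := by
  have h1 : ∀ w ∈ T, w ∈ box n ∧ w ∉ pairU k x := fun w m => by
    simpa [imp_not_comm, (mem_sdiff.1 (hT m)).1] using hT m
  refine (hm _ (pairU k x) T (pairSh (pairT k x) (Td k)) _ inter_subset_left
    (disjoint_left.2 fun w m => (h1 w m).2) (disjoint_left.2 fun w m m' => ?_) ?_
    (pair_A_mono k x)).trans (le_of_eq ?_)
  · exact (mem_sdiff.1 (pair_mem_sh.1 m')).2 (mem_filter.1 (pair_mem_sh.1 m)).1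
  · rintro w m ⟨u, hu, j⟩
    exact pair_mem_sh.2 (pair_mem_Td (mem_inter.1 hu).1 j.star (h1 w m).2
      (hx ▸ (mem_box.1 (h1 w m).1).2.2.1))
  · rw [piD, eD, eS_ring]
    exact congrArg₂ (· / ·) (pair_Zf_sh _ _ _ (ArmD k)) (pair_Zf_sh _ _ _ fun _ => True)

theorem pair_arm_of_up {n k : ℕ} (hk : 1 ≤ k) (hn : 16 * k ≤ n) {x : Pt} (hx : x.2 = 1)
    {M : Finset Pt} (hM : M ⊆ box n) (h : Up n M x) :
    pairA k x (pairCl x (M ∩ (pairU k x ∩ box n))) := by
  obtain ⟨b, hb, h1, h2⟩ := h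
  have s1 := pair_cl_subset x (M ∩ (pairU k x ∩ box n))
  have key : b ∈ pairCl x (M ∩ (pairU k x ∩ box n)) ∨
      pairA k x (pairCl x (M ∩ (pairU k x ∩ box n))) := by
    clear hb
    induction h2 with
    | refl =>
      exact .inl (pair_mem_cl.2 ⟨mem_inter.2 ⟨h1, mem_inter.2
        ⟨pair_mem_U.2 (by omega), hM h1⟩⟩, .refl⟩)
    | @tail a c _ j ih =>
      refine ih.elim (fun i => ?_) .inr
      by_cases m : c ∈ pairU k x
      · exact .inl (pair_cl_step i j.1 (mem_inter.2 ⟨j.2, mem_inter.2 ⟨m, hM j.2⟩⟩))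
      · refine .inr ⟨_, pair_mem_Td (mem_inter.1 (mem_inter.1 (s1 i)).2).1 j.1 m
          (hx ▸ (mem_box.1 (hM j.2)).2.2.1), a + -pairT k x, ?_, ?_⟩
        · simpa [pairT] using pair_path_sh (-pairT k x) (pair_cl_path i)
        · simpa [Star, ← sub_eq_add_neg] using j.1
  refine key.resolve_left fun m => ?_
  have := pair_mem_U.1 (mem_inter.1 (mem_inter.1 (s1 m)).2).1
  omega

theorem pair_inter {U T M Λ : Finset Pt} (hM : M ⊆ U) (hT : T ⊆ Λ \ U) : (M ∪ T) ∩ U = M := by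
  ext w
  have := @hM w
  have := fun m => (mem_sdiff.1 (@hT w m)).2
  simp only [mem_inter, mem_union]
  tauto

theorem pair_E1 (hm : T_MONO) {n k : ℕ} {x : Pt} (hx : x.2 = 1) {B : Finset Pt → Prop}
    (hB : ∀ M M', M ⊆ M' → B M → B M') :
    Pp n (fun M => pairA k x (pairCl x (M ∩ (pairU k x ∩ box n))) ∧
      B (M \ pairCl x (M ∩ (pairU k x ∩ box n)))) ≤ piD k * Pp n B := by
  refine pair_cond (U := pairU k x ∩ box n) inter_subset_right fun T hT => ?_
  refine le_trans (Pr_mono fun M k m => ?_) ((pair_bhk hm (subset_sdiff.1 hT).2 (pair_A_mem _ x)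
    (B := fun M => B (M ∪ T)) fun M M' k => hB _ _ (union_subset_union k le_rfl)).trans
    (mul_le_mul_of_nonneg_right (le_trans (Pr_mono fun M _ m =>
      pair_A_mono _ _ _ _ (pair_cl_subset x M) m) (pair_arm_le hm hx hT)) Pr_nonneg))
  rw [pair_inter k hT] at m
  refine ⟨m.1, hB _ _ (fun w j => ?_) m.2⟩
  simp only [mem_sdiff, mem_union] at j ⊢
  tauto

theorem t_pair (h : T_MONO) : T_PAIR := by
  intro n k x hk hn hx hx2
  refine ⟨?_, fun x' hx' hx2' hl => ?_⟩
  · have := pair_E1 h (n := n) (k := k) hx2 (B := fun _ => True) fun _ _ _ _ => trivial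
    rw [Pp, Pp, Pr_true, mul_one] at this
    exact le_trans (Pr_mono fun M m j => ⟨pair_arm_of_up hk hn hx2 m j, trivial⟩) this
  · have h1 := pair_E1 h (n := n) (k := k) hx2 (B := fun M => Up n M x') fun _ _ => pair_up_mono
    have h2 := pair_E1 h (n := n) (k := k) hx2' (B := fun M => Up n M x) fun _ _ => pair_up_mono
    have hd : Disjoint (pairU k x ∩ box n) (pairU k x' ∩ box n) := disjoint_left.2 fun w m m' => by
      have := pair_mem_U.1 (mem_inter.1 m).1
      have := pair_mem_U.1 (mem_inter.1 m').1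
      omega
    refine le_trans (Pr_mono fun M m j => ?_) (Pr_or_le.trans ((add_le_add h1 h2).trans_eq (by ring)))
    exact (pair_two hd (mem_inter.2 ⟨pair_mem_U.2 (by omega), hx⟩) j.1).imp
      (fun i => ⟨pair_arm_of_up hk hn hx2 m j.1, i⟩) fun i => ⟨pair_arm_of_up hk hn hx2' m j.2, i⟩

end Pool.Agent.P.MP_347bd1_pr
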