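import Pool.Agent.P.MP_347bd1_pr.Stmts2

/-!
The boundary arm estimate in the Dobrushin box.
-/

namespace Pool.Agent.P.MP_347bd1_pr

open Classical Finset Filter Topology
open scoped ENNReal NNReal

theorem pi1_alg {C g k a b w : ℝ} (hk : 0 < k) (hg : 0 < g) (ha : a ≤ C / k ^ 2)
    (hb : b ≤ C / k ^ 2) (hw : w ≤ 3 * g ^ 4 * (C / k ^ 2) ^ 2) :
    g / k * √a + g ^ 2 / k * b / (2 * (g / k)) + w / (2 * (g / k) * (g ^ 2 / k)) ≤
      (√C + C / 2 + 3 * C ^ 2 / 2) * g / k ^ 2 := by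
  have h1 : √a ≤ √C / k := by
    refine (Real.sqrt_le_sqrt ha).trans (le_of_eq ?_)
    rw [Real.sqrt_div' _ (by positivity), Real.sqrt_sq hk.le]
  calc _ ≤ g / k * (√C / k) + g ^ 2 / k * (C / k ^ 2) / (2 * (g / k)) +
        3 * g ^ 4 * (C / k ^ 2) ^ 2 / (2 * (g / k) * (g ^ 2 / k)) := by gcongr
    _ = _ := by field_simp

theorem pi1_omg {w a b x y : ℝ≥0∞} {θ : ℝ≥0} {l : ℕ} {B g : ℝ} (ha : a ≠ ∞) (hb : b ≠ ∞)
    (h : w ≤ θ ^ (2 * l) * a * b + y * a + b * x) (hx : x ≤ 2⁻¹ ^ l * a) (hy : y ≤ 2⁻¹ ^ l * b)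
    (ha' : a.toReal ≤ B) (hb' : b.toReal ≤ B) (h1 : (θ : ℝ) ^ (2 * l) ≤ g) (h2 : 2⁻¹ ^ l ≤ g) :
    w.toReal ≤ 3 * g * B ^ 2 := by
  have h3 : w ≤ (θ ^ (2 * l) + 2⁻¹ ^ l + 2⁻¹ ^ l) * (a * b) := by
    refine h.trans ?_
    calc _ ≤ θ ^ (2 * l) * a * b + 2⁻¹ ^ l * b * a + b * (2⁻¹ ^ l * a) := by gcongr
      _ = _ := by ring
  have t1 : (θ : ℝ≥0∞) ^ (2 * l) ≠ ∞ := ENNReal.pow_ne_top ENNReal.coe_ne_top
  have t2 : (2⁻¹ : ℝ≥0∞) ^ l ≠ ∞ := ENNReal.pow_ne_top (by simp)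
  have h4 := ENNReal.toReal_mono (ENNReal.mul_ne_top
    (ENNReal.add_ne_top.2 ⟨ENNReal.add_ne_top.2 ⟨t1, t2⟩, t2⟩) (ENNReal.mul_ne_top ha hb)) h3
  rw [ENNReal.toReal_mul, ENNReal.toReal_mul, ENNReal.toReal_add (ENNReal.add_ne_top.2 ⟨t1, t2⟩) t2,
    ENNReal.toReal_add t1 t2, ENNReal.toReal_pow, ENNReal.toReal_pow, ENNReal.coe_toReal,
    ENNReal.toReal_inv, ENNReal.toReal_ofNat] at h4
  have h5 : 0 ≤ g := le_trans (by positivity) h2
  refine h4.trans (mul_le_mul (by linarith) ?_ (by positivity) (by positivity))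
  rw [sq]
  exact mul_le_mul ha' hb' ENNReal.toReal_nonneg (ENNReal.toReal_nonneg.trans ha')

theorem pi1_xe (h7 : T_XE) {n : ℕ} {p v : Pt} (hp : p ∈ intr n) (hp' : p.2 = 1) (hv : v ∈ intr n)
    (hne : v ≠ p) {E : Finset Edge} (hE : E ⊆ eS n (ring n)) :
    Zs n {v, p} E / Zs n ∅ E ≤ xc⁻¹ * G1 n v (E ∪ {(p, true)}) := by
  obtain ⟨e1, e2⟩ := h7 n E p v hE hp hp' hv hne
  rw [G1, e1, e2, mul_div_assoc, ← mul_assoc, inv_mul_cancel₀ xc_pos.ne', one_mul]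

theorem t_pi1 (h1 : T_TS) (h2 : T_DOB) (h3 : T_NI) (h4 : T_LD) (h5 : T_FLATU) (h6 : T_DHNL)
    (h7 : T_XE) (h8 : T_ZEQ) : T_PI1 := by
  obtain ⟨c1, hc1, h3⟩ := h3
  obtain ⟨L0, kL, h4⟩ := h4
  obtain ⟨θ, hθ, h3⟩ := h3 (max 4 L0) (le_max_left _ _)
  obtain ⟨C, h5⟩ := h5
  obtain ⟨c, hc, kc, h6⟩ := h6
  have hθ1 : (θ : ℝ) < 1 := hθ
  have hθ0 : (0 : ℝ) ≤ θ := θ.2
  obtain ⟨m, hm⟩ : ∃ m : ℝ, m = max ((θ : ℝ) ^ 2) 2⁻¹ := ⟨_, rfl⟩
  have m0 : 0 < m := hm ▸ lt_max_of_lt_right (by norm_num)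
  have m1 : m < 1 := hm ▸ max_lt (by nlinarith) (by norm_num)
  have r4 : √(√m) ^ 4 = m := by
    rw [show 4 = 2 * 2 from rfl, pow_mul, Real.sq_sqrt (Real.sqrt_nonneg _), Real.sq_sqrt m0.le]
  have r0 : 0 < √(√m) := by positivity
  have hL : 4 ≤ max 4 L0 := le_max_left _ _
  refine ⟨8 * max 4 L0 * c1, max 1 (max kL kc),
    xc⁻¹ ^ 2 / 2 * (√C + C / 2 + 3 * C ^ 2 / 2) / c, √(√m), Nat.mul_pos (by omega) hc1, r0,
    by rw [Real.sqrt_lt' one_pos, Real.sqrt_lt' (by norm_num)]; simpa using m1, ?_⟩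
  intro k hk l hl
  have k1 : 1 ≤ k := (le_max_left _ _).trans hk
  have k2 : kL ≤ k := ((le_max_left _ _).trans (le_max_right _ _)).trans hk
  have k3 : kc ≤ k := ((le_max_right _ _).trans (le_max_right _ _)).trans hk
  have k0 : (0 : ℝ) < k := by exact_mod_cast k1
  obtain ⟨d1, d2, d3, d4, d5⟩ := h2 k k1
  have iA : pA k ∈ intr (16 * k) := by rw [mem_intr]; simp only [pA]; omega
  have iB : pB k ∈ intr (16 * k) := by rw [mem_intr]; simp only [pB]; omega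
  have iV : pV k ∈ intr (16 * k) := by rw [mem_intr]; simp only [pV]; omega
  have nA : pV k ≠ pA k := by simp only [pV, pA, ne_eq, Prod.mk.injEq]; omega
  have nB : pV k ≠ pB k := by simp only [pV, pB, ne_eq, Prod.mk.injEq]; omega
  have nAB : pA k ≠ pB k := by simp only [pA, pB, ne_eq, Prod.mk.injEq]; omega
  have gA := good_ring iA rfl
  have gB := good_ring iB rfl
  obtain ⟨E2, K, Gd, hB, hT⟩ := h1 (16 * k) (ring (16 * k)) (Td k) (LfD k) (RgD k)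
    {(pA k, true)} {(pB k, true)} (pV k) {pA k, pB k} {pV k, pA k} xc⁻¹ (ArmD k) d1 gA gB
    (by simpa using nAB)
    (fun e he p hp d hd => by
      rw [mem_singleton.1 he] at hd
      rw [mem_intr] at hp ⊢
      rcases (cr_eq_iff (p := pB k) (d := .S)).1 hd with ⟨rfl, rfl⟩ | ⟨rfl, rfl⟩
      · simp [pB, Dir.vec]
      · simp [pB, Dir.vec] at hp)
    iV
    ⟨pV k, by
      refine mem_sdiff.2 ⟨mem_ring.2 ⟨mem_box.2 ?_, Or.inr (Or.inr (Or.inl rfl))⟩, fun h => ?_⟩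
      · simp only [pV]
        omega
      · refine (mem_filter.1 h).2 ?_
        simp only [pV, true_and]
        omega, Or.inl rfl, Or.inl rfl⟩
    d2 d3 (Set.mem_insert _ _) (inv_pos.2 xc_pos).le
    (fun E hE => pi1_xe h7 iA rfl iV nA hE)
    (fun E hE => by
      rw [Zs_congr (A' := {pV k, pB k}) fun p _ => ?_]
      · exact pi1_xe h7 iB rfl iV nB hE
      · simp only [Set.mem_symmDiff, Set.mem_insert_iff, Set.mem_singleton_iff]
        constructor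
        · tauto
        · rintro (rfl | rfl)
          · tauto
          · have := nB.symm
            have := nAB.symm
            tauto)
    d5
  have hl' : 8 * (max 4 L0 * (c1 * 1 * 5 ^ (4 * l))) ≤ k := by
    refine le_of_eq_of_le ?_ hl
    rw [pow_mul]
    ring
  have w := h3 (16 * k) (ring (16 * k)) {(pA k, true)} {(pB k, true)} (pV k) 1 l k E2 K Gd gA gB
    iV le_rfl (by exact_mod_cast hl') d4 hB
  have fA := (h5 k k1 (pA k) (.inl rfl)).1 (pV k) (by simp) le_rfl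
  have fB := (h5 k k1 (pB k) (.inr rfl)).1 (pV k) (by simp) le_rfl
  have e1 : (C : ℝ) * ((pV k).2 : ℤ) = C := by simp [pV]
  rw [e1] at fA fB
  have g0 : 0 < √(√m) ^ l := pow_pos r0 l
  have g4 : (√(√m) ^ l) ^ 4 = m ^ l := by rw [← pow_mul, mul_comm, pow_mul, r4]
  have w' := pi1_omg (g := (√(√m) ^ l) ^ 4) (hN_ne_top _ _) (hN_ne_top _ _) w
    (h4 _ (le_max_right _ _) k k2 (pA k) (c1 * 1) l (.inl rfl) (by omega) hl')
    (h4 _ (le_max_right _ _) k k2 (pB k) (c1 * 1) l (.inr rfl) (by omega) hl') fA fB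
    (by rw [g4, pow_mul, hm]; exact pow_le_pow_left₀ (by positivity) (le_max_left _ _) l)
    (by rw [g4, hm]; exact pow_le_pow_left₀ (by positivity) (le_max_right _ _) l)
  have b1 := (hT _ _ (div_pos g0 k0) (div_pos (pow_pos g0 2) k0)).trans
    (mul_le_mul_of_nonneg_left (pi1_alg k0 g0 fA fB w') (by positivity))
  have z := h8 (16 * k) (ring (16 * k)) (Td k) {pA k, pB k} (by omega) d1.good d1.hT d2
  have b2 := h6 k k3
  have z0 := Zs_pos (16 * k) (eD k)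
  have b3 : 0 < c / k * Zs (16 * k) ∅ (eD k) := by positivity
  rw [le_div_iff₀ z0] at b2
  unfold piD Pr
  change _ * (_ / Zf (eS (16 * k) (ring (16 * k))) _ _ _) ≤ _
  rw [z]
  change Zf (eD k) _ _ _ / Zs _ _ (eD k) ≤ _ at b1
  rw [div_le_iff₀ z0] at b1
  calc _ ≤ k * ((xc⁻¹ ^ 2 / 2 * ((√C + C / 2 + 3 * C ^ 2 / 2) * √(√m) ^ l / k ^ 2) *
        Zs (16 * k) ∅ (eD k)) / (c / k * Zs (16 * k) ∅ (eD k))) :=
        mul_le_mul_of_nonneg_left (div_le_div₀ (Zf_nonneg.trans b1) b1 b3 b2) k0.le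
    _ = _ := by field_simp

theorem t_pi (h : T_PI1) : T_PI := by
  obtain ⟨D, k0, C, ρ, hD, r0, r1, h⟩ := h
  have l0 : 0 < Real.log 625 := Real.log_pos (by norm_num)
  obtain ⟨a, ha⟩ : ∃ a : ℝ, a = -Real.log ρ / Real.log 625 := ⟨_, rfl⟩
  have a0 : 0 < a := ha ▸ div_pos (neg_pos.2 (Real.log_neg r0 r1)) l0
  have e : ρ = 625 ^ (-a) := by
    rw [Real.rpow_def_of_pos (by norm_num), ha, neg_div, neg_neg, mul_div_cancel₀ _ l0.ne',
      Real.exp_log r0]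
  have D0 : (0 : ℝ) < D := by exact_mod_cast hD
  have key : ∀ᶠ k : ℕ in atTop, k * piD k ≤ |C| * (625 * D) ^ a * (k : ℝ) ^ (-a) := by
    filter_upwards [eventually_ge_atTop k0, eventually_ge_atTop D] with k hk hk'
    have k1 : (0 : ℝ) < k := D0.trans_le (by exact_mod_cast hk')
    have h1 := Nat.pow_log_le_self 625 (Nat.div_pos hk' hD).ne'
    have h2 := (Nat.div_lt_iff_lt_mul hD).1 (Nat.lt_pow_succ_log_self (b := 625) (by norm_num) (k / D))
    generalize Nat.log 625 (k / D) = l at h1 h2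
    refine (h k hk l ((Nat.mul_le_mul_left D h1).trans (Nat.mul_div_le k D))).trans ?_
    rw [mul_assoc]
    refine mul_le_mul (le_abs_self C) ?_ (by positivity) (abs_nonneg C)
    have h3 : (k : ℝ) / (625 * D) ≤ 625 ^ l := by
      rw [div_le_iff₀ (by positivity)]
      have : (k : ℝ) < 625 ^ (l + 1) * D := by exact_mod_cast h2
      rw [pow_succ] at this
      linarith
    calc ρ ^ l = ((625 : ℝ) ^ l) ^ (-a) := by
          rw [e, ← Real.rpow_natCast, ← Real.rpow_natCast, ← Real.rpow_mul (by norm_num),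
            ← Real.rpow_mul (by norm_num), mul_comm]
      _ ≤ (k / (625 * D)) ^ (-a) := Real.rpow_le_rpow_of_nonpos (by positivity) h3 (by linarith)
      _ = _ := by
          rw [Real.div_rpow k1.le (by positivity), Real.rpow_neg (by positivity : (0 : ℝ) ≤ 625 * D),
            div_inv_eq_mul, mul_comm]
  have nn : ∀ k, 0 ≤ piD k := fun k => Pr_nonneg
  constructor
  · refine Summable.of_norm_bounded_eventually_nat
      (g := fun k : ℕ => |C| * (625 * D) ^ a * (k : ℝ) ^ (-a - 1))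
      ((Real.summable_nat_rpow.2 (by linarith)).mul_left _) ?_
    filter_upwards [key, eventually_ge_atTop 1] with k hk k1
    have k0 : (0 : ℝ) < k := by exact_mod_cast k1
    rw [Real.norm_of_nonneg (nn k), Real.rpow_sub_one k0.ne', ← mul_div_assoc, le_div_iff₀ k0,
      mul_comm]
    exact hk
  · refine squeeze_zero' (Eventually.of_forall fun k => mul_nonneg k.cast_nonneg (nn k)) key ?_
    simpa using ((tendsto_rpow_neg_atTop a0).comp tendsto_natCast_atTop_atTop).const_mul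
      (|C| * (625 * D) ^ a)

end Pool.Agent.P.MP_347bd1_pr
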