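import Pool.Agent.P.MP_347bd1_pr.Stmts2

/-!
The plus boundary condition: second moment bound for the number of bottom sites joined to the top.
-/

namespace Pool.Agent.P.MP_347bd1_pr

open Classical Finset Filter Topology
open scoped ENNReal NNReal

/-- Expectation for the plus boundary condition. -/
noncomputable def plus_E (n : ℕ) (g : Finset Pt → ℝ) : ℝ :=
  (∑ M ∈ (box n).powerset, g M * xc ^ (cut (M ∪ ∅) ∩ einc (box n)).card) /
    Zf (einc (box n)) (box n) ∅ fun _ => True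

theorem plus_E_ind (n : ℕ) (A : Finset Pt → Prop) [∀ M, Decidable (A M)] :
    plus_E n (fun M => if A M then 1 else 0) = Pp n A := by
  simp only [plus_E, Pp, Pr]
  congr 1
  rw [Zf]
  exact sum_congr rfl fun M _ => by split_ifs <;> simp

theorem plus_E_mono {n : ℕ} {g g' : Finset Pt → ℝ} (h : ∀ M ⊆ box n, g M ≤ g' M) :
    plus_E n g ≤ plus_E n g' :=
  div_le_div_of_nonneg_right (sum_le_sum fun M hM =>
    mul_le_mul_of_nonneg_right (h M (mem_powerset.1 hM)) (pow_pos xc_pos _).le) Zf_nonneg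

theorem plus_E_add (n : ℕ) (g g' : Finset Pt → ℝ) :
    plus_E n (fun M => g M + g' M) = plus_E n g + plus_E n g' := by
  simp only [plus_E, add_mul, sum_add_distrib, add_div]

theorem plus_E_mul (n : ℕ) (c : ℝ) (g : Finset Pt → ℝ) :
    plus_E n (fun M => c * g M) = c * plus_E n g := by
  simp only [plus_E, mul_assoc, ← mul_sum, mul_div_assoc]

theorem plus_E_sum {ι : Type*} (n : ℕ) (s : Finset ι) (g : ι → Finset Pt → ℝ) :
    plus_E n (fun M => ∑ i ∈ s, g i M) = ∑ i ∈ s, plus_E n (g i) := by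
  simp only [plus_E, sum_mul, ← sum_div]
  rw [sum_comm]

theorem plus_sp_end {M : Finset Pt} {a b : Pt} (h : SPath M a b) : b ∈ M := by
  obtain ⟨h1, h2⟩ := h
  induction h2 with
  | refl => exact h1
  | tail _ k _ => exact k.2

theorem plus_sp_symm {M : Finset Pt} {a b : Pt} (h : SPath M a b) : SPath M b a := by
  refine ⟨plus_sp_end h, ?_⟩
  obtain ⟨h1, h2⟩ := h
  induction h2 with
  | refl => exact .refl
  | tail m k ih => exact .head ⟨k.1.symm, plus_sp_end ⟨h1, m⟩⟩ ih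

theorem plus_sp_mono {M M' : Finset Pt} {a b : Pt} (h : SPath M a b) (k : M ⊆ M') :
    SPath M' a b := ⟨k h.1, rtg_mono (fun _ _ m => ⟨m.1, k m.2⟩) h.2⟩

theorem plus_tb_sp {n : ℕ} {M : Finset Pt} :
    TB n (fun _ => false) M ↔ ∃ a b : Pt, a.2 = n ∧ b.2 = 1 ∧ SPath M a b := by
  simp only [TB, lk_const_iff, SPath]
  exact ⟨fun ⟨a, b, h1, h2, h3, h4⟩ => ⟨a, b, h2, h3, h1, h4⟩,
    fun ⟨a, b, h2, h3, h1, h4⟩ => ⟨a, b, h1, h2, h3, h4⟩⟩

theorem plus_tb_iff {n : ℕ} {M : Finset Pt} (hM : M ⊆ box n) :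
    TB n (fun _ => false) M ↔ ∃ i ∈ Icc (1 : ℤ) n, Up n M (i, 1) := by
  rw [plus_tb_sp]
  constructor
  · rintro ⟨a, ⟨i, j⟩, h1, h2, h3⟩
    simp only at h2
    subst h2
    have := mem_box.1 (hM (plus_sp_end h3))
    exact ⟨i, mem_Icc.2 ⟨this.1, this.2.1⟩, a, h1, plus_sp_symm h3⟩
  · rintro ⟨i, -, a, h1, h2⟩
    exact ⟨a, (i, 1), h1, rfl, plus_sp_symm h2⟩

theorem plus_tb_row {n : ℕ} (hn : 2 ≤ n) {M : Finset Pt} (hM : M ⊆ box n)
    (h : TB n (fun _ => false) M) : 1 ≤ (row2 n M).card := by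
  obtain ⟨a, b, h1, h2, h3, h4⟩ := plus_tb_sp.1 h
  have key : ∀ w, Relation.ReflTransGen (fun u w => Star u w ∧ w ∈ M) a w →
      (∃ y : Pt, y.2 = 2 ∧ SPath (M.filter fun w => 2 ≤ w.2) a y) ∨
        (2 ≤ w.2 ∧ SPath (M.filter fun w => 2 ≤ w.2) a w) := by
    intro w hw
    induction hw with
    | refl =>
      have : 2 ≤ a.2 := by omega
      exact Or.inr ⟨this, mem_filter.2 ⟨h3, this⟩, .refl⟩
    | @tail u w _ k ih =>
      rcases ih with ih | ih
      · exact Or.inl ih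
      by_cases e : u.2 = 2
      · exact Or.inl ⟨u, e, ih.2⟩
      have h5 := nrm_le_iff.1 k.1.le
      simp only [Prod.fst_sub, Prod.snd_sub] at h5
      have h6 : 2 ≤ w.2 := by omega
      exact Or.inr ⟨h6, ih.2.1, ih.2.2.tail ⟨k.1, mem_filter.2 ⟨k.2, h6⟩⟩⟩
  rcases key b h4 with ⟨y, k1, k2⟩ | k
  · exact card_pos.2 ⟨y, mem_filter.2 ⟨hM (mem_filter.1 (plus_sp_end k2)).1, k1, a, h1,
      plus_sp_symm k2⟩⟩
  · omega

theorem plus_up_down {n : ℕ} {M M' : Finset Pt} {i : ℤ} (h : Up n M' (i, 2)) (k : M' ⊆ M)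
    (hx : (i, (1 : ℤ)) ∈ M) : Up n M (i, 1) := by
  obtain ⟨b, h1, h2⟩ := h
  have h3 := plus_sp_mono h2 k
  exact ⟨b, h1, hx, .head ⟨by simp [Star, nrm], h3.1⟩ h3.2⟩

theorem plus_row_le {n : ℕ} (hn : 1 ≤ n) {i : ℤ} (hi : i ∈ Icc (1 : ℤ) n) :
    Pp n (fun M => Up n (M.filter fun w => 2 ≤ w.2) (i, 2)) ≤ 82 * Pp n fun M => Up n M (i, 1) := by
  have hx : (i, (1 : ℤ)) ∈ box n := by
    rw [mem_Icc] at hi; rw [mem_box]; simp only; omega
  unfold Pp
  rw [Pr_add_not _ fun M => (i, (1 : ℤ)) ∈ M]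
  have h1 : Pr (einc (box n)) (box n) ∅ (fun M => Up n (M.filter fun w => 2 ≤ w.2) (i, 2) ∧
      (i, (1 : ℤ)) ∈ M) ≤ Pr (einc (box n)) (box n) ∅ fun M => Up n M (i, 1) :=
    Pr_mono fun M _ h => plus_up_down h.1 (filter_subset _ _) h.2
  have h2 := Pr_insert_le (F := einc (box n)) (T := ∅)
    (A := fun M => Up n (M.filter fun w => 2 ≤ w.2) (i, 2)) hx
  have h3 : Pr (einc (box n)) (box n) ∅ (fun M => (i, (1 : ℤ)) ∈ M ∧
      Up n ((M.erase (i, 1)).filter fun w => 2 ≤ w.2) (i, 2)) ≤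
      Pr (einc (box n)) (box n) ∅ fun M => Up n M (i, 1) :=
    Pr_mono fun M _ h => plus_up_down h.2 ((filter_subset _ _).trans (erase_subset _ _)) h.1
  have h4 : Pr (einc (box n)) (box n) ∅ (fun M => Up n (M.filter fun w => 2 ≤ w.2) (i, 2) ∧
      ¬ (i, (1 : ℤ)) ∈ M) ≤ Pr (einc (box n)) (box n) ∅ fun M => (i, (1 : ℤ)) ∉ M ∧
        Up n (M.filter fun w => 2 ≤ w.2) (i, 2) := Pr_mono fun M _ h => h.symm
  linarith

/-- The decay profile. -/
noncomputable def plus_q (k : ℕ) : ℝ := if k = 0 then 1 else piD k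

theorem plus_pi_nonneg (k : ℕ) : 0 ≤ piD k := Pr_nonneg

theorem plus_q_nonneg (k : ℕ) : 0 ≤ plus_q k := by
  unfold plus_q; split_ifs; exacts [zero_le_one, plus_pi_nonneg k]

theorem plus_q_sum (h : Summable piD) (n : ℕ) (i : ℤ) (hi : i ∈ Icc (1 : ℤ) n) :
    ∑ j ∈ Icc (1 : ℤ) n, plus_q ((i - j).natAbs / 16) ≤ 32 * (1 + ∑' k, piD k) := by
  rw [mem_Icc] at hi
  rw [← sum_fiberwise_of_maps_to (t := range (n + 1)) (g := fun j => (i - j).natAbs / 16)
    fun j hj => by rw [mem_Icc] at hj; rw [mem_range]; omega]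
  calc _ ≤ ∑ k ∈ range (n + 1), 32 * plus_q k := by
        refine sum_le_sum fun k _ => ?_
        rw [sum_congr rfl (g := fun _ => plus_q k) fun j hj => by rw [(mem_filter.1 hj).2],
          sum_const, nsmul_eq_mul]
        refine mul_le_mul_of_nonneg_right ?_ (plus_q_nonneg k)
        have : (Icc (1 : ℤ) n).filter (fun j => (i - j).natAbs / 16 = k) ⊆
            Icc (i - 16 * k - 15) (i - 16 * k) ∪ Icc (i + 16 * k) (i + 16 * k + 15) := by
          intro j hj
          have := (mem_filter.1 hj).2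
          rw [mem_union, mem_Icc, mem_Icc]; omega
        have := (card_le_card this).trans (card_union_le _ _)
        rw [Int.card_Icc, Int.card_Icc] at this
        exact_mod_cast (by omega : _ ≤ 32)
    _ ≤ _ := by
        rw [← mul_sum, sum_range_succ']
        refine mul_le_mul_of_nonneg_left ?_ (by norm_num)
        have h1 := h.sum_le_tsum (range (n + 1)) fun k _ => plus_pi_nonneg k
        rw [sum_range_succ'] at h1
        have h2 := plus_pi_nonneg 0
        simp only [plus_q, Nat.add_eq_zero_iff, one_ne_zero, and_false, if_false, if_true]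
        linarith

theorem plus_pair (h1 : T_PAIR) {n : ℕ} {i j : ℤ} (hi : i ∈ Icc (1 : ℤ) n)
    (hj : j ∈ Icc (1 : ℤ) n) : Pp n (fun M => Up n M (i, 1) ∧ Up n M (j, 1)) ≤
      (Pp n (fun M => Up n M (i, 1)) + Pp n fun M => Up n M (j, 1)) *
        plus_q ((i - j).natAbs / 16) := by
  rw [mem_Icc] at hi hj
  have hx : (i, (1 : ℤ)) ∈ box n := by rw [mem_box]; simp only; omega
  have hy : (j, (1 : ℤ)) ∈ box n := by rw [mem_box]; simp only; omega
  unfold plus_q
  split_ifs with h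
  · have a1 : Pp n (fun M => Up n M (i, 1) ∧ Up n M (j, 1)) ≤ Pp n fun M => Up n M (i, 1) :=
      Pr_mono fun _ _ k => k.1
    have a2 : 0 ≤ Pp n fun M => Up n M (j, 1) := Pr_nonneg
    linarith
  rcases le_total i j with k | k
  · have := (h1 n ((i - j).natAbs / 16) (j, 1) (by omega) (by omega) hy rfl).2 (i, 1) hx rfl
      (by simp only; omega)
    rw [add_comm]
    exact le_trans (Pr_mono fun _ _ m => m.symm) this
  · exact (h1 n ((i - j).natAbs / 16) (i, 1) (by omega) (by omega) hx rfl).2 (j, 1) hy rfl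
      (by simp only; omega)

theorem plus_second (h1 : T_PAIR) (h : Summable piD) (n : ℕ) :
    ∑ i ∈ Icc (1 : ℤ) n, Pp n (fun M => Up n M (i, 1)) ≤
      64 * (1 + ∑' k, piD k) * Pp n (TB n fun _ => false) := by
  have hC : 0 < 64 * (1 + ∑' k, piD k) := by
    have : 0 ≤ ∑' k, piD k := tsum_nonneg plus_pi_nonneg
    positivity
  have a1 : ∑ i ∈ Icc (1 : ℤ) n, ∑ j ∈ Icc (1 : ℤ) n,
      Pp n (fun M => Up n M (i, 1) ∧ Up n M (j, 1)) ≤
      64 * (1 + ∑' k, piD k) * ∑ i ∈ Icc (1 : ℤ) n, Pp n fun M => Up n M (i, 1) := by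
    have b1 : ∑ i ∈ Icc (1 : ℤ) n, ∑ j ∈ Icc (1 : ℤ) n,
        Pp n (fun M => Up n M (i, 1)) * plus_q ((i - j).natAbs / 16) ≤
        32 * (1 + ∑' k, piD k) * ∑ i ∈ Icc (1 : ℤ) n, Pp n fun M => Up n M (i, 1) := by
      rw [mul_sum]
      refine sum_le_sum fun i hi => ?_
      rw [← mul_sum, mul_comm]
      exact mul_le_mul_of_nonneg_right (plus_q_sum h n i hi) Pr_nonneg
    have b2 : ∑ i ∈ Icc (1 : ℤ) n, ∑ j ∈ Icc (1 : ℤ) n,
        Pp n (fun M => Up n M (j, 1)) * plus_q ((i - j).natAbs / 16) =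
        ∑ i ∈ Icc (1 : ℤ) n, ∑ j ∈ Icc (1 : ℤ) n,
        Pp n (fun M => Up n M (i, 1)) * plus_q ((i - j).natAbs / 16) := by
      rw [sum_comm]
      refine sum_congr rfl fun i _ => sum_congr rfl fun j _ => ?_
      rw [← neg_sub i j, Int.natAbs_neg]
    refine (sum_le_sum fun i hi => sum_le_sum fun j hj => plus_pair h1 hi hj).trans ?_
    simp only [add_mul, sum_add_distrib]
    rw [b2]
    linarith
  generalize 64 * (1 + ∑' k, piD k) = C at hC a1 ⊢
  have a2 : plus_E n (fun M => 2 * C * ∑ i ∈ Icc (1 : ℤ) n, if Up n M (i, 1) then 1 else 0) ≤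
      plus_E n fun M => (∑ i ∈ Icc (1 : ℤ) n, ∑ j ∈ Icc (1 : ℤ) n,
        if Up n M (i, 1) ∧ Up n M (j, 1) then 1 else 0) +
        C ^ 2 * if TB n (fun _ => false) M then 1 else 0 := by
    refine plus_E_mono fun M hM => ?_
    have e : (∑ i ∈ Icc (1 : ℤ) n, ∑ j ∈ Icc (1 : ℤ) n,
        if Up n M (i, 1) ∧ Up n M (j, 1) then (1 : ℝ) else 0) =
        (∑ i ∈ Icc (1 : ℤ) n, if Up n M (i, 1) then (1 : ℝ) else 0) ^ 2 := by
      rw [sq, sum_mul_sum]
      refine sum_congr rfl fun i _ => sum_congr rfl fun j _ => ?_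
      by_cases a : Up n M (i, 1) <;> by_cases b : Up n M (j, 1) <;> simp [a, b]
    rw [e]
    split_ifs with k
    · nlinarith [sq_nonneg ((∑ i ∈ Icc (1 : ℤ) n, if Up n M (i, 1) then (1 : ℝ) else 0) - C)]
    · rw [sum_eq_zero fun i hi => if_neg fun m => k ((plus_tb_iff hM).2 ⟨i, hi, m⟩)]
      simp
  simp only [plus_E_add, plus_E_mul, plus_E_sum, plus_E_ind] at a2
  refine le_of_mul_le_mul_left ?_ hC
  nlinarith

theorem t_plus (h1 : T_PAIR) (h2 : T_PI) : T_PLUS := by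
  constructor
  · obtain ⟨K, hK⟩ := exists_nat_gt (164 * (64 * (1 + ∑' k, piD k)))
    refine ⟨K, fun n hn => ?_⟩
    have a1 := plus_second h1 h2.1 n
    have hC : 0 < 64 * (1 + ∑' k, piD k) := by
      have : 0 ≤ ∑' k, piD k := tsum_nonneg plus_pi_nonneg
      positivity
    generalize 64 * (1 + ∑' k, piD k) = C at hC a1 hK
    have a2 : plus_E n (fun M => K * if K < (row2 n M).card then 1 else 0) ≤
        plus_E n fun M => ∑ i ∈ Icc (1 : ℤ) n,
          if Up n (M.filter fun w => 2 ≤ w.2) (i, 2) then 1 else 0 := by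
      refine plus_E_mono fun M _ => ?_
      have : row2 n M ⊆ ((Icc (1 : ℤ) n).filter fun i =>
          Up n (M.filter fun w => 2 ≤ w.2) (i, 2)).image fun i => (i, (2 : ℤ)) := by
        rintro ⟨i, j⟩ hy
        obtain ⟨k1, k2, k3⟩ := mem_filter.1 hy
        simp only at k2
        subst k2
        have := mem_box.1 k1
        exact mem_image.2 ⟨i, mem_filter.2 ⟨mem_Icc.2 ⟨this.1, this.2.1⟩, k3⟩, rfl⟩
      have := (card_le_card this).trans card_image_le
      rw [sum_boole]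
      split_ifs with k
      · rw [mul_one]; exact_mod_cast k.le.trans this
      · rw [mul_zero]; positivity
    simp only [plus_E_mul, plus_E_sum, plus_E_ind] at a2
    have a3 := a2.trans (sum_le_sum fun i hi => plus_row_le (by omega) hi)
    rw [← mul_sum] at a3
    have a4 : Pp n (TB n fun _ => false) ≤
        Pp n (fun M => 1 ≤ (row2 n M).card ∧ (row2 n M).card ≤ K) +
          Pp n fun M => K < (row2 n M).card :=
      le_trans (Pr_mono fun M hM k => by
        have := plus_tb_row hn hM k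
        omega) Pr_or_le
    have a5 : 0 ≤ Pp n (TB n fun _ => false) := Pr_nonneg
    have a6 : 2 * Pp n (fun M => K < (row2 n M).card) ≤ Pp n (TB n fun _ => false) := by
      refine le_of_mul_le_mul_left ?_ (show (0 : ℝ) < K by linarith)
      nlinarith
    linarith
  · have t := (h2.2.comp (Nat.tendsto_div_const_atTop (show 16 ≠ 0 by norm_num))).const_mul 32
    rw [mul_zero] at t
    refine squeeze_zero' (Eventually.of_forall fun _ => Pr_nonneg) ?_ t
    filter_upwards [eventually_ge_atTop 16] with n hn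
    have a1 : Pp n (TB n fun _ => false) ≤ ∑ i ∈ Icc (1 : ℤ) n, Pp n fun M => Up n M (i, 1) :=
      le_trans (Pr_mono fun M hM k => (plus_tb_iff hM).1 k) (Pr_exists_le _ _)
    have a2 : ∑ i ∈ Icc (1 : ℤ) n, Pp n (fun M => Up n M (i, 1)) ≤
        (Icc (1 : ℤ) n).card • piD (n / 16) := by
      refine sum_le_card_nsmul _ _ _ fun i hi => ?_
      rw [mem_Icc] at hi
      exact (h1 n (n / 16) (i, 1) (by omega) (by omega) (by rw [mem_box]; simp only; omega) rfl).1
    have a3 : ((Icc (1 : ℤ) n).card : ℝ) ≤ 32 * (n / 16 : ℕ) := by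
      have : (Icc (1 : ℤ) n).card ≤ 32 * (n / 16) := by rw [Int.card_Icc]; omega
      exact_mod_cast this
    rw [nsmul_eq_mul] at a2
    have a4 := mul_le_mul_of_nonneg_right a3 (plus_pi_nonneg (n / 16))
    simp only [Function.comp]
    linarith

end Pool.Agent.P.MP_347bd1_pr
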