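import Pool.Agent.P.MP_347bd1_pr.Stmts2

/-!
Even contours are cuts; the low temperature expansion.
-/

namespace Pool.Agent.P.MP_347bd1_pr

open Classical Finset
open scoped ENNReal NNReal

/-- The indicator of an edge. -/
noncomputable def poin_i (η : Finset Edge) (e : Edge) : ℕ := if e ∈ η then 1 else 0

theorem poin_deg (η : Finset Edge) (p : Pt) : deg η p =
    poin_i η (cr p .N) + poin_i η (cr p .E) + poin_i η (cr p .S) + poin_i η (cr p .W) := by
  rw [deg_eq4]
  simp only [poin_i]

/-- The number of contour edges on a path from the top left corner. -/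
noncomputable def poin_f (n : ℕ) (η : Finset Edge) (x y : ℤ) : ℕ :=
  (∑ i ∈ Ico (1 : ℤ) x, poin_i η ((i, (n : ℤ)), true)) +
    ∑ j ∈ Ico y (n : ℤ), poin_i η ((x, j), false)

theorem poin_vert (n : ℕ) (η : Finset Edge) (x : ℤ) {y : ℤ} (hy : y < n) :
    poin_f n η x y = poin_f n η x (y + 1) + poin_i η ((x, y), false) := by
  have e : Ico y (n : ℤ) = insert y (Ico (y + 1) (n : ℤ)) := by
    ext j; simp only [mem_Ico, mem_insert]; omega
  rw [poin_f, poin_f, e, sum_insert (by simp)]
  ring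

theorem poin_top (n : ℕ) (η : Finset Edge) {x : ℤ} (hx : 1 ≤ x) :
    poin_f n η (x + 1) n = poin_f n η x n + poin_i η ((x, (n : ℤ)), true) := by
  have e : Ico (1 : ℤ) (x + 1) = insert x (Ico (1 : ℤ) x) := by
    ext j; simp only [mem_Ico, mem_insert]; omega
  rw [poin_f, poin_f, e, sum_insert (by simp), Ico_self, sum_empty, sum_empty]
  ring

theorem poin_hor {n : ℕ} {η : Finset Edge} (h : Src n η ∅) {x : ℤ} (h1 : 1 ≤ x) (h2 : x + 1 ≤ n)
    (k : ℕ) (hk : k + 1 ≤ n) :
    (poin_f n η x (n - k) + poin_f n η (x + 1) (n - k) +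
      poin_i η ((x, (n : ℤ) - k), true)) % 2 = 0 := by
  induction k with
  | zero =>
    simp only [Nat.cast_zero, sub_zero]
    rw [poin_top n η h1]
    omega
  | succ k ih =>
    have h3 := ih (by omega)
    have h4 : ¬ Odd (deg η (x, (n : ℤ) - (k + 1 : ℕ))) := fun m =>
      (h _ (by rw [mem_intr]; simp only; omega)).1 m
    have e : (n : ℤ) - (k + 1 : ℕ) + 1 = n - k := by push_cast; ring
    rw [poin_vert n η x (y := n - (k + 1 : ℕ)) (by omega),
      poin_vert n η (x + 1) (y := n - (k + 1 : ℕ)) (by omega), e]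
    rw [Nat.odd_iff, poin_deg] at h4
    simp only [cr, e] at h4
    omega

theorem t_poin : T_POIN := by
  intro n η hη h
  refine ⟨(box n).filter fun w => Odd (poin_f n η w.1 w.2), filter_subset _ _, ?_, ?_⟩
  · ext e
    rw [mem_inter]
    refine Iff.trans ?_ (and_iff_left_of_imp fun k => hη k)
    refine and_congr_left fun he => ?_
    obtain ⟨h1, h2⟩ := mem_ebox.1 he
    rw [mem_cut, mem_filter, mem_filter, and_iff_right h1, and_iff_right h2, Nat.odd_iff,
      Nat.odd_iff]
    rw [mem_box] at h1 h2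
    obtain ⟨⟨x, y⟩, _ | _⟩ := e
    · simp only [ea, eb, Bool.false_eq_true, if_false, Prod.mk_add_mk, add_zero] at h1 h2 ⊢
      rw [poin_vert n η x (y := y) (by omega), poin_i]
      split_ifs with m <;> simp only [m, iff_true, iff_false] <;> omega
    · simp only [ea, eb, if_true, Prod.mk_add_mk, add_zero] at h1 h2 ⊢
      obtain ⟨k, rfl⟩ : ∃ k : ℕ, y = n - k := ⟨(n - y).toNat, by omega⟩
      have := poin_hor h (x := x) (by omega) (by omega) k (by omega)
      rw [poin_i] at this
      split_ifs at this with m <;> simp only [m, iff_true, iff_false] <;> omega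
  · intro m
    have := (mem_filter.1 m).2
    simp [poin_f] at this

theorem poin_ex (h : T_POIN) {n : ℕ} (hn : 1 ≤ n) {η : Finset Edge} (h1 : η ⊆ ebox n)
    (h2 : Src n η ∅) (T : Finset Pt) : ∃ D ⊆ box n, cut D ∩ ebox n = η ∧
      (((1 : ℤ), (n : ℤ)) ∈ D ↔ ((1 : ℤ), (n : ℤ)) ∈ T) := by
  obtain ⟨D, k1, k2, k3⟩ := h n η h1 h2
  by_cases k : ((1 : ℤ), (n : ℤ)) ∈ T
  · refine ⟨box n \ D, sdiff_subset, ?_, ?_⟩
    · rw [← k2]
      ext e
      rw [mem_inter, mem_inter]
      refine and_congr_left fun he => ?_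
      obtain ⟨a1, a2⟩ := mem_ebox.1 he
      simp only [mem_cut, mem_sdiff, a1, a2, true_and]
      tauto
    · have : ((1 : ℤ), (n : ℤ)) ∈ box n := by rw [mem_box]; simp only; omega
      simp [k, k3, this]
  · exact ⟨D, k1, k2, by simp [k, k3]⟩

theorem t_zeq (h : T_POIN) : T_ZEQ := by
  intro n S T A0 hn hS hT hA
  rw [Zf_eq_filter, Zs_eq_filter]
  refine sum_bij (fun M _ => cut (M ∪ T) ∩ eS n S) ?_ ?_ ?_ fun _ _ => rfl
  · intro M k
    exact mem_filter.2 ⟨mem_powerset.2 inter_subset_right,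
      src_cut_eS (mem_powerset.1 (mem_filter.1 k).1) hA⟩
  · intro M k M' k' e
    exact cut_eS_inj hS hT (mem_powerset.1 (mem_filter.1 k).1)
      (mem_powerset.1 (mem_filter.1 k').1) e
  · intro η k
    obtain ⟨k1, k2⟩ := mem_filter.1 k
    have k3 := mem_powerset.1 k1
    have k4 : symmDiff η (cut T ∩ (ebox n \ eS n S)) ⊆ ebox n := by
      intro e he
      rcases mem_symmDiff.1 he with m | m
      · exact eS_subset n S (k3 m.1)
      · exact (mem_sdiff.1 (mem_inter.1 m.1).2).1
    obtain ⟨D, d1, d2, d3⟩ := poin_ex h hn k4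
      ((k2.symmDiff hA).congr fun p _ => by simp) T
    have ht : ((1 : ℤ), (n : ℤ)) ∈ S := hS.top _ (by rw [mem_box]; simp only; omega) rfl
    have key : ∀ w, Conn (ebox n \ (eS n S ∪ ∅)) ((1 : ℤ), (n : ℤ)) w → (w ∈ D ↔ w ∈ T) := by
      intro w hw
      induction hw with
      | refl => exact d3
      | @tail u _ _ m ih =>
        obtain ⟨d, m1, rfl⟩ := m
        rw [union_empty, mem_sdiff] at m1
        have m2 := Finset.ext_iff.1 d2 (inc u d)
        have m3 : inc u d ∉ η := fun a => m1.2 (k3 a)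
        simp only [mem_inter, mem_symmDiff, mem_sdiff, inc_mem_cut, m1.1, m1.2, m3, and_true,
          false_and, false_or, not_false_eq_true] at m2
        revert ih m2
        generalize (u ∈ D) = a1, (u ∈ T) = a2, (u + d.vec ∈ D) = a3, (u + d.vec ∈ T) = a4
        clear * -
        tauto
    have key2 : ∀ w ∈ S, (w ∈ D ↔ w ∈ T) := fun w hw =>
      key w (conn_of_topConn hS.eS_top (hS.conn _ ht) (hS.conn w hw))
    have e : D \ S ∪ T = D := by
      ext w
      rw [mem_union, mem_sdiff]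
      by_cases a : w ∈ S
      · simp [a, key2 w a]
      · simp [a, show w ∉ T from fun b => a (hT b)]
    refine ⟨D \ S, mem_filter.2 ⟨mem_powerset.2 (sdiff_subset_sdiff d1 le_rfl), trivial⟩, ?_⟩
    rw [e]
    ext x
    have m1 := Finset.ext_iff.1 d2 x
    by_cases a : x ∈ eS n S
    · simpa [mem_symmDiff, a, eS_subset n S a] using m1
    · simp [a, show x ∉ η from fun b => a (k3 b)]

end Pool.Agent.P.MP_347bd1_pr
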