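import Pool.Agent.P.MP_347bd1_pr.Stmts2

/-!
Interpolation between the two kinds of crossings.
-/

namespace Pool.Agent.P.MP_347bd1_pr

open Classical Finset
open scoped ENNReal NNReal

/-- Expectation with respect to a random subset of `u`. -/
noncomputable def russo_ex (u : Finset Pt) (F : Finset Pt → ℝ) (s : ℝ) : ℝ :=
  ∑ A ∈ u.powerset, s ^ A.card * (1 - s) ^ (u \ A).card * F A

/-- The total influence. -/
noncomputable def russo_D (u : Finset Pt) (F : Finset Pt → ℝ) (A : Finset Pt) : ℝ :=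
  ∑ p ∈ u, (F (insert p A) - F (A.erase p))

theorem russo_congr {u : Finset Pt} {F G : Finset Pt → ℝ} (h : ∀ A ⊆ u, F A = G A) (s : ℝ) :
    russo_ex u F s = russo_ex u G s :=
  sum_congr rfl fun A hA => by rw [h A (mem_powerset.1 hA)]

theorem russo_lin (u : Finset Pt) (F G H : Finset Pt → ℝ) (s : ℝ) :
    russo_ex u (fun A => F A - G A + H A) s = russo_ex u F s - russo_ex u G s + russo_ex u H s := by
  simp only [russo_ex, ← sum_sub_distrib, ← sum_add_distrib]
  exact sum_congr rfl fun A _ => by ring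

theorem russo_insert {u : Finset Pt} {p : Pt} (hp : p ∉ u) (F : Finset Pt → ℝ) (s : ℝ) :
    russo_ex (insert p u) F s =
      (1 - s) * russo_ex u F s + s * russo_ex u (fun A => F (insert p A)) s := by
  simp only [russo_ex]
  rw [sum_powerset_insert hp, mul_sum, mul_sum]
  congr 1
  · refine sum_congr rfl fun A hA => ?_
    have h1 : p ∉ A := fun k => hp (mem_powerset.1 hA k)
    rw [insert_sdiff_of_notMem _ h1, card_insert_of_notMem fun k => hp (mem_sdiff.1 k).1]
    ring
  · refine sum_congr rfl fun A hA => ?_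
    have h1 : p ∉ A := fun k => hp (mem_powerset.1 hA k)
    rw [insert_sdiff_insert, sdiff_insert_of_notMem hp, card_insert_of_notMem h1]
    ring

theorem russo_ends (u : Finset Pt) : ∀ F, russo_ex u F 0 = F ∅ ∧ russo_ex u F 1 = F u := by
  induction u using Finset.induction_on with
  | empty => intro F; simp [russo_ex]
  | insert p u hp ih =>
    intro F
    rw [russo_insert hp, russo_insert hp, (ih _).1, (ih _).1, (ih _).2, (ih _).2]
    simp

theorem russo_le (u : Finset Pt) {s δ : ℝ} (h0 : 0 ≤ s) (h1 : s ≤ 1) :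
    ∀ F, (∀ A ⊆ u, F A ≤ δ) → russo_ex u F s ≤ δ := by
  induction u using Finset.induction_on with
  | empty => intro F h; simpa [russo_ex] using h ∅ Subset.rfl
  | insert p u hp ih =>
    intro F h
    rw [russo_insert hp]
    have a := ih F fun A hA => h A (hA.trans (subset_insert _ _))
    have b := ih (fun A => F (insert p A)) fun A hA => h _ (insert_subset_insert _ hA)
    nlinarith

theorem russo_deriv (u : Finset Pt) (s : ℝ) :
    ∀ F, HasDerivAt (russo_ex u F) (russo_ex u (russo_D u F) s) s := by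
  induction u using Finset.induction_on with
  | empty =>
    intro F
    have e : russo_ex ∅ F = fun _ => F ∅ := by ext s; simp [russo_ex]
    have e' : russo_ex ∅ (russo_D ∅ F) s = 0 := by simp [russo_ex, russo_D]
    rw [e, e']
    exact hasDerivAt_const _ _
  | insert p u hp ih =>
    intro F
    have e : russo_ex (insert p u) F = fun s =>
        (1 - s) * russo_ex u F s + s * russo_ex u (fun A => F (insert p A)) s :=
      funext fun s => russo_insert hp F s
    have e1 : russo_ex u (russo_D (insert p u) F) s =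
        russo_ex u (fun A => F (insert p A) - F A + russo_D u F A) s := by
      refine russo_congr (fun A hA => ?_) s
      rw [russo_D, sum_insert hp, erase_eq_of_notMem fun k => hp (hA k)]
      rfl
    have e2 : russo_ex u (fun A => russo_D (insert p u) F (insert p A)) s =
        russo_ex u (fun A => F (insert p A) - F A + russo_D u (fun A => F (insert p A)) A) s := by
      refine russo_congr (fun A hA => ?_) s
      rw [russo_D, sum_insert hp, erase_insert fun k => hp (hA k), insert_eq_of_mem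
        (mem_insert_self p A)]
      congr 1
      refine sum_congr rfl fun q hq => ?_
      have : p ≠ q := fun k => hp (k ▸ hq)
      rw [Finset.insert_comm, erase_insert_of_ne this]
    rw [e, russo_insert hp, e1, e2, russo_lin, russo_lin]
    refine ((((hasDerivAt_id' s).const_sub 1).fun_mul (ih F)).fun_add
      ((hasDerivAt_id' s).fun_mul (ih fun A => F (insert p A)))).congr_deriv ?_
    ring

theorem russo_abs (u : Finset Pt) (F : Finset Pt → ℝ) {δ : ℝ} (h : ∀ A ⊆ u, russo_D u F A ≤ δ) :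
    F u - F ∅ ≤ δ := by
  obtain ⟨c, hc, e⟩ := exists_hasDerivAt_eq_slope (russo_ex u F) (russo_ex u (russo_D u F))
    zero_lt_one (fun s _ => (russo_deriv u s F).continuousAt.continuousWithinAt)
    fun s _ => russo_deriv u s F
  rw [(russo_ends u F).1, (russo_ends u F).2, sub_zero, div_one] at e
  rw [← e]
  exact russo_le u hc.1.le hc.2.le _ h

/-- `a` and `b` are opposite corners of `p`. -/
def russo_Dg (p a b : Pt) : Prop :=
  |a.1 - b.1| = 1 ∧ |a.2 - b.2| = 1 ∧ (min a.1 b.1, min a.2 b.2) = p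

theorem russo_tb {n : ℕ} {ξ ξ' : Pt → Bool} {M M' : Finset Pt} (hM : M ⊆ M')
    (h : ∀ a ∈ M, ∀ b ∈ M, ∀ p, russo_Dg p a b → ξ p = false →
      ξ' p = false ∨ ∃ c ∈ M', NN a c ∧ NN c b) (k : TB n ξ M) : TB n ξ' M' := by
  obtain ⟨a, b, h1, h2, h3, h4⟩ := k
  refine ⟨a, b, hM h1, h2, h3, ?_⟩
  clear h3
  have : b ∈ M ∧ Relation.ReflTransGen (fun u w => Lk ξ' false u w ∧ w ∈ M') a b := by
    induction h4 with
    | refl => exact ⟨h1, .refl⟩
    | tail _ k ih =>
      refine ⟨k.2, ?_⟩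
      rcases k.1 with k1 | ⟨k1, k2, k3⟩
      · exact ih.2.tail ⟨.inl k1, hM k.2⟩
      · rcases h _ ih.1 _ k.2 _ ⟨k1, k2, rfl⟩ k3 with k4 | ⟨c, k4, k5, k6⟩
        · exact ih.2.tail ⟨.inr ⟨k1, k2, k4⟩, hM k.2⟩
        · exact (ih.2.tail ⟨.inl k5, k4⟩).tail ⟨.inl k6, hM k.2⟩
  exact this.2

theorem russo_dg_iff {p a b : Pt} : russo_Dg p a b ↔ (a.1 - b.1 = 1 ∨ a.1 - b.1 = -1) ∧
    (a.2 - b.2 = 1 ∨ a.2 - b.2 = -1) ∧ min a.1 b.1 = p.1 ∧ min a.2 b.2 = p.2 := by
  rw [russo_Dg, abs_eq zero_le_one, abs_eq zero_le_one, Prod.ext_iff]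

theorem russo_dg_intr {n : ℕ} {p a b : Pt} (h : russo_Dg p a b) (ha : a ∈ box n) (hb : b ∈ box n) :
    p ∈ intr n := by
  rw [russo_dg_iff] at h
  rw [mem_box] at ha hb
  rw [mem_intr]
  omega

theorem russo_dg_nn {p a b : Pt} (h : russo_Dg p a b) :
    NN a (a.1, b.2) ∧ NN (a.1, b.2) b ∧ Corner p a ∧ Corner p (a.1, b.2) := by
  rw [russo_dg_iff] at h
  simp only [NN, Dir.exists_iff, Dir.vec, Corner, Prod.ext_iff, Prod.fst_add, Prod.snd_add]
  omega

theorem russo_one {x y x' y' m : ℤ} (h1 : x - y = 1 ∨ x - y = -1) (h2 : min x y = m)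
    (h3 : x' - y' = 1 ∨ x' - y' = -1) (h4 : min x' y' = m) :
    (x' = x ∧ y' = y) ∨ (x' = y ∧ y' = x) := by
  omega

theorem russo_dg_two {p a b a' b' : Pt} (h : russo_Dg p a b) (h' : russo_Dg p a' b') :
    (a' = a ∧ b' = b) ∨ (a' = b ∧ b' = a) ∨ a' = (a.1, b.2) ∨ b' = (a.1, b.2) := by
  rw [russo_dg_iff] at h h'
  rcases russo_one h.1 h.2.2.1 h'.1 h'.2.2.1 with e1 | e1 <;>
    rcases russo_one h.2.1 h.2.2.2 h'.2.1 h'.2.2.2 with e2 | e2
  · exact .inl ⟨Prod.ext e1.1 e2.1, Prod.ext e1.2 e2.2⟩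
  · exact .inr (.inr (.inl (Prod.ext e1.1 e2.1)))
  · exact .inr (.inr (.inr (Prod.ext e1.2 e2.2)))
  · exact .inr (.inl ⟨Prod.ext e1.1 e2.1, Prod.ext e1.2 e2.2⟩)

theorem russo_piv {n : ℕ} {A M : Finset Pt} {p : Pt}
    (h1 : ¬ TB n (fun q => decide (q ∈ insert p A)) M)
    (h0 : TB n (fun q => decide (q ∈ A.erase p)) M) :
    ∃ z, Corner p z ∧ Piv n (fun q => decide (q ∈ A)) M z := by
  have tr : ∀ M1 M2 : Finset Pt, M1 ⊆ M2 →
      (∀ a ∈ M1, ∀ b ∈ M1, russo_Dg p a b → ∃ c ∈ M2, NN a c ∧ NN c b) →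
      TB n (fun q => decide (q ∈ A.erase p)) M1 → TB n (fun q => decide (q ∈ insert p A)) M2 := by
    intro M1 M2 hM h
    refine russo_tb hM fun a ha b hb q hq k => ?_
    by_cases e : q = p
    · exact .inr (h a ha b hb (e ▸ hq))
    · left
      simpa [e] using k
  obtain ⟨a, ha, b, hb, hd, hc⟩ : ∃ a ∈ M, ∃ b ∈ M, russo_Dg p a b ∧
      ¬ ∃ c ∈ M, NN a c ∧ NN c b := by
    by_contra k
    refine h1 (tr M M Subset.rfl (fun a ha b hb hd => ?_) h0)
    by_contra k'
    exact k ⟨a, ha, b, hb, hd, k'⟩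
  obtain ⟨n1, n2, c1, c2⟩ := russo_dg_nn hd
  have hc' : (a.1, b.2) ∉ M := fun k => hc ⟨_, k, n1, n2⟩
  by_cases hp : p ∈ A
  · rw [insert_eq_of_mem hp] at h1 tr
    refine ⟨_, c2, fun k => h1 ?_⟩
    rw [erase_eq_of_notMem hc'] at k
    refine k.1 (tr M _ (subset_insert _ _) (fun a' ha' b' hb' hd' => ?_) h0)
    rcases russo_dg_two hd hd' with ⟨rfl, rfl⟩ | ⟨rfl, rfl⟩ | e | e
    · exact ⟨_, mem_insert_self _ _, n1, n2⟩
    · exact ⟨_, mem_insert_self _ _, n2.symm, n1.symm⟩
    · exact absurd (e ▸ ha') hc'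
    · exact absurd (e ▸ hb') hc'
  · rw [erase_eq_of_notMem hp] at h0 tr
    refine ⟨a, c1, fun k => h1 ?_⟩
    rw [insert_eq_of_mem ha] at k
    refine tr _ M (erase_subset a M) (fun a' ha' b' hb' hd' => ?_) (k.1 h0)
    rcases russo_dg_two hd hd' with ⟨e, -⟩ | ⟨-, e⟩ | e | e
    · exact absurd e (ne_of_mem_erase ha')
    · exact absurd e (ne_of_mem_erase hb')
    · exact absurd (e ▸ mem_of_mem_erase ha') hc'
    · exact absurd (e ▸ mem_of_mem_erase hb') hc'

theorem russo_shift {n : ℕ} (f : Pt → ℝ) (hf : ∀ z, 0 ≤ f z) (d : Pt)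
    (hd : ∀ p, Corner p (p + d)) : ∑ p ∈ intr n, f (p + d) ≤ ∑ z ∈ box n, f z := by
  rw [← sum_image (s := intr n) (g := fun p => p + d) (f := f)
    fun _ _ _ _ k => add_right_cancel k]
  refine sum_le_sum_of_subset_of_nonneg (fun z hz => ?_) fun z _ _ => hf z
  obtain ⟨p, hp, rfl⟩ := mem_image.1 hz
  exact (hd p).mem_box hp

theorem t_russo (h : T_HEX) : T_RUSSO := by
  intro n ε hn hε
  have key := russo_abs (intr n) (fun A => Pf n fun M => ¬ TB n (fun q => decide (q ∈ A)) M)
    (δ := 4 * ε) fun A _ => by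
      set f : Pt → ℝ := fun z => Pf n fun M => Piv n (fun q => decide (q ∈ A)) M z with hf
      have hf0 : ∀ z, 0 ≤ f z := fun z => Pr_nonneg
      have hs : ∑ z ∈ box n, f z ≤ ε := hε _
      have a1 := russo_shift (n := n) f hf0 (0, 0) fun p => by simp [Corner]
      have a2 := russo_shift (n := n) f hf0 (1, 0) fun p => by simp [Corner]
      have a3 := russo_shift (n := n) f hf0 (0, 1) fun p => by simp [Corner]
      have a4 := russo_shift (n := n) f hf0 (1, 1) fun p => by simp [Corner]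
      refine le_trans (sum_le_sum (g := fun p =>
        f (p + (0, 0)) + (f (p + (1, 0)) + (f (p + (0, 1)) + f (p + (1, 1))))) fun p _ => ?_) ?_
      · have b1 := Pr_add_not (F := ebox n) (U := box n) (T := ∅)
          (fun M => ¬ TB n (fun q => decide (q ∈ insert p A)) M)
          fun M => TB n (fun q => decide (q ∈ A.erase p)) M
        have b2 : Pf n (fun M => ¬ TB n (fun q => decide (q ∈ insert p A)) M ∧
            ¬ TB n (fun q => decide (q ∈ A.erase p)) M) ≤
            Pf n fun M => ¬ TB n (fun q => decide (q ∈ A.erase p)) M := Pr_mono fun M _ k => k.2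
        have b3 : Pf n (fun M => ¬ TB n (fun q => decide (q ∈ insert p A)) M ∧
            TB n (fun q => decide (q ∈ A.erase p)) M) ≤
            f (p + (0, 0)) + (f (p + (1, 0)) + (f (p + (0, 1)) + f (p + (1, 1)))) := by
          refine le_trans (Pr_mono fun M _ k => ?_) (Pr_or_le.trans (add_le_add le_rfl
            (Pr_or_le.trans (add_le_add le_rfl Pr_or_le))))
          obtain ⟨z, ⟨c1, c2⟩, hz⟩ := russo_piv k.1 k.2
          rcases c1 with c1 | c1 <;> rcases c2 with c2 | c2
          · exact .inl ((show z = p + (0, 0) from Prod.ext (by simpa) (by simpa)) ▸ hz)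
          · exact .inr (.inr (.inl
              ((show z = p + (0, 1) from Prod.ext (by simpa) (by simpa)) ▸ hz)))
          · exact .inr (.inl ((show z = p + (1, 0) from Prod.ext (by simpa) (by simpa)) ▸ hz))
          · exact .inr (.inr (.inr
              ((show z = p + (1, 1) from Prod.ext (by simpa) (by simpa)) ▸ hz)))
        simp only [Pf] at b1 b2 b3 ⊢
        linarith
      · simp only [sum_add_distrib]
        linarith
  have e1 : Pf n (LR n fun _ => true) =
      Pf n fun M => ¬ TB n (fun q => decide (q ∈ intr n)) M := by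
    refine Pr_congr fun M hM => (h n _ M hn hM).trans (not_congr ⟨?_, ?_⟩)
    · exact russo_tb Subset.rfl fun a _ b _ p _ k => by simp at k
    · refine russo_tb Subset.rfl fun a ha b hb p hp k => ?_
      simp [russo_dg_intr hp (hM ha) (hM hb)] at k
  have e2 : Pf n (LR n fun _ => false) =
      Pf n fun M => ¬ TB n (fun q => decide (q ∈ (∅ : Finset Pt))) M := by
    refine Pr_congr fun M hM => (h n _ M hn hM).trans ?_
    simp
  have e3 : 0 ≤ ε := le_trans (sum_nonneg fun z _ => Pr_nonneg) (hε fun _ => true)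
  rw [e1, e2]
  linarith

end Pool.Agent.P.MP_347bd1_pr
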