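import Pool.Agent.P.MP_347bd1_pr.Stmts2

/-!
Separation of the plus cluster of the left edges from the right edges.
-/

namespace Pool.Agent.P.MP_347bd1_pr

open Classical Finset
open scoped ENNReal NNReal

theorem sep_ends {P : Pt → Prop} {w : Pt} {d : Dir} :
    (P (ea (inc w d)) ∨ P (eb (inc w d))) ↔ (P w ∨ P (w + d.vec)) := by
  rcases ends_inc w d with h | h <;> rw [h.1, h.2]; exact or_comm

/-- A property that does not change along the first column. -/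
theorem sep_col {n : ℕ} {τ : Pt → Prop} (h0 : ¬ τ ((1 : ℤ), (n : ℤ)))
    (h : ∀ w : Pt, w.1 = 1 → w ∈ box n → w + Dir.N.vec ∈ box n → (τ w ↔ τ (w + Dir.N.vec)))
    {u : Pt} (hu : u ∈ box n) (h1 : u.1 = 1) : ¬ τ u := by
  have k : ∀ j : ℕ, ((1 : ℤ), (n : ℤ) - j) ∈ box n → ¬ τ ((1 : ℤ), (n : ℤ) - j) := by
    intro j
    induction j with
    | zero => simpa using fun _ => h0
    | succ j ih =>
      intro hj
      have e : ((1 : ℤ), (n : ℤ) - (j + 1 : ℕ)) + Dir.N.vec = ((1 : ℤ), (n : ℤ) - j) := by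
        simp [Dir.vec]; ring
      have h2 : ((1 : ℤ), (n : ℤ) - j) ∈ box n := by
        rw [mem_box] at hj ⊢; push_cast at hj; simp at *; omega
      rw [h _ rfl hj (e ▸ h2), e]
      exact ih h2
  obtain ⟨x, y⟩ := u
  have hb := mem_box.1 hu
  obtain ⟨j, rfl⟩ : ∃ j : ℕ, y = n - j := ⟨(n - y).toNat, by simp at hb; omega⟩
  obtain rfl : x = 1 := h1
  exact k j hu

theorem sep_side (h : T_POIN) {n : ℕ} {S T M : Finset Pt} {Lf Rg η : Finset Edge}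
    (hs : Str2 n S T Lf Rg)
    (hc : ∀ a ∈ S \ T, ∀ b ∈ S \ T, Relation.ReflTransGen (fun u w => NN u w ∧ w ∈ S \ T) a b)
    (hM : M ⊆ box n \ S) (hη : η ⊆ ebox n) (he : ∀ e ∈ η, ea e ∈ M ∪ T ∨ eb e ∈ M ∪ T)
    (hp : ∀ p ∈ intr n, (Odd (deg η p) ↔ Odd (deg Lf p))) :
    ∃ τ : Pt → Prop, (∀ w d, w ∈ box n → w + Dir.vec d ∈ box n →
      ((τ w ↔ τ (w + d.vec)) ↔ (inc w d ∈ η ↔ inc w d ∈ Lf))) ∧ ∀ a ∈ S \ T, ¬ τ a := by
  obtain ⟨D, -, h1, -⟩ := h n (symmDiff η Lf)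
    (fun e k => by
      rcases mem_symmDiff.1 k with k | k
      exacts [hη k.1, eS_subset n S (hs.lf e k.1).1])
    (fun p k => by rw [odd_deg_symmDiff, hp p k]; simp)
  have h2 : ∀ w d, w ∈ box n → w + Dir.vec d ∈ box n →
      ((w ∈ D ↔ w + d.vec ∈ D) ↔ (inc w d ∈ η ↔ inc w d ∈ Lf)) := fun w d k1 k2 => by
    have := Finset.ext_iff.1 h1 (inc w d)
    rw [mem_inter, inc_mem_cut, inc_mem_ebox, mem_symmDiff] at this
    tauto
  have h3 : ∀ a ∈ S \ T, ∀ b, Relation.ReflTransGen (fun u w => NN u w ∧ w ∈ S \ T) a b →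
      b ∈ S \ T ∧ (a ∈ D ↔ b ∈ D) := by
    intro a ha b k
    induction k with
    | refl => exact ⟨ha, Iff.rfl⟩
    | @tail u w _ k ih =>
      obtain ⟨⟨d, rfl⟩, k2⟩ := k
      refine ⟨k2, ih.2.trans ?_⟩
      obtain ⟨a1, a2⟩ := mem_sdiff.1 ih.1
      obtain ⟨b1, b2⟩ := mem_sdiff.1 k2
      rw [h2 u d (hs.good.sub a1) (hs.good.sub b1)]
      refine iff_of_false (fun m => ?_) fun m => ?_
      · rcases (sep_ends (P := fun x => x ∈ M ∪ T)).1 (he _ m) with m | m <;>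
          rcases mem_union.1 m with m | m
        exacts [(mem_sdiff.1 (hM m)).2 a1, a2 m, (mem_sdiff.1 (hM m)).2 b1, b2 m]
      · rcases (inc_mem_eS.1 (hs.lf _ m).1).2 with m | m
        exacts [m a1, m b1]
  by_cases k : ∃ a ∈ S \ T, a ∈ D
  · obtain ⟨a, ha, k⟩ := k
    refine ⟨fun w => w ∉ D, fun w d k1 k2 => ?_, fun b hb m => m ((h3 a ha b (hc a ha b hb)).2.1 k)⟩
    rw [← h2 w d k1 k2]
    exact not_iff_not
  · exact ⟨fun w => w ∈ D, h2, fun a ha m => k ⟨a, ha, m⟩⟩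

theorem t_sep (h : T_POIN) : T_SEP := by
  intro n S T M Lf Rg η hs hc hM hη he hp
  obtain ⟨τ, h1, h2⟩ := sep_side h hs hc hM hη he hp
  have fr : ∀ u ∈ (box n \ S) \ M, u ∈ box n ∧ u ∉ M ∪ T ∧ u ∉ S \ T := fun u k => by
    obtain ⟨k1, k2⟩ := mem_sdiff.1 k
    obtain ⟨k3, k4⟩ := mem_sdiff.1 k1
    exact ⟨k3, fun m => (mem_union.1 m).elim k2 fun m => k4 (hs.hT m),
      fun m => k4 (mem_sdiff.1 m).1⟩
  have st : ∀ u ∈ S \ T, u ∈ box n ∧ u ∉ M ∪ T := fun u k => by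
    obtain ⟨k1, k2⟩ := mem_sdiff.1 k
    exact ⟨hs.good.sub k1, fun m => (mem_union.1 m).elim (fun m => (mem_sdiff.1 (hM m)).2 k1) k2⟩
  have ne : ∀ u d, u ∉ M ∪ T → u + Dir.vec d ∉ M ∪ T → inc u d ∉ η := fun u d k1 k2 m =>
    ((sep_ends (P := fun x => x ∈ M ∪ T)).1 (he _ m)).elim k1 k2
  have key : ∀ u ∈ Pcl n S Lf M, τ u := by
    intro u hu
    obtain ⟨-, u0, k0, ⟨d, kd⟩, k⟩ := mem_filter.1 hu
    have : u ∈ (box n \ S) \ M ∧ τ u := by
      clear hu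
      induction k with
      | refl =>
        refine ⟨k0, ?_⟩
        obtain ⟨a1, a2, a3⟩ := fr _ k0
        have b := ((sep_ends (P := fun x => x ∈ S \ T)).1 (hs.lf _ kd).2).resolve_left a3
        have c := h1 u0 d a1 (st _ b).1
        have := ne u0 d a2 (st _ b).2
        have := h2 _ b
        tauto
      | @tail a b _ k ih =>
        obtain ⟨⟨d', rfl⟩, k2⟩ := k
        refine ⟨k2, ?_⟩
        obtain ⟨a1, a2, a3⟩ := fr _ ih.1
        obtain ⟨b1, b2, b3⟩ := fr _ k2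
        have c := h1 a d' a1 b1
        have := ne a d' a2 b2
        have : inc a d' ∉ Lf := fun m =>
          ((sep_ends (P := fun x => x ∈ S \ T)).1 (hs.lf _ m).2).elim a3 b3
        have := ih.2
        tauto
    exact this.2
  refine ⟨⟨(filter_subset _ _).trans sdiff_subset, fun u hu => ?_, fun u hu d m => ?_⟩,
    fun k c1 c2 u hu m => ?_⟩
  · obtain ⟨-, u0, k0, kd, k⟩ := mem_filter.1 hu
    refine ⟨u0, mem_filter.2 ⟨k0, u0, k0, kd, .refl⟩, kd, ?_⟩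
    clear hu
    induction k with
    | refl => exact .refl
    | @tail a b k1 k ih => exact ih.tail ⟨k.1, mem_filter.2 ⟨k.2, u0, k0, kd, k1.tail k⟩⟩
  · obtain ⟨a1, a2, a3⟩ := fr _ (mem_filter.1 hu).1
    have b := ((sep_ends (P := fun x => x ∈ S \ T)).1 (hs.rg _ m).2).resolve_left a3
    have c := h1 u d a1 (st _ b).1
    have := ne u d a2 (st _ b).2
    have := h2 _ b
    have := key u hu
    have : inc u d ∉ Lf := fun m' => disjoint_left.1 hs.disj m' m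
    tauto
  · refine sep_col (h2 _ k) (fun w w1 w2 w3 => ?_) (fr _ (mem_filter.1 hu).1).1 m (key u hu)
    have : Col1 (inc w .N) := ⟨rfl, w1⟩
    exact (h1 w .N w2 w3).2 (iff_of_false (fun m => c1 _ m this) fun m => c2 _ m this)

theorem sep_dual (h2 : T_DUAL) {n : ℕ} {M : Finset Pt} {v a b q : Pt} (hM : M ⊆ box n)
    (hv : v ∈ intr n) (ha : a ∈ M) (hp : Relation.ReflTransGen (fun u w => Star u w ∧ w ∈ M) a b)
    (c1 : Corner v a) (c2 : Corner q b) (q1 : 1 ≤ q.1) (q2 : q.1 + 1 ≤ n) (hq : q ∉ intr n) :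
    ∃ η ⊆ ebox n, (∀ e ∈ η, ea e ∈ M ∨ eb e ∈ M) ∧ (∀ e ∈ η, ¬ Col1 e) ∧ Src n η {v} := by
  have hv' := mem_intr.1 hv
  obtain ⟨η, k1, k2, k3, k4⟩ := h2 n M a b v q hM ha hp c1 c2 hv'.1 hv'.2.1 q1 q2
  refine ⟨η, k1, k2, k3, k4.congr fun p k => ?_⟩
  have : p ≠ q := fun m => hq (m ▸ k)
  simp [Set.mem_symmDiff, this]

theorem sep_arm (h2 : T_DUAL) {n : ℕ} {S M : Finset Pt} {v : Pt} (hv : v ∈ intr n)
    (hM : M ⊆ box n \ S) (ha : ArmF S v M) :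
    ∃ η ⊆ ebox n, (∀ e ∈ η, ea e ∈ M ∨ eb e ∈ M) ∧ (∀ e ∈ η, ¬ Col1 e) ∧ Src n η {v} := by
  obtain ⟨-, s, b, c1, hb, hs, hp⟩ := ha
  have hv' := mem_intr.1 hv
  have bM : b ∈ M := by
    rcases hp.cases_tail with rfl | ⟨c, -, k⟩
    exacts [hs, k.2]
  have bb := mem_box.1 (mem_sdiff.1 (hM bM)).1
  refine sep_dual h2 (q := (min b.1 (n - 1), 0)) (hM.trans sdiff_subset) hv hs hp c1 ?_ ?_ ?_ ?_
  · unfold Corner; dsimp only; omega
  · dsimp only; omega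
  · dsimp only; omega
  · rw [mem_intr]; dsimp only; omega

theorem t_lft (h1 : T_POIN) (h2 : T_DUAL) (h3 : T_SEP) : T_LFT := by
  intro n S M v hS hv hM ha
  have hv' := mem_intr.1 hv
  have top : ((1 : ℤ), (n : ℤ)) ∈ S := hS.top _ (by rw [mem_box]; dsimp only; omega) rfl
  obtain ⟨η, a1, a2, a3, a4⟩ := sep_arm h2 hv hM ha
  obtain ⟨⟨z, hz, cz⟩, -⟩ := ha
  obtain ⟨ζ, b1, b2, b3, b4⟩ := sep_dual h2 (q := ((1 : ℤ), (n : ℤ))) hS.sub hv hz
    (rtg_mono (fun u w k => ⟨k.1.star, k.2⟩) (hS.nn_conn hz top)) cz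
    ⟨Or.inl rfl, Or.inl rfl⟩ le_rfl (by dsimp only; omega) (by rw [mem_intr]; dsimp only; omega)
  obtain ⟨D, -, d1, d2⟩ := h1 n (symmDiff η ζ)
    (fun e k => by
      rcases mem_symmDiff.1 k with k | k
      exacts [a1 k.1, b1 k.1])
    ((a4.symmDiff b4).congr fun p _ => by simp)
  have col : ∀ u ∈ box n, u.1 = 1 → u ∉ D := fun u k1 k2 =>
    sep_col (τ := fun w => w ∈ D) d2 (fun w w1 w2 w3 => by
      have c : Col1 (inc w .N) := ⟨rfl, w1⟩
      have := Finset.ext_iff.1 d1 (inc w .N)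
      rw [mem_inter, inc_mem_cut, inc_mem_ebox, mem_symmDiff] at this
      have := fun m => a3 _ m c
      have := fun m => b3 _ m c
      tauto) k1 k2
  obtain ⟨Lf, hL⟩ : ∃ Lf, Lf = symmDiff (cut (D \ S) ∩ ebox n) η := ⟨_, rfl⟩
  have lf : ∀ e ∈ Lf, e ∈ eS n S ∧ (ea e ∈ S \ ∅ ∨ eb e ∈ S \ ∅) := by
    intro e k
    have c1 := Finset.ext_iff.1 d1 e
    have c2 : ea e ∈ M → ea e ∉ S := fun m => (mem_sdiff.1 (hM m)).2
    have c3 : eb e ∈ M → eb e ∉ S := fun m => (mem_sdiff.1 (hM m)).2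
    have c4 := a2 e
    have c5 := b2 e
    have c6 := @a1 e
    rw [hL] at k
    simp only [mem_symmDiff, mem_inter, mem_cut, mem_sdiff, mem_eS, sdiff_empty] at c1 k ⊢
    by_cases k1 : ea e ∈ S <;> by_cases k2 : eb e ∈ S <;> by_cases k3 : e ∈ η <;>
      by_cases k4 : e ∈ ζ <;> by_cases k5 : e ∈ ebox n <;> simp_all
  have sr : Src n Lf {v} := hL ▸ ((src_cut n _).symmDiff a4).congr fun p _ => by
    simp [Set.mem_symmDiff]
  have nc : ∀ e ∈ Lf, ¬ Col1 e := by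
    intro e k c
    have k0 := mem_ebox.1 (eS_subset n S (lf e k).1)
    have c1 : ea e ∉ D := col _ k0.1 c.2
    have c2 : eb e ∉ D := col _ k0.2 (by simp [eb, c.1, c.2])
    have c3 : e ∉ η := fun m => a3 e m c
    rw [hL] at k
    simp [mem_symmDiff, mem_cut, c1, c2, c3] at k
  have s2 : Str2 n S ∅ Lf (((eS n S).filter fun e => ea e ∈ S \ ∅ ∨ eb e ∈ S \ ∅) \ Lf) :=
    ⟨hS, empty_subset _, lf, fun e k => mem_filter.1 (mem_sdiff.1 k).1, disjoint_sdiff,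
      fun e k1 k2 => by
        by_cases k : e ∈ Lf
        exacts [Or.inl k, Or.inr (mem_sdiff.2 ⟨mem_filter.2 ⟨k1, k2⟩, k⟩)]⟩
  refine ⟨Lf, _, s2, sr, nc, fun M' hM' ha' => ?_⟩
  obtain ⟨η', e1, e2, e3, e4⟩ := sep_arm h2 hv hM' ha'
  have := h3 n S ∅ M' Lf _ η' s2
    (by simpa only [sdiff_empty] using fun a ha b hb => hS.nn_conn ha hb) hM' e1
    (by simpa only [union_empty] using e2) fun p k => (e4 p k).trans (sr p k).symm
  exact ⟨this.1, this.2 (by simpa using top) e3 nc⟩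

end Pool.Agent.P.MP_347bd1_pr
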