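import Pool.Agent.P.MP_347bd1_pr.Stmts2

/-!
Symmetries of the box.
-/

namespace Pool.Agent.P.MP_347bd1_pr

open Classical Finset
open scoped ENNReal NNReal

/-- A symmetry `g` of the box with the induced map `p` of plaquettes. -/
structure SymG (n : ℕ) (g p : Pt → Pt) : Prop where
  inv : ∀ w, g (g w) = w
  pinv : ∀ w, p (p w) = w
  bx : ∀ w ∈ box n, g w ∈ box n
  nn : ∀ u w, NN u w → NN (g u) (g w)
  dg : ∀ u w : Pt, |u.1 - w.1| = 1 → |u.2 - w.2| = 1 →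
    |(g u).1 - (g w).1| = 1 ∧ |(g u).2 - (g w).2| = 1 ∧
      p (min (g u).1 (g w).1, min (g u).2 (g w).2) = (min u.1 w.1, min u.2 w.2)

theorem sym_edge_ext {e e' : Edge}
    (h : (ea e = ea e' ∧ eb e = eb e') ∨ (ea e = eb e' ∧ eb e = ea e')) : e = e' := by
  obtain ⟨⟨a, b⟩, _ | _⟩ := e <;> obtain ⟨⟨a', b'⟩, _ | _⟩ := e' <;>
    simp [ea, eb, Prod.ext_iff] at h ⊢ <;> omega

section G

variable {n : ℕ} {g p : Pt → Pt}

theorem SymG.inj (h : SymG n g p) : Function.Injective g :=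
  Function.LeftInverse.injective h.inv

theorem SymG.mem_image (h : SymG n g p) {M : Finset Pt} {w : Pt} : w ∈ M.image g ↔ g w ∈ M := by
  rw [Finset.mem_image]
  constructor
  · rintro ⟨u, hu, rfl⟩; rwa [h.inv]
  · exact fun k => ⟨_, k, h.inv w⟩

theorem SymG.image_image (h : SymG n g p) (M : Finset Pt) : (M.image g).image g = M := by
  ext w; rw [h.mem_image, h.mem_image, h.inv]

theorem SymG.image_sub (h : SymG n g p) {M : Finset Pt} (hM : M ⊆ box n) : M.image g ⊆ box n :=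
  fun w k => by
    have := h.bx _ (hM (h.mem_image.1 k))
    rwa [h.inv] at this

theorem SymG.exists_edge (h : SymG n g p) (e : Edge) : ∃ e' : Edge,
    (ea e' = g (ea e) ∧ eb e' = g (eb e)) ∨ (ea e' = g (eb e) ∧ eb e' = g (ea e)) := by
  obtain ⟨d, -, h2⟩ := exists_inc e
  obtain ⟨d', h3⟩ := h.nn _ _ ⟨d, h2⟩
  refine ⟨inc (g (ea e)) d', ?_⟩
  rw [h3]
  exact ends_inc _ _

theorem SymG.card_le (h : SymG n g p) (M : Finset Pt) :
    (cut M ∩ ebox n).card ≤ (cut (M.image g) ∩ ebox n).card := by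
  choose φ hφ using h.exists_edge
  refine card_le_card_of_injOn φ (fun e he => ?_) (fun e _ e' _ k => ?_)
  · obtain ⟨h1, h2⟩ := mem_inter.1 (mem_coe.1 he)
    rw [mem_cut] at h1
    rw [mem_ebox] at h2
    have b1 := h.bx _ h2.1
    have b2 := h.bx _ h2.2
    rw [mem_coe, mem_inter, mem_cut, mem_ebox, h.mem_image, h.mem_image]
    rcases hφ e with ⟨k1, k2⟩ | ⟨k1, k2⟩ <;> rw [k1, k2, h.inv, h.inv]
    · exact ⟨h1, b1, b2⟩
    · exact ⟨fun m => h1 m.symm, b2, b1⟩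
  · have a1 := hφ e
    have a2 := hφ e'
    rw [← k] at a2
    apply sym_edge_ext
    rcases a1 with ⟨k1, k2⟩ | ⟨k1, k2⟩ <;> rcases a2 with ⟨k3, k4⟩ | ⟨k3, k4⟩
    · exact Or.inl ⟨h.inj (k1.symm.trans k3), h.inj (k2.symm.trans k4)⟩
    · exact Or.inr ⟨h.inj (k1.symm.trans k3), h.inj (k2.symm.trans k4)⟩
    · exact Or.inr ⟨h.inj (k2.symm.trans k4), h.inj (k1.symm.trans k3)⟩
    · exact Or.inl ⟨h.inj (k2.symm.trans k4), h.inj (k1.symm.trans k3)⟩

theorem SymG.card_eq (h : SymG n g p) (M : Finset Pt) :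
    (cut (M.image g) ∩ ebox n).card = (cut M ∩ ebox n).card := by
  refine le_antisymm ?_ (h.card_le M)
  have := h.card_le (M.image g)
  rwa [h.image_image] at this

theorem sym_Pf (φ : Finset Pt → Finset Pt) (h1 : ∀ M ⊆ box n, φ M ⊆ box n)
    (h2 : ∀ M ⊆ box n, φ (φ M) = M)
    (h3 : ∀ M ⊆ box n, (cut (φ M) ∩ ebox n).card = (cut M ∩ ebox n).card)
    (A : Finset Pt → Prop) : Pf n (fun M => A (φ M)) = Pf n A := by
  unfold Pf Pr
  congr 1
  unfold Zf
  refine sum_nbij' φ φ (fun M k => ?_) (fun M k => ?_) (fun M k => ?_) (fun M k => ?_)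
    (fun M k => ?_)
  · exact mem_powerset.2 (h1 M (mem_powerset.1 k))
  · exact mem_powerset.2 (h1 M (mem_powerset.1 k))
  · exact h2 M (mem_powerset.1 k)
  · exact h2 M (mem_powerset.1 k)
  · simp only [union_empty, h3 M (mem_powerset.1 k)]

theorem SymG.Pf_image (h : SymG n g p) (A : Finset Pt → Prop) :
    Pf n (fun M => A (M.image g)) = Pf n A :=
  sym_Pf _ (fun _ k => h.image_sub k) (fun M _ => h.image_image M) (fun M _ => h.card_eq M) A

theorem sym_Pf_compl (A : Finset Pt → Prop) : Pf n (fun M => A (box n \ M)) = Pf n A := by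
  refine sym_Pf _ (fun _ _ => sdiff_subset) (fun M k => Finset.sdiff_sdiff_eq_self k)
    (fun M _ => ?_) A
  congr 1
  ext e
  simp only [mem_inter, mem_cut, mem_ebox, mem_sdiff]
  tauto

theorem SymG.Pf_flip (h : SymG n g p) (A : Finset Pt → Prop) :
    Pf n (fun M => A (box n \ M.image g)) = Pf n A :=
  (h.Pf_image fun M => A (box n \ M)).trans (sym_Pf_compl A)

/-- A path inside `M`. -/
def SymC (ξ : Pt → Bool) (c : Bool) (M : Finset Pt) (a b : Pt) : Prop :=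
  a ∈ M ∧ Relation.ReflTransGen (fun u w => Lk ξ c u w ∧ w ∈ M) a b

theorem SymC.symm {ξ : Pt → Bool} {c : Bool} {M : Finset Pt} {a b : Pt} (h : SymC ξ c M a b) :
    SymC ξ c M b a := by
  obtain ⟨h1, h2⟩ := h
  induction h2 with
  | refl => exact ⟨h1, .refl⟩
  | tail _ k ih => exact ⟨k.2, Relation.ReflTransGen.head ⟨k.1.symm, ih.1⟩ ih.2⟩

theorem SymG.lk (h : SymG n g p) {ξ : Pt → Bool} {c : Bool} {u w : Pt} (k : Lk ξ c u w) :
    Lk (fun q => ξ (p q)) c (g u) (g w) := by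
  rcases k with k | ⟨k1, k2, k3⟩
  · exact Or.inl (h.nn _ _ k)
  · obtain ⟨a1, a2, a3⟩ := h.dg u w k1 k2
    exact Or.inr ⟨a1, a2, by simp only [a3, k3]⟩

theorem SymG.path (h : SymG n g p) {ξ : Pt → Bool} {c : Bool} {M : Finset Pt} {a b : Pt}
    (k : SymC ξ c M a b) : SymC (fun q => ξ (p q)) c (M.image g) (g a) (g b) := by
  obtain ⟨k1, k2⟩ := k
  refine ⟨mem_image_of_mem g k1, ?_⟩
  induction k2 with
  | refl => exact .refl
  | tail _ m ih => exact ih.tail ⟨h.lk m.1, mem_image_of_mem g m.2⟩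

theorem SymG.path' (h : SymG n g p) {ξ : Pt → Bool} {c : Bool} {M : Finset Pt} {a b : Pt}
    (k : SymC (fun q => ξ (p q)) c (M.image g) a b) : SymC ξ c M (g a) (g b) := by
  have := h.path k
  simpa only [h.pinv, h.image_image] using this

theorem sym_neg {ξ : Pt → Bool} {M : Finset Pt} {a b : Pt} :
    SymC (fun q => !ξ q) true M a b ↔ SymC ξ false M a b := by
  simp [SymC, Lk]

theorem sym_TB {ξ : Pt → Bool} {M : Finset Pt} :
    TB n ξ M ↔ ∃ a b : Pt, a.2 = n ∧ b.2 = 1 ∧ SymC ξ false M a b :=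
  ⟨fun ⟨a, b, h1, h2, h3, h4⟩ => ⟨a, b, h2, h3, h1, h4⟩,
    fun ⟨a, b, h2, h3, h1, h4⟩ => ⟨a, b, h1, h2, h3, h4⟩⟩

theorem sym_LR {ξ : Pt → Bool} {M : Finset Pt} (hM : M ⊆ box n) :
    LR n ξ (box n \ M) ↔ ∃ a b : Pt, a.1 = 1 ∧ b.1 = n ∧ SymC ξ true M a b := by
  have e : ∀ w, (w ∈ box n ∧ w ∉ box n \ M) ↔ w ∈ M := fun w => by
    have := @hM w
    rw [mem_sdiff]; tauto
  constructor
  · rintro ⟨a, b, h1, h2, h3, h4, h5⟩
    exact ⟨a, b, h3, h4, (e a).1 ⟨h1, h2⟩, rtg_mono (fun u w k => ⟨k.1, (e w).1 k.2⟩) h5⟩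
  · rintro ⟨a, b, h3, h4, h1, h5⟩
    exact ⟨a, b, ((e a).2 h1).1, ((e a).2 h1).2, h3, h4,
      rtg_mono (fun u w k => ⟨k.1, (e w).2 k.2⟩) h5⟩

/-- The pivotal probabilities are transported by `g`. -/
def SymI (n : ℕ) (g : Pt → Pt) : Prop := ∀ ξ : Pt → Bool, ∃ ξ' : Pt → Bool, ∀ z ∈ box n,
  Pf n (fun M => Piv n ξ M z) = Pf n fun M => Piv n ξ' M (g z)

theorem SymG.symI (h : SymG n g p)
    (k : ∀ ξ M, TB n ξ M ↔ TB n (fun q => ξ (p q)) (M.image g)) : SymI n g := by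
  intro ξ
  refine ⟨fun q => ξ (p q), fun z _ => ?_⟩
  rw [← h.Pf_image fun M => Piv n (fun q => ξ (p q)) M (g z)]
  congr 1
  funext M
  rw [Piv, Piv, k, k ξ (M.erase z), image_insert, image_erase h.inj]

theorem sym_npiv_mono {ξ : Pt → Bool} {R R' : Finset Pt} (h : R ⊆ R') :
    npiv n ξ R ≤ npiv n ξ R' :=
  sum_le_sum_of_subset_of_nonneg h fun _ _ _ => Pr_nonneg

theorem SymG.double (h : SymG n g p) (k : SymI n g) {R : Finset Pt} (hR : R ⊆ box n) {ε : ℝ}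
    (hε : ∀ ξ, npiv n ξ R ≤ ε) (ξ : Pt → Bool) : npiv n ξ (R ∪ R.image g) ≤ 2 * ε := by
  obtain ⟨ξ', k'⟩ := k ξ
  have e1 : npiv n ξ (R.image g) = npiv n ξ' R := by
    rw [npiv, sum_image fun _ _ _ _ m => h.inj m, npiv]
    exact sum_congr rfl fun z hz => by rw [k' _ (h.bx z (hR hz)), h.inv]
  have e2 : npiv n ξ (R ∪ R.image g) + npiv n ξ (R ∩ R.image g) =
      npiv n ξ R + npiv n ξ (R.image g) := sum_union_inter
  have e3 : 0 ≤ npiv n ξ (R ∩ R.image g) := sum_nonneg fun _ _ => Pr_nonneg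
  linarith [hε ξ, hε ξ']

end G

/-- Reflection of the columns. -/
theorem sym_r1 (n : ℕ) : SymG n (fun w => (n + 1 - w.1, w.2)) fun q => (n - q.1, q.2) where
  inv w := by simp
  pinv w := by simp
  bx w k := by rw [mem_box] at k ⊢; dsimp only; omega
  nn u w k := by
    obtain ⟨d, rfl⟩ := k
    cases d
    · exact ⟨.N, by simp [Dir.vec]⟩
    · exact ⟨.W, by simp [Dir.vec, Prod.ext_iff]; ring⟩
    · exact ⟨.S, by simp [Dir.vec]⟩
    · exact ⟨.E, by simp [Dir.vec, Prod.ext_iff]; ring⟩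
  dg u w h1 h2 := by
    simp only [abs_eq (zero_le_one' ℤ), Prod.ext_iff, and_true, true_and] at h1 h2 ⊢
    omega

/-- Reflection of the rows. -/
theorem sym_r2 (n : ℕ) : SymG n (fun w => (w.1, n + 1 - w.2)) fun q => (q.1, n - q.2) where
  inv w := by simp
  pinv w := by simp
  bx w k := by rw [mem_box] at k ⊢; dsimp only; omega
  nn u w k := by
    obtain ⟨d, rfl⟩ := k
    cases d
    · exact ⟨.S, by simp [Dir.vec, Prod.ext_iff]; ring⟩
    · exact ⟨.E, by simp [Dir.vec]⟩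
    · exact ⟨.N, by simp [Dir.vec, Prod.ext_iff]; ring⟩
    · exact ⟨.W, by simp [Dir.vec]⟩
  dg u w h1 h2 := by
    simp only [abs_eq (zero_le_one' ℤ), Prod.ext_iff, and_true, true_and] at h1 h2 ⊢
    omega

/-- Reflection in the antidiagonal. -/
theorem sym_a (n : ℕ) :
    SymG n (fun w => (n + 1 - w.2, n + 1 - w.1)) fun q => (n - q.2, n - q.1) where
  inv w := by simp
  pinv w := by simp
  bx w k := by rw [mem_box] at k ⊢; dsimp only; omega
  nn u w k := by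
    obtain ⟨d, rfl⟩ := k
    cases d
    · exact ⟨.W, by simp [Dir.vec, Prod.ext_iff]; ring⟩
    · exact ⟨.S, by simp [Dir.vec, Prod.ext_iff]; ring⟩
    · exact ⟨.E, by simp [Dir.vec, Prod.ext_iff]; ring⟩
    · exact ⟨.N, by simp [Dir.vec, Prod.ext_iff]; ring⟩
  dg u w h1 h2 := by
    simp only [abs_eq (zero_le_one' ℤ), Prod.ext_iff, and_true, true_and] at h1 h2 ⊢
    omega

theorem sym_I1 (n : ℕ) : SymI n fun w => (n + 1 - w.1, w.2) := by
  refine (sym_r1 n).symI fun ξ M => ?_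
  rw [sym_TB, sym_TB]
  exact ⟨fun ⟨a, b, h1, h2, h3⟩ => ⟨_, _, by exact h1, by exact h2, (sym_r1 n).path h3⟩,
    fun ⟨a, b, h1, h2, h3⟩ => ⟨_, _, by exact h1, by exact h2, (sym_r1 n).path' h3⟩⟩

theorem sym_I2 (n : ℕ) : SymI n fun w => (w.1, n + 1 - w.2) := by
  refine (sym_r2 n).symI fun ξ M => ?_
  rw [sym_TB, sym_TB]
  exact ⟨fun ⟨a, b, h1, h2, h3⟩ => ⟨_, _, by simp [h2], by simp [h1], ((sym_r2 n).path h3).symm⟩,
    fun ⟨a, b, h1, h2, h3⟩ => ⟨_, _, by simp [h2], by simp [h1], ((sym_r2 n).path' h3).symm⟩⟩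

theorem sym_TB_LR (n : ℕ) (ξ : Pt → Bool) {M : Finset Pt} (hM : M ⊆ box n) :
    TB n ξ M ↔ LR n (fun q => !ξ (n - q.2, n - q.1))
      (box n \ M.image fun w => (n + 1 - w.2, n + 1 - w.1)) := by
  rw [sym_TB, sym_LR ((sym_a n).image_sub hM)]
  exact ⟨fun ⟨a, b, h1, h2, h3⟩ =>
      ⟨_, _, by simp [h1], by simp [h2], sym_neg.2 ((sym_a n).path h3)⟩,
    fun ⟨a, b, h1, h2, h3⟩ =>
      ⟨_, _, by simp [h1], by simp [h2], (sym_a n).path' (sym_neg.1 h3)⟩⟩

theorem sym_Ia (h : T_HEX) {n : ℕ} (hn : 1 ≤ n) :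
    SymI n fun w => (n + 1 - w.2, n + 1 - w.1) := by
  intro ξ
  refine ⟨fun q => !ξ (n - q.2, n - q.1), fun z hz => ?_⟩
  rw [← (sym_a n).Pf_flip fun M => Piv n (fun q => !ξ (n - q.2, n - q.1)) M _]
  refine Pr_congr fun M hM => ?_
  have hz' := (sym_a n).bx z hz
  rw [Piv, Piv, sym_TB_LR n ξ (insert_subset hz hM), sym_TB_LR n ξ ((erase_subset z M).trans hM),
    h n _ _ hn sdiff_subset, h n _ _ hn sdiff_subset, image_insert, image_erase (sym_a n).inj,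
    sdiff_insert, sdiff_erase hz']
  tauto

theorem t_sym (h : T_HEX) : T_SYM := by
  intro n hn
  refine ⟨fun ε hε ξ => ?_, fun c => ?_⟩
  · have b0 : base n ⊆ box n := filter_subset _ _
    have b1 := union_subset b0 ((sym_a n).image_sub b0)
    have b2 := union_subset b1 ((sym_r1 n).image_sub b1)
    have q1 := (sym_a n).double (sym_Ia h hn) b0 hε
    have q2 := (sym_r1 n).double (sym_I1 n) b1 q1
    have q3 := (sym_r2 n).double (sym_I2 n) b2 q2 ξ
    refine le_trans (sym_npiv_mono fun w hw => ?_) (q3.trans_eq (by ring))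
    rw [mem_box] at hw
    simp only [mem_union, (sym_a n).mem_image, (sym_r1 n).mem_image, (sym_r2 n).mem_image, base,
      mem_filter, mem_box]
    omega
  · rw [← (sym_a n).Pf_flip (LR n fun _ => c)]
    refine Pr_congr fun M hM => ?_
    rw [sym_TB_LR n _ hM]
    simp only [Bool.not_not]

end Pool.Agent.P.MP_347bd1_pr
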