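import Pool.Agent.P.MP_347bd1_pr.Stmts2

/-!
Transfer between the spin configurations on `Fin n × Fin n` and the sets of minus sites.
-/

namespace Pool.Agent.P.MP_347bd1_pr

open Classical Finset
open scoped ENNReal NNReal

theorem trans_inj {n : ℕ} : Function.Injective (toP (n := n)) := by
  rintro ⟨a, b⟩ ⟨c, d⟩ h
  simp only [toP, Prod.mk.injEq] at h
  ext <;> simp only <;> omega

theorem trans_mem {n : ℕ} (x : Site n) : toP x ∈ box n := by
  have h1 := x.1.2
  have h2 := x.2.2
  rw [mem_box]; simp only [toP]; omega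

theorem trans_surj {n : ℕ} {w : Pt} (h : w ∈ box n) : ∃ x : Site n, toP x = w := by
  rw [mem_box] at h
  refine ⟨(⟨(w.1 - 1).toNat, by omega⟩, ⟨(w.2 - 1).toNat, by omega⟩), ?_⟩
  ext <;> simp only [toP] <;> omega

theorem trans_mem_toM {n : ℕ} (σ : Conf n) (x : Site n) : toP x ∈ toM σ ↔ σ x = false := by
  simp only [toM, mem_image, mem_filter, mem_univ, true_and]
  constructor
  · rintro ⟨y, h, k⟩
    rwa [← trans_inj k]
  · exact fun h => ⟨x, h, rfl⟩

theorem trans_toM_sub {n : ℕ} (σ : Conf n) : toM σ ⊆ box n := by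
  intro w h
  obtain ⟨x, -, rfl⟩ := mem_image.1 h
  exact trans_mem x

theorem trans_adj {n : ℕ} (x y : Site n) : (grid n).Adj x y ↔ NN (toP x) (toP y) := by
  obtain ⟨a, b⟩ := x
  obtain ⟨c, d⟩ := y
  simp only [grid, SimpleGraph.boxProd_adj, SimpleGraph.pathGraph_adj, NN, toP, Fin.ext_iff]
  constructor
  · rintro (⟨h | h, k⟩ | ⟨h | h, k⟩)
    · exact ⟨.E, by simp only [Dir.vec, Prod.mk_add_mk, Prod.mk.injEq]; omega⟩
    · exact ⟨.W, by simp only [Dir.vec, Prod.mk_add_mk, Prod.mk.injEq]; omega⟩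
    · exact ⟨.N, by simp only [Dir.vec, Prod.mk_add_mk, Prod.mk.injEq]; omega⟩
    · exact ⟨.S, by simp only [Dir.vec, Prod.mk_add_mk, Prod.mk.injEq]; omega⟩
  · rintro ⟨e, h⟩
    cases e <;> simp only [Dir.vec, Prod.mk_add_mk, Prod.mk.injEq] at h <;> omega

theorem trans_sum_site {n : ℕ} (F : Pt → ℝ) : ∑ x : Site n, F (toP x) = ∑ w ∈ box n, F w :=
  sum_bij (fun x _ => toP x) (fun x _ => trans_mem x) (fun _ _ _ _ h => trans_inj h)
    (fun _ h => (trans_surj h).imp fun x k => ⟨mem_univ x, k⟩) (fun _ _ => rfl)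

theorem trans_sum_nn (U : Finset Pt) (w : Pt) (F : Pt → ℝ) :
    (∑ u ∈ U, if NN w u then F u else 0) =
      ∑ d : Dir, if w + d.vec ∈ U then F (w + d.vec) else 0 := by
  have : ∀ u, (if NN w u then F u else 0) = ∑ d : Dir, if w + d.vec = u then F u else 0 := by
    intro u
    by_cases h : NN w u
    · obtain ⟨d, rfl⟩ := h
      rw [if_pos ⟨d, rfl⟩, sum_eq_single d, if_pos rfl]
      · intro d' _ k
        rw [if_neg fun e => k (Dir.vec_inj (add_left_cancel e))]
      · simp
    · rw [if_neg h, sum_eq_zero]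
      intro d _
      rw [if_neg fun e => h ⟨d, e.symm⟩]
  simp only [this]
  rw [sum_comm]
  exact sum_congr rfl fun d _ => by rw [sum_ite_eq]

theorem trans_sum_inc (U : Finset Pt) (G : Edge → ℝ) : ∑ w ∈ U, ∑ d, G (inc w d) =
    ∑ e ∈ einc U, ((if ea e ∈ U then 1 else 0) + if eb e ∈ U then 1 else 0) * G e := by
  have h1 : ∀ w ∈ U, ∑ d, G (inc w d) =
      ∑ e ∈ einc U, ∑ d, if inc w d = e then G e else 0 := by
    intro w hw
    rw [sum_comm]
    exact sum_congr rfl fun d _ => by rw [sum_ite_eq, if_pos (inc_mem_einc.2 (Or.inl hw))]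
  rw [sum_congr rfl h1, sum_comm]
  refine sum_congr rfl fun e _ => ?_
  obtain ⟨d0, k1, k2⟩ := exists_inc e
  have h2 : ∀ w, (∑ d, if inc w d = e then G e else 0) =
      (if ea e = w then G e else 0) + if eb e = w then G e else 0 := by
    intro w
    have h3 : ∀ d, inc w d = e ↔ (w = ea e ∧ d = d0) ∨ (w = eb e ∧ d = d0.opp) := by
      intro d
      rw [k2, ← inc_eq_iff, k1]
    have h4 := ea_ne_eb e
    simp only [h3]
    by_cases a : w = ea e
    · subst a
      simp [h4, h4.symm]
    · by_cases b : w = eb e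
      · subst b
        simp [h4, h4.symm]
      · simp [a, b, Ne.symm a, Ne.symm b]
  simp only [h2, sum_add_distrib, sum_ite_eq]
  split_ifs <;> ring

/-- The spin at a point. -/
noncomputable def trans_s (M : Finset Pt) (w : Pt) : ℝ := if w ∈ M then -1 else 1

theorem trans_sp {n : ℕ} (σ : Conf n) (x : Site n) : sp (σ x) = trans_s (toM σ) (toP x) := by
  simp only [trans_s, trans_mem_toM, sp]
  cases σ x <;> simp

theorem trans_ss (M : Finset Pt) (e : Edge) :
    trans_s M (ea e) * trans_s M (eb e) = 1 - 2 * if e ∈ cut M then 1 else 0 := by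
  simp only [trans_s, mem_cut]
  by_cases a : ea e ∈ M <;> by_cases b : eb e ∈ M <;> simp [a, b] <;> norm_num

/-- The interacting edges. -/
noncomputable def trans_F (b : BC) (n : ℕ) : Finset Edge :=
  match b with
  | .free => ebox n
  | .plus => einc (box n)

theorem trans_degree {n : ℕ} (x : Site n) : ((grid n).degree x : ℝ) =
    ∑ d : Dir, if toP x + d.vec ∈ box n then 1 else 0 := by
  rw [← trans_sum_nn (box n) (toP x) fun _ => 1,
    ← trans_sum_site fun u => if NN (toP x) u then 1 else 0]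
  simp only [← trans_adj]
  rw [← SimpleGraph.card_neighborFinset_eq_degree, SimpleGraph.neighborFinset_eq_filter,
    card_filter]
  push_cast
  rfl

theorem trans_energy1 (b : BC) {n : ℕ} (σ : Conf n) : energy b σ =
    ∑ w ∈ box n, ∑ d, trans_s (toM σ) (ea (inc w d)) * trans_s (toM σ) (eb (inc w d)) *
      if inc w d ∈ ebox n then 1 / 2 else outSp b := by
  rw [← trans_sum_site fun w => ∑ d, trans_s (toM σ) (ea (inc w d)) *
    trans_s (toM σ) (eb (inc w d)) * if inc w d ∈ ebox n then 1 / 2 else outSp b]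
  rw [energy, sum_div, ← sum_add_distrib]
  refine sum_congr rfl fun x _ => ?_
  simp only [trans_adj, trans_sp, trans_degree]
  rw [trans_sum_site fun u => if NN (toP x) u then
    trans_s (toM σ) (toP x) * trans_s (toM σ) u else 0, trans_sum_nn]
  have h4 : (4 : ℝ) = ∑ _d : Dir, 1 := by rw [sum_dir]; norm_num
  rw [h4, ← sum_sub_distrib, sum_div, sum_mul, ← sum_add_distrib]
  refine sum_congr rfl fun d _ => ?_
  have h5 : trans_s (toM σ) (ea (inc (toP x) d)) * trans_s (toM σ) (eb (inc (toP x) d)) =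
      trans_s (toM σ) (toP x) * trans_s (toM σ) (toP x + d.vec) := by
    rcases ends_inc (toP x) d with h | h <;> rw [h.1, h.2]
    exact mul_comm _ _
  rw [h5]
  simp only [inc_mem_ebox, trans_mem, true_and]
  split_ifs with h
  · ring
  · have : trans_s (toM σ) (toP x + d.vec) = 1 := if_neg fun k => h (trans_toM_sub σ k)
    rw [this]; ring

theorem trans_energy (b : BC) {n : ℕ} (σ : Conf n) : energy b σ =
    (trans_F b n).card - 2 * ((cut (toM σ) ∩ trans_F b n).card : ℝ) := by
  have h1 : ∀ F : Finset Edge, (F.card : ℝ) - 2 * ((cut (toM σ) ∩ F).card : ℝ) =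
      ∑ e ∈ F, (1 - 2 * if e ∈ cut (toM σ) then 1 else 0 : ℝ) := by
    intro F
    rw [sum_sub_distrib, ← mul_sum, inter_comm, ← filter_mem_eq_inter, card_filter]
    simp
  rw [trans_energy1, trans_sum_inc (box n) fun e => trans_s (toM σ) (ea e) *
    trans_s (toM σ) (eb e) * if e ∈ ebox n then 1 / 2 else outSp b, h1]
  simp only [trans_ss]
  cases b
  · rw [trans_F, ebox, sum_filter]
    refine sum_congr rfl fun e _ => ?_
    rw [← ebox]
    by_cases a : ea e ∈ box n <;> by_cases b : eb e ∈ box n <;> simp [a, b, mem_ebox, outSp]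
    ring
  · rw [trans_F]
    refine sum_congr rfl fun e he => ?_
    have := mem_einc.1 he
    by_cases a : ea e ∈ box n <;> by_cases b : eb e ∈ box n <;> simp [a, b, mem_ebox, outSp]
    · ring
    · tauto

theorem trans_exp (b : BC) {n : ℕ} (σ : Conf n) : Real.exp (betaC * energy b σ) =
    Real.exp (betaC * (trans_F b n).card) * xc ^ (cut (toM σ) ∩ trans_F b n).card := by
  have h0 : 0 < 1 + Real.sqrt 2 := by positivity
  have h1 : xc = Real.exp (-(2 * betaC)) := by
    rw [betaC, Real.exp_neg, mul_div_cancel₀ _ two_ne_zero, Real.exp_log h0]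
    have := Real.sq_sqrt (show (0 : ℝ) ≤ 2 by norm_num)
    refine eq_inv_of_mul_eq_one_left ?_
    unfold xc; nlinarith
  rw [trans_energy, h1, ← Real.exp_nat_mul, ← Real.exp_add]
  congr 1; ring

theorem trans_sum_conf {n : ℕ} (g : Finset Pt → ℝ) :
    ∑ σ : Conf n, g (toM σ) = ∑ M ∈ (box n).powerset, g M := by
  refine sum_bij (fun σ _ => toM σ) (fun σ _ => mem_powerset.2 (trans_toM_sub σ)) ?_ ?_
    fun _ _ => rfl
  · intro σ _ τ _ h
    funext x
    have h1 := trans_mem_toM σ x
    rw [h, trans_mem_toM] at h1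
    cases k : σ x <;> cases k' : τ x <;> simp_all
  · intro M hM
    refine ⟨fun x => decide (toP x ∉ M), mem_univ _, ?_⟩
    ext w
    constructor
    · intro h
      obtain ⟨x, rfl⟩ := trans_surj (trans_toM_sub _ h)
      simpa using (trans_mem_toM _ x).1 h
    · intro h
      obtain ⟨x, rfl⟩ := trans_surj (mem_powerset.1 hM h)
      exact (trans_mem_toM _ x).2 (by simpa using h)

theorem trans_prob (b : BC) (n : ℕ) (A : Finset Pt → Prop) :
    (∑ σ : Conf n, ising b σ * if A (toM σ) then 1 else 0) = Pr (trans_F b n) (box n) ∅ A := by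
  simp only [ising, trans_exp, ← mul_sum, mul_div_mul_left _ _ (Real.exp_pos _).ne']
  rw [trans_sum_conf fun M => xc ^ (cut M ∩ trans_F b n).card, Pr, Zf, Zf, sum_div,
    trans_sum_conf fun M => xc ^ (cut M ∩ trans_F b n).card /
      (∑ M ∈ (box n).powerset, xc ^ (cut M ∩ trans_F b n).card) * if A M then 1 else 0]
  simp only [union_empty, if_true]
  refine sum_congr rfl fun M _ => ?_
  split_ifs <;> simp

theorem trans_cross {n : ℕ} (σ : Conf n) : Crossing σ ↔ LR n (fun _ => false) (toM σ) := by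
  have hl : ∀ a b : Pt, Lk (fun _ => false) true a b ↔ NN a b := fun a b =>
    lk_const_not_iff (c := true)
  simp only [Crossing, LR, hl]
  constructor
  · rintro ⟨x, y, h1, h2, h3, h4⟩
    refine ⟨toP x, toP y, trans_mem x, by simp [trans_mem_toM, h3], by simp [toP, h1],
      by simp only [toP]; omega, ?_⟩
    clear h2
    induction h4 with
    | refl => exact .refl
    | tail _ k ih =>
      exact ih.tail ⟨(trans_adj _ _).1 k.1, trans_mem _, by simp [trans_mem_toM, k.2]⟩
  · rintro ⟨a, b, h1, h2, h3, h4, h5⟩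
    obtain ⟨x, rfl⟩ := trans_surj h1
    have key : ∃ y : Site n, toP y = b ∧
        Relation.ReflTransGen (fun u w => (grid n).Adj u w ∧ σ w = true) x y := by
      clear h4
      induction h5 with
      | refl => exact ⟨x, rfl, .refl⟩
      | tail _ k ih =>
        obtain ⟨y, rfl, r⟩ := ih
        obtain ⟨z, rfl⟩ := trans_surj k.2.1
        exact ⟨z, rfl, r.tail ⟨(trans_adj _ _).2 k.1, by simpa [trans_mem_toM] using k.2.2⟩⟩
    obtain ⟨y, rfl, r⟩ := key
    simp only [toP] at h3 h4
    exact ⟨x, y, by omega, by omega, by simpa [trans_mem_toM] using h2, r⟩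

theorem t_trans : T_TRANS := by
  intro n
  refine ⟨fun A => ⟨trans_prob .free n A, trans_prob .plus n A⟩, trans_cross, fun b σ => ?_,
    fun b => ?_⟩
  · exact div_pos (Real.exp_pos _) (sum_pos (fun _ _ => Real.exp_pos _) ⟨σ, mem_univ σ⟩)
  · simpa [Pr_true] using trans_prob b n fun _ => True

end Pool.Agent.P.MP_347bd1_pr
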