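import Pool.Agent.P.MP_347bd1_pr.Stmts2

/-!
The two strand estimate.
-/

namespace Pool.Agent.P.MP_347bd1_pr

open Classical Finset
open scoped ENNReal NNReal

theorem ts_amgm {G h t : ℝ} (ht : 0 < t) (hG : G ^ 2 ≤ h) : G ≤ t / 2 + 1 / (2 * t) * h := by
  have e : t / 2 + 1 / (2 * t) * h = (t ^ 2 + h) / (2 * t) := by field_simp
  rw [e, le_div_iff₀ (by positivity)]
  nlinarith [sq_nonneg (G - t)]

theorem ts_G1 (h4 : T_DHN) {n : ℕ} {S : Finset Pt} {E X : Finset Edge} {v z : Pt}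
    (hE : E ⊆ eS n S) (hc : SC n E) (hX : Good n S X) (hv : v ∈ intr n) (hz : z ∈ S)
    (hvz : Corner v z) : G1 n v (E ∪ X) ^ 2 ≤ (hN (net n (E ∪ X)) v).toReal :=
  h4 n _ v z (hc.union hE hX) hv hvz ((hX.conn z hz).mono (union_subset_union hE le_rfl))

theorem ts_qP_nonneg (n : ℕ) (S : Finset Pt) (Lf : Finset Edge) (P : Finset Pt) :
    0 ≤ qP n S Lf P :=
  div_nonneg (mul_nonneg (pow_pos xc_pos _).le (Zs_nonneg _ _ _)) (Zs_nonneg _ _ _)

theorem ts_Dl {n : ℕ} {S T P : Finset Pt} {Lf Rg : Finset Edge} (h : Str2 n S T Lf Rg)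
    (hP : Valid n S Lf Rg P) : Dl n Lf P ⊆ eS n S := by
  intro e he
  rcases mem_union.1 he with k | k
  · exact (h.lf e k).1
  · obtain ⟨k1, k2⟩ := mem_inter.1 k
    exact mem_eS.2 ⟨k2, (mem_einc.1 k1).imp (fun a => (mem_sdiff.1 (hP.sub a)).2)
      fun a => (mem_sdiff.1 (hP.sub a)).2⟩

theorem ts_lam {n : ℕ} {S T P : Finset Pt} {Lf Rg : Finset Edge} (h : Str2 n S T Lf Rg)
    (hP : Valid n S Lf Rg P) : lam n Lf P ⊆ eS n S := by
  intro e he
  refine ts_Dl h hP ?_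
  rcases mem_symmDiff.1 he with k | k
  · obtain ⟨k1, k2⟩ := mem_inter.1 k.1
    exact mem_union_right _ (mem_inter.2 ⟨filter_subset _ _ k1, k2⟩)
  · exact mem_union_left _ k.1

theorem ts_hN_le {n : ℕ} {S T P : Finset Pt} {Lf Rg X : Finset Edge} (h : Str2 n S T Lf Rg)
    (hP : Valid n S Lf Rg P) (hX : Good n S X) (v : Pt) :
    hN (net n ((eS n S \ Dl n Lf P) ∪ X)) v ≤
      ms fun W => Run (net n (eS n S ∪ X)) v W ∧ Disjoint (Od v W) (Dl n Lf P) := by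
  refine ms_mono fun W hW => ⟨hW.le (net_le (union_subset_union sdiff_subset le_rfl)), ?_⟩
  refine disjoint_left.2 fun e he he' => ?_
  rcases mem_union.1 (hW.Od_subset he) with k | k
  · exact (mem_sdiff.1 k).2 he'
  · obtain ⟨-, k1, k2, -⟩ := hX.xs e k
    exact (mem_eS.1 (ts_Dl h hP he')).2.elim (fun a => a k1) fun a => a k2

theorem ts_omg_ne_top (n : ℕ) (S : Finset Pt) (X1 X2 : Finset Edge) (v : Pt)
    (E2 : List Dir → Finset Edge) (Gd : List Dir → Prop) : omg n S X1 X2 v E2 Gd ≠ ∞ := by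
  refine ne_top_of_le_ne_top (ENNReal.mul_ne_top (hN_ne_top (net n (eS n S ∪ X2)) v)
    (show (2 : ℝ≥0∞) ≠ ∞ by simp)) ?_
  rw [hN, ms, ← ENNReal.tsum_mul_right]
  refine ENNReal.tsum_le_tsum fun W => ?_
  split_ifs with k1 k2
  · exact mul_le_mul_right (hN_le _ _) _
  · exact absurd k1.1 k2
  · exact zero_le
  · exact zero_le

theorem ts_swap {ι : Type} (F : Finset ι) {q : ι → ℝ} (hq : ∀ P, 0 ≤ q P) (A : ι → List Dir → Prop)
    (R G : List Dir → Prop) (a b : ℝ≥0∞) (g : List Dir → ℝ≥0∞)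
    (h1 : ∀ P ∈ F, ∀ W, A P W → R W ∧ G W)
    (h2 : ∀ W, R W → G W → ENNReal.ofReal (∑ P ∈ F.filter fun P => A P W, q P) ≤ a + b * g W) :
    ∑ P ∈ F, ENNReal.ofReal (q P) * ms (A P) ≤
      a * ms R + b * ∑' W, if R W ∧ G W then wt W * g W else 0 := by
  simp only [ms, ← ENNReal.tsum_mul_left]
  rw [← ENNReal.tsum_add, ← Summable.tsum_finsetSum fun _ _ => ENNReal.summable]
  refine ENNReal.tsum_le_tsum fun W => ?_
  by_cases k : R W ∧ G W
  · have e : ∑ P ∈ F, (ENNReal.ofReal (q P) * if A P W then wt W else 0) =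
        ENNReal.ofReal (∑ P ∈ F.filter fun P => A P W, q P) * wt W := by
      rw [ENNReal.ofReal_sum_of_nonneg fun P _ => hq P, sum_mul, sum_filter]
      exact sum_congr rfl fun P _ => by split_ifs <;> simp
    rw [e, if_pos k, if_pos k.1]
    refine (mul_le_mul_left (h2 W k.1 k.2) _).trans (le_of_eq ?_)
    ring
  · rw [sum_eq_zero fun P hP => by rw [if_neg fun m => k (h1 P hP W m), mul_zero]]
    exact zero_le

theorem t_ts (h1 : T_DEC1) (h2 : T_DEC2) (h3 : T_BAR) (h4 : T_DHN) : T_TS := by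
  intro n S T Lf Rg X1 X2 v A0 A1 κ B hS hX1 hX2 hd hX hv hz hA0 hA1 hvA hκ k1 k2 hB
  have hn : 1 ≤ n := by have := mem_intr.1 hv; omega
  obtain ⟨E2, K, hbar, hsc, hlam⟩ := h3 n S T Lf Rg X1 X2 v hS hX1 hX2 hd hX hv hz
    ((hA1 v hv).2 hvA)
  obtain ⟨z, hz, hvz⟩ := hz
  have hzS : z ∈ S := (mem_sdiff.1 hz).1
  obtain ⟨d1, d2⟩ := h2 n S T Lf Rg A1 hn hS hA1
  refine ⟨E2, K, _, hbar, fun t1 t2 ht1 ht2 => ?_⟩
  obtain ⟨F, hV, e1⟩ : ∃ F : Finset (Finset Pt), (∀ P ∈ F, Valid n S Lf Rg P) ∧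
      Zf (eS n S) (box n \ S) T B ≤ ∑ P ∈ F,
        xc ^ (lam n Lf P).card * Zs n (symmDiff A0 A1) (eS n S \ Dl n Lf P) := by
    refine ⟨_, ?_, h1 n S T Lf Rg A0 A1 B (fun _ => True) hS hA0 hA1
      fun M hM k => ⟨hB M hM k, trivial⟩⟩
    intro P hP
    simp only [mem_filter] at hP
    exact hP.2.1
  have s1 : Zf (eS n S) (box n \ S) T B / Zs n ∅ (eS n S) ≤ ∑ P ∈ F, qP n S Lf P *
      (κ * (t1 / 2 + 1 / (2 * t1) * (hN (net n ((eS n S \ Dl n Lf P) ∪ X2)) v).toReal)) := by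
    refine (div_le_div_of_nonneg_right e1 (Zs_nonneg _ _ _)).trans ?_
    rw [sum_div]
    apply sum_le_sum
    intro P hP
    have a1 := (k2 _ sdiff_subset).trans (mul_le_mul_of_nonneg_left
      (ts_amgm ht1 (ts_G1 h4 sdiff_subset (d1 P (hV P hP)) hX2 hv hzS hvz)) hκ)
    refine le_trans (le_of_eq ?_) (mul_le_mul_of_nonneg_left a1 (ts_qP_nonneg n S Lf P))
    have a2 := (Zs_pos n (eS n S \ Dl n Lf P)).ne'
    have a3 := (Zs_pos n (eS n S)).ne'
    rw [qP]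
    field_simp
  have s2 : ∑ P ∈ F, qP n S Lf P ≤ κ * Real.sqrt (hN (net n (eS n S ∪ X1)) v).toReal :=
    (d2 _ F le_rfl hX1.sc_eS fun P hP => ⟨hV P hP, ts_lam hS (hV P hP)⟩).trans
      ((k1 _ le_rfl).trans (mul_le_mul_of_nonneg_left
        (Real.le_sqrt_of_sq_le (ts_G1 h4 le_rfl hX1.sc_eS hX1 hv hzS hvz)) hκ))
  have s3 := ts_swap F (ts_qP_nonneg n S Lf)
    (fun P W => Run (net n (eS n S ∪ X2)) v W ∧ Disjoint (Od v W) (Dl n Lf P))
    (Run (net n (eS n S ∪ X2)) v) (fun W => Disjoint (Od v W) Lf)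
    (ENNReal.ofReal (κ * (t2 / 2))) (ENNReal.ofReal (κ * (1 / (2 * t2))))
    (fun W => hN (net n (E2 W ∪ X1)) v)
    (fun P _ W k => ⟨k.1, k.2.mono_right subset_union_left⟩) (fun W r g => by
      have b1 := (hbar W r g).1
      have b2 := (d2 (E2 W) (F.filter fun P => Run (net n (eS n S ∪ X2)) v W ∧
          Disjoint (Od v W) (Dl n Lf P)) b1 (hsc W r g) fun P hP =>
        ⟨hV P (mem_filter.1 hP).1, hlam W P r (hV P (mem_filter.1 hP).1)
          (mem_filter.1 hP).2.2⟩).trans ((k1 _ b1).trans (mul_le_mul_of_nonneg_left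
            (ts_amgm ht2 (ts_G1 h4 b1 (hsc W r g) hX1 hv hzS hvz)) hκ))
      refine (ENNReal.ofReal_le_ofReal (le_of_eq_of_le (by congr) b2)).trans (le_of_eq ?_)
      rw [mul_add, ENNReal.ofReal_add (by positivity) (by positivity), ← mul_assoc,
        ENNReal.ofReal_mul (p := κ * (1 / (2 * t2))) (by positivity),
        ENNReal.ofReal_toReal (hN_ne_top _ _)])
  have s4 : ∑ P ∈ F, qP n S Lf P * (hN (net n ((eS n S \ Dl n Lf P) ∪ X2)) v).toReal ≤
      κ * (t2 / 2) * (hN (net n (eS n S ∪ X2)) v).toReal +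
        κ * (1 / (2 * t2)) * (omg n S X1 X2 v E2 fun W => Disjoint (Od v W) Lf).toReal := by
    have c1 := ENNReal.mul_ne_top (ENNReal.ofReal_ne_top (r := κ * (t2 / 2)))
      (hN_ne_top (net n (eS n S ∪ X2)) v)
    have c2 := ENNReal.mul_ne_top (ENNReal.ofReal_ne_top (r := κ * (1 / (2 * t2))))
      (ts_omg_ne_top n S X1 X2 v E2 fun W => Disjoint (Od v W) Lf)
    have c3 : ∑ P ∈ F, ENNReal.ofReal (qP n S Lf P) * hN (net n ((eS n S \ Dl n Lf P) ∪ X2)) v ≤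
        ENNReal.ofReal (κ * (t2 / 2)) * hN (net n (eS n S ∪ X2)) v +
          ENNReal.ofReal (κ * (1 / (2 * t2))) *
            omg n S X1 X2 v E2 fun W => Disjoint (Od v W) Lf :=
      (sum_le_sum fun P hP => mul_le_mul_right (ts_hN_le hS (hV P hP) hX2 v) _).trans
        (le_of_le_of_eq s3 (by congr))
    have c4 := ENNReal.toReal_mono (ENNReal.add_ne_top.2 ⟨c1, c2⟩) c3
    rw [ENNReal.toReal_add c1 c2, ENNReal.toReal_mul, ENNReal.toReal_mul,
      ENNReal.toReal_ofReal (by positivity), ENNReal.toReal_ofReal (by positivity),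
      ENNReal.toReal_sum fun P _ => ENNReal.mul_ne_top ENNReal.ofReal_ne_top (hN_ne_top _ _)] at c4
    refine le_of_eq_of_le (sum_congr rfl fun P _ => ?_) c4
    rw [ENNReal.toReal_mul, ENNReal.toReal_ofReal (ts_qP_nonneg n S Lf P)]
  have s5 : ∑ P ∈ F, qP n S Lf P *
      (κ * (t1 / 2 + 1 / (2 * t1) * (hN (net n ((eS n S \ Dl n Lf P) ∪ X2)) v).toReal)) =
      κ * (t1 / 2) * ∑ P ∈ F, qP n S Lf P + κ * (1 / (2 * t1)) *
        ∑ P ∈ F, qP n S Lf P * (hN (net n ((eS n S \ Dl n Lf P) ∪ X2)) v).toReal := by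
    rw [mul_sum, mul_sum, ← sum_add_distrib]
    exact sum_congr rfl fun P _ => by ring
  refine s1.trans (s5.le.trans ((add_le_add (mul_le_mul_of_nonneg_left s2 (by positivity))
    (mul_le_mul_of_nonneg_left s4 (by positivity))).trans (le_of_eq ?_)))
  field_simp
  ring

end Pool.Agent.P.MP_347bd1_pr
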