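import Pool.Agent.P.MP_347bd1_pr.Stmts2

/-!
The corner estimate and the bulk estimate for the arm event.
-/

namespace Pool.Agent.P.MP_347bd1_pr

open Classical Finset
open scoped ENNReal NNReal

theorem ts0_src (n : ℕ) (S : Finset Pt) : Src n (cut ∅ ∩ (ebox n \ eS n S)) ∅ := by
  rw [cut_empty, empty_inter]; exact src_empty n

theorem ts0_one {n : ℕ} {v : Pt} (hv : v ∈ intr n) : 1 ≤ n := by
  have := mem_intr.1 hv; omega

theorem ts0_PS (h5 : T_ZEQ) {n : ℕ} {S : Finset Pt} (hn : 1 ≤ n) (hS : Good n S ∅)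
    (B : Finset Pt → Prop) : PS n S B = Zf (eS n S) (box n \ S) ∅ B / Zs n ∅ (eS n S) := by
  rw [PS, Pr, h5 n S ∅ ∅ hn hS (empty_subset _) (ts0_src n S)]

theorem ts0_sc {n : ℕ} {S : Finset Pt} (hS : Good n S ∅) :
    SC n ((eS n S).filter fun e => ¬ Col1 e) := by
  have h := hS.sc_eS
  refine ⟨(filter_subset _ _).trans h.sub, fun e he => h.top e (mem_filter.1 he).1,
    fun e he he' => ?_⟩
  by_cases k : e ∈ eS n S
  swap; · exact (h.conn e he k).mono (filter_subset _ _)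
  have hc : Col1 e := by
    by_contra m
    exact he' (mem_filter.2 ⟨k, m⟩)
  obtain ⟨⟨x, y⟩, b⟩ := e
  obtain ⟨-, hx⟩ := hc
  simp only at hx
  subst hx
  have hb := mem_box.1 (mem_ebox.1 he).1
  simp only [ea] at hb ⊢
  obtain ⟨j, rfl⟩ : ∃ j : ℕ, y = n - j := ⟨(n - y).toNat, by omega⟩
  have := (topConn_top ((eS n S).filter fun e => ¬ Col1 e) (w := (1, n))
    (by rw [mem_box]; simp only; omega) rfl).line .S j fun i hi => by
      simp [mem_ebox, mem_box, ea, eb, inc, Dir.vec, Col1]; omega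
  simpa [Dir.vec, sub_eq_add_neg] using this

theorem ts0_G1 (h3 : T_DHN) {n : ℕ} {S : Finset Pt} {E E' : Finset Edge} {v z : Pt}
    (hS : Good n S ∅) (hv : v ∈ intr n) (hz : z ∈ S) (hc : Corner v z) (hE : SC n E)
    (h1 : E ⊆ E') (h2 : E' ⊆ eS n S) : G1 n v E ≤ Real.sqrt (hN (net n E') v).toReal := by
  refine Real.le_sqrt_of_sq_le ((h3 n E v z hE hv hc ((hS.conn z hz).mono ?_)).trans ?_)
  · exact (h1.trans h2).trans subset_union_left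
  · exact ENNReal.toReal_mono (hN_ne_top _ _) (hN_mono (net_le h1) v)

theorem ts0_lam {n : ℕ} {S P : Finset Pt} {Lf Rg : Finset Edge} (hs : Str2 n S ∅ Lf Rg)
    (hL : ∀ e ∈ Lf, ¬ Col1 e) (hP : Valid n S Lf Rg P) (hu : ∀ u ∈ P, u.1 ≠ 1) :
    lam n Lf P ⊆ (eS n S).filter fun e => ¬ Col1 e := by
  intro e he
  rcases mem_symmDiff.1 he with ⟨k, -⟩ | ⟨k, -⟩
  · obtain ⟨k1, k2⟩ := mem_inter.1 k
    have k3 : ea e ∈ P ∨ eb e ∈ P := by
      rw [mem_cut] at k1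
      by_contra m
      exact k1 ⟨fun a => (m (Or.inl a)).elim, fun a => (m (Or.inr a)).elim⟩
    refine mem_filter.2 ⟨mem_eS.2 ⟨k2, k3.imp (fun a => (mem_sdiff.1 (hP.sub a)).2)
      fun a => (mem_sdiff.1 (hP.sub a)).2⟩, fun m => ?_⟩
    rcases k3 with a | a
    · exact hu _ a m.2
    · exact hu _ a (by simp [eb, m.1, m.2])
  · exact mem_filter.2 ⟨(hs.lf e k).1, hL e k⟩

theorem t_ts0 (h1 : T_DEC1) (h2 : T_DEC2) (h3 : T_DHN) (h4 : T_LFT) (h5 : T_ZEQ) : T_TS0 := by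
  intro n S v hS hv
  have hn := ts0_one hv
  refine ⟨ts0_sc hS, ?_⟩
  by_cases ha : ∃ M ⊆ box n \ S, ArmF S v M
  swap
  · rw [PS, Pr_eq_zero fun M hM k => ha ⟨M, hM, k⟩]
    positivity
  obtain ⟨M, hM, hA⟩ := ha
  obtain ⟨z, hz, hc⟩ := hA.1
  obtain ⟨Lf, Rg, hs, hL, hC, hV⟩ := h4 n S M v hS hv hM hA
  have d1 := h1 n S ∅ Lf Rg ∅ {v} (ArmF S v) (fun P => ∀ u ∈ P, u.1 ≠ 1) hs (ts0_src n S) hL hV
  obtain ⟨d2, d3⟩ := h2 n S ∅ Lf Rg {v} hn hs hL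
  have d4 := d3 _ ((box n \ S).powerset.filter fun P => Valid n S Lf Rg P ∧ ∀ u ∈ P, u.1 ≠ 1)
    (filter_subset _ _) (ts0_sc hS) fun P hP =>
      ⟨(mem_filter.1 hP).2.1, ts0_lam hs hC (mem_filter.1 hP).2.1 (mem_filter.1 hP).2.2⟩
  have d5 := ts0_G1 h3 hS hv hz hc (ts0_sc hS) le_rfl (filter_subset _ _)
  rw [ts0_PS h5 hn hS]
  refine (div_le_div_of_nonneg_right d1 (Zs_nonneg _ _ _)).trans ?_
  refine le_trans ?_ (mul_le_mul_of_nonneg_right (d4.trans d5) (Real.sqrt_nonneg _))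
  rw [sum_div, sum_mul]
  refine le_of_eq_of_le (by congr) (sum_le_sum fun P hP => ?_)
  have e : symmDiff (∅ : Set Pt) {v} = {v} := bot_symmDiff _
  have d6 := ts0_G1 h3 hS hv hz hc (d2 P (mem_filter.1 hP).2.1) sdiff_subset le_rfl
  have hq : 0 ≤ qP n S Lf P :=
    div_nonneg (mul_nonneg (pow_pos xc_pos _).le (Zs_nonneg _ _ _)) (Zs_nonneg _ _ _)
  refine le_of_eq_of_le ?_ (mul_le_mul_of_nonneg_left d6 hq)
  have := (Zs_pos n (eS n S \ Dl n Lf P)).ne'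
  rw [e, qP, G1]
  field_simp

theorem t_ts1 (h1 : T_TS) (h2 : T_TS0) (h4 : T_LFT) (h5 : T_ZEQ) : T_TS1 := by
  intro n S v hS hv
  have hn := ts0_one hv
  by_cases ha : ∃ M ⊆ box n \ S, ArmF S v M
  swap
  · refine ⟨fun _ => ∅, fun _ => ∅, fun _ => False, fun _ _ k => k.elim, fun ε y hε hy _ => ?_⟩
    rw [PS, Pr_eq_zero fun M hM k => ha ⟨M, hM, k⟩]
    positivity
  obtain ⟨M, hM, hA⟩ := ha
  obtain ⟨z, hz, hc⟩ := hA.1
  obtain ⟨Lf, Rg, hs, hL, -, hV⟩ := h4 n S M v hS hv hM hA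
  have e : symmDiff (∅ : Set Pt) {v} = {v} := bot_symmDiff _
  obtain ⟨E2, K, Gd, hB, hb⟩ := h1 n S ∅ Lf Rg ∅ ∅ v ∅ {v} 1 (ArmF S v) hs hS hS
    (disjoint_empty_left _) (by simp) hv ⟨z, by simpa using hz, hc⟩ (ts0_src n S) hL rfl
    zero_le_one (fun E _ => by rw [union_empty, one_mul, G1])
    (fun E _ => by rw [union_empty, one_mul, G1, e]) fun M' k k' => (hV M' k k').1
  refine ⟨E2, K, Gd, hB, fun ε y hε hy ho => ?_⟩
  rw [union_empty] at hb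
  have h0 := (h2 n S v hS hv).2
  rw [← ts0_PS h5 hn hS] at hb
  have hh : 0 ≤ (hN (net n (eS n S)) v).toReal := ENNReal.toReal_nonneg
  generalize (hN (net n (eS n S)) v).toReal = h at *
  generalize (omg n S ∅ ∅ v E2 Gd).toReal = o at *
  have hy' : 0 ≤ y / ε ^ 3 := by positivity
  rcases hh.eq_or_lt with rfl | hh
  · rw [Real.sqrt_zero, mul_zero] at h0
    linarith
  obtain ⟨r, hr, rfl⟩ : ∃ r : ℝ, 0 < r ∧ h = r ^ 2 :=
    ⟨Real.sqrt h, Real.sqrt_pos.2 hh, (Real.sq_sqrt hh.le).symm⟩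
  have k := hb (ε * r) (ε ^ 2 * r) (by positivity) (by positivity)
  rw [Real.sqrt_sq hr.le] at k
  have k1 : ε ^ 2 * r * r ^ 2 / (2 * (ε * r)) = ε * r ^ 2 / 2 := by field_simp
  have k2 : o / (2 * (ε * r) * (ε ^ 2 * r)) ≤ y / ε ^ 3 / 2 := by
    refine (div_le_div_of_nonneg_right ho (by positivity)).trans_eq ?_
    field_simp
  have k3 : 0 ≤ ε * r ^ 2 := by positivity
  rw [k1] at k
  nlinarith

end Pool.Agent.P.MP_347bd1_pr
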