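import Pool.Agent.P.MP_347bd1_pr.Glue
import Pool.Agent.P.MP_347bd1_pr.NIG
import Pool.Agent.P.MP_347bd1_pr.NI
import Pool.Agent.P.MP_347bd1_pr.KC1
import Pool.Agent.P.MP_347bd1_pr.KC
import Pool.Agent.P.MP_347bd1_pr.DHN
import Pool.Agent.P.MP_347bd1_pr.LOWA
import Pool.Agent.P.MP_347bd1_pr.LOW
import Pool.Agent.P.MP_347bd1_pr.HIT
import Pool.Agent.P.MP_347bd1_pr.BEUR
import Pool.Agent.P.MP_347bd1_pr.FLUX
import Pool.Agent.P.MP_347bd1_pr.THIN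
import Pool.Agent.P.MP_347bd1_pr.KILL
import Pool.Agent.P.MP_347bd1_pr.LD
import Pool.Agent.P.MP_347bd1_pr.PAIR
import Pool.Agent.P.MP_347bd1_pr.BAR
import Pool.Agent.P.MP_347bd1_pr.BULK
import Pool.Agent.P.MP_347bd1_pr.CORN
import Pool.Agent.P.MP_347bd1_pr.PI1
import Pool.Agent.P.MP_347bd1_pr.DOB
import Pool.Agent.P.MP_347bd1_pr.FLATU
import Pool.Agent.P.MP_347bd1_pr.TS
import Pool.Agent.P.MP_347bd1_pr.TS0
import Pool.Agent.P.MP_347bd1_pr.DEC1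
import Pool.Agent.P.MP_347bd1_pr.DEC2
import Pool.Agent.P.MP_347bd1_pr.POIN
import Pool.Agent.P.MP_347bd1_pr.LSM
import Pool.Agent.P.MP_347bd1_pr.DUAL
import Pool.Agent.P.MP_347bd1_pr.SEP
import Pool.Agent.P.MP_347bd1_pr.HEX1
import Pool.Agent.P.MP_347bd1_pr.HEX2
import Pool.Agent.P.MP_347bd1_pr.ARC
import Pool.Agent.P.MP_347bd1_pr.EXPL
import Pool.Agent.P.MP_347bd1_pr.SYM
import Pool.Agent.P.MP_347bd1_pr.RUSSO
import Pool.Agent.P.MP_347bd1_pr.MONO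
import Pool.Agent.P.MP_347bd1_pr.PLUS
import Pool.Agent.P.MP_347bd1_pr.DYNA
import Pool.Agent.P.MP_347bd1_pr.DYNLO
import Pool.Agent.P.MP_347bd1_pr.TRANS

/-!
All intermediate statements hold.
-/

namespace Pool.Agent.P.MP_347bd1_pr

open Filter Topology

theorem f_hex : T_HEX := t_hex t_hex1 (t_hex2 t_poin)
theorem f_zeq : T_ZEQ := t_zeq t_poin
theorem f_dec2 : T_DEC2 := t_dec2 (t_lsm t_poin)
theorem f_sep : T_SEP := t_sep t_poin
theorem f_lft : T_LFT := t_lft t_poin t_dual f_sep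
theorem f_hit : T_HIT := t_hit t_log
theorem f_beur : T_BEUR := t_beur f_hit
theorem f_low : T_LOW := t_low f_hit (t_lowa t_log) t_lowc
theorem f_dhn : T_DHN := t_dhn t_kc1 (t_kc t_kc1)
theorem f_dhnl : T_DHNL := t_dhnl t_kc1 (t_kc t_kc1) t_xe f_low
theorem f_ts : T_TS := t_ts t_dec1 f_dec2 t_bar f_dhn
theorem f_ts0 : T_TS0 := t_ts0 t_dec1 f_dec2 f_dhn f_lft f_zeq
theorem f_cell : T_CELL := t_cell (t_flux t_log)
theorem f_ni : T_NI := t_ni (t_nig t_poin t_arc) (t_chain f_beur (t_harn f_hit)) t_kill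
theorem f_bulk : T_BULK :=
  t_bulk (t_ts1 f_ts f_ts0 f_lft f_zeq) f_ni f_cell t_green (t_thin t_green f_beur)
theorem f_corn : T_CORN := t_corn f_ts0 f_cell t_green f_beur
theorem f_flatu : T_FLATU := t_flatu t_log
theorem f_pi : T_PI := t_pi (t_pi1 f_ts (t_dob f_sep t_dual) f_ni (t_ld f_low f_flatu) f_flatu
  f_dhnl t_xe f_zeq)
theorem f_plus : T_PLUS := t_plus (t_pair t_mono) f_pi

theorem main_free (t : ℝ) (ht : 0 < t) : Tendsto (fun n => corr .free n t) atTop (𝓝 1) :=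
  free_stable (t_dynup t_dyna) t_trans f_hex (t_sym f_hex) (t_russo f_hex)
    (npiv_small f_bulk f_corn t_expl (t_sym f_hex)) t ht

theorem main_plus (t : ℝ) (ht : 0 < t) : ∃ c : ℝ, 0 < c ∧ ∀ n ≥ 2,
    0 < var .plus (fcr (n := n)) ∧ corr .plus n t ≤ 1 - c :=
  plus_unstable (t_dynlo t_dyna) t_trans f_hex f_plus t ht

theorem main_var : Tendsto (fun n => var .plus (fcr (n := n))) atTop (𝓝 0) :=
  plus_var t_trans f_hex f_plus

end Pool.Agent.P.MP_347bd1_pr
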