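import Pool.Agent.P.MP_347bd1_pr.Stmts2

/-!
The two theorems from the intermediate statements.
-/

namespace Pool.Agent.P.MP_347bd1_pr

open Classical Finset Filter Topology

theorem toP_inj {n : ℕ} {x y : Site n} (h : toP x = toP y) : x = y := by
  simp only [toP, Prod.ext_iff, add_left_inj, Nat.cast_inj] at h
  exact Prod.ext (Fin.ext h.1) (Fin.ext h.2)

theorem toP_mem {n : ℕ} (x : Site n) : toP x ∈ box n := by
  have := x.1.2; have := x.2.2
  simp only [mem_box, toP]; omega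

theorem exists_toP {n : ℕ} {w : Pt} (h : w ∈ box n) : ∃ x : Site n, toP x = w := by
  rw [mem_box] at h
  refine ⟨(⟨(w.1 - 1).toNat, by omega⟩, ⟨(w.2 - 1).toNat, by omega⟩), ?_⟩
  simp only [toP, Prod.ext_iff]; omega

theorem mem_toM {n : ℕ} {σ : Conf n} {w : Pt} : w ∈ toM σ ↔ ∃ x, σ x = false ∧ toP x = w := by
  simp [toM]

theorem toP_mem_toM {n : ℕ} {σ : Conf n} {x : Site n} : toP x ∈ toM σ ↔ σ x = false :=
  mem_toM.trans ⟨fun ⟨_, h, k⟩ => toP_inj k ▸ h, fun h => ⟨x, h, rfl⟩⟩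

theorem toM_subset {n : ℕ} (σ : Conf n) : toM σ ⊆ box n := fun _ h => by
  obtain ⟨x, -, rfl⟩ := mem_toM.1 h; exact toP_mem x

theorem toM_ext {n : ℕ} {σ : Conf n} {M : Finset Pt} (hM : M ⊆ box n)
    (h : ∀ x, σ x = false ↔ toP x ∈ M) : toM σ = M := by
  ext w
  refine ⟨fun k => ?_, fun k => ?_⟩
  · obtain ⟨x, k', rfl⟩ := mem_toM.1 k; exact (h x).1 k'
  · obtain ⟨x, rfl⟩ := exists_toP (hM k); exact toP_mem_toM.2 ((h x).2 k)

theorem toM_true {n : ℕ} (σ : Conf n) (x : Site n) :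
    toM (Function.update σ x true) = (toM σ).erase (toP x) :=
  toM_ext ((erase_subset _ _).trans (toM_subset σ)) fun y => by
    by_cases h : y = x
    · simp [h]
    · simp [h, toP_mem_toM, show toP y ≠ toP x from fun k => h (toP_inj k)]

theorem toM_false {n : ℕ} (σ : Conf n) (x : Site n) :
    toM (Function.update σ x false) = insert (toP x) (toM σ) :=
  toM_ext (insert_subset (toP_mem x) (toM_subset σ)) fun y => by
    by_cases h : y = x
    · simp [h]
    · simp [h, toP_mem_toM, show toP y ≠ toP x from fun k => h (toP_inj k)]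

theorem fcr_eq (hT : T_TRANS) (hH : T_HEX) {n : ℕ} (hn : 1 ≤ n) (σ : Conf n) :
    fcr σ = if TB n (fun _ => false) (toM σ) then -1 else 1 := by
  rw [fcr, (hT n).2.1, hH n _ _ hn (toM_subset σ)]
  split_ifs <;> simp_all

theorem var_eq (hT : T_TRANS) (hH : T_HEX) {n : ℕ} (hn : 1 ≤ n) (b : BC) {P : ℝ}
    (hP : P = ∑ σ : Conf n, ising b σ * if TB n (fun _ => false) (toM σ) then 1 else 0) :
    var b (fcr (n := n)) = 4 * P * (1 - P) := by
  have h1 := (hT n).2.2.2 b
  have h2 : ∑ σ : Conf n, ising b σ * fcr σ ^ 2 = 1 :=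
    (sum_congr rfl fun σ _ => by unfold fcr; split_ifs <;> simp).trans h1
  have h3 : ∑ σ : Conf n, ising b σ * fcr σ = 1 - 2 * P := by
    rw [hP, mul_sum, eq_sub_iff_add_eq, ← sum_add_distrib]
    refine Eq.trans ?_ h1
    exact sum_congr rfl fun σ _ => by rw [fcr_eq hT hH hn]; split_ifs <;> ring
  rw [var, h2, h3]; ring

theorem npiv_small (h1 : T_BULK) (h2 : T_CORN) (h3 : T_EXPL) (h4 : T_SYM) (ε : ℝ) (hε : 0 < ε) :
    ∀ᶠ n in atTop, ∀ ξ, npiv n ξ (box n) ≤ ε := by
  obtain ⟨C, hC, h3⟩ := h3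
  obtain ⟨q, n0, hq, h2⟩ := h2 (ε / (16 * C)) (by positivity)
  obtain ⟨n1, h1⟩ := h1 (ε / (16 * C)) q (by positivity) hq
  filter_upwards [eventually_ge_atTop n0, eventually_ge_atTop n1, eventually_ge_atTop 3]
    with n k0 k1 k3 ξ
  refine ((h4 n (by omega)).1 (C * (2 * (ε / (16 * C)))) (fun ξ => h3 n ξ _ k3 fun S hS => ?_)
    ξ).trans (le_of_eq (by field_simp; norm_num))
  rw [← sum_filter_add_sum_filter_not _ fun v : Pt => (n : ℤ) ≤ q * v.1]
  simp only [not_le]
  linarith [h1 n k1 S hS, h2 n k0 S hS]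

theorem free_stable (hU : T_DYNUP) (hT : T_TRANS) (hH : T_HEX) (hS : T_SYM) (hR : T_RUSSO)
    (hp : ∀ ε : ℝ, 0 < ε → ∀ᶠ n in atTop, ∀ ξ, npiv n ξ (box n) ≤ ε) (t : ℝ) (ht : 0 < t) :
    Tendsto (fun n => corr .free n t) atTop (𝓝 1) := by
  rw [Metric.tendsto_nhds]
  intro δ hδ
  filter_upwards [hp (min (δ / (8 * t)) (1 / 16)) (by positivity), eventually_ge_atTop 1]
    with n h1 hn
  set ε := min (δ / (8 * t)) (1 / 16)
  have e1 : ε ≤ δ / (8 * t) := min_le_left _ _
  have e2 : ε ≤ 1 / 16 := min_le_right _ _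
  set P := Pf n (TB n fun _ => false)
  have hv := var_eq hT hH hn .free (P := P) ((hT n).1 _).1.symm
  have a1 : Pf n (LR n fun _ => true) = P := (hS n hn).2 true
  have a2 : Pf n (LR n fun _ => false) = 1 - P :=
    (Pr_congr fun M hM => hH n _ M hn hM).trans Pr_not
  have a3 := hR n ε hn h1
  have a4 : Pf n (LR n fun _ => false) ≤ Pf n (LR n fun _ => true) :=
    Pr_mono fun M _ ⟨a, b, k1, k2, k3, k4, k5⟩ => ⟨a, b, k1, k2, k3, k4,
      rtg_mono (fun u w k => ⟨Or.inl ((lk_const_not_iff (c := true)).1 k.1), k.2⟩) k5⟩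
  have hv' : 1 / 2 ≤ var .free (fcr (n := n)) := by rw [hv]; nlinarith
  obtain ⟨b1, b2⟩ := hU .free n fcr t ht.le fun σ => by unfold fcr; split_ifs <;> simp
  have b3 : (∑ x : Site n, ∑ σ : Conf n, ising .free σ *
      if fcr (Function.update σ x true) = fcr (Function.update σ x false) then 0 else 1) =
      npiv n (fun _ => false) (box n) := by
    refine sum_bij (fun x _ => toP x) (fun x _ => toP_mem x) (fun _ _ _ _ => toP_inj)
      (fun w hw => by simpa using exists_toP hw) fun x _ => ?_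
    rw [← ((hT n).1 _).1]
    refine sum_congr rfl fun σ _ => ?_
    rw [fcr_eq hT hH hn, fcr_eq hT hH hn, toM_true, toM_false, Piv]
    congr 1
    by_cases c1 : TB n (fun _ => false) ((toM σ).erase (toP x)) <;>
      by_cases c2 : TB n (fun _ => false) (insert (toP x) (toM σ)) <;> norm_num [c1, c2]
  rw [b3] at b2
  have b4 : var .free (fcr (n := n)) - cov .free (fcr (n := n)) t ≤ δ / 4 := by
    refine b2.trans ((mul_le_mul_of_nonneg_left ((h1 _).trans e1) (by positivity)).trans_eq ?_)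
    field_simp; norm_num
  rw [Real.dist_eq, corr, div_sub_one (by linarith), abs_div, abs_of_nonpos (by linarith),
    abs_of_pos (by linarith), div_lt_iff₀ (by linarith)]
  nlinarith

theorem tb_split {n : ℕ} {M : Finset Pt} (hn : 2 ≤ n) (hM : M ⊆ box n)
    (h : TB n (fun _ => false) M) : ∃ x ∈ M, x.2 = 1 ∧ ∃ y ∈ row2 n M, Star y x := by
  obtain ⟨a, b, ha, ha', hb, h⟩ := h
  have key : (∃ x ∈ M, x.2 = 1 ∧ ∃ y ∈ row2 n M, Star y x) ∨
      SPath (M.filter fun w => 2 ≤ w.2) b a := by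
    clear hb
    induction h with
    | refl => exact Or.inr ⟨mem_filter.2 ⟨ha, by omega⟩, .refl⟩
    | @tail u w _ k ih =>
      refine ih.elim Or.inl fun ih => ?_
      have hs := k.1.star
      by_cases c : 2 ≤ w.2
      · exact Or.inr ⟨mem_filter.2 ⟨k.2, c⟩, .head ⟨hs.symm, ih.1⟩ ih.2⟩
      · have h1 := mem_box.1 (hM k.2)
        have h2 := mem_filter.1 ih.1
        have h3 := nrm_le_iff.1 hs.le
        simp only [Prod.snd_sub] at h3
        exact Or.inl ⟨w, k.2, by omega, u, mem_filter.2 ⟨hM h2.1, by omega, a, ha', ih⟩, hs⟩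
  exact key.resolve_right fun k => by have := (mem_filter.1 k.1).2; omega

theorem tb_of_row2 {n : ℕ} {M : Finset Pt} {x y : Pt} (hx : x ∈ M) (hx' : x.2 = 1)
    (hy : y ∈ row2 n M) (h : Star y x) : TB n (fun _ => false) M := by
  obtain ⟨-, -, a, ha, k1, k2⟩ := mem_filter.1 hy
  have : a ∈ M ∧ Relation.ReflTransGen (fun u w => Lk (fun _ => false) false u w ∧ w ∈ M) a y := by
    clear ha
    induction k2 with
    | refl => exact ⟨(mem_filter.1 k1).1, .refl⟩
    | tail _ k ih => exact ⟨(mem_filter.1 k.2).1, .head ⟨lk_const_iff.2 k.1.symm, ih.1⟩ ih.2⟩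
  exact ⟨a, x, this.1, ha, hx', this.2.tail ⟨lk_const_iff.2 h, hx⟩⟩

theorem row2_congr {n : ℕ} {M M' : Finset Pt} (h : ∀ w : Pt, w.2 ≠ 1 → (w ∈ M ↔ w ∈ M')) :
    row2 n M = row2 n M' := by
  have : (M.filter fun w => 2 ≤ w.2) = M'.filter fun w => 2 ≤ w.2 := by
    ext w; simp only [mem_filter]
    exact and_congr_left fun k => h w (by omega)
  rw [row2, this, row2]

theorem row2_toM {n : ℕ} {σ τ : Conf n} (h : ∀ x, (toP x).2 ≠ 1 → τ x = σ x) :
    row2 n (toM τ) = row2 n (toM σ) :=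
  row2_congr fun w hw => by
    simp only [mem_toM]
    refine exists_congr fun x => and_congr_left fun k => ?_
    rw [h x (k ▸ hw)]

theorem plus_unstable (hL : T_DYNLO) (hT : T_TRANS) (hH : T_HEX) (hP : T_PLUS) (t : ℝ)
    (ht : 0 < t) : ∃ c : ℝ, 0 < c ∧ ∀ n ≥ 2,
      0 < var .plus (fcr (n := n)) ∧ corr .plus n t ≤ 1 - c := by
  obtain ⟨K, hK⟩ := hP.1
  obtain ⟨c, hc, hL⟩ := hL t (9 * K) ht
  refine ⟨c / 8, by positivity, fun n hn => ?_⟩
  set P := Pp n (TB n fun _ => false) with hPd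
  have hv := var_eq hT hH (by omega : 1 ≤ n) .plus (P := P) ((hT n).1 _).2.symm
  have pos : ∀ (A : Finset Pt → Prop) (σ : Conf n), A (toM σ) → 0 < Pp n A := by
    intro A σ h
    rw [← ((hT n).1 A).2]
    refine sum_pos' (fun τ _ => mul_nonneg ((hT n).2.2.1 _ τ).le (by split_ifs <;> norm_num))
      ⟨σ, mem_univ _, by simpa [h] using (hT n).2.2.1 .plus σ⟩
  have p0 : 0 < P := by
    refine pos _ (fun _ => false) ?_
    rw [toM_ext (M := box n) le_rfl fun x => by simp [toP_mem]]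
    have k : ∀ i : ℕ, i + 1 ≤ n → Relation.ReflTransGen (fun u w => Lk (fun _ => false) false u w ∧
        w ∈ box n) ((1 : ℤ), (n : ℤ)) (1, n - i) := by
      intro i
      induction i with
      | zero => intro _; rw [Nat.cast_zero, sub_zero]
      | succ i ih =>
        intro hi
        exact (ih (by omega)).tail ⟨Or.inl ⟨.S, by simp [Dir.vec]; ring⟩,
          by rw [mem_box]; simp only; omega⟩
    exact ⟨_, _, by rw [mem_box]; simp only; omega, rfl, by simp only; omega, k (n - 1) (by omega)⟩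
  have p1 : 0 < 1 - P := by
    rw [hPd, Pp, ← Pr_not]
    refine pos _ (fun _ => true) ?_
    rintro ⟨a, -, ha, -⟩
    simp [toM] at ha
  have v0 : 0 < var .plus (fcr (n := n)) := by rw [hv]; positivity
  refine ⟨v0, ?_⟩
  let R : Conf n → Finset (Site n) := fun σ =>
    univ.filter fun x => (toP x).2 = 1 ∧ ∃ y ∈ row2 n (toM σ), Star y (toP x)
  have hR : ∀ σ x, (toP x).2 ≠ 1 → x ∉ R σ := fun σ x h k => h (mem_filter.1 k).2.1
  have := hL .plus n fcr (fun σ => 1 ≤ (row2 n (toM σ)).card ∧ (row2 n (toM σ)).card ≤ K) R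
    (fun σ h => ?_) (fun σ τ h k => ?_) fun σ h => ⟨?_, ?_⟩
  · rw [((hT n).1 fun M => 1 ≤ (row2 n M).card ∧ (row2 n M).card ≤ K).2] at this
    have h1 := hK n hn
    rw [corr, div_le_iff₀ v0]
    have h2 : var .plus (fcr (n := n)) ≤ 4 * P := by rw [hv]; nlinarith
    nlinarith
  · rw [← card_image_of_injective _ fun _ _ => toP_inj]
    have : (R σ).image toP ⊆ (row2 n (toM σ)).biUnion fun y => ball y 1 := by
      intro w hw
      obtain ⟨x, hx, rfl⟩ := mem_image.1 hw
      obtain ⟨-, y, k1, k2⟩ := (mem_filter.1 hx).2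
      exact mem_biUnion.2 ⟨y, k1, mem_ball.2 k2.symm.le⟩
    refine (card_le_card this).trans ((card_biUnion_le_card_mul _ _ 9 fun y _ => ?_).trans ?_)
    · simp only [ball, card_product, Int.card_Icc]
      rw [show y.1 + 1 + 1 - (y.1 - 1) = 3 by ring, show y.2 + 1 + 1 - (y.2 - 1) = 3 by ring]
      rfl
    · nlinarith [h.2]
  · have e := row2_toM fun x hx => k x (hR σ x hx)
    simp only [R, e]
    exact ⟨h, trivial⟩
  · rw [fcr_eq hT hH (by omega), if_neg]
    intro k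
    obtain ⟨w, hw, h1, y, h2, h3⟩ := tb_split hn (toM_subset _) k
    obtain ⟨x, hx, rfl⟩ := mem_toM.1 hw
    rw [row2_toM (σ := σ) fun x hx => if_neg (hR σ x hx)] at h2
    have : x ∈ R σ := mem_filter.2 ⟨mem_univ _, h1, y, h2, h3⟩
    simp [this] at hx
  · rw [fcr_eq hT hH (by omega), if_pos]
    obtain ⟨y, hy⟩ := card_pos.1 h.1
    have h1 := mem_filter.1 hy
    have h2 := mem_box.1 h1.1
    obtain ⟨x, hx⟩ := exists_toP (n := n) (w := (y.1, 1)) (by rw [mem_box]; simp only; omega)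
    have h3 : Star y (toP x) := by rw [hx]; simp [Star, nrm, h1.2.1]
    have : x ∈ R σ := mem_filter.2 ⟨mem_univ _, by rw [hx], y, hy, h3⟩
    refine tb_of_row2 (toP_mem_toM.2 (if_pos this)) (by rw [hx]) ?_ h3
    rwa [row2_toM (σ := σ) fun x hx => if_neg (hR σ x hx)]

theorem plus_var (hT : T_TRANS) (hH : T_HEX) (hP : T_PLUS) :
    Tendsto (fun n => var .plus (fcr (n := n))) atTop (𝓝 0) := by
  have := (hP.2.const_mul 4).mul (hP.2.const_sub 1)
  simp only [mul_zero, zero_mul] at this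
  refine this.congr' ?_
  filter_upwards [eventually_ge_atTop 1] with n hn
  exact (var_eq hT hH hn .plus ((hT n).1 _).2.symm).symm

end Pool.Agent.P.MP_347bd1_pr
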