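import Pool.Agent.P.MP_347bd1_pr.Defs

/-!
Internal definitions: lattice geometry, partition functions, crossings, killed walks.

A point `(i, j)` is either a site or the plaquette with the corners `(i, j), (i+1, j), (i, j+1),
(i+1, j+1)`.  The edge `(w, true)` joins the sites `w` and `w + (1, 0)`, the edge `(w, false)` joins
`w` and `w + (0, 1)`.  A configuration is the finite set of its minus sites.
-/

namespace Pool.Agent.P.MP_347bd1_pr

open Classical Finset
open scoped ENNReal NNReal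

abbrev Pt : Type := ℤ × ℤ

abbrev Edge : Type := Pt × Bool

inductive Dir
  | N | E | S | W
  deriving DecidableEq, Fintype

def Dir.vec : Dir → Pt
  | .N => (0, 1) | .E => (1, 0) | .S => (0, -1) | .W => (-1, 0)

def Dir.opp : Dir → Dir
  | .N => .S | .E => .W | .S => .N | .W => .E

/-- First end of an edge. -/
def ea (e : Edge) : Pt := e.1

/-- Second end of an edge. -/
def eb (e : Edge) : Pt := if e.2 then e.1 + (1, 0) else e.1 + (0, 1)

/-- The edge from the site `w` in the direction `d`. -/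
def inc (w : Pt) : Dir → Edge
  | .N => (w, false) | .E => (w, true) | .S => ((w.1, w.2 - 1), false)
  | .W => ((w.1 - 1, w.2), true)

/-- The edge crossed by the step from the plaquette `p` in the direction `d`. -/
def cr (p : Pt) : Dir → Edge
  | .N => ((p.1, p.2 + 1), true) | .E => ((p.1 + 1, p.2), false) | .S => (p, true)
  | .W => (p, false)

/-- The maximum norm. -/
def nrm (z : Pt) : ℤ := max |z.1| |z.2|

/-- The sites of the box. -/
noncomputable def box (n : ℕ) : Finset Pt := Icc (1 : ℤ) n ×ˢ Icc (1 : ℤ) n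

/-- The plaquettes inside the box. -/
noncomputable def intr (n : ℕ) : Finset Pt := Icc (1 : ℤ) (n - 1) ×ˢ Icc (1 : ℤ) (n - 1)

/-- The edges with an end in `U`. -/
noncomputable def einc (U : Finset Pt) : Finset Edge := U.biUnion fun w => univ.image (inc w)

/-- The edges inside the box. -/
noncomputable def ebox (n : ℕ) : Finset Edge :=
  (einc (box n)).filter fun e => ea e ∈ box n ∧ eb e ∈ box n

/-- The edges with exactly one end in `M`. -/
noncomputable def cut (M : Finset Pt) : Finset Edge :=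
  (einc M).filter fun e => ¬ (ea e ∈ M ∧ eb e ∈ M)

/-- The number of sides of the plaquette `p` in `η`. -/
noncomputable def deg (η : Finset Edge) (p : Pt) : ℕ := (univ.filter fun d => cr p d ∈ η).card

/-- The inner plaquettes of odd degree are those in `A`. -/
def Src (n : ℕ) (η : Finset Edge) (A : Set Pt) : Prop := ∀ p ∈ intr n, (Odd (deg η p) ↔ p ∈ A)

/-- The weight `exp (-2 β)` of a disagreeing edge. -/
noncomputable def xc : ℝ := Real.sqrt 2 - 1

/-- Contours in `E` with the sources `A`. -/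
noncomputable def Zs (n : ℕ) (A : Set Pt) (E : Finset Edge) : ℝ :=
  ∑ η ∈ E.powerset, if Src n η A then xc ^ η.card else 0

/-- The one point function. -/
noncomputable def G1 (n : ℕ) (v : Pt) (E : Finset Edge) : ℝ := Zs n {v} E / Zs n ∅ E

/-- Weight of the event `A` for the interactions `F`, the free sites `U` and the frozen minus
sites `T`; all other sites are plus. -/
noncomputable def Zf (F : Finset Edge) (U T : Finset Pt) (A : Finset Pt → Prop) : ℝ :=
  ∑ M ∈ U.powerset, if A M then xc ^ (cut (M ∪ T) ∩ F).card else 0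

noncomputable def Pr (F : Finset Edge) (U T : Finset Pt) (A : Finset Pt → Prop) : ℝ :=
  Zf F U T A / Zf F U T fun _ => True

/-- Free boundary condition. -/
noncomputable def Pf (n : ℕ) (A : Finset Pt → Prop) : ℝ := Pr (ebox n) (box n) ∅ A

/-- Plus boundary condition. -/
noncomputable def Pp (n : ℕ) (A : Finset Pt → Prop) : ℝ := Pr (einc (box n)) (box n) ∅ A

/-- `w` is a corner of the plaquette `p`. -/
def Corner (p w : Pt) : Prop := (w.1 = p.1 ∨ w.1 = p.1 + 1) ∧ (w.2 = p.2 ∨ w.2 = p.2 + 1)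

def NN (a b : Pt) : Prop := ∃ d : Dir, b = a + d.vec

def Star (a b : Pt) : Prop := nrm (a - b) = 1

/-- Connected through edges of `F`. -/
def Conn (F : Finset Edge) (a b : Pt) : Prop :=
  Relation.ReflTransGen (fun u w => ∃ d, inc u d ∈ F ∧ w = u + d.vec) a b

/-- Connected to the top row through edges that are not in `E`. -/
def TopConn (n : ℕ) (E : Finset Edge) (w : Pt) : Prop :=
  ∃ u ∈ box n, u.2 = n ∧ Conn (ebox n \ E) u w

/-- The set `E` of active edges is simply connected. -/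
structure SC (n : ℕ) (E : Finset Edge) : Prop where
  sub : E ⊆ ebox n
  top : ∀ e ∈ E, ¬ ((ea e).2 = n ∧ (eb e).2 = n)
  conn : ∀ e ∈ ebox n, e ∉ E → TopConn n E (ea e)

/-- The edges of the box with an end outside `S`. -/
noncomputable def eS (n : ℕ) (S : Finset Pt) : Finset Edge :=
  (ebox n).filter fun e => ea e ∉ S ∨ eb e ∉ S

/-- A frozen set hanging from the top row, even after activating the edges of `X`. -/
structure Good (n : ℕ) (S : Finset Pt) (X : Finset Edge) : Prop where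
  sub : S ⊆ box n
  top : ∀ w ∈ box n, w.2 = n → w ∈ S
  conn : ∀ w ∈ S, TopConn n (eS n S ∪ X) w
  xs : ∀ e ∈ X, e ∈ ebox n ∧ ea e ∈ S ∧ eb e ∈ S ∧ ¬ ((ea e).2 = n ∧ (eb e).2 = n)

/-- Adjacency for the colour `c`: diagonals of the plaquettes of colour `c` are allowed. -/
def Lk (ξ : Pt → Bool) (c : Bool) (a b : Pt) : Prop :=
  NN a b ∨ (|a.1 - b.1| = 1 ∧ |a.2 - b.2| = 1 ∧ ξ (min a.1 b.1, min a.2 b.2) = c)

/-- Left-right crossing by plus sites. -/
def LR (n : ℕ) (ξ : Pt → Bool) (M : Finset Pt) : Prop :=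
  ∃ a b : Pt, a ∈ box n ∧ a ∉ M ∧ a.1 = 1 ∧ b.1 = n ∧
    Relation.ReflTransGen (fun u w => Lk ξ true u w ∧ w ∈ box n ∧ w ∉ M) a b

/-- Top-bottom crossing by minus sites. -/
def TB (n : ℕ) (ξ : Pt → Bool) (M : Finset Pt) : Prop :=
  ∃ a b : Pt, a ∈ M ∧ a.2 = n ∧ b.2 = 1 ∧
    Relation.ReflTransGen (fun u w => Lk ξ false u w ∧ w ∈ M) a b

/-- A star-path inside `M`. -/
def SPath (M : Finset Pt) (a b : Pt) : Prop :=
  a ∈ M ∧ Relation.ReflTransGen (fun u w => Star u w ∧ w ∈ M) a b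

def Piv (n : ℕ) (ξ : Pt → Bool) (M : Finset Pt) (z : Pt) : Prop :=
  ¬ (TB n ξ (insert z M) ↔ TB n ξ (M.erase z))

/-- Expected number of pivotal sites in `Rg`. -/
noncomputable def npiv (n : ℕ) (ξ : Pt → Bool) (Rg : Finset Pt) : ℝ :=
  ∑ z ∈ Rg, Pf n fun M => Piv n ξ M z

/-- One eighth of the box. -/
noncomputable def base (n : ℕ) : Finset Pt :=
  (box n).filter fun z => n - z.2 ≤ z.1 - 1 ∧ 2 * z.1 ≤ n + 1

noncomputable def vbase (n : ℕ) : Finset Pt := (intr n).filter fun v => ∃ z ∈ base n, Corner v z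

/-- A minus arm from the plaquette `v`, which touches `S`, to the bottom row. -/
def ArmF (S : Finset Pt) (v : Pt) (M : Finset Pt) : Prop :=
  (∃ z ∈ S, Corner v z) ∧ ∃ s b : Pt, Corner v s ∧ b.2 = 1 ∧ SPath M s b

/-- Probability given that `S` is plus. -/
noncomputable def PS (n : ℕ) (S : Finset Pt) (A : Finset Pt → Prop) : ℝ :=
  Pr (eS n S) (box n \ S) ∅ A

/-- The edges from the plus part of `S` to the free sites are split into `Lf` and `Rg`. -/
structure Str2 (n : ℕ) (S T : Finset Pt) (Lf Rg : Finset Edge) : Prop where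
  good : Good n S ∅
  hT : T ⊆ S
  lf : ∀ e ∈ Lf, e ∈ eS n S ∧ (ea e ∈ S \ T ∨ eb e ∈ S \ T)
  rg : ∀ e ∈ Rg, e ∈ eS n S ∧ (ea e ∈ S \ T ∨ eb e ∈ S \ T)
  disj : Disjoint Lf Rg
  cover : ∀ e ∈ eS n S, (ea e ∈ S \ T ∨ eb e ∈ S \ T) → e ∈ Lf ∨ e ∈ Rg

/-- The plus cluster of the edges `Lf`. -/
noncomputable def Pcl (n : ℕ) (S : Finset Pt) (Lf : Finset Edge) (M : Finset Pt) : Finset Pt :=
  ((box n \ S) \ M).filter fun u => ∃ u0 ∈ (box n \ S) \ M, (∃ d, inc u0 d ∈ Lf) ∧
    Relation.ReflTransGen (fun a b => NN a b ∧ b ∈ (box n \ S) \ M) u0 u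

structure Valid (n : ℕ) (S : Finset Pt) (Lf Rg : Finset Edge) (P : Finset Pt) : Prop where
  sub : P ⊆ box n \ S
  conn : ∀ u ∈ P, ∃ u0 ∈ P, (∃ d, inc u0 d ∈ Lf) ∧
    Relation.ReflTransGen (fun a b => NN a b ∧ b ∈ P) u0 u
  nrg : ∀ u ∈ P, ∀ d, inc u d ∉ Rg

/-- The strand bounding `P`. -/
noncomputable def lam (n : ℕ) (Lf : Finset Edge) (P : Finset Pt) : Finset Edge :=
  symmDiff (cut P ∩ ebox n) Lf

/-- The edges explored together with `P`. -/
noncomputable def Dl (n : ℕ) (Lf : Finset Edge) (P : Finset Pt) : Finset Edge :=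
  Lf ∪ (einc P ∩ ebox n)

noncomputable def qP (n : ℕ) (S : Finset Pt) (Lf : Finset Edge) (P : Finset Pt) : ℝ :=
  xc ^ (lam n Lf P).card * Zs n ∅ (eS n S \ Dl n Lf P) / Zs n ∅ (eS n S)

/-- The vertical edges of the first column. -/
def Col1 (e : Edge) : Prop := e.2 = false ∧ e.1.1 = 1

/-- A network: the allowed moves and the exits. -/
structure Net where
  mv : Pt → Dir → Prop
  st : Pt → Dir → Prop
  symm : ∀ p d, mv p d → mv (p + d.vec) d.opp
  disj : ∀ p d, mv p d → ¬ st p d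

/-- `N'` is a subnetwork of `N`. -/
def Net.Le (N' N : Net) : Prop := (∀ p d, N'.mv p d → N.mv p d) ∧ ∀ p d, N'.st p d → N.st p d

/-- Living walks; every step starts in `R`. A forbidden step must be undone at once. -/
inductive Al (N : Net) (R : Set Pt) : Pt → List Dir → Pt → Prop
  | nil (p : Pt) : Al N R p [] p
  | move {p q : Pt} {d : Dir} {W : List Dir} : p ∈ R → N.mv p d → Al N R (p + d.vec) W q →
      Al N R p (d :: W) q
  | bounce {p q : Pt} {d : Dir} {W : List Dir} : p ∈ R → ¬ N.mv p d → Al N R p W q →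
      Al N R p (d :: d.opp :: W) q

/-- The end point of a word. -/
def endp (p : Pt) : List Dir → Pt
  | [] => p
  | d :: W => endp (p + d.vec) W

/-- The walk `W` from `p` really visits `z`. -/
def Vis (N : Net) (p : Pt) (W : List Dir) (z : Pt) : Prop :=
  ∃ W1 W2, W = W1 ++ W2 ∧ Al N Set.univ p W1 z

/-- A living walk followed by an exit. -/
def Run (N : Net) (p : Pt) (W : List Dir) : Prop :=
  ∃ W0 q d, W = W0 ++ [d] ∧ Al N Set.univ p W0 q ∧ N.st q d

noncomputable def wt (W : List Dir) : ℝ≥0∞ := 4⁻¹ ^ W.length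

/-- The weight of a set of words. -/
noncomputable def ms (A : List Dir → Prop) : ℝ≥0∞ := ∑' W, if A W then wt W else 0

/-- Living walks in `R` with the terminal weight `a`. -/
noncomputable def Kn (N : Net) (R : Set Pt) (a : Pt → ℝ≥0∞) (p : Pt) : ℝ≥0∞ :=
  ∑' W, if Al N R p W (endp p W) then wt W * a (endp p W) else 0

noncomputable def hm (N : Net) (p : Pt) (A : List Dir → Prop) : ℝ≥0∞ :=
  ms fun W => Run N p W ∧ A W

/-- The weight of all runs from `p`. -/
noncomputable def hN (N : Net) (p : Pt) : ℝ≥0∞ := ms (Run N p)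

/-- One step operator. -/
noncomputable def Net.Pe (N : Net) (f : Pt → ℝ≥0∞) (p : Pt) : ℝ≥0∞ :=
  ∑ d, if N.mv p d then 4⁻¹ * f (p + d.vec) else 16⁻¹ * f p

/-- One step operator on real functions. -/
noncomputable def Net.Pr (N : Net) (f : Pt → ℝ) (p : Pt) : ℝ :=
  ∑ d, if N.mv p d then f (p + d.vec) / 4 else f p / 16

/-- Weight of the exits at `p`. -/
noncomputable def Net.stw (N : Net) (p : Pt) : ℝ≥0∞ := ∑ d, if N.st p d then 4⁻¹ else 0

noncomputable def avg (f : Pt → ℝ) (p : Pt) : ℝ := (∑ d : Dir, f (p + d.vec)) / 4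

/-- The edges crossed an odd number of times. -/
noncomputable def Od (p : Pt) : List Dir → Finset Edge
  | [] => ∅
  | d :: W => symmDiff {cr p d} (Od (p + d.vec) W)

/-- A forbidden step within distance `t`. -/
def NearK (N : Net) (t : ℤ) (z : Pt) : Prop := ∃ q d, ¬ N.mv q d ∧ nrm (q - z) ≤ t

/-- Forbidden steps extend to infinity. -/
def Far (N : Net) : Prop :=
  ∀ q d c (l : ℤ), ¬ N.mv q d → nrm (q - c) + 2 ≤ l → ∃ q' d', nrm (q' - c) = l ∧ ¬ N.mv q' d'

/-- A forbidden step at `x` or at a neighbour. -/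
def Near1 (N : Net) (x : Pt) : Prop := ∃ q d, ¬ N.mv q d ∧ (q = x ∨ NN x q)

def Thin (N : Net) (t r : ℤ) (v : Pt) (W : List Dir) : Prop :=
  ∃ z, Vis N v W z ∧ r ≤ nrm (z - v) ∧ nrm (z - v) ≤ 4 * r ∧ NearK N t z

/-- Thin at `l` of the `4 l` scales. -/
def Many (N : Net) (t L l : ℕ) (v : Pt) (W : List Dir) : Prop :=
  l ≤ ((range (4 * l)).filter fun j => Thin N (t * 5 ^ j) (L * (t * 5 ^ j)) v W).card

/-- The network of the active edges `E`. -/
def net (n : ℕ) (E : Finset Edge) : Net where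
  mv p d := p ∈ intr n ∧ p + d.vec ∈ intr n ∧ cr p d ∈ E
  st p d := p ∈ intr n ∧ p + d.vec ∉ intr n ∧ cr p d ∈ E
  symm p d h := by
    refine ⟨h.2.1, ?_, ?_⟩
    · have : p + d.vec + d.opp.vec = p := by cases d <;> simp [Dir.vec, Dir.opp, Prod.ext_iff]
      rw [this]; exact h.1
    · have : cr (p + d.vec) d.opp = cr p d := by
        cases d <;> simp [Dir.vec, Dir.opp, cr, Prod.ext_iff]
      rw [this]; exact h.2.2
  disj _ _ h h' := h'.2.1 h.2.1

/-- Barriers attached to the runs. -/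
def Bar (n : ℕ) (S : Finset Pt) (X1 X2 : Finset Edge) (v : Pt) (E2 K : List Dir → Finset Edge)
    (Gd : List Dir → Prop) : Prop :=
  ∀ W, Run (net n (eS n S ∪ X2)) v W → Gd W → E2 W ⊆ eS n S ∧ SC n (E2 W ∪ X1) ∧
    K W ⊆ Od v W ∧ Src n (K W) {v} ∧ Disjoint (K W) (E2 W ∪ X1)

/-- The weight of the pairs of runs that do not cross. -/
noncomputable def omg (n : ℕ) (S : Finset Pt) (X1 X2 : Finset Edge) (v : Pt)
    (E2 : List Dir → Finset Edge) (Gd : List Dir → Prop) : ℝ≥0∞ :=
  ∑' W, if Run (net n (eS n S ∪ X2)) v W ∧ Gd W then wt W * hN (net n (E2 W ∪ X1)) v else 0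

def OnRing (n : ℕ) (w : Pt) : Prop := w.1 = 1 ∨ w.1 = n ∨ w.2 = 1 ∨ w.2 = n

/-- The local picture around `v`. -/
structure Loc (n : ℕ) (S : Finset Pt) (X : Finset Edge) (v : Pt) (R : ℤ) : Prop where
  ring : ∀ w ∈ box n, nrm (w - v) ≤ R → OnRing n w → w ∈ S
  far : ∀ e ∈ X, R < nrm (ea e - v) ∧ R < nrm (eb e - v)
  conn : ∀ w ∈ S, ∀ w' ∈ S, nrm (w - v) ≤ R → nrm (w' - v) ≤ R →
    Conn (ebox n \ (eS n S ∪ X)) w w'

noncomputable def ring (n : ℕ) : Finset Pt := (box n).filter (OnRing n)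

/-- The frozen minus sites of the Dobrushin box. -/
noncomputable def Td (k : ℕ) : Finset Pt :=
  (ring (16 * k)).filter fun w => ¬ (w.2 = 1 ∧ 4 * (k : ℤ) + 1 ≤ w.1 ∧ w.1 ≤ 12 * k)

def pA (k : ℕ) : Pt := (4 * k, 1)

def pB (k : ℕ) : Pt := (12 * k, 1)

def pV (k : ℕ) : Pt := (8 * k, 1)

/-- The active edges of the Dobrushin box. -/
noncomputable def eD (k : ℕ) : Finset Edge := eS (16 * k) (ring (16 * k))

def ArmD (k : ℕ) (M : Finset Pt) : Prop := ∃ b ∈ Td k, ∃ c, SPath M (8 * k, 2) c ∧ Star c b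

/-- The boundary arm probability. -/
noncomputable def piD (k : ℕ) : ℝ :=
  Pr (eD k) (box (16 * k) \ ring (16 * k)) (Td k) (ArmD k)

/-- The network of the Dobrushin box with one exit below the plaquette `p`. -/
noncomputable def netD (k : ℕ) (p : Pt) : Net := net (16 * k) (eD k ∪ {(p, true)})

/-- `x` is joined to the top row by minus sites. -/
def Up (n : ℕ) (M : Finset Pt) (x : Pt) : Prop := ∃ b : Pt, b.2 = n ∧ SPath M x b

/-- The sites of the second row joined to the top row above the first row. -/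
noncomputable def row2 (n : ℕ) (M : Finset Pt) : Finset Pt :=
  (box n).filter fun y => y.2 = 2 ∧ Up n (M.filter fun w => 2 ≤ w.2) y

/-- The site of `ℤ²`. -/
def toP {n : ℕ} (x : Site n) : Pt := (x.1.val + 1, x.2.val + 1)

/-- The minus sites. -/
noncomputable def toM {n : ℕ} (σ : Conf n) : Finset Pt :=
  (univ.filter fun x => σ x = false).image toP

end Pool.Agent.P.MP_347bd1_pr
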