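import Pool.Agent.P.MP_347bd1_pr.Stmts2

/-!
Monotonicity in the domain and in the boundary condition.
-/

namespace Pool.Agent.P.MP_347bd1_pr

open Classical Finset
open scoped ENNReal NNReal

theorem mono_card {X F F' : Finset Edge} (h : F ⊆ F') :
    (X ∩ F).card = ∑ e ∈ F', if e ∈ X ∧ e ∈ F then 1 else 0 := by
  rw [← card_filter]
  congr 1
  ext e
  have := @h e
  simp only [mem_inter, mem_filter]
  tauto

theorem mono_sub (a b a' b' : Prop) :
    ((if ¬ (a ∧ a' ↔ b ∧ b') then 1 else 0) + if ¬ (a ∨ a' ↔ b ∨ b') then 1 else 0 : ℕ) ≤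
      (if ¬ (a ↔ b) then 1 else 0) + if ¬ (a' ↔ b') then 1 else 0 := by
  by_cases a <;> by_cases b <;> by_cases a' <;> by_cases b' <;> simp [*]

theorem mono_exp {U U' T T' M M' : Finset Pt} (hU : U ⊆ U') (hT : Disjoint T U')
    (hT' : Disjoint T' U') (h : ∀ w ∈ T, (∃ u ∈ U, NN u w) → w ∈ T') (hM : M ⊆ U) :
    (cut (M ∩ M' ∪ T) ∩ einc U).card + (cut (M ∪ M' ∪ T') ∩ einc U').card ≤
      (cut (M ∪ T) ∩ einc U).card + (cut (M' ∪ T') ∩ einc U').card := by
  have hE : einc U ⊆ einc U' := fun e he => mem_einc.2 ((mem_einc.1 he).imp (@hU _) (@hU _))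
  rw [mono_card hE, mono_card hE, mono_card (subset_refl (einc U')),
    mono_card (subset_refl (einc U')), ← sum_add_distrib, ← sum_add_distrib]
  refine sum_le_sum fun e he => ?_
  by_cases k : e ∈ einc U
  · have key : ∀ w, (w ∈ U ∨ ∃ u ∈ U, NN u w) →
        (w ∈ M ∩ M' ∪ T ↔ w ∈ M ∪ T ∧ w ∈ M' ∪ T') ∧
          (w ∈ M ∪ M' ∪ T' ↔ w ∈ M ∪ T ∨ w ∈ M' ∪ T') := by
      intro w hw
      have h1 := @hU w
      have h2 := @hM w
      have h3 : w ∈ T → w ∉ U' := fun m => disjoint_left.1 hT m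
      have h4 : w ∈ T' → w ∉ U' := fun m => disjoint_left.1 hT' m
      have h5 := h w
      simp only [mem_union, mem_inter]
      generalize (∃ u ∈ U, NN u w) = a at hw h5
      by_cases b1 : w ∈ T <;> by_cases b2 : w ∈ M <;> tauto
    have ka : ea e ∈ U ∨ ∃ u ∈ U, NN u (ea e) :=
      (mem_einc.1 k).imp_right fun m => ⟨_, m, (exists_inc_b e).imp fun _ m => m.2⟩
    have kb : eb e ∈ U ∨ ∃ u ∈ U, NN u (eb e) :=
      (mem_einc.1 k).symm.imp_right fun m => ⟨_, m, (exists_inc e).imp fun _ m => m.2⟩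
    have := mono_sub (ea e ∈ M ∪ T) (eb e ∈ M ∪ T) (ea e ∈ M' ∪ T') (eb e ∈ M' ∪ T')
    simp only [k, he, and_true, mem_cut, (key _ ka).1, (key _ ka).2, (key _ kb).1, (key _ kb).2]
    split_ifs at this ⊢ <;> omega
  · have k' := k
    rw [mem_einc, not_or] at k'
    have ka : ea e ∉ M := fun m => k'.1 (hM m)
    have kb : eb e ∉ M := fun m => k'.2 (hM m)
    simp only [k, he, and_true, and_false, if_false, mem_cut, mem_union, ka, kb, false_or, le_refl]

theorem t_mono : T_MONO := by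
  intro U U' T T' A hU hT hT' h hA
  have p0 : ∀ (a : Prop) [Decidable a] (k : ℕ), 0 ≤ if a then xc ^ k else 0 := fun a _ k => by
    split_ifs; exacts [(pow_pos xc_pos _).le, le_rfl]
  have := Finset.four_functions_theorem
    (f₁ := fun M => if M ⊆ U ∧ A M then xc ^ (cut (M ∪ T) ∩ einc U).card else 0)
    (f₂ := fun M => xc ^ (cut (M ∪ T') ∩ einc U').card)
    (f₃ := fun M => xc ^ (cut (M ∪ T) ∩ einc U).card)
    (f₄ := fun M => if A M then xc ^ (cut (M ∪ T') ∩ einc U').card else 0) U'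
    (fun _ => p0 _ _) (fun _ => (pow_pos xc_pos _).le) (fun _ => (pow_pos xc_pos _).le)
    (fun _ => p0 _ _) (fun M _ M' _ => ?_) (powerset_mono.2 hU) subset_rfl
  · rw [← powerset_inter, ← powerset_union, inter_eq_left.2 hU, union_eq_right.2 hU,
      sum_congr rfl fun M hM => if_congr (and_iff_right (mem_powerset.1 hM)) rfl rfl] at this
    rw [Pr, Pr, div_le_div_iff₀ Zf_pos Zf_pos, mul_comm (Zf _ U' _ A)]
    simpa only [Zf, if_true] using this
  · by_cases k : M ⊆ U ∧ A M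
    · simp only [if_pos k, if_pos (hA _ _ subset_union_left k.2), ← pow_add]
      exact pow_le_pow_of_le_one xc_pos.le xc_lt_one.le (mono_exp hU hT hT' h k.1)
    · simp only [if_neg k, zero_mul]
      exact mul_nonneg (pow_pos xc_pos _).le (p0 _ _)

end Pool.Agent.P.MP_347bd1_pr
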