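import Pool.Agent.P.MP_347bd1_pr.IDefs

/-!
The statements of the intermediate results.
-/

namespace Pool.Agent.P.MP_347bd1_pr

open Classical Finset Filter Topology
open scoped ENNReal NNReal

/-! ### Dynamics -/

def T_DYNUP : Prop := ∀ (b : BC) (n : ℕ) (f : Conf n → ℝ) (t : ℝ), 0 ≤ t →
  (∀ σ, f σ = 1 ∨ f σ = -1) →
  0 ≤ var b f - cov b f t ∧ var b f - cov b f t ≤ 2 * t * ∑ x, ∑ σ, ising b σ *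
    if f (Function.update σ x true) = f (Function.update σ x false) then 0 else 1

def T_DYNLO : Prop := ∀ (t : ℝ) (K : ℕ), 0 < t → ∃ c : ℝ, 0 < c ∧
  ∀ (b : BC) (n : ℕ) (f : Conf n → ℝ) (G : Conf n → Prop) (R : Conf n → Finset (Site n)),
    (∀ σ, G σ → (R σ).card ≤ K) →
    (∀ σ τ, G σ → (∀ x, x ∉ R σ → τ x = σ x) → G τ ∧ R τ = R σ) →
    (∀ σ, G σ → f (fun x => if x ∈ R σ then true else σ x) = 1 ∧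
      f (fun x => if x ∈ R σ then false else σ x) = -1) →
    c * (∑ σ, ising b σ * if G σ then 1 else 0) ≤ var b f - cov b f t

def T_TRANS : Prop := ∀ (n : ℕ),
  (∀ A : Finset Pt → Prop,
    (∑ σ : Conf n, ising .free σ * if A (toM σ) then 1 else 0) = Pf n A ∧
    (∑ σ : Conf n, ising .plus σ * if A (toM σ) then 1 else 0) = Pp n A) ∧
  (∀ σ : Conf n, Crossing σ ↔ LR n (fun _ => false) (toM σ)) ∧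
  (∀ (b : BC) (σ : Conf n), 0 < ising b σ) ∧ ∀ b : BC, ∑ σ : Conf n, ising b σ = 1

/-! ### Planar topology -/

def T_POIN : Prop := ∀ (n : ℕ) (η : Finset Edge), η ⊆ ebox n → Src n η ∅ →
  ∃ D ⊆ box n, cut D ∩ ebox n = η ∧ ((1 : ℤ), (n : ℤ)) ∉ D

def T_DUAL : Prop := ∀ (n : ℕ) (M : Finset Pt) (a b p q : Pt), M ⊆ box n →
  a ∈ M → Relation.ReflTransGen (fun u w => Star u w ∧ w ∈ M) a b →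
  Corner p a → Corner q b → 1 ≤ p.1 → p.1 + 1 ≤ n → 1 ≤ q.1 → q.1 + 1 ≤ n →
  ∃ η ⊆ ebox n, (∀ e ∈ η, ea e ∈ M ∨ eb e ∈ M) ∧ (∀ e ∈ η, ¬ Col1 e) ∧
    Src n η (symmDiff {p} {q})

def T_HEX : Prop := ∀ (n : ℕ) (ξ : Pt → Bool) (M : Finset Pt), 1 ≤ n → M ⊆ box n →
  (LR n ξ M ↔ ¬ TB n ξ M)

def T_ARC : Prop := ∀ (τ : Pt → Prop) (η1 η2 : Finset Edge) (v : Pt) (R : ℕ), Disjoint η1 η2 →
  (∀ e, nrm (ea e - v) ≤ R + 1 → nrm (eb e - v) ≤ R + 1 →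
    (¬ (τ (ea e) ↔ τ (eb e)) ↔ e ∈ η1 ∨ e ∈ η2)) →
  (∀ q, nrm (q - v) ≤ R → (Odd (deg η1 q) ↔ q = v)) →
  ∃ (l : ℕ) (w : ℕ → Pt), l ≤ 8 * R + 8 ∧ (∀ i < l, NN (w i) (w (i + 1))) ∧
    (∀ i ≤ l, τ (w i) ∧ (R : ℤ) ≤ nrm (w i - v) ∧ nrm (w i - v) ≤ R + 1) ∧
    (∃ d, inc (w 0) d ∈ η1) ∧ ∃ d, inc (w l) d ∈ η2

def T_SEP : Prop := ∀ (n : ℕ) (S T M : Finset Pt) (Lf Rg η : Finset Edge), Str2 n S T Lf Rg →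
  (∀ a ∈ S \ T, ∀ b ∈ S \ T,
    Relation.ReflTransGen (fun u w => NN u w ∧ w ∈ S \ T) a b) →
  M ⊆ box n \ S → η ⊆ ebox n → (∀ e ∈ η, ea e ∈ M ∪ T ∨ eb e ∈ M ∪ T) →
  (∀ p ∈ intr n, (Odd (deg η p) ↔ Odd (deg Lf p))) →
  Valid n S Lf Rg (Pcl n S Lf M) ∧
    (((1 : ℤ), (n : ℤ)) ∈ S \ T → (∀ e ∈ η, ¬ Col1 e) → (∀ e ∈ Lf, ¬ Col1 e) →
      ∀ u ∈ Pcl n S Lf M, u.1 ≠ 1)

def T_LFT : Prop := ∀ (n : ℕ) (S M : Finset Pt) (v : Pt), Good n S ∅ → v ∈ intr n →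
  M ⊆ box n \ S → ArmF S v M →
  ∃ Lf Rg, Str2 n S ∅ Lf Rg ∧ Src n Lf {v} ∧ (∀ e ∈ Lf, ¬ Col1 e) ∧
    ∀ M' ⊆ box n \ S, ArmF S v M' →
      Valid n S Lf Rg (Pcl n S Lf M') ∧ ∀ u ∈ Pcl n S Lf M', u.1 ≠ 1

/-! ### The Ising model -/

def T_ZEQ : Prop := ∀ (n : ℕ) (S T : Finset Pt) (A0 : Set Pt), 1 ≤ n → Good n S ∅ → T ⊆ S →
  Src n (cut T ∩ (ebox n \ eS n S)) A0 →
  Zf (eS n S) (box n \ S) T (fun _ => True) = Zs n A0 (eS n S)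

def T_LSM : Prop := ∀ (n : ℕ) (E A B : Finset Edge), 1 ≤ n → SC n E → SC n A → SC n B → A ⊆ E →
  B ⊆ E → Zs n ∅ A * Zs n ∅ B ≤ Zs n ∅ E * Zs n ∅ (A ∩ B)

def T_XE : Prop := ∀ (n : ℕ) (E : Finset Edge) (p v : Pt), E ⊆ eS n (ring n) → p ∈ intr n →
  p.2 = 1 → v ∈ intr n → v ≠ p →
  Zs n ∅ (E ∪ {(p, true)}) = Zs n ∅ E ∧ Zs n {v} (E ∪ {(p, true)}) = xc * Zs n {v, p} E

def T_DEC1 : Prop := ∀ (n : ℕ) (S T : Finset Pt) (Lf Rg : Finset Edge) (A0 A1 : Set Pt)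
  (B Φ : Finset Pt → Prop), Str2 n S T Lf Rg → Src n (cut T ∩ (ebox n \ eS n S)) A0 →
  Src n Lf A1 → (∀ M ⊆ box n \ S, B M → Valid n S Lf Rg (Pcl n S Lf M) ∧ Φ (Pcl n S Lf M)) →
  Zf (eS n S) (box n \ S) T B ≤
    ∑ P ∈ (box n \ S).powerset.filter (fun P => Valid n S Lf Rg P ∧ Φ P),
      xc ^ (lam n Lf P).card * Zs n (symmDiff A0 A1) (eS n S \ Dl n Lf P)

def T_DEC2 : Prop := ∀ (n : ℕ) (S T : Finset Pt) (Lf Rg : Finset Edge) (A1 : Set Pt), 1 ≤ n →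
  Str2 n S T Lf Rg → Src n Lf A1 →
  (∀ P, Valid n S Lf Rg P → SC n (eS n S \ Dl n Lf P)) ∧
  ∀ (E : Finset Edge) (F : Finset (Finset Pt)), E ⊆ eS n S → SC n E →
    (∀ P ∈ F, Valid n S Lf Rg P ∧ lam n Lf P ⊆ E) →
    ∑ P ∈ F, qP n S Lf P ≤ Zs n A1 E / Zs n ∅ E

def T_BAR : Prop := ∀ (n : ℕ) (S T : Finset Pt) (Lf Rg X1 X2 : Finset Edge) (v : Pt),
  Str2 n S T Lf Rg → Good n S X1 → Good n S X2 → Disjoint X1 X2 →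
  (∀ e ∈ X2, ∀ p ∈ intr n, ∀ d, cr p d = e → p + d.vec ∉ intr n) → v ∈ intr n →
  (∃ z ∈ S \ T, Corner v z) → Odd (deg Lf v) →
  ∃ E2 K, Bar n S X1 X2 v E2 K (fun W => Disjoint (Od v W) Lf) ∧
    (∀ W, Run (net n (eS n S ∪ X2)) v W → Disjoint (Od v W) Lf → SC n (E2 W)) ∧
    ∀ W P, Run (net n (eS n S ∪ X2)) v W → Valid n S Lf Rg P →
      Disjoint (Od v W) (Dl n Lf P) → lam n Lf P ⊆ E2 W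

def T_DHN : Prop := ∀ (n : ℕ) (E : Finset Edge) (v w : Pt), SC n E → v ∈ intr n → Corner v w →
  TopConn n E w → G1 n v E ^ 2 ≤ (hN (net n E) v).toReal

def T_DHNL : Prop := ∃ c : ℝ, 0 < c ∧ ∃ k0 : ℕ, ∀ k ≥ k0,
  c / k ≤ Zs (16 * k) {pA k, pB k} (eD k) / Zs (16 * k) ∅ (eD k)

def T_TS : Prop := ∀ (n : ℕ) (S T : Finset Pt) (Lf Rg X1 X2 : Finset Edge) (v : Pt)
  (A0 A1 : Set Pt) (κ : ℝ) (B : Finset Pt → Prop),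
  Str2 n S T Lf Rg → Good n S X1 → Good n S X2 → Disjoint X1 X2 →
  (∀ e ∈ X2, ∀ p ∈ intr n, ∀ d, cr p d = e → p + d.vec ∉ intr n) → v ∈ intr n →
  (∃ z ∈ S \ T, Corner v z) → Src n (cut T ∩ (ebox n \ eS n S)) A0 → Src n Lf A1 → v ∈ A1 →
  0 ≤ κ → (∀ E ⊆ eS n S, Zs n A1 E / Zs n ∅ E ≤ κ * G1 n v (E ∪ X1)) →
  (∀ E ⊆ eS n S, Zs n (symmDiff A0 A1) E / Zs n ∅ E ≤ κ * G1 n v (E ∪ X2)) →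
  (∀ M ⊆ box n \ S, B M → Valid n S Lf Rg (Pcl n S Lf M)) →
  ∃ E2 K Gd, Bar n S X1 X2 v E2 K Gd ∧ ∀ t1 t2 : ℝ, 0 < t1 → 0 < t2 →
    Zf (eS n S) (box n \ S) T B / Zs n ∅ (eS n S) ≤
      κ ^ 2 / 2 * (t1 * Real.sqrt (hN (net n (eS n S ∪ X1)) v).toReal +
        t2 * (hN (net n (eS n S ∪ X2)) v).toReal / (2 * t1) +
        (omg n S X1 X2 v E2 Gd).toReal / (2 * t1 * t2))

/-- The corner estimate. -/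
def T_TS0 : Prop := ∀ (n : ℕ) (S : Finset Pt) (v : Pt), Good n S ∅ → v ∈ intr n →
  SC n ((eS n S).filter fun e => ¬ Col1 e) ∧
  PS n S (ArmF S v) ≤ Real.sqrt (hN (net n ((eS n S).filter fun e => ¬ Col1 e)) v).toReal *
    Real.sqrt (hN (net n (eS n S)) v).toReal

/-- The bulk estimate. -/
def T_TS1 : Prop := ∀ (n : ℕ) (S : Finset Pt) (v : Pt), Good n S ∅ → v ∈ intr n →
  ∃ E2 K Gd, Bar n S ∅ ∅ v E2 K Gd ∧ ∀ (ε y : ℝ), 0 < ε → 0 ≤ y →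
    (omg n S ∅ ∅ v E2 Gd).toReal ≤ (hN (net n (eS n S)) v).toReal * y →
    PS n S (ArmF S v) ≤ ε * (hN (net n (eS n S)) v).toReal + y / ε ^ 3

def T_EXPL : Prop := ∃ C : ℝ, 0 < C ∧ ∀ (n : ℕ) (ξ : Pt → Bool) (ε : ℝ), 3 ≤ n →
  (∀ S, Good n S ∅ → ∑ v ∈ vbase n, PS n S (ArmF S v) ≤ ε) → npiv n ξ (base n) ≤ C * ε

def T_SYM : Prop := ∀ n : ℕ, 1 ≤ n →
  (∀ ε : ℝ, (∀ ξ, npiv n ξ (base n) ≤ ε) → ∀ ξ, npiv n ξ (box n) ≤ 8 * ε) ∧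
  ∀ c : Bool, Pf n (LR n fun _ => c) = Pf n (TB n fun _ => !c)

def T_RUSSO : Prop := ∀ (n : ℕ) (ε : ℝ), 1 ≤ n → (∀ ξ, npiv n ξ (box n) ≤ ε) →
  Pf n (LR n fun _ => true) - Pf n (LR n fun _ => false) ≤ 8 * ε

def T_MONO : Prop := ∀ (U U' T T' : Finset Pt) (A : Finset Pt → Prop), U ⊆ U' → Disjoint T U' →
  Disjoint T' U' → (∀ w ∈ T, (∃ u ∈ U, NN u w) → w ∈ T') → (∀ M M', M ⊆ M' → A M → A M') →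
  Pr (einc U) U T A ≤ Pr (einc U') U' T' A

def T_PAIR : Prop := ∀ (n k : ℕ) (x : Pt), 1 ≤ k → 16 * k ≤ n → x ∈ box n → x.2 = 1 →
  Pp n (fun M => Up n M x) ≤ piD k ∧
  ∀ x' ∈ box n, x'.2 = 1 → x'.1 + 16 * k ≤ x.1 →
    Pp n (fun M => Up n M x ∧ Up n M x') ≤
      (Pp n (fun M => Up n M x) + Pp n fun M => Up n M x') * piD k

/-! ### Potential theory and walks -/

def T_LOG : Prop :=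
  (∀ z : Pt, Real.log (z.1 ^ 2 + z.2 ^ 2 + 1) ≤
    avg (fun y : Pt => Real.log (y.1 ^ 2 + y.2 ^ 2 + 1)) z) ∧
  ∃ ψ : Pt → ℝ, (∀ z : Pt, 2 ≤ z.1 ^ 2 + z.2 ^ 2 → ψ z = Real.log (z.1 ^ 2 + z.2 ^ 2 - 1)) ∧
    (∀ z : Pt, z.1 ^ 2 + z.2 ^ 2 < 2 → -10 ≤ ψ z ∧ ψ z ≤ 0) ∧ ∀ z ≠ 0, avg ψ z ≤ ψ z

def T_HIT : Prop := ∃ c : ℝ, 0 < c ∧ c ≤ 1 ∧ ∀ (p : Pt) (s : ℕ) (k : ℤ → Pt), 1 ≤ s →
  (∀ l : ℤ, s ≤ l → l ≤ 2 * s → nrm (k l - p) = l) →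
  ∃ f : Pt → ℝ, (∀ z, 0 ≤ f z ∧ f z ≤ 1) ∧ (∀ z, 10 * (s : ℤ) ≤ nrm (z - p) → f z = 0) ∧
    (∀ z, (∀ l : ℤ, s ≤ l → l ≤ 2 * s → z ≠ k l) → f z ≤ avg f z) ∧
    ∀ z, nrm (z - p) ≤ s → c ≤ f z

def T_BEUR : Prop := ∃ c : ℝ, 0 < c ∧ c < 1 ∧ ∀ (N : Net) (u : Pt → ℝ) (p : Pt) (s k : ℕ) (B : ℝ),
  Far N → 2 ≤ s → 0 ≤ B → NearK N (s - 2) p →
  (∀ z, nrm (z - p) < 10 ^ k * s → u z ≤ N.Pr u z) → (∀ z, nrm (z - p) ≤ 10 ^ k * s → u z ≤ B) →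
  ∀ z, nrm (z - p) ≤ s → u z ≤ (1 - c) ^ k * B

def T_HARN : Prop := ∃ c : ℝ, 0 < c ∧ c ≤ 1 ∧ ∀ (u : Pt → ℝ) (p : Pt) (s : ℕ), 1 ≤ s →
  (∀ z, nrm (z - p) ≤ 10 * s → 0 ≤ u z) → (∀ z, nrm (z - p) < 10 * s → u z = avg u z) →
  ∀ x y, nrm (x - p) ≤ s → nrm (y - p) ≤ s → c * u y ≤ u x

def T_FLUX : Prop := ∃ C : ℝ≥0, ∀ (N : Net) (c : Pt) (s : ℕ) (V : Finset Pt) (β γ : ℝ≥0∞)
  (Φ : Pt → Pt → Prop), 1 ≤ s → (∀ v ∈ V, nrm (v - c) ≤ s) →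
  (∀ z d, nrm (z - c) ≤ 6 * s → ¬ N.st z d) → (∀ z, nrm (z - c) ≤ 6 * s + 1 → hN N z ≤ β) →
  (∀ y, ∑ v ∈ V, ms (fun W => Al N Set.univ v W y ∧ ∃ z, Vis N v W z ∧ Φ v z) ≤ γ) →
  ∑ v ∈ V, hm N v (fun W => ∃ z, Vis N v W z ∧ nrm (z - c) ≤ 2 * s ∧ Φ v z) ≤ C * γ * β

def T_GREEN : Prop := ∀ (N : Net) (V : Finset Pt) (y : Pt), (∀ v ∈ V, Near1 N v) →
  ∑ v ∈ V, ms (fun W => Al N Set.univ v W y) ≤ 27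

def T_THIN : Prop := ∀ η : ℝ≥0, 0 < η → ∃ L0 : ℕ, ∀ (N : Net) (V : Finset Pt) (y : Pt)
  (t r : ℤ), Far N → (∀ v ∈ V, Near1 N v) → 1 ≤ t → L0 * t ≤ r →
  ∑ v ∈ V, ms (fun W => Al N Set.univ v W y ∧
    ∃ z, Vis N v W z ∧ r ≤ nrm (z - v) ∧ NearK N t z) ≤ η

def T_KILL : Prop := ∀ (N N' : Net) (m : ℕ) (A T : ℕ → Set Pt) (θ : ℝ≥0∞), N'.Le N →
  (∀ i < m, ∀ j < m, i ≠ j → Disjoint (A i) (A j)) → (∀ j < m, T j ⊆ A j) →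
  (∀ j < m, ∀ z ∈ A j, ∀ d, ¬ N'.st z d) →
  (∀ j < m, ∀ y ∈ T j, Kn N' (A j) (fun z => if z ∈ A j then 0 else hN N z) y ≤ θ * hN N y) →
  ∀ (k : ℕ) (v : Pt),
    hm N' v (fun W => k ≤ ((range m).filter fun j => ∃ z ∈ T j, Vis N' v W z).card) ≤
      θ ^ k * hN N v

def T_CHAIN : Prop := ∃ M : ℕ, 1 ≤ M ∧ ∀ l0 : ℕ, ∃ θ : ℝ≥0, θ < 1 ∧
  ∀ (N N' : Net) (A : Set Pt) (s l : ℕ) (y : ℕ → Pt), N'.Le N → Far N' → 1 ≤ s → l ≤ l0 * s →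
    (∀ i < l, nrm (y (i + 1) - y i) ≤ 1) →
    (∀ i ≤ l, ∀ z, nrm (z - y i) ≤ M * s → z ∈ A ∧ ∀ d, N.mv z d) → NearK N' s (y 0) →
    Kn N' A (fun z => if z ∈ A then 0 else hN N z) (y l) ≤ θ * hN N (y l)

def T_NI : Prop := ∃ c1 : ℕ, 1 ≤ c1 ∧ ∀ L : ℕ, 4 ≤ L → ∃ θ : ℝ≥0, θ < 1 ∧
  ∀ (n : ℕ) (S : Finset Pt) (X1 X2 : Finset Edge) (v : Pt) (u l : ℕ) (R : ℤ)
    (E2 K : List Dir → Finset Edge) (Gd : List Dir → Prop), Good n S X1 → Good n S X2 →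
    v ∈ intr n → 1 ≤ u → 8 * (L * (c1 * u * 5 ^ (4 * l)) : ℕ) ≤ R → Loc n S (X1 ∪ X2) v R →
    Bar n S X1 X2 v E2 K Gd →
    omg n S X1 X2 v E2 Gd ≤
      θ ^ (2 * l) * hN (net n (eS n S ∪ X1)) v * hN (net n (eS n S ∪ X2)) v +
      hm (net n (eS n S ∪ X2)) v (Many (net n (eS n S ∪ X2)) (c1 * u) L l v) *
        hN (net n (eS n S ∪ X1)) v +
      hN (net n (eS n S ∪ X2)) v *
        hm (net n (eS n S ∪ X1)) v (Many (net n (eS n S ∪ X1)) (c1 * u) L l v)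

def T_LOW : Prop := ∃ c : ℝ, 0 < c ∧ ∃ k0 : ℕ, ∀ k ≥ k0, ∀ (u : Pt → ℝ) (x0 y0 a : ℤ) (p z : Pt),
  15 * (k : ℤ) ≤ a → a ≤ 17 * k →
  (∀ y : Pt, x0 ≤ y.1 → y.1 ≤ x0 + a → y0 ≤ y.2 → y.2 ≤ y0 + a → 0 ≤ u y) →
  (∀ y : Pt, x0 < y.1 → y.1 < x0 + a → y0 < y.2 → y.2 < y0 + a → avg u y ≤ u y) →
  p.2 = y0 + 1 → x0 + 3 * k ≤ p.1 → p.1 ≤ x0 + a - 3 * k →
  x0 + 3 * k ≤ z.1 → z.1 ≤ x0 + a - 3 * k → y0 < z.2 → z.2 ≤ y0 + 3 * k →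
  c * (z.2 - y0) / k ^ 2 * u p ≤ u z

def T_FLATU : Prop := ∃ C : ℝ≥0, ∀ k : ℕ, 1 ≤ k → ∀ p : Pt, p = pA k ∨ p = pB k →
  (∀ z : Pt, nrm (z - pV k) ≤ 2 * k → 1 ≤ z.2 →
    (hN (netD k p) z).toReal ≤ C * z.2 / k ^ 2) ∧
  ∀ (z : Pt) (l : ℕ), nrm (z - pV k) ≤ k → 1 ≤ z.2 → 1 ≤ l → l ≤ k →
    Kn (netD k p) {y | nrm (y - z) < l} (fun y => if nrm (y - z) < l then 0 else 1) z ≤
      ENNReal.ofReal (C * z.2 / l)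

def T_LD : Prop := ∃ L0 k0 : ℕ, ∀ L ≥ L0, ∀ k ≥ k0, ∀ (p : Pt) (t l : ℕ), p = pA k ∨ p = pB k →
  1 ≤ t → 8 * (L * (t * 5 ^ (4 * l))) ≤ k →
  hm (netD k p) (pV k) (Many (netD k p) t L l (pV k)) ≤ 2⁻¹ ^ l * hN (netD k p) (pV k)

/-! ### Assembly -/

def T_BULK : Prop := ∀ (ε : ℝ) (q : ℕ), 0 < ε → 1 ≤ q → ∃ n0 : ℕ, ∀ n ≥ n0, ∀ S, Good n S ∅ →
  ∑ v ∈ (vbase n).filter (fun v => (n : ℤ) ≤ q * v.1), PS n S (ArmF S v) ≤ ε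

def T_CORN : Prop := ∀ ε : ℝ, 0 < ε → ∃ q n0 : ℕ, 1 ≤ q ∧ ∀ n ≥ n0, ∀ S, Good n S ∅ →
  ∑ v ∈ (vbase n).filter (fun v => q * v.1 < (n : ℤ)), PS n S (ArmF S v) ≤ ε

def T_PI : Prop := Summable piD ∧ Tendsto (fun k : ℕ => k * piD k) atTop (𝓝 0)

def T_PLUS : Prop :=
  (∃ K : ℕ, ∀ n ≥ 2, Pp n (TB n fun _ => false) ≤
    2 * Pp n fun M => 1 ≤ (row2 n M).card ∧ (row2 n M).card ≤ K) ∧
  Tendsto (fun n => Pp n (TB n fun _ => false)) atTop (𝓝 0)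

end Pool.Agent.P.MP_347bd1_pr
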