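import Pool.Agent.P.MP_347bd1_pr.Core

/-!
Further intermediate statements, and two general tools (handshake lemma, conditioning).
-/

namespace Pool.Agent.P.MP_347bd1_pr

open Classical Finset
open scoped ENNReal NNReal

/-- The Dirichlet form of the dynamics. -/
noncomputable def dirF (b : BC) {n : ℕ} (g : Conf n → ℝ) : ℝ :=
  ∑ x, ∑ σ, ising b σ * (cond b σ x true * cond b σ x false *
    (g (Function.update σ x true) - g (Function.update σ x false)) ^ 2)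

def T_DYNA : Prop := ∀ (b : BC) (n : ℕ) (f : Conf n → ℝ) (t : ℝ), 0 ≤ t →
  var b f - cov b f t ≤ t * dirF b f ∧ ∃ g : Conf n → ℝ,
    ∑ σ, ising b σ * (f σ - g σ) ^ 2 ≤ var b f - cov b f t ∧ t * dirF b g ≤ var b f - cov b f t

def T_HEX1 : Prop := ∀ (n : ℕ) (ξ : Pt → Bool) (M : Finset Pt), M ⊆ box n → LR n ξ M → ¬ TB n ξ M

def T_HEX2 : Prop := ∀ (n : ℕ) (ξ : Pt → Bool) (M : Finset Pt), 1 ≤ n → M ⊆ box n →
  ¬ TB n ξ M → LR n ξ M

/-- The vertical edges above the site `w`. -/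
noncomputable def ray (n : ℕ) (w : Pt) : Finset Edge :=
  (Ico w.2 (n : ℤ)).image fun j => ((w.1, j), false)

/-- The signed one point function. -/
noncomputable def Xs (n : ℕ) (E : Finset Edge) (v : Pt) (Γ : Finset Edge) : ℝ :=
  (∑ η ∈ E.powerset, if Src n η {v} then (-1) ^ (η ∩ Γ).card * xc ^ η.card else 0) / Zs n ∅ E

def T_KC1 : Prop := ∀ (n : ℕ) (E : Finset Edge) (v : Pt),
  (∀ Γ d, cr v d ∈ E → Xs n E v (symmDiff Γ {cr v d}) =
    Real.sqrt 2 * Xs n E v Γ - (if cr v d ∈ Γ then -1 else 1) * Xs n E (v + d.vec) Γ) ∧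
  (∀ Γ e, e ∉ E → Xs n E v (symmDiff Γ {e}) = Xs n E v Γ) ∧
  (∀ Γ, v ∈ intr n → Xs n E v (symmDiff Γ (univ.image (cr v))) = - Xs n E v Γ) ∧
  (SC n E → ∀ w d, inc w d ∈ ebox n →
    Xs n E v (ray n (w + d.vec)) ^ 2 = Xs n E v (symmDiff (ray n w) {inc w d}) ^ 2) ∧
  (SC n E → ∀ w, TopConn n E w → Xs n E v (ray n w) ^ 2 = G1 n v E ^ 2)

def T_KC : Prop := ∀ (n : ℕ) (E : Finset Edge), SC n E → ∃ Hp Hs : Pt → ℝ,
  (∀ w ∈ box n, ∀ v, Corner v w → Hp v = Hs w + Xs n E v (ray n w) ^ 2) ∧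
  (∀ v, v ∉ intr n → Hp v = 1) ∧ (∀ w, TopConn n E w → Hs w = 0) ∧
  (∀ v ∈ intr n, 4 * Hp v ≤ ∑ d, if cr v d ∈ E then Hp (v + d.vec) else xc ^ 2 * Hp v) ∧
  ∀ w, (∀ d, inc w d ∈ E) → avg Hs w ≤ Hs w

def T_CELL : Prop := ∃ C : ℝ≥0, ∀ (N : Net) (a : Pt) (s m : ℕ) (V : Finset Pt) (β γ : ℝ≥0∞)
  (Φ : Pt → Pt → Prop), 1 ≤ s → (∀ v ∈ V, nrm (v - a) ≤ m * s) →
  (∀ v ∈ V, ∀ z d, nrm (z - v) ≤ 7 * s → ¬ N.st z d) →
  (∀ v ∈ V, ∀ z, nrm (z - v) ≤ 7 * s + 1 → hN N z ≤ β) →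
  (∀ y, ∑ v ∈ V, ms (fun W => Al N Set.univ v W y ∧ ∃ z, Vis N v W z ∧ Φ v z) ≤ γ) →
  ∑ v ∈ V, hm N v (fun W => ∃ z, Vis N v W z ∧ nrm (z - v) ≤ s ∧ Φ v z) ≤
    C * (m + 1) ^ 2 * γ * β

/-- At a scale where both walks are fat there is a chain from the barrier to the second walk. -/
def T_NIG : Prop := ∀ (n : ℕ) (S : Finset Pt) (X1 X2 E' K : Finset Edge) (v : Pt) (R : ℤ)
  (M s r : ℕ) (W W' : List Dir), Good n S X1 → Good n S X2 → v ∈ intr n →
  Loc n S (X1 ∪ X2) v R → 1 ≤ s → 4 * ((2 * M + 8) * s) ≤ r → 8 * (r : ℤ) ≤ R →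
  E' ⊆ eS n S ∪ X1 → Run (net n (eS n S ∪ X2)) v W → Run (net n E') v W' →
  K ⊆ Od v W → Src n K {v} → Disjoint K E' →
  ¬ Thin (net n (eS n S ∪ X2)) ((2 * M + 8) * s : ℕ) r v W →
  ¬ Thin (net n (eS n S ∪ X1)) ((2 * M + 8) * s : ℕ) r v W' →
  ∃ (l : ℕ) (y : ℕ → Pt), l ≤ 16 * r + 9 ∧ (∀ i < l, nrm (y (i + 1) - y i) ≤ 1) ∧
    (∀ i ≤ l, ∀ z, nrm (z - y i) ≤ M * s → ((r : ℤ) ≤ nrm (z - v) ∧ nrm (z - v) ≤ 4 * r) ∧
      ∀ d, (net n (eS n S ∪ X1)).mv z d) ∧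
    NearK (net n E') s (y 0) ∧ Vis (net n E') v W' (y l)

/-- From a point next to a flat boundary into the bulk. -/
def T_LOWA : Prop := ∃ c : ℝ, 0 < c ∧ ∀ (s : ℕ) (u : Pt → ℝ) (p : Pt), 1 ≤ s →
  (∀ y : Pt, |y.1 - p.1| ≤ 60 * s → p.2 - 1 ≤ y.2 → y.2 ≤ p.2 + 60 * s → 0 ≤ u y) →
  (∀ y : Pt, |y.1 - p.1| < 60 * s → p.2 - 1 < y.2 → y.2 < p.2 + 60 * s → avg u y ≤ u y) →
  ∀ z, nrm (z - (p.1, p.2 + 12 * s)) ≤ s → c / s * u p ≤ u z

/-- From the bulk to a point next to a flat boundary. -/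
def T_LOWC : Prop := ∀ (H : ℕ) (u : Pt → ℝ) (z : Pt) (y0 : ℤ) (m : ℝ), 1 ≤ H → 0 ≤ m →
  (∀ y : Pt, |y.1 - z.1| ≤ 2 * H → y0 ≤ y.2 → y.2 ≤ y0 + H → 0 ≤ u y) →
  (∀ y : Pt, |y.1 - z.1| < 2 * H → y0 < y.2 → y.2 < y0 + H → avg u y ≤ u y) →
  (∀ y : Pt, |y.1 - z.1| ≤ 2 * H → y.2 = y0 + H → m ≤ u y) → y0 ≤ z.2 → z.2 ≤ y0 + H →
  m * (z.2 - y0) / (2 * H) ≤ u z

noncomputable def LfD (k : ℕ) : Finset Edge :=
  (Icc (4 * (k : ℤ) + 1) (8 * k)).image fun i => ((i, 1), false)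

noncomputable def RgD (k : ℕ) : Finset Edge :=
  (Icc (8 * (k : ℤ) + 1) (12 * k)).image fun i => ((i, 1), false)

/-- The geometry of the Dobrushin box. -/
def T_DOB : Prop := ∀ k : ℕ, 1 ≤ k →
  Str2 (16 * k) (ring (16 * k)) (Td k) (LfD k) (RgD k) ∧
  Src (16 * k) (cut (Td k) ∩ (ebox (16 * k) \ eD k)) {pA k, pB k} ∧
  Src (16 * k) (LfD k) {pV k, pA k} ∧
  Loc (16 * k) (ring (16 * k)) ({(pA k, true)} ∪ {(pB k, true)}) (pV k) k ∧
  ∀ M ⊆ box (16 * k) \ ring (16 * k), ArmD k M →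
    Valid (16 * k) (ring (16 * k)) (LfD k) (RgD k) (Pcl (16 * k) (ring (16 * k)) (LfD k) M)

def T_PI1 : Prop := ∃ (D k0 : ℕ) (C ρ : ℝ), 1 ≤ D ∧ 0 < ρ ∧ ρ < 1 ∧
  ∀ k ≥ k0, ∀ l : ℕ, D * 625 ^ l ≤ k → k * piD k ≤ C * ρ ^ l

/-- Handshake lemma: contours made of inner edges have an even number of sources. -/
theorem even_card_odd_deg {n : ℕ} {η : Finset Edge}
    (h : ∀ e ∈ η, ∃ p d, cr p d = e ∧ p ∈ intr n ∧ p + d.vec ∈ intr n) :
    Even ((intr n).filter fun q => Odd (deg η q)).card := by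
  induction η using Finset.induction_on with
  | empty => simp
  | insert e η he ih =>
    obtain ⟨p, d, rfl, h1, h2⟩ := h e (mem_insert_self _ _)
    have e1 : insert (cr p d) η = symmDiff {cr p d} η := by
      ext x; by_cases k : x = cr p d <;> simp [mem_symmDiff, k, he]
    have e2 : ((intr n).filter fun q => Odd (deg (insert (cr p d) η) q)) =
        symmDiff {p, p + d.vec} ((intr n).filter fun q => Odd (deg η q)) := by
      ext q
      rw [e1, mem_filter, odd_deg_symmDiff, odd_deg_singleton, mem_symmDiff, mem_filter,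
        mem_insert, mem_singleton]
      have : q = p ∨ q = p + d.vec → q ∈ intr n := by rintro (rfl | rfl) <;> assumption
      by_cases a1 : q = p ∨ q = p + d.vec
      · simp [a1, this a1]
      · simp only [a1, false_iff, not_not, false_and, not_false_eq_true, and_true, false_or]
    have e3 : ({p, p + d.vec} : Finset Pt).card = 2 :=
      card_pair fun k => d.vec_ne_zero (by simpa using k)
    have e4 : ∀ s t : Finset Pt, (symmDiff s t).card + 2 * (s ∩ t).card = s.card + t.card := by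
      intro s t
      rw [symmDiff_def, sup_eq_union, card_union_of_disjoint disjoint_sdiff_sdiff]
      have := card_sdiff_add_card_inter s t
      have := card_sdiff_add_card_inter t s
      rw [inter_comm] at this
      omega
    obtain ⟨j, hj⟩ := ih fun e k => h e (mem_insert_of_mem k)
    have := e4 {p, p + d.vec} ((intr n).filter fun q => Odd (deg η q))
    rw [e2, Nat.even_iff]
    omega

theorem not_src_single {n : ℕ} {η : Finset Edge} {v : Pt} (hv : v ∈ intr n)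
    (h : ∀ e ∈ η, ∃ p d, cr p d = e ∧ p ∈ intr n ∧ p + d.vec ∈ intr n) : ¬ Src n η {v} := by
  intro k
  have := even_card_odd_deg h
  have e : ((intr n).filter fun q => Odd (deg η q)) = {v} := by
    ext q
    rw [mem_filter, mem_singleton]
    exact ⟨fun m => (k q m.1).1 m.2, fun m => m ▸ ⟨hv, (k v hv).2 rfl⟩⟩
  simp [e] at this

theorem Zf_eq_filter {F : Finset Edge} {U T : Finset Pt} (A : Finset Pt → Prop) [DecidablePred A] :
    Zf F U T A = ∑ M ∈ U.powerset.filter A, xc ^ (cut (M ∪ T) ∩ F).card := by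
  rw [Zf, sum_filter]; exact sum_congr rfl fun M _ => by congr

theorem Zs_eq_filter {n : ℕ} {A : Set Pt} {E : Finset Edge} :
    Zs n A E = ∑ η ∈ E.powerset.filter (fun η => Src n η A), xc ^ η.card := by
  rw [Zs, sum_filter]

/-- Conditioning on the configuration outside `U0`. -/
theorem Zf_fibre {F : Finset Edge} {U U0 T M0 : Finset Pt} (hU : U0 ⊆ U) (hM : M0 ⊆ U \ U0)
    (A : Finset Pt → Prop) : Zf F U T (fun M => M \ U0 = M0 ∧ A M) =
      xc ^ (cut (M0 ∪ T) ∩ (F \ einc U0)).card *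
        Zf (F ∩ einc U0) U0 (M0 ∪ T) fun M => A (M ∪ M0) := by
  have hd : ∀ w ∈ M0, w ∉ U0 := fun w k => (mem_sdiff.1 (hM k)).2
  rw [Zf_eq_filter, Zf_eq_filter, mul_sum]
  refine (sum_bij (fun M _ => M ∪ M0) ?_ ?_ ?_ ?_).symm
  · intro M k
    obtain ⟨k1, k2⟩ := mem_filter.1 k
    have k3 := mem_powerset.1 k1
    refine mem_filter.2 ⟨mem_powerset.2 (union_subset (k3.trans hU) (hM.trans sdiff_subset)),
      ?_, k2⟩
    ext w; have := hd w; have := @k3 w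
    simp only [mem_sdiff, mem_union]; tauto
  · intro M k M' k' e
    have k3 := mem_powerset.1 (mem_filter.1 k).1
    have k4 := mem_powerset.1 (mem_filter.1 k').1
    ext w
    have := Finset.ext_iff.1 e w; have := hd w; have := @k3 w; have := @k4 w
    simp only [mem_union] at *; tauto
  · intro M k
    obtain ⟨-, rfl, k2⟩ := mem_filter.1 k
    have e : M ∩ U0 ∪ M \ U0 = M := by rw [union_comm, sdiff_union_inter]
    exact ⟨M ∩ U0, mem_filter.2 ⟨mem_powerset.2 inter_subset_right, by rwa [e]⟩, e⟩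
  · intro M k
    have k3 := mem_powerset.1 (mem_filter.1 k).1
    rw [← pow_add, ← union_assoc, ← card_union_of_disjoint (disjoint_left.2 fun e a b =>
      (mem_sdiff.1 (mem_inter.1 a).2).2 (mem_inter.1 (mem_inter.1 b).2).2)]
    congr 2
    ext e
    have := @k3 (ea e); have := @k3 (eb e)
    simp only [mem_union, mem_inter, mem_sdiff, mem_cut, mem_einc]
    by_cases h1 : ea e ∈ U0 <;> by_cases h2 : eb e ∈ U0 <;> simp_all

theorem Zf_eq_sum_fibre {F : Finset Edge} {U T : Finset Pt} {ι : Type*} (s : Finset ι)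
    (φ : Finset Pt → ι) (h : ∀ M ⊆ U, φ M ∈ s) (A : Finset Pt → Prop) :
    Zf F U T A = ∑ i ∈ s, Zf F U T fun M => φ M = i ∧ A M := by
  simp only [Zf]
  rw [sum_comm]
  refine sum_congr rfl fun M hM => ?_
  rw [sum_eq_single (φ M) (fun i _ k => by rw [if_neg fun m => k m.1.symm])
    fun k => absurd (h M (mem_powerset.1 hM)) k]
  simp

end Pool.Agent.P.MP_347bd1_pr
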