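import Pool.Agent.P.MP_347bd1_pr.Stmts2

/-!
The Green function near the forbidden steps, and the weight of the walks that come close to a
forbidden step far from their start.
-/

namespace Pool.Agent.P.MP_347bd1_pr

open Classical Finset
open scoped ENNReal NNReal

theorem thin_sum_le {f : Dir → ℝ} {a b : ℝ} (h : ∀ d, f d ≤ a) {e : Dir} (he : f e ≤ b) :
    ∑ d, f d ≤ 3 * a + b := by
  have := h .N; have := h .E; have := h .S; have := h .W
  rw [sum_dir]
  cases e <;> linarith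

theorem thin_end {N : Net} {V : Finset Pt} (hV : ∀ v ∈ V, Near1 N v) (x : Pt) :
    ms (fun W => ∃ v ∈ V, Al N Set.univ x W v) ≤ 27 := by
  have h1 : ms (fun W => ∃ v ∈ V, Al N Set.univ x W v) ≤
      Kn N Set.univ (fun z => if z ∈ V then 1 else 0) x := by
    refine ENNReal.tsum_le_tsum fun W => ?_
    by_cases k : ∃ v ∈ V, Al N Set.univ x W v
    · rw [if_pos k]
      obtain ⟨v, k1, k2⟩ := k
      simp [k2.endp_eq, k1, k2]
    · rw [if_neg k]; exact zero_le
  let u : Pt → ℝ := fun z => if ∃ d, ¬ N.mv z d then 23 else 27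
  have u1 : ∀ z, u z ≤ 27 := fun z => by simp only [u]; split_ifs <;> norm_num
  have u0 : ∀ z, 0 ≤ u z := fun z => by simp only [u]; split_ifs <;> norm_num
  have u2 : ∀ z (d : Dir), (if N.mv z d then u (z + d.vec) / 4 else u z / 16) ≤ 27 / 4 :=
    fun z d => by
      have := u1 z; have := u1 (z + d.vec)
      split_ifs <;> linarith
  refine h1.trans ((Kn_le_ofReal (u := u) (w := fun z => if z ∈ V then 1 else 0) u0
    (fun z => by split_ifs <;> norm_num) (fun z => by split_ifs <;> simp) (fun z => ?_) x).trans ?_)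
  · rw [if_pos (Set.mem_univ z), Net.Pr]
    by_cases k : ∃ d, ¬ N.mv z d
    · have e : u z = 23 := if_pos k
      obtain ⟨d, hd⟩ := k
      have := thin_sum_le (u2 z) (e := d) (b := 23 / 16) (by rw [if_neg hd, e])
      split_ifs <;> linarith
    · have e : u z = 27 := if_neg k
      by_cases m : z ∈ V
      · obtain ⟨q, d, hd, rfl | ⟨d', rfl⟩⟩ := hV z m
        · exact absurd ⟨d, hd⟩ k
        · have e' : u (z + d'.vec) = 23 := if_pos ⟨d, hd⟩
          have := thin_sum_le (u2 z) (e := d') (b := 23 / 4)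
            (by rw [if_pos (by_contra fun m => k ⟨d', m⟩), e'])
          rw [if_pos m]; linarith
      · have := thin_sum_le (u2 z) (u2 z .N)
        rw [if_neg m]; linarith
  · exact (ENNReal.ofReal_le_ofReal (u1 x)).trans (by simp)

theorem thin_rev {N : Net} {V : Finset Pt} {y : Pt} {A : Pt → List Dir → Prop}
    {C : List Dir → Prop} (hA : ∀ v W, A v W → Al N Set.univ v W y)
    (hC : ∀ v ∈ V, ∀ W, A v W → C (rev W)) : ∑ v ∈ V, ms (A v) ≤ ms C := by
  rw [← ms_rev C]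
  simp only [ms]
  rw [← Summable.tsum_finsetSum fun _ _ => ENNReal.summable]
  refine ENNReal.tsum_le_tsum fun W => ?_
  by_cases k : ∃ v ∈ V, A v W
  · obtain ⟨v, k1, k2⟩ := k
    rw [sum_eq_single v (fun v' _ m => if_neg fun m' => m
      ((hA _ _ m').rev.endp_eq.symm.trans (hA _ _ k2).rev.endp_eq)) fun m => absurd k1 m,
      if_pos k2, if_pos (hC v k1 W k2)]
  · rw [sum_eq_zero fun v hv => if_neg fun m => k ⟨v, hv, m⟩]
    exact zero_le

theorem t_green : T_GREEN := fun _ _ y hV =>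
  (thin_rev (fun _ _ h => h) fun v hv _ h => ⟨v, hv, h.rev⟩).trans (thin_end hV y)

theorem thin_exit (N : Net) (R : Set Pt) (p : Pt) :
    Kn N R (fun z => if z ∈ R then 0 else 1) p ≤ 1 := by
  refine (Kn_le_ofReal (u := fun _ => 1) (w := fun z => if z ∈ R then 0 else 1)
    (fun _ => zero_le_one) (fun z => by split_ifs <;> norm_num)
    (fun z => by split_ifs <;> simp) (fun z => ?_) p).trans (by simp)
  have h : ∀ d : Dir, (if N.mv z d then (1 : ℝ) / 4 else 1 / 16) ≤ 1 / 4 := fun d => by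
    split_ifs <;> norm_num
  have := thin_sum_le h (h .N)
  rw [Net.Pr]
  split_ifs <;> linarith

theorem thin_mul {N : Net} {R : Set Pt} {g : Pt → ℝ≥0∞} {a : ℝ≥0∞} (h : ∀ z, z ∉ R → g z ≤ a)
    (p : Pt) : Kn N R (fun z => if z ∈ R then 0 else g z) p ≤
      a * Kn N R (fun z => if z ∈ R then 0 else 1) p := by
  rw [← Kn_mul]
  refine Kn_mono subset_rfl (fun z => ?_) p
  split_ifs with k
  · simp
  · simpa using h z k

theorem thin_harm (N : Net) (R : Set Pt) : ∃ u : Pt → ℝ, (∀ z, u z ≤ 1) ∧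
    (∀ z ∈ R, u z ≤ N.Pr u z) ∧
    ∀ z, Kn N R (fun z => if z ∈ R then 0 else 1) z = ENNReal.ofReal (u z) := by
  have U1 := thin_exit N R
  have U2 := Kn_rec N R fun z => if z ∈ R then 0 else 1
  generalize Kn N R (fun z => if z ∈ R then 0 else 1) = U at U1 U2
  have U3 : ∀ z, U z ≠ ∞ := fun z => ne_top_of_le_ne_top (by simp) (U1 z)
  refine ⟨fun z => (U z).toReal, fun z => by simpa using ENNReal.toReal_mono (by simp) (U1 z),
    fun z hz => ?_, fun z => (ENNReal.ofReal_toReal (U3 z)).symm⟩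
  have := U2 z
  rw [if_pos hz, if_pos hz, zero_add] at this
  rw [← Net.toReal_Pe U3, ← this]

theorem t_thin (_h1 : T_GREEN) (h2 : T_BEUR) : T_THIN := by
  intro η hη
  obtain ⟨c, c0, c1, hc⟩ := h2
  obtain ⟨k, hk⟩ := exists_pow_lt_of_lt_one (x := (η : ℝ) / 27) (y := 1 - c) (by positivity)
    (by linarith)
  refine ⟨6 * 10 ^ k, fun N V y t r hF hV ht hr => ?_⟩
  obtain ⟨s, rfl⟩ := Int.eq_ofNat_of_zero_le (zero_le_one.trans ht)
  let Bl : Pt → Set Pt := fun p => {z | nrm (z - p) < 10 ^ k * ((s + 2 : ℕ) : ℤ)}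
  have key : ∀ p, NearK N s p → ms (fun W => ∃ W1 W2 x, W = W1 ++ W2 ∧ Al N (Bl p) p W1 x ∧
      x ∉ Bl p ∧ ∃ v ∈ V, Al N Set.univ x W2 v) ≤ η := by
    intro p hp
    refine (ms_exit_le fun _ h => h).trans ((thin_mul (fun z _ => thin_end hV z) p).trans ?_)
    obtain ⟨u, u1, u2, u3⟩ := thin_harm N (Bl p)
    have := hc N u p (s + 2) k 1 hF (by omega) zero_le_one (by simpa using hp) u2
      (fun z _ => u1 z) p (by rw [sub_self, nrm_zero]; positivity)
    rw [u3, ← ENNReal.ofReal_ofNat, ← ENNReal.ofReal_mul (by norm_num), ← ENNReal.ofReal_coe_nnreal]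
    exact ENNReal.ofReal_le_ofReal (by linarith)
  let T : Set Pt := {z | NearK N s z}
  refine (thin_rev (C := fun W => ∃ v ∈ V, Al N Set.univ y W v ∧
    ∃ z, Vis N y W z ∧ r ≤ nrm (z - v) ∧ z ∈ T) (fun _ _ h => h.1)
    fun v hv W ⟨h, z, k1, k2, k3⟩ => ⟨v, hv, h.rev, z, k1.rev h, k2, k3⟩).trans ?_
  refine (ms_exit_le (N := N) (R := Tᶜ) (p := y) (B := fun p W => ∃ W1 W2 x, W = W1 ++ W2 ∧
    Al N (Bl p) p W1 x ∧ x ∉ Bl p ∧ ∃ v ∈ V, Al N Set.univ x W2 v) ?_).trans
    ((thin_mul (fun z hz => key z (not_not.1 hz)) y).trans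
      (mul_le_of_le_one_right' (thin_exit _ _ _)))
  rintro W ⟨v, hv, h, z, k1, k2, k3⟩
  obtain ⟨W1, W2, p, rfl, m1, m2⟩ := k1.first k3
  have m3 := (m1.det h).2
  have m4 : Vis N p W2 z := by
    rcases (vis_append m1).1 k1 with m | m
    · rcases m1.vis_mem m with m | rfl
      · exact absurd k3 m
      · exact vis_start _ _ _
    · exact m
  obtain ⟨x, x1, x2⟩ : ∃ x, Vis N p W2 x ∧ x ∈ (Bl p)ᶜ := by
    by_contra m
    have a1 : z ∈ Bl p := by_contra fun a => m ⟨z, m4, a⟩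
    have a2 : v ∈ Bl p := by_contra fun a => m ⟨v, m3.vis_end, a⟩
    have a3 := nrm_tri z p v
    rw [nrm_sub_comm p v] at a3
    simp only [Bl, Set.mem_ofPred_eq] at a1 a2
    push_cast at a1 a2 hr
    have a4 : (0 : ℤ) < 10 ^ k := by positivity
    nlinarith
  obtain ⟨W3, W4, q, rfl, n1, n2⟩ := x1.first x2
  rw [compl_compl] at n1
  exact ⟨W1, _, p, rfl, m1, not_not.2 m2, W3, W4, q, rfl, n1, n2, v, hv, (n1.det m3).2⟩

end Pool.Agent.P.MP_347bd1_pr
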